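import Pool.Agent.MP_249f74_an.H96A.Spec

/-!
Places of a function field in one variable: the degree of a function is the number of its poles.
-/

open Polynomial WithZero IsDedekindDomain IntermediateField

namespace Pool.Agent.MP_249f74_an.H96A

namespace Hk

/-- Normalized discrete valuations that are trivial on the constants. -/
@[ext] structure Plc (C K : Type) [Field C] [Field K] [Algebra C K] where
  /-- the valuation -/
  v : Valuation K ℤᵐ⁰
  surj : Function.Surjective v
  cst : ∀ c : C, c ≠ 0 → v (algebraMap C K c) = 1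

variable {C K : Type} [Field C] [Field K] [Algebra C K]

/-- The order at a place. -/
noncomputable def Plc.ord (p : Plc C K) (x : K) : ℤ := -log (p.v x)

lemma Plc.ord_mul (p : Plc C K) {x y : K} (hx : x ≠ 0) (hy : y ≠ 0) :
    p.ord (x * y) = p.ord x + p.ord y := by
  unfold Plc.ord
  rw [map_mul, log_mul (by simpa using hx) (by simpa using hy), neg_add]

lemma Plc.ord_add (p : Plc C K) {x y : K} (hx : x ≠ 0) (hy : y ≠ 0) (h : x + y ≠ 0) :
    min (p.ord x) (p.ord y) ≤ p.ord (x + y) := by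
  unfold Plc.ord
  have h0 : p.v (x + y) ≠ 0 := by simpa using h
  rcases le_max_iff.mp (p.v.map_add x y) with h1 | h1
  · exact min_le_of_left_le (neg_le_neg (log_le_log h0 (by simpa using hx) |>.mpr h1))
  · exact min_le_of_right_le (neg_le_neg (log_le_log h0 (by simpa using hy) |>.mpr h1))

lemma Plc.ord_cst (p : Plc C K) (c : C) : p.ord (algebraMap C K c) = 0 := by
  unfold Plc.ord
  by_cases h : c = 0
  · simp [h]
  · simp [p.cst c h]

lemma Plc.ord_inv (p : Plc C K) (x : K) : p.ord x⁻¹ = -p.ord x := by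
  unfold Plc.ord
  rw [map_inv₀, log_inv]

lemma Plc.ord_pos (p : Plc C K) {x : K} (hx : x ≠ 0) : 0 < p.ord x ↔ p.v x < 1 := by
  unfold Plc.ord
  have h0 : p.v x ≠ 0 := by simpa using hx
  rw [neg_pos, ← exp_log h0, log_exp, ← exp_zero, exp_lt_exp]

lemma Plc.aeval_le (p : Plc C K) {x : K} (hx : p.v x ≤ 1) (f : C[X]) : p.v (aeval x f) ≤ 1 := by
  rw [aeval_eq_sum_range]
  refine p.v.map_sum_le fun i _ => ?_
  rw [Algebra.smul_def, map_mul, map_pow]
  refine mul_le_one' ?_ (pow_le_one' hx _)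
  by_cases h : f.coeff i = 0
  · simp [h]
  · exact (p.cst _ h).le

lemma eq_of_unif {v w : Valuation K ℤᵐ⁰} (hv : Function.Surjective v) {π : K}
    (hπ : w π = exp (-1 : ℤ)) (hπ' : v π < 1) (h : ∀ x, w x ≤ 1 → v x ≤ 1) : v = w := by
  have hπ0 : π ≠ 0 := by
    rintro rfl
    exact exp_ne_zero (hπ.symm.trans w.map_zero)
  have h1 : ∀ x, w x = 1 → v x = 1 := fun x hx => by
    have hx0 : x ≠ 0 := by
      rintro rfl
      simp at hx
    refine le_antisymm (h x hx.le) ?_
    have := h x⁻¹ (by simp [hx])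
    rwa [map_inv₀, inv_le_one₀ (zero_lt_iff.mpr (by simpa using hx0))] at this
  have hv0 : v π ≠ 0 := by simpa using hπ0
  have h2 : ∀ x, x ≠ 0 → v x = exp (-log (w x) * log (v π)) := fun x hx => by
    have hw : w x ≠ 0 := by simpa using hx
    have := h1 (x * π ^ log (w x)) (by
      rw [map_mul, map_zpow₀, hπ, ← exp_zsmul]
      conv_lhs => lhs; rw [← exp_log hw]
      rw [← exp_add]
      simp)
    rw [map_mul, map_zpow₀, ← exp_log hv0, ← exp_zsmul, mul_eq_one_iff_eq_inv₀ (by simp),
      ← exp_neg] at this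
    rw [this]
    simp
  obtain ⟨y, hy⟩ := hv (exp (1 : ℤ))
  have hy0 : y ≠ 0 := by
    rintro rfl
    exact exp_ne_zero (hy.symm.trans v.map_zero)
  have h3 : log (v π) = -1 := by
    have h4 : log (v π) < 0 := by
      rwa [← exp_log hv0, ← exp_zero, exp_lt_exp] at hπ'
    rw [h2 y hy0, exp_inj] at hy
    rcases Int.eq_one_or_neg_one_of_mul_eq_one' hy with h5 | h5
    · omega
    · exact h5.2
  ext x
  by_cases hx : x = 0
  · simp [hx]
  · rw [h2 x hx, h3]
    simp [exp_log (show w x ≠ 0 by simpa using hx)]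

theorem core [IsAlgClosed C] [CharZero C] [Algebra (RatFunc C) K]
    [IsScalarTower C (RatFunc C) K] [FiniteDimensional (RatFunc C) K] (t : K)
    (ht : t = algebraMap (RatFunc C) K RatFunc.X) :
    {p : Plc C K | 0 < p.ord t}.Finite ∧
      ∑ᶠ p : Plc C K, max (p.ord t) 0 = Module.finrank (RatFunc C) K := by
  classical
  have hpoly : ∀ p : C[X],
      algebraMap (RatFunc C) K (algebraMap C[X] (RatFunc C) p) = aeval t p := fun p => by
    have h : (IsScalarTower.toAlgHom C (RatFunc C) K).comp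
        (IsScalarTower.toAlgHom C C[X] (RatFunc C)) = aeval t := by
      apply Polynomial.algHom_ext
      simp [ht]
    exact DFunLike.congr_fun h p
  have ht0 : t ≠ 0 := by simp [ht, RatFunc.X_ne_zero]
  let _ : Algebra C[X] K := (aeval t : C[X] →ₐ[C] K).toRingHom.toAlgebra
  have : IsScalarTower C[X] (RatFunc C) K :=
    IsScalarTower.of_algebraMap_eq fun p => (hpoly p).symm
  have : CharZero (RatFunc C) := algebraRat.charZero _
  let R := FunctionField.ringOfIntegers C K
  have hinj := FunctionField.ringOfIntegers.algebraMap_injective C K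
  have hint : Algebra.IsIntegral C[X] R := IsIntegralClosure.isIntegral_algebra C[X] K
  have : Module.Finite C[X] R := inferInstance
  have : Module.IsTorsionFree C[X] R := Module.isTorsionFree_iff_algebraMap_injective.mpr hinj
  let q : Ideal C[X] := Ideal.span {X}
  have hqm : q.IsMaximal := PrincipalIdealRing.isMaximal_of_irreducible irreducible_X
  have hq0 : q ≠ ⊥ := by simp [q]
  have hco : ∀ p : C[X], algebraMap R K (algebraMap C[X] R p) = aeval t p := fun p => rfl
  let x : R := algebraMap C[X] R X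
  have hx : algebraMap R K x = t := by rw [hco, aeval_X]
  have hx0 : x ≠ 0 := fun h => ht0 (by rw [← hx, h, map_zero])
  have hmap : q.map (algebraMap C[X] R) = Ideal.span {x} := by
    rw [Ideal.map_span, Set.image_singleton]
  let plc : HeightOneSpectrum R → Plc C K := fun P =>
    ⟨P.valuation K, P.valuation_surjective K, fun c hc0 => by
      have h1 : algebraMap C K c = algebraMap R K (algebraMap C[X] R (Polynomial.C c)) := by
        rw [hco, aeval_C]
      rw [h1]
      refine (P.valuation_eq_one_iff_notMem).mpr fun hm => P.isPrime.ne_top ?_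
      exact Ideal.eq_top_of_isUnit_mem _ hm ((isUnit_C.mpr (Ne.isUnit hc0)).map _)⟩
  have hplc : Function.Injective plc := fun P Q h => by
    apply HeightOneSpectrum.eq_of_valuation_isEquiv_valuation (K := K)
    have : P.valuation K = Q.valuation K := congrArg Plc.v h
    rw [this]
  let T := IsDedekindDomain.primesOverFinset q R
  have hT : ∀ Q, Q ∈ T ↔ Q.IsPrime ∧ Q.LiesOver q := fun Q => by
    rw [← Finset.mem_coe, IsDedekindDomain.coe_primesOverFinset hq0]; rfl
  have hmem : ∀ Q ∈ T, x ∈ Q := fun Q hQ => by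
    have := ((hT Q).mp hQ).2
    rw [← Ideal.mem_comap, ← Ideal.under_def, ← Q.over_def q]
    exact Ideal.mem_span_singleton_self _
  let g : T → HeightOneSpectrum R := fun Q => ⟨Q.1, ((hT Q).mp Q.2).1, fun h => by
    have := hmem Q.1 Q.2
    rw [h] at this
    exact hx0 this⟩
  have hg : Function.Injective g := fun P Q h => Subtype.ext (congrArg HeightOneSpectrum.asIdeal h)
  have hsub : {p : Plc C K | 0 < p.ord t} ⊆ ↑(Finset.univ.image (plc ∘ g)) := by
    intro p hp
    have hp1 : p.v t < 1 := (p.ord_pos ht0).mp hp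
    have hle : ∀ r : R, p.v (algebraMap R K r) ≤ 1 := fun r => by
      have hr : IsIntegral C[X] (algebraMap R K r) := r.2
      let φ : C[X] →+* p.v.integer :=
        (algebraMap C[X] K).codRestrict p.v.integer (fun f => p.aeval_le hp1.le f)
      have h2 : IsIntegral p.v.integer (algebraMap R K r) := by
        obtain ⟨f, hf, hf2⟩ := hr
        refine ⟨f.map φ, hf.map φ, ?_⟩
        rw [eval₂_map]
        exact hf2
      exact (Valuation.integer.integers p.v).mem_of_integral h2
    let Q : Ideal R :=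
      { carrier := {r | p.v (algebraMap R K r) < 1}
        add_mem' := fun {a b} ha hb => by
          simp only [Set.mem_ofPred_eq, map_add] at *
          exact p.v.map_add_lt ha hb
        zero_mem' := by simp
        smul_mem' := fun c a ha => by
          simp only [Set.mem_ofPred_eq, smul_eq_mul, map_mul] at *
          exact (mul_le_of_le_one_left' (hle c)).trans_lt ha }
    have hQ : ∀ r, r ∈ Q ↔ p.v (algebraMap R K r) < 1 := fun _ => Iff.rfl
    have hQp : Q.IsPrime := by
      refine ⟨fun h => ?_, fun {a b} hab => ?_⟩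
      · have : (1 : R) ∈ Q := h ▸ Submodule.mem_top
        simp [hQ] at this
      · by_contra hn
        rw [not_or, hQ, hQ] at hn
        rw [hQ, map_mul, map_mul, le_antisymm (hle a) (not_lt.mp hn.1),
          le_antisymm (hle b) (not_lt.mp hn.2)] at hab
        simp at hab
    have hxQ : x ∈ Q := by rw [hQ, hx]; exact hp1
    have hQT : Q ∈ T := (hT Q).mpr ⟨hQp, ⟨hqm.eq_of_le (Ideal.comap_ne_top _ hQp.ne_top) (by
      rw [Ideal.span_le, Set.singleton_subset_iff]; exact hxQ)⟩⟩
    refine Finset.mem_coe.mpr (Finset.mem_image.mpr ⟨⟨Q, hQT⟩, Finset.mem_univ _, ?_⟩)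
    obtain ⟨π, hπ⟩ := (g ⟨Q, hQT⟩).valuation_exists_uniformizer' K
    refine Plc.ext (eq_of_unif p.surj hπ ?_ fun y hy => ?_).symm
    · refine (hQ π).mp (((g ⟨Q, hQT⟩).valuation_lt_one_iff_mem (K := K) π).mp ?_)
      rw [hπ, ← exp_zero, exp_lt_exp]
      norm_num
    · obtain ⟨n, d, hnd⟩ := (g ⟨Q, hQT⟩).exists_primeCompl_mul_eq_of_integer y hy
      have hd : p.v (algebraMap R K d) = 1 := le_antisymm (hle d) (not_lt.mp d.2)
      have := hle n
      rwa [← hnd, map_mul, hd, mul_one] at this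
  refine ⟨(Finset.finite_toSet _).subset hsub, ?_⟩
  rw [finsum_eq_sum_of_support_subset (s := Finset.univ.image (plc ∘ g)) _ (fun p hp => hsub (by
    by_contra h
    exact hp (max_eq_right (not_lt.mp h)))), Finset.sum_image (hplc.comp hg).injOn,
    ← Ideal.sum_ramification_inertia R (RatFunc C) K hq0, ← Finset.sum_coe_sort T]
  push_cast
  refine Finset.sum_congr rfl fun Q _ => ?_
  obtain ⟨hQp, hQl⟩ := (hT Q).mp Q.2
  have he : (plc (g Q)).ord t = Ideal.ramificationIdx' q Q.1 := by
    change -log ((g Q).valuation K t) = _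
    rw [← hx, HeightOneSpectrum.valuation_of_algebraMap,
      HeightOneSpectrum.intValuation_eq_exp_neg_multiplicity _ hx0, log_exp, neg_neg,
      Ideal.IsDedekindDomain.ramificationIdx'_eq_multiplicity (by rw [hmap]; simpa using hx0) hQp,
      hmap]
  have hf : Ideal.inertiaDeg' q Q.1 = 1 := by
    rw [Ideal.inertiaDeg'_algebraMap]
    let _ := Ideal.Quotient.field q
    rw [finrank_eq_one_iff_of_nonzero' (1 : R ⧸ Q.1) one_ne_zero]
    intro w
    obtain ⟨r, rfl⟩ := Ideal.Quotient.mk_surjective w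
    obtain ⟨f, hf, hf2⟩ := hint.isIntegral r
    let ψ : C →+* R ⧸ Q.1 := (Ideal.Quotient.mk Q.1).comp ((algebraMap C[X] R).comp Polynomial.C)
    have hψ : (Ideal.Quotient.mk Q.1).comp (algebraMap C[X] R) = ψ.comp (evalRingHom 0) := by
      apply Polynomial.ringHom_ext
      · intro a; simp [ψ]
      · rw [RingHom.comp_apply, RingHom.comp_apply, coe_evalRingHom, eval_X, map_zero]
        exact Ideal.Quotient.eq_zero_iff_mem.mpr (hmem Q.1 Q.2)
    have h3 : (f.map (evalRingHom 0)).eval₂ ψ (Ideal.Quotient.mk Q.1 r) = 0 := by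
      rw [eval₂_map, ← hψ, ← hom_eval₂, hf2, map_zero]
    let _ : Algebra C (R ⧸ Q.1) := ψ.toAlgebra
    have h4 : IsIntegral C (Ideal.Quotient.mk Q.1 r) := ⟨_, hf.map _, h3⟩
    have h5 := minpoly.mem_range_of_degree_eq_one C _
      (IsAlgClosed.degree_eq_one_of_irreducible C (minpoly.irreducible h4))
    obtain ⟨c, hc⟩ := h5
    refine ⟨Ideal.Quotient.mk q (Polynomial.C c), ?_⟩
    rw [← hc, Algebra.smul_def, mul_one]
    rfl
  rw [Function.comp_apply, he, hf]
  simp

theorem core2 [IsAlgClosed C] [CharZero C] {E : Type} [Field E] [Algebra C E] [Algebra E K]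
    [IsScalarTower C E K] [FiniteDimensional E K] (e : RatFunc C ≃ₐ[C] E) (t : K)
    (ht : t = algebraMap E K (e RatFunc.X)) :
    {p : Plc C K | 0 < p.ord t}.Finite ∧
      ∑ᶠ p : Plc C K, max (p.ord t) 0 = Module.finrank E K := by
  let _ : Algebra (RatFunc C) K := ((algebraMap E K).comp e.toRingEquiv.toRingHom).toAlgebra
  have : IsScalarTower C (RatFunc C) K := IsScalarTower.of_algebraMap_eq fun c => by
    change _ = algebraMap E K (e (algebraMap C _ c))
    rw [e.commutes, ← IsScalarTower.algebraMap_apply]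
  have : FiniteDimensional (RatFunc C) K :=
    Module.Finite.of_equiv_equiv e.toRingEquiv.symm (RingEquiv.refl K) (by
      ext a
      change algebraMap E K (e (e.symm a)) = _
      simp)
  rw [← Algebra.finrank_eq_of_equiv_equiv e.toRingEquiv (RingEquiv.refl K) (by ext a; rfl)]
  exact core t ht

variable {Ω : Type} [Field Ω] [Algebra C Ω]

lemma tr_of_not_cst [IsAlgClosed C] {a : Ω} (h : ¬Cst C a) : a ∉ H88.cl C (∅ : Set Ω) := fun h1 => by
  obtain ⟨k, hk⟩ := IntermediateField.mem_bot.mp (H17.mem_bot_of_cl h1)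
  exact h ⟨k, hk.symm⟩

lemma tr_of_not_cst' [IsAlgClosed C] {a : Ω} (h : ¬Cst C a) : Transcendental C a := fun h1 => by
  obtain ⟨k, hk⟩ := minpoly.mem_range_of_degree_eq_one C _
    (IsAlgClosed.degree_eq_one_of_irreducible C (minpoly.irreducible h1.isIntegral))
  exact h ⟨k, hk.symm⟩

theorem core3 [IsAlgClosed C] [CharZero C] {S : Set Ω} {t b : Ω} (hS : S.Finite)
    (hcl : ∀ a ∈ S, a ∈ H88.cl C {t}) (hb : b ∈ adjoin C S) (hc : ¬Cst C b) :
    {p : Plc C (adjoin C S) | 0 < p.ord ⟨b, hb⟩}.Finite ∧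
      ∑ᶠ p : Plc C (adjoin C S), max (p.ord ⟨b, hb⟩) 0 = ht (adjoin C S) b := by
  have h : C⟮b⟯ ≤ adjoin C S := adjoin_simple_le_iff.mpr hb
  have h1 : b ∈ H88.cl C {t} := (adjoin_le_iff.mpr (show S ⊆ H88.cl C {t} from hcl)) hb
  have h2 : t ∈ H88.cl C {b} := by
    have h3 := tr_of_not_cst hc
    rw [← SetLike.mem_coe, H88.coe_cl] at h1 h3 ⊢
    have := Matroid.closure_exchange (M := AlgebraicIndependent.matroid C Ω) (X := ∅) (e := b)
      (f := t) ⟨by simpa using h1, h3⟩
    simpa using this.1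
  have h4 : ∀ a ∈ S, IsIntegral C⟮b⟯ a := fun a ha => by
    have : a ∈ H88.cl C {b} := H17.cl_le (by simpa using h2) (hcl a ha)
    exact (isAlgebraic_adjoin_iff.mpr (H88.mem_cl.mp this)).isIntegral
  have := hS.to_subtype
  have h5 : FiniteDimensional C⟮b⟯ (extendScalars h) := by
    rw [extendScalars_adjoin]
    exact finiteDimensional_adjoin h4
  let _ : Algebra C⟮b⟯ (adjoin C S) := (inclusion h).toRingHom.toAlgebra
  have : IsScalarTower C C⟮b⟯ (adjoin C S) := IsScalarTower.of_algebraMap_eq fun _ => rfl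
  have : FiniteDimensional C⟮b⟯ (adjoin C S) := h5
  have h6 := core2 (K := adjoin C S) (RatFunc.algEquivOfTranscendental b (tr_of_not_cst' hc))
    ⟨b, hb⟩ (Subtype.ext (RatFunc.algEquivOfTranscendental_X b (tr_of_not_cst' hc)).symm)
  rw [ht, relfinrank_eq_finrank_of_le h]
  exact h6

end Hk

open Hk in
theorem hk {C Ω : Type} [Field C] [IsAlgClosed C] [Field Ω] [CharZero Ω] [Algebra C Ω] :
    HK C Ω := by
  classical
  intro S t hS ht hc hcl
  have : CharZero C := (algebraMap C Ω).charZero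
  let o : Plc C (adjoin C S) → Ω → ℤ := fun p x => if h : x ∈ adjoin C S then p.ord ⟨x, h⟩ else 0
  have ho : ∀ p x (h : x ∈ adjoin C S), o p x = p.ord ⟨x, h⟩ := fun p x h => dif_pos h
  have hk : ∀ p (k : C), o p (algebraMap C Ω k) = 0 := fun p k => by
    rw [ho p _ (IntermediateField.algebraMap_mem _ k)]
    exact p.ord_cst k
  refine ⟨_, o, fun p a ha b hb ha0 hb0 => ?_, hk, fun a ha => ?_⟩
  · have ha1 : (⟨a, ha⟩ : adjoin C S) ≠ 0 := fun h => ha0 (congrArg Subtype.val h)
    have hb1 : (⟨b, hb⟩ : adjoin C S) ≠ 0 := fun h => hb0 (congrArg Subtype.val h)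
    rw [ho p a ha, ho p b hb, ho p _ (mul_mem ha hb), ho p _ (add_mem ha hb)]
    exact ⟨p.ord_mul ha1 hb1, fun h => p.ord_add ha1 hb1 fun h' => h (congrArg Subtype.val h')⟩
  by_cases hca : Cst C a
  · obtain ⟨k, rfl⟩ := hca
    refine ⟨by simp [hk], ?_⟩
    have h1 : ¬Module.Finite C (adjoin C S) := fun h =>
      tr_of_not_cst' hc ((Algebra.IsAlgebraic.isAlgebraic (R := C)
        (⟨t, ht⟩ : adjoin C S)).algHom (adjoin C S).val)
    have h2 : C⟮algebraMap C Ω k⟯ = ⊥ := adjoin_simple_eq_bot_iff.mpr (IntermediateField.algebraMap_mem _ k)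
    simp [hk, H96A.ht, h2, Module.finrank_of_not_finite h1]
  · have hci : ¬Cst C a⁻¹ := fun ⟨k, h⟩ => hca ⟨k⁻¹, by rw [map_inv₀, ← h, inv_inv]⟩
    obtain ⟨h1, -⟩ := core3 hS hcl ha hca
    obtain ⟨h2, h3⟩ := core3 hS hcl (inv_mem ha) hci
    have h4 : ∀ p : Plc C (adjoin C S), p.ord ⟨a⁻¹, inv_mem ha⟩ = -o p a := fun p => by
      rw [ho p a ha, ← p.ord_inv]; rfl
    refine ⟨(h1.union h2).subset fun p hp => ?_, ?_⟩
    · simp only [Set.mem_union, Set.mem_ofPred_eq, h4, ← ho p a ha] at hp ⊢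
      omega
    · simp only [h4] at h3
      have h5 : C⟮a⁻¹⟯ = C⟮a⟯ := le_antisymm
        (adjoin_simple_le_iff.mpr (inv_mem (mem_adjoin_simple_self C a)))
        (adjoin_simple_le_iff.mpr (by simpa using inv_mem (mem_adjoin_simple_self C a⁻¹)))
      rw [h3, H96A.ht, H96A.ht, h5]

end Pool.Agent.MP_249f74_an.H96A
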