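import Pool.Agent.MP_249f74_an.H96A.Spec

/-!
Convexity of heights along an orbit.
-/

namespace Pool.Agent.MP_249f74_an.H96A

namespace Ht

variable {C K : Type} [Field C] [Field K] [Algebra C K]

variable (C) in
/-- An order function. -/
structure Val (o : K → ℤ) : Prop where
  mul : ∀ a b, a ≠ 0 → b ≠ 0 → o (a * b) = o a + o b
  add : ∀ a b, a ≠ 0 → b ≠ 0 → a + b ≠ 0 → min (o a) (o b) ≤ o (a + b)
  cst : ∀ k : C, o (algebraMap C K k) = 0

namespace Val

variable {o : K → ℤ} (V : Val C o)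
include V

lemma zero : o 0 = 0 := by simpa using V.cst 0

lemma one : o 1 = 0 := by simpa using V.cst 1

lemma two : o 2 = 0 := by simpa [map_ofNat] using V.cst 2

lemma neg (a : K) : o (-a) = o a := by
  by_cases h : a = 0
  · rw [h, neg_zero]
  · have h1 : o (-1) = 0 := by simpa using V.cst (-1)
    rw [← neg_one_mul, V.mul _ _ (by simp) h, h1, zero_add]

lemma inv (a : K) : o a⁻¹ = -o a := by
  by_cases h : a = 0
  · rw [h, inv_zero, V.zero, neg_zero]
  · have := V.mul a a⁻¹ h (inv_ne_zero h)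
    rw [mul_inv_cancel₀ h, V.one] at this
    omega

lemma sq {a : K} (h : a ≠ 0) : o (a ^ 2) = 2 * o a := by
  rw [pow_two, V.mul _ _ h h]; ring

lemma cmul {k : C} (hk : k ≠ 0) (a : K) : o (a * algebraMap C K k) = o a := by
  by_cases h : a = 0
  · rw [h, zero_mul]
  · rw [V.mul _ _ h (by simpa using hk), V.cst, add_zero]

lemma add_lt {a b : K} (ha : a ≠ 0) (h : b = 0 ∨ o a < o b) : a + b ≠ 0 ∧ o (a + b) = o a := by
  by_cases hb : b = 0
  · rw [hb, add_zero]; exact ⟨ha, rfl⟩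
  have h := h.resolve_left hb
  have h0 : a + b ≠ 0 := by
    intro h0
    have : b = -a := by linear_combination h0
    rw [this, V.neg] at h
    omega
  refine ⟨h0, ?_⟩
  have h1 := V.add a b ha hb h0
  have h2 := V.add (a + b) (-b) h0 (neg_ne_zero.2 hb) (by simpa using ha)
  rw [add_neg_cancel_right, V.neg] at h2
  omega

lemma sub_lt {a b : K} (ha : a ≠ 0) (h : o a < o b) : a - b ≠ 0 ∧ o (a - b) = o a := by
  rw [sub_eq_add_neg]
  exact V.add_lt ha (Or.inr (by rwa [V.neg]))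

lemma sub_gt {a b : K} (hb : b ≠ 0) (h : o b < o a) : a - b ≠ 0 ∧ o (a - b) = o b := by
  have := V.sub_lt hb h
  rw [← neg_sub, V.neg] at this
  exact ⟨fun h0 => this.1 (by rw [h0, neg_zero]), this.2⟩

end Val

/-- `x` has order at least `n`. -/
def Ge (o : K → ℤ) (n : ℤ) (x : K) : Prop := x = 0 ∨ n ≤ o x

namespace Val

variable {o : K → ℤ} (V : Val C o)
include V

lemma ge_add {n : ℤ} {a b : K} (ha : Ge o n a) (hb : Ge o n b) : Ge o n (a + b) := by
  by_cases a0 : a = 0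
  · rwa [a0, zero_add]
  by_cases b0 : b = 0
  · rwa [b0, add_zero]
  by_cases h : a + b = 0
  · exact Or.inl h
  have := V.add a b a0 b0 h
  have := ha.resolve_left a0
  have := hb.resolve_left b0
  exact Or.inr (by omega)

lemma ge_mul {n m : ℤ} {a b : K} (ha : Ge o n a) (hb : Ge o m b) : Ge o (n + m) (a * b) := by
  by_cases a0 : a = 0
  · exact Or.inl (by rw [a0, zero_mul])
  by_cases b0 : b = 0
  · exact Or.inl (by rw [b0, mul_zero])
  have := V.mul a b a0 b0
  have := ha.resolve_left a0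
  have := hb.resolve_left b0
  exact Or.inr (by omega)

lemma ge_cst (k : C) : Ge o 0 (algebraMap C K k) := Or.inr (V.cst k).ge

lemma pole_add (a c : K) : -o (a + c) ≤ max (max (-o a) (-o c)) 0 := by
  have := V.ge_add (n := min (o a) (o c)) (a := a) (b := c) (Or.inr (min_le_left _ _))
    (Or.inr (min_le_right _ _))
  rcases this with h | h
  · rw [h, V.zero]; omega
  · omega

lemma pole_mul (a c : K) : -o (a * c) ≤ max (-o a) 0 + max (-o c) 0 := by
  have := V.ge_mul (n := o a) (m := o c) (a := a) (b := c) (Or.inr le_rfl) (Or.inr le_rfl)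
  rcases this with h | h
  · rw [h, V.zero]; omega
  · omega

/-- The local inequality for central conics. -/
lemma central [CharZero K] {w0 w1 w3 : C} {Λ u α β γ : K} (h0 : w0 ≠ 0) (h3 : w3 ≠ 0)
    (hd : w1 ^ 2 ≠ 4 * w0 * w3) (hΛ : Λ ≠ 0) (hu : u ≠ 0)
    (hα : α = 1 - Λ * (algebraMap C K w0 * u ^ 2)) (hβ : β = u * (2 + Λ * algebraMap C K w1))
    (hγ : γ = u ^ 2 - Λ * algebraMap C K w3) :
    ∃ e, (e = α ∨ e = β ∨ e = γ) ∧ e ≠ 0 ∧ 2 * max (-o u) 0 + max (-o Λ) 0 ≤ -o e := by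
  have k0 : algebraMap C K w0 ≠ 0 := by simpa using h0
  have k3 : algebraMap C K w3 ≠ 0 := by simpa using h3
  have u2 : u ^ 2 ≠ 0 := pow_ne_zero _ hu
  have n1 : Λ * (algebraMap C K w0 * u ^ 2) ≠ 0 := mul_ne_zero hΛ (mul_ne_zero k0 u2)
  have o1 : o (Λ * (algebraMap C K w0 * u ^ 2)) = o Λ + 2 * o u := by
    rw [V.mul _ _ hΛ (mul_ne_zero k0 u2), V.mul _ _ k0 u2, V.cst, V.sq hu, zero_add]
  have n3 : Λ * algebraMap C K w3 ≠ 0 := mul_ne_zero hΛ k3
  have o3 : o (Λ * algebraMap C K w3) = o Λ := V.cmul h3 _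
  have ou := V.sq hu
  have one := V.one
  by_cases c1 : o u < 0 ∧ o Λ ≤ 0
  · have := V.sub_gt (a := 1) n1 (by omega)
    rw [← hα] at this
    exact ⟨α, Or.inl rfl, this.1, by omega⟩
  by_cases c2 : o u < 0
  · have := V.sub_lt (b := Λ * algebraMap C K w3) u2 (by omega)
    rw [← hγ] at this
    exact ⟨γ, Or.inr (Or.inr rfl), this.1, by omega⟩
  by_cases c3 : o Λ < 0
  · have := V.sub_gt (a := u ^ 2) n3 (by omega)
    rw [← hγ] at this
    exact ⟨γ, Or.inr (Or.inr rfl), this.1, by omega⟩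
  by_cases c4 : 0 < o Λ + 2 * o u
  · have := V.sub_lt (b := Λ * (algebraMap C K w0 * u ^ 2)) one_ne_zero (by omega)
    rw [← hα] at this
    exact ⟨α, Or.inl rfl, this.1, by omega⟩
  have l0 : o Λ = 0 := by omega
  have u0 : o u = 0 := by omega
  by_contra hn
  have key : ∀ e, (e = α ∨ e = β ∨ e = γ) → Ge o 1 e := fun e he => by
    by_contra h1
    rw [Ge, not_or] at h1
    exact hn ⟨e, he, h1.1, by omega⟩
  have ga := key α (Or.inl rfl)
  have gc := key γ (Or.inr (Or.inr rfl))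
  have gb : Ge o 1 (2 + Λ * algebraMap C K w1) := by
    have := V.ge_mul (n := 0) (a := u⁻¹) (Or.inr (by rw [V.inv]; omega)) (key β (Or.inr (Or.inl rfl)))
    rwa [hβ, ← mul_assoc, inv_mul_cancel₀ hu, one_mul, zero_add] at this
  have gΛ : Ge o 0 Λ := Or.inr l0.ge
  have g4 : Ge o 0 (4 : K) := by simpa [map_ofNat] using V.ge_cst 4
  have g2 : Ge o 0 (-2 : K) := by simpa [map_ofNat] using V.ge_cst (-2)
  have e1 := V.ge_mul (V.ge_add g2 (V.ge_mul gΛ (V.ge_cst w1))) gb
  have e2 := V.ge_mul g4 ga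
  have e3 := V.ge_mul (V.ge_mul g4 (V.ge_mul gΛ (V.ge_cst w0))) gc
  have e4 := V.ge_add (V.ge_add e1 e2) e3
  have e : (-2 + Λ * algebraMap C K w1) * (2 + Λ * algebraMap C K w1) + 4 * α +
      4 * (Λ * algebraMap C K w0) * γ = Λ ^ 2 * algebraMap C K (w1 ^ 2 - 4 * w0 * w3) := by
    rw [hα, hγ]
    simp only [map_sub, map_mul, map_pow, map_ofNat]
    ring
  have hd' : w1 ^ 2 - 4 * w0 * w3 ≠ 0 := sub_ne_zero.2 hd
  rw [e] at e4
  rcases e4 with h | h
  · exact mul_ne_zero (pow_ne_zero _ hΛ) ((map_ne_zero _).2 hd') h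
  · rw [V.cmul hd', V.sq hΛ] at h
    omega

/-- The local inequality for circles and parabolas. -/
lemma lin [CharZero K] {μ : C} {l a b c : K} (hl : l ≠ 0) (hb : b ≠ 0)
    (hs : a + c = 2 * (1 + l) * b) (hp : a * c = b ^ 2 - l * algebraMap C K μ) :
    2 * max (-o b) 0 ≤ max (-o a) 0 + max (-o c) 0 := by
  have p1 := V.pole_add a c
  have p2 := V.pole_mul a c
  have b2 : b ^ 2 ≠ 0 := pow_ne_zero _ hb
  have ob := V.sq hb
  by_cases c1 : 0 ≤ o b
  · omega
  by_cases m0 : μ = 0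
  · rw [hp, m0, map_zero, mul_zero, sub_zero] at p2
    omega
  have n1 : l * algebraMap C K μ ≠ 0 := mul_ne_zero hl (by simpa using m0)
  have o1 := V.cmul m0 l
  rcases lt_trichotomy (o l) (2 * o b) with h | h | h
  · have := (V.sub_gt (a := b ^ 2) n1 (by omega)).2
    rw [← hp] at this
    omega
  · have h1 := V.add_lt (b := 1) hl (Or.inr (by rw [V.one]; omega))
    rw [add_comm] at h1
    rw [hs, V.mul _ _ (mul_ne_zero two_ne_zero h1.1) hb, V.mul _ _ two_ne_zero h1.1, V.two,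
      h1.2] at p1
    omega
  · have := (V.sub_lt (b := l * algebraMap C K μ) b2 (by omega)).2
    rw [← hp] at this
    omega

/-- The strict local inequality at a pole of the multiplier. -/
lemma lin_strict [CharZero K] {μ : C} {l a b c : K} (hl : o l < 0) (ha : a ≠ 0) (hb : b ≠ 0)
    (hc : c ≠ 0) (hs : a + c = 2 * (1 + l) * b) (hp : a * c = b ^ 2 - l * algebraMap C K μ)
    (ba : |o a| ≤ 1) (bb : |o b| ≤ 1) (bc : |o c| ≤ 1) :
    2 * max (-o b) 0 < max (-o a) 0 + max (-o c) 0 := by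
  have l0 : l ≠ 0 := fun h => by rw [h, V.zero] at hl; omega
  rw [abs_le] at ba bb bc
  have h1 := V.add_lt (b := 1) l0 (Or.inr (by rw [V.one]; omega))
  rw [add_comm] at h1
  have s0 : a + c ≠ 0 := by
    rw [hs]; exact mul_ne_zero (mul_ne_zero two_ne_zero h1.1) hb
  have p1 := V.add a c ha hc s0
  rw [hs, V.mul _ _ (mul_ne_zero two_ne_zero h1.1) hb, V.mul _ _ two_ne_zero h1.1, V.two,
    h1.2] at p1
  have p2 := V.mul a c ha hc
  have ob := V.sq hb
  by_cases m0 : μ = 0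
  · rw [hp, m0, map_zero, mul_zero, sub_zero] at p2
    omega
  · have n1 : l * algebraMap C K μ ≠ 0 := mul_ne_zero l0 (by simpa using m0)
    have o1 := V.cmul m0 l
    by_cases c1 : 0 ≤ o b
    · have := (V.sub_gt (a := b ^ 2) n1 (by omega)).2
      rw [← hp] at this
      omega
    · omega

end Val

variable (C) in
/-- A system of places with its height function. -/
structure Pls {ι : Type} (o : ι → K → ℤ) (h : K → ℕ) : Prop where
  val : ∀ i, Val C (o i)
  fin : ∀ a, {i | o i a ≠ 0}.Finite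
  hh : ∀ a, (h a : ℤ) = ∑ᶠ i, max (-o i a) 0
  inv : ∀ a, h a⁻¹ = h a
  pos : ∀ a, ¬Cst C a → 0 < h a

lemma ne_zero_of {a : K} (h : ¬Cst C a) : a ≠ 0 := fun h0 => h ⟨0, by rw [h0, map_zero]⟩

namespace Pls

variable {ι : Type} {o : ι → K → ℤ} {h : K → ℕ} (P : Pls C o h)
include P

lemma sum_h {s : Finset ι} {a : K} (hs : ∀ i, o i a ≠ 0 → i ∈ s) :
    (h a : ℤ) = ∑ i ∈ s, max (-o i a) 0 := by
  rw [P.hh]
  refine finsum_eq_sum_of_support_subset _ fun i hi => hs i fun h0 => hi ?_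
  simp [h0]

lemma sum_o {s : Finset ι} {a : K} (hs : ∀ i, o i a ≠ 0 → i ∈ s) : ∑ i ∈ s, o i a = 0 := by
  have h1 := P.sum_h hs
  have h2 := P.sum_h (s := s) (a := a⁻¹) fun i hi => hs i (by
    rw [(P.val i).inv] at hi; omega)
  rw [P.inv, h1] at h2
  have h3 : ∑ i ∈ s, o i a = ∑ i ∈ s, (max (-o i a⁻¹) 0 - max (-o i a) 0) :=
    Finset.sum_congr rfl fun i _ => by rw [(P.val i).inv]; omega
  rw [h3, Finset.sum_sub_distrib, ← h2, sub_self]

lemma exists_fin (l : List K) : ∃ s : Finset ι, ∀ a ∈ l, ∀ i, o i a ≠ 0 → i ∈ s := by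
  classical
  induction l with
  | nil => exact ⟨∅, by simp⟩
  | cons a l ih =>
    obtain ⟨s, hs⟩ := ih
    refine ⟨(P.fin a).toFinset ∪ s, fun b hb i hi => ?_⟩
    rcases List.mem_cons.1 hb with rfl | hb
    · exact Finset.mem_union_left _ (by simpa using hi)
    · exact Finset.mem_union_right _ (hs b hb i hi)

lemma neg_le (i : ι) (a : K) : -o i a ≤ h a := by
  obtain ⟨s, hs⟩ := P.exists_fin [a]
  have hs' := hs a (by simp)
  by_cases h0 : o i a = 0
  · omega
  rw [P.sum_h hs']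
  exact (le_max_left _ _).trans (Finset.single_le_sum (f := fun i => max (-o i a) 0)
    (fun _ _ => le_max_right _ _) (hs' i h0))

lemma abs_le (i : ι) (a : K) : |o i a| ≤ h a := by
  have h1 := P.neg_le i a
  have h2 := P.neg_le i a⁻¹
  rw [(P.val i).inv, P.inv] at h2
  rw [_root_.abs_le]
  omega

lemma cst {a : K} (ha : Cst C a) : h a = 0 := by
  obtain ⟨k, rfl⟩ := ha
  have := P.sum_h (s := ∅) (a := algebraMap C K k) fun i hi => absurd ((P.val i).cst k) hi
  simpa using this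

lemma exists_pole {a : K} (ha : ¬Cst C a) : ∃ i, o i a < 0 := by
  by_contra hn
  push Not at hn
  obtain ⟨s, hs⟩ := P.exists_fin [a]
  have h1 := P.sum_h (hs a (by simp))
  rw [Finset.sum_eq_zero fun i _ => by have := hn i; omega] at h1
  have := P.pos a ha
  omega

lemma central [CharZero K] {w0 w1 w3 : C} {Λ a u : K} (h0 : w0 ≠ 0) (h3 : w3 ≠ 0)
    (hd : w1 ^ 2 ≠ 4 * w0 * w3) (hΛ : ¬Cst C Λ) (ha : a ≠ 0) (hu : u ≠ 0) (hle : h a ≤ h u)
    {α β γ : K}
    (hα : α = 1 - Λ * (algebraMap C K w0 * u ^ 2)) (hβ : β = u * (2 + Λ * algebraMap C K w1))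
    (hγ : γ = u ^ 2 - Λ * algebraMap C K w3) (hr : α * a ^ 2 - β * a + γ = 0) :
    α ≠ 0 ∧ ∀ c, α * (a + c) = β → 2 * h u + 1 ≤ h a + h c := by
  have Λ0 := ne_zero_of hΛ
  have hp := P.pos Λ hΛ
  have β0 : β ≠ 0 := by
    rw [hβ]
    refine mul_ne_zero hu fun h2 => ?_
    by_cases h1 : w1 = 0
    · rw [h1, map_zero, mul_zero, add_zero] at h2
      exact two_ne_zero h2
    · have k1 : algebraMap C K w1 ≠ 0 := by simpa using h1
      refine hΛ ⟨-2 / w1, ?_⟩
      rw [map_div₀, map_neg, map_ofNat, eq_div_iff k1]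
      linear_combination h2
  have loc := fun i => (P.val i).central h0 h3 hd Λ0 hu hα hβ hγ
  have α0 : α ≠ 0 := by
    intro α0
    obtain ⟨s, hs⟩ := P.exists_fin [a, u, Λ, β]
    have e1 := P.sum_h (hs a (by simp))
    have e2 := P.sum_h (hs u (by simp))
    have e3 := P.sum_h (hs Λ (by simp))
    have e4 := P.sum_o (hs β (by simp))
    have hγ' : γ = β * a := by rw [α0] at hr; linear_combination hr
    have : ∑ i ∈ s, (2 * max (-o i u) 0 + max (-o i Λ) 0 + o i β) ≤ ∑ i ∈ s, max (-o i a) 0 := by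
      refine Finset.sum_le_sum fun i _ => ?_
      obtain ⟨e, he, e0, hi⟩ := loc i
      rcases he with rfl | rfl | rfl
      · exact absurd α0 e0
      · omega
      · rw [hγ', (P.val i).mul _ _ β0 ha] at hi
        omega
    rw [Finset.sum_add_distrib, Finset.sum_add_distrib, ← Finset.mul_sum, ← e1, ← e2, ← e3,
      e4] at this
    omega
  refine ⟨α0, fun c hc => ?_⟩
  have hγ' : γ = α * (a * c) := by linear_combination hr - a * hc
  obtain ⟨s, hs⟩ := P.exists_fin [a, u, Λ, α, c]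
  have e1 := P.sum_h (hs a (by simp))
  have e2 := P.sum_h (hs u (by simp))
  have e3 := P.sum_h (hs Λ (by simp))
  have e4 := P.sum_o (hs α (by simp))
  have e5 := P.sum_h (hs c (by simp))
  have : ∑ i ∈ s, (2 * max (-o i u) 0 + max (-o i Λ) 0 + o i α) ≤
      ∑ i ∈ s, (max (-o i a) 0 + max (-o i c) 0) := by
    refine Finset.sum_le_sum fun i _ => ?_
    obtain ⟨e, he, e0, hi⟩ := loc i
    rcases he with rfl | rfl | rfl
    · omega
    · have := (P.val i).pole_add a c
      rw [← hc] at hi e0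
      rw [(P.val i).mul _ _ α0 (right_ne_zero_of_mul e0)] at hi
      omega
    · have := (P.val i).pole_mul a c
      rw [hγ'] at hi e0
      rw [(P.val i).mul _ _ α0 (right_ne_zero_of_mul e0)] at hi
      omega
  rw [Finset.sum_add_distrib, Finset.sum_add_distrib, Finset.sum_add_distrib, ← Finset.mul_sum,
    ← e1, ← e2, ← e3, e4, ← e5] at this
  omega

lemma lin [CharZero K] {μ : C} {l a b c : K} (hl : ¬Cst C l) (ha : ¬Cst C a) (hb : ¬Cst C b)
    (hle : h a ≤ h b) (hs : a + c = 2 * (1 + l) * b)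
    (hp : a * c = b ^ 2 - l * algebraMap C K μ) : 2 * h b ≤ h a + h c ∧ 2 ≤ h c := by
  have l0 := ne_zero_of hl
  have a0 := ne_zero_of ha
  have b0 := ne_zero_of hb
  obtain ⟨s, hS⟩ := P.exists_fin [a, b, c, l]
  have e1 := P.sum_h (hS a (by simp))
  have e2 := P.sum_h (hS b (by simp))
  have e3 := P.sum_h (hS c (by simp))
  have loc := fun i => (P.val i).lin l0 b0 hs hp
  have h1 : ∑ i ∈ s, 2 * max (-o i b) 0 ≤ ∑ i ∈ s, (max (-o i a) 0 + max (-o i c) 0) :=
    Finset.sum_le_sum fun i _ => loc i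
  rw [Finset.sum_add_distrib, ← Finset.mul_sum, ← e1, ← e2, ← e3] at h1
  refine ⟨by omega, ?_⟩
  by_contra h2
  have pa := P.pos a ha
  have c0 : c ≠ 0 := by
    intro c0
    have := P.cst (a := c) ⟨0, by rw [c0, map_zero]⟩
    omega
  obtain ⟨j, hj⟩ := P.exists_pole hl
  have h3 : ∑ i ∈ s, 2 * max (-o i b) 0 < ∑ i ∈ s, (max (-o i a) 0 + max (-o i c) 0) := by
    refine Finset.sum_lt_sum (fun i _ => loc i) ⟨j, hS l (by simp) j hj.ne, ?_⟩
    refine (P.val j).lin_strict hj a0 b0 c0 hs hp ?_ ?_ ?_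
    · have := P.abs_le j a; omega
    · have := P.abs_le j b; omega
    · have := P.abs_le j c; omega
  rw [Finset.sum_add_distrib, ← Finset.mul_sum, ← e1, ← e2, ← e3] at h3
  omega

lemma unb [CharZero K] {l : K} (hl : ¬Cst C l) {u : ℕ → K} (hu : ∀ j, u j ≠ 0)
    (hs : ∀ j, u j + u (j + 2) = 2 * (1 + l) * u (j + 1)) (N : ℕ) : ∃ j, N < h (u j) := by
  obtain ⟨i, hi⟩ := P.exists_pole hl
  have V := P.val i
  have h1 := V.add_lt (b := 1) (ne_zero_of hl) (Or.inr (by rw [V.one]; omega))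
  rw [add_comm] at h1
  have n1 : ∀ j, 2 * (1 + l) * u j ≠ 0 := fun j =>
    mul_ne_zero (mul_ne_zero two_ne_zero h1.1) (hu j)
  have o1 : ∀ j, o i (2 * (1 + l) * u j) = o i l + o i (u j) := fun j => by
    rw [V.mul _ _ (mul_ne_zero two_ne_zero h1.1) (hu j), V.mul _ _ two_ne_zero h1.1, V.two, h1.2,
      zero_add]
  have st : ∀ j, o i l + o i (u (j + 1)) < o i (u j) →
      o i (u (j + 2)) = o i l + o i (u (j + 1)) := fun j hj => by
    have e : u (j + 2) = 2 * (1 + l) * u (j + 1) - u j := by linear_combination hs j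
    rw [e, (V.sub_lt (n1 _) (by rw [o1]; exact hj)).2, o1]
  by_cases hc : ∃ j, o i l + o i (u (j + 1)) < o i (u j)
  · obtain ⟨j, hj⟩ := hc
    have key : ∀ k : ℕ, o i l + o i (u (j + k + 1)) < o i (u (j + k)) ∧
        o i (u (j + k + 1)) ≤ o i (u (j + 1)) - k := by
      intro k
      induction k with
      | zero => exact ⟨hj, by simp⟩
      | succ k ih =>
        have := st _ ih.1
        rw [show j + (k + 1) + 1 = j + k + 2 by ring, show j + (k + 1) = j + k + 1 by ring]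
        push_cast
        omega
    refine ⟨j + (N + 1 + (o i (u (j + 1))).toNat) + 1, ?_⟩
    have h2 := (key (N + 1 + (o i (u (j + 1))).toNat)).2
    have h3 := P.neg_le i (u (j + (N + 1 + (o i (u (j + 1))).toNat) + 1))
    omega
  · push Not at hc
    have key : ∀ k : ℕ, o i (u 0) + k ≤ o i (u k) := by
      intro k
      induction k with
      | zero => simp
      | succ k ih =>
        have := hc k
        push_cast
        omega
    refine ⟨N + 1 + (-o i (u 0)).toNat, ?_⟩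
    have h2 := key (N + 1 + (-o i (u 0)).toNat)
    have h3 := (le_abs_self _).trans (P.abs_le i (u (N + 1 + (-o i (u 0)).toNat)))
    omega

end Pls

/-- The other root. -/
noncomputable def nxt (w : Fin 4 → C) (Λ a b : K) : K :=
  b * (2 + Λ * (algebraMap C K (w 1) + 2 * algebraMap C K (w 2))) /
    (1 - Λ * (algebraMap C K (w 0) * b ^ 2 + algebraMap C K (w 2))) - a

/-- The orbit. -/
noncomputable def orb (w : Fin 4 → C) (Λ a b : K) : ℕ → K
  | 0 => a
  | 1 => b
  | j + 2 => nxt w Λ (orb w Λ a b j) (orb w Λ a b (j + 1))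

lemma qr_nxt {w : Fin 4 → C} {Λ a b : K} (hr : (a - b) ^ 2 = Λ * Wf w a b)
    (h0 : 1 - Λ * (algebraMap C K (w 0) * b ^ 2 + algebraMap C K (w 2)) ≠ 0) :
    Qr w Λ a b (nxt w Λ a b) :=
  ⟨hr, h0, by rw [nxt, add_sub_cancel, mul_div_cancel₀ _ h0]⟩

lemma qr_prod {w : Fin 4 → C} {Λ a b c : K} (q : Qr w Λ a b c) :
    (1 - Λ * (algebraMap C K (w 0) * b ^ 2 + algebraMap C K (w 2))) * (a * c) =
      b ^ 2 - Λ * (algebraMap C K (w 2) * b ^ 2 + algebraMap C K (w 3)) := by
  have r := q.r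
  rw [Wf] at r
  linear_combination a * q.s - r

lemma qr_rel {w : Fin 4 → C} {Λ a b c : K} (q : Qr w Λ a b c) :
    (b - c) ^ 2 = Λ * Wf w b c := by
  rw [Wf]
  linear_combination c * q.s - qr_prod q

/-- Circles and parabolas give a linear recurrence. -/
lemma lin_of [CharZero K] {w : Fin 4 → C} {Λ : K} (hΛ : ¬Cst C Λ)
    (hw : (w 0 = 0 ∧ w 3 = 0 ∧ w 2 = 0 ∧ w 1 ≠ 0) ∨ (w 0 = 0 ∧ w 1 = 0 ∧ w 2 ≠ 0 ∧ w 3 ≠ 0)) :
    (∀ b : K, 1 - Λ * (algebraMap C K (w 0) * b ^ 2 + algebraMap C K (w 2)) ≠ 0) ∧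
      ∃ (l : K) (μ : C), ¬Cst C l ∧ ∀ a b c, Qr w Λ a b c →
        a + c = 2 * (1 + l) * b ∧ a * c = b ^ 2 - l * algebraMap C K μ := by
  have : CharZero C := RingHom.charZero (algebraMap C K)
  rcases hw with ⟨h0, h3, h2, h1⟩ | ⟨h0, h1, h2, h3⟩
  · have k1 : algebraMap C K (w 1) ≠ 0 := (map_ne_zero _).2 h1
    refine ⟨fun b => by simp [h0, h2], Λ * algebraMap C K (w 1) / 2, 0, ?_, fun a b c q => ?_⟩
    · rintro ⟨k, hk⟩
      refine hΛ ⟨2 * k / w 1, ?_⟩
      rw [map_div₀, map_mul, map_ofNat, eq_div_iff k1]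
      linear_combination 2 * hk
    · have s := q.s
      have p := qr_prod q
      simp only [h0, h2, h3, map_zero] at s p ⊢
      exact ⟨by linear_combination s, by linear_combination p⟩
  · have k2 : algebraMap C K (w 2) ≠ 0 := (map_ne_zero _).2 h2
    have n : 1 - Λ * algebraMap C K (w 2) ≠ 0 := fun h => hΛ ⟨1 / w 2, by
      rw [map_div₀, map_one, eq_div_iff k2]
      linear_combination -h⟩
    refine ⟨fun b => by simpa [h0] using n,
      2 * Λ * algebraMap C K (w 2) / (1 - Λ * algebraMap C K (w 2)), w 3 / (2 * w 2), ?_,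
      fun a b c q => ?_⟩
    · rintro ⟨k, hk⟩
      rw [div_eq_iff n] at hk
      have k3 : algebraMap C K ((2 + k) * w 2) ≠ 0 := by
        rw [map_mul, map_add, map_ofNat]
        intro h
        have h4 : algebraMap C K k = 0 := by linear_combination Λ * h - hk
        rw [h4, add_zero] at h
        exact mul_ne_zero two_ne_zero k2 h
      refine hΛ ⟨k / ((2 + k) * w 2), ?_⟩
      rw [map_div₀, eq_div_iff k3, map_mul, map_add, map_ofNat]
      linear_combination hk
    · have s := q.s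
      have p := qr_prod q
      simp only [h0, h1, map_zero, zero_mul, zero_add] at s p
      constructor
      · apply mul_left_cancel₀ n
        rw [s]
        field_simp
        ring
      · apply mul_left_cancel₀ n
        rw [p, map_div₀, map_mul, map_ofNat]
        field_simp
        ring

lemma Pls.main [CharZero K] {ι : Type} {o : ι → K → ℤ} {h : K → ℕ} (P : Pls C o h)
    {w : Fin 4 → C} {Λ a b : K} (hw : Wok w) (hΛ : ¬Cst C Λ) (ha : ¬Cst C a) (hb : ¬Cst C b)
    (hle : h a ≤ h b) (hr : (a - b) ^ 2 = Λ * Wf w a b) :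
    ∃ u : ℕ → K, u 0 = a ∧ u 1 = b ∧ (∀ j, ¬Cst C (u j) ∧ Qr w Λ (u j) (u (j + 1)) (u (j + 2)) ∧
      h (u j) ≤ h (u (j + 1)) ∧ 2 ≤ h (u (j + 2))) ∧ ∀ N, ∃ j, N < h (u j) := by
  have ind : ∀ (n : ℕ), (∀ a b : K, ¬Cst C a → ¬Cst C b → h a ≤ h b →
      (a - b) ^ 2 = Λ * Wf w a b → Qr w Λ a b (nxt w Λ a b) ∧
        2 * h b + n ≤ h a + h (nxt w Λ a b) ∧ 2 ≤ h (nxt w Λ a b)) →
      ∀ j, ¬Cst C (orb w Λ a b j) ∧
        Qr w Λ (orb w Λ a b j) (orb w Λ a b (j + 1)) (orb w Λ a b (j + 2)) ∧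
        h (orb w Λ a b j) ≤ h (orb w Λ a b (j + 1)) ∧ 2 ≤ h (orb w Λ a b (j + 2)) ∧
        2 * h (orb w Λ a b (j + 1)) + n ≤ h (orb w Λ a b j) + h (orb w Λ a b (j + 2)) := by
    intro n st
    have key : ∀ j, ¬Cst C (orb w Λ a b j) ∧ ¬Cst C (orb w Λ a b (j + 1)) ∧
        h (orb w Λ a b j) ≤ h (orb w Λ a b (j + 1)) ∧
        (orb w Λ a b j - orb w Λ a b (j + 1)) ^ 2 =
          Λ * Wf w (orb w Λ a b j) (orb w Λ a b (j + 1)) := by
      intro j
      induction j with
      | zero => exact ⟨ha, hb, hle, hr⟩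
      | succ j ih =>
        obtain ⟨h1, h2, h3, h4⟩ := ih
        obtain ⟨q, h5, h6⟩ := st _ _ h1 h2 h3 h4
        have e : orb w Λ a b (j + 1 + 1) = nxt w Λ (orb w Λ a b j) (orb w Λ a b (j + 1)) := rfl
        rw [e]
        refine ⟨h2, fun hc => ?_, by omega, qr_rel q⟩
        have := P.cst hc
        omega
    intro j
    obtain ⟨h1, h2, h3, h4⟩ := key j
    obtain ⟨q, h5, h6⟩ := st _ _ h1 h2 h3 h4
    exact ⟨h1, q, h3, h6, h5⟩
  rcases hw with ⟨h0, h3, h2, hd⟩ | hw
  · have := ind 1 fun a b ha hb hle hr => by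
      have r := hr
      rw [Wf, h2, map_zero] at r
      obtain ⟨α0, hc⟩ := P.central h0 h3 hd hΛ (ne_zero_of ha) (ne_zero_of hb) hle rfl rfl rfl
        (by linear_combination r)
      have q := qr_nxt hr (by rw [h2, map_zero, add_zero]; exact α0)
      have s := q.s
      rw [h2, map_zero, add_zero, mul_zero, add_zero] at s
      have h5 := hc _ s
      have := P.pos a ha
      exact ⟨q, h5, by omega⟩
    refine ⟨orb w Λ a b, rfl, rfl, fun j => ⟨(this j).1, (this j).2.1, (this j).2.2.1,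
      (this j).2.2.2.1⟩, fun N => ?_⟩
    have key : ∀ j, h (orb w Λ a b j) + j ≤ h (orb w Λ a b (j + 1)) := by
      intro j
      induction j with
      | zero => exact (this 0).2.2.1
      | succ j ih =>
        have := (this j).2.2.2.2
        rw [show j + 1 + 1 = j + 2 from rfl]
        omega
    exact ⟨N + 1 + 1, by have := key (N + 1); omega⟩
  · obtain ⟨n0, l, μ, hl, hq⟩ := lin_of hΛ hw
    have := ind 0 fun a b ha hb hle hr => by
      have q := qr_nxt hr (n0 b)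
      exact ⟨q, P.lin hl ha hb hle (hq _ _ _ q).1 (hq _ _ _ q).2⟩
    exact ⟨orb w Λ a b, rfl, rfl, fun j => ⟨(this j).1, (this j).2.1, (this j).2.2.1,
      (this j).2.2.2.1⟩, P.unb hl (fun j => ne_zero_of (this j).1)
        fun j => (hq _ _ _ (this j).2.1).1⟩

variable {Ω : Type} [Field Ω] [Algebra C Ω]

lemma cst_coe {F : IntermediateField C Ω} {a : F} : Cst C (a : Ω) ↔ Cst C a :=
  ⟨fun ⟨k, hk⟩ => ⟨k, Subtype.ext hk⟩, fun ⟨k, hk⟩ => ⟨k, congrArg Subtype.val hk⟩⟩

lemma wf_coe {F : IntermediateField C Ω} (w : Fin 4 → C) (a b : F) :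
    ((Wf w a b : F) : Ω) = Wf w (a : Ω) b := by
  simp only [Wf]
  rfl

lemma qr_coe {F : IntermediateField C Ω} {w : Fin 4 → C} {Λ a b c : F} (q : Qr w Λ a b c) :
    Qr w (Λ : Ω) a b c :=
  ⟨by rw [← wf_coe]; exact congrArg Subtype.val q.r, fun h => q.a (Subtype.ext h),
    congrArg Subtype.val q.s⟩

lemma adjoin_inv (x : Ω) :
    IntermediateField.adjoin C {x⁻¹} = IntermediateField.adjoin C {x} := by
  have h : ∀ y : Ω, IntermediateField.adjoin C {y⁻¹} ≤ IntermediateField.adjoin C {y} := fun y =>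
    IntermediateField.adjoin_simple_le_iff.2
      (inv_mem (IntermediateField.mem_adjoin_simple_self C y))
  exact le_antisymm (h x) (by simpa using h x⁻¹)

lemma ht_pos [IsAlgClosed C] {S : Set Ω} {Λ u : Ω} (hS : S.Finite)
    (hc : ∀ s ∈ S, s ∈ H88.cl C {Λ}) (hu : u ∈ IntermediateField.adjoin C S) (h0 : ¬Cst C u) :
    0 < ht (IntermediateField.adjoin C S) u := by
  have h1 : u ∈ H88.cl C {Λ} := (IntermediateField.adjoin_le_iff.2 hc : _ ≤ H88.cl C {Λ}) hu
  have h2 : u ∉ H88.cl C (∅ : Set Ω) := fun h => by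
    obtain ⟨k, hk⟩ := IntermediateField.mem_bot.1 (H17.mem_bot_of_cl h)
    exact h0 ⟨k, hk.symm⟩
  have h3 : Λ ∈ H88.cl C {u} := by
    rw [← SetLike.mem_coe, H88.coe_cl] at h1 h2 ⊢
    rw [← insert_empty_eq] at h1 ⊢
    exact (Matroid.closure_exchange ⟨h1, h2⟩).1
  have h4 : IntermediateField.adjoin C {u} ≤ IntermediateField.adjoin C S :=
    IntermediateField.adjoin_simple_le_iff.2 hu
  rw [ht, IntermediateField.relfinrank_eq_finrank_of_le h4,
    IntermediateField.extendScalars_adjoin h4]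
  have := hS.to_subtype
  have : FiniteDimensional (IntermediateField.adjoin C {u})
      (IntermediateField.adjoin (IntermediateField.adjoin C {u}) S) :=
    IntermediateField.finiteDimensional_adjoin fun s hs =>
      (IntermediateField.isAlgebraic_adjoin_iff.2 (H88.mem_cl.1
        (H17.cl_le (Set.singleton_subset_iff.2 h3) (hc s hs)))).isIntegral
  exact Module.finrank_pos

end Ht

variable {C Ω : Type} [Field C] [IsAlgClosed C] [Field Ω] [CharZero Ω] [Algebra C Ω]

theorem ht' (hK : HK C Ω) : HT C Ω := by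
  intro w S Λ a b hw hS hc hΛ ha hb nΛ na nb hle hr
  obtain ⟨ι, o, h1, h2, h3⟩ := hK S Λ hS hΛ nΛ hc
  have P : Ht.Pls C (K := IntermediateField.adjoin C S) (fun i x => o i x)
      fun x => ht (IntermediateField.adjoin C S) (x : Ω) :=
    { val := fun i =>
        { mul := fun x y hx hy =>
            (h1 i x x.2 y y.2 (fun h => hx (Subtype.ext h)) fun h => hy (Subtype.ext h)).1
          add := fun x y hx hy hxy =>
            (h1 i x x.2 y y.2 (fun h => hx (Subtype.ext h)) fun h => hy (Subtype.ext h)).2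
              fun h => hxy (Subtype.ext h)
          cst := fun k => h2 i k }
      fin := fun x => (h3 x x.2).1
      hh := fun x => (h3 x x.2).2
      inv := fun x => by
        simp only [ht, IntermediateField.coe_inv, Ht.adjoin_inv]
      pos := fun x hx => Ht.ht_pos hS hc x.2 fun h => hx (Ht.cst_coe.1 h) }
  obtain ⟨u, u0, u1, hu, hN⟩ := P.main (Λ := ⟨Λ, hΛ⟩) (a := ⟨a, ha⟩) (b := ⟨b, hb⟩) hw
    (fun h => nΛ (Ht.cst_coe.2 h)) (fun h => na (Ht.cst_coe.2 h)) (fun h => nb (Ht.cst_coe.2 h))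
    hle (Subtype.ext (by rw [IntermediateField.coe_mul, Ht.wf_coe]; exact hr))
  exact ⟨fun j => u j, congrArg Subtype.val u0, congrArg Subtype.val u1, fun j =>
    ⟨fun h => (hu j).1 (Ht.cst_coe.1 h), Ht.qr_coe (hu j).2.1, (hu j).2.2⟩, hN⟩

end Pool.Agent.MP_249f74_an.H96A
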