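import Pool.Agent.MP_249f74_an.H96A.Curve

/-!
The orbit of a curve of lines under the reflection in a conic.
-/

open Polynomial IntermediateField

namespace Pool.Agent.MP_249f74_an.H96A

variable {C Ω : Type} [Field C] [Field Ω] [Algebra C Ω]

namespace Orb

lemma aev_eval (g : Fin 2 → Polynomial Ω) (F : P2 C) (t : Ω) :
    (MvPolynomial.aeval g F).eval t = ev ((g 0).eval t, (g 1).eval t) F := by
  induction F using MvPolynomial.induction_on with
  | C a => simp [ev, Polynomial.algebraMap_apply]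
  | add p q hp hq => simp [hp, hq]
  | mul_X p i hp =>
    rw [map_mul, map_mul, eval_mul, hp, MvPolynomial.aeval_X, ev, MvPolynomial.aeval_X]
    fin_cases i <;> rfl

lemma aev_coeff (E : IntermediateField C Ω) (g : Fin 2 → Polynomial Ω) (hg : ∀ i j, (g i).coeff j ∈ E)
    (F : P2 C) : ∀ j, (MvPolynomial.aeval g F).coeff j ∈ E := by
  induction F using MvPolynomial.induction_on with
  | C a =>
    intro j
    rw [MvPolynomial.aeval_C, Polynomial.algebraMap_apply, coeff_C]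
    split_ifs
    exacts [E.algebraMap_mem a, zero_mem E]
  | add p q hp hq => exact fun j => by rw [map_add, coeff_add]; exact add_mem (hp j) (hq j)
  | mul_X p i hp =>
    intro j
    rw [map_mul, MvPolynomial.aeval_X, coeff_mul]
    exact sum_mem fun x _ => mul_mem (hp _) (hg _ _)

lemma aev_deg (g : Fin 2 → Polynomial Ω) (hg : ∀ i, (g i).natDegree ≤ 1) (F : P2 C) :
    (MvPolynomial.aeval g F).natDegree ≤ F.totalDegree := by
  rw [← MvPolynomial.aeval_map_algebraMap Ω g F]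
  have h : (MvPolynomial.map (algebraMap C Ω) F).totalDegree ≤ F.totalDegree :=
    Finset.sup_mono (MvPolynomial.support_map_subset _ _)
  simpa using MvPolynomial.aeval_natDegree_le _ h g hg

lemma lin_coeff {E : IntermediateField C Ω} {a b : Ω} (ha : a ∈ E) (hb : b ∈ E) (j : ℕ) :
    (Polynomial.C a + Polynomial.C b * X).coeff j ∈ E := by
  rw [coeff_add, coeff_C_mul, coeff_C, coeff_X]
  split_ifs <;> simp [ha, hb, add_mem]

lemma X_coeff (E : IntermediateField C Ω) (j : ℕ) : (X : Polynomial Ω).coeff j ∈ E := by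
  simpa using lin_coeff (zero_mem E) (one_mem E) j

lemma ev_mem {E : IntermediateField C Ω} {l : Ω × Ω} (h1 : l.1 ∈ E) (h2 : l.2 ∈ E) (F : P2 C) :
    ev l F ∈ E := by
  induction F using MvPolynomial.induction_on with
  | C a => simp [ev]
  | add p q hp hq => rw [map_add]; exact add_mem hp hq
  | mul_X p i hp =>
    rw [map_mul, ev, MvPolynomial.aeval_X]
    refine mul_mem hp ?_
    fin_cases i
    exacts [h1, h2]

lemma sec_coeff {E : IntermediateField C Ω} {l : Ω × Ω} (h1 : l.1 ∈ E) (h2 : l.2 ∈ E) (f : P2 C) :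
    ∀ j, (sec f l).coeff j ∈ E :=
  aev_coeff E _ (fun i j => by
    fin_cases i
    exacts [lin_coeff h2 h1 j, X_coeff E j]) f

lemma sec_eval {v : Vx Ω} {l : Ω × Ω} (h : Inc v l) (f : P2 C) :
    (sec f l).eval v.y = ev v.p f := by
  rw [sec, aev_eval, Vx.p, h]
  simp

lemma sec_deg (f : P2 C) (l : Ω × Ω) : (sec f l).natDegree ≤ f.totalDegree :=
  aev_deg _ (fun i => by
    fin_cases i
    · change (Polynomial.C l.2 + Polynomial.C l.1 * X).natDegree ≤ 1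
      compute_degree
    · exact natDegree_X_le) f

lemma pen_coeff {E : IntermediateField C Ω} {v : Vx Ω} (h1 : v.x ∈ E) (h2 : v.y ∈ E) (F : P2 C) :
    ∀ j, (pen F v).coeff j ∈ E :=
  aev_coeff E _ (fun i j => by
    fin_cases i
    · exact X_coeff E j
    · simpa [sub_eq_add_neg] using lin_coeff h1 (neg_mem h2) j) F

lemma pen_eval (v : Vx Ω) (F : P2 C) (t : Ω) : (pen F v).eval t = ev (t, v.x - v.y * t) F := by
  rw [pen, aev_eval]
  simp

lemma pen_inc {v : Vx Ω} {l : Ω × Ω} (h : Inc v l) (F : P2 C) : (pen F v).eval l.1 = ev l F := by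
  rw [pen_eval, h, mul_comm, add_sub_cancel_right]

lemma pen_deg (F : P2 C) (v : Vx Ω) : (pen F v).natDegree ≤ F.totalDegree :=
  aev_deg _ (fun i => by
    fin_cases i
    · exact natDegree_X_le
    · change (Polynomial.C v.x - Polynomial.C v.y * X).natDegree ≤ 1
      compute_degree) F

lemma ev_uni (t : C) (F : P2 C) (c : Ω) :
    aeval c (MvPolynomial.aeval ![Polynomial.C t, X] F : C[X]) = ev (algebraMap C Ω t, c) F := by
  induction F using MvPolynomial.induction_on with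
  | C a => simp [ev]
  | add p q hp hq => simp [hp, hq]
  | mul_X p i hp =>
    rw [map_mul, map_mul, map_mul, hp, MvPolynomial.aeval_X, ev, MvPolynomial.aeval_X]
    fin_cases i <;> simp

lemma pen_ne [IsAlgClosed C] (h1 : B1 C Ω) {m : Mir C} {v : Vx Ω} (hv : m.On v) {F : P2 C}
    (hF : F ≠ 0) : pen F v ≠ 0 := fun h => hF <| MvPolynomial.funext fun z => by
  obtain ⟨Z, z1, z2, -⟩ := h1.der m v hv
  have hc : ¬Cst C (v.x - v.y * algebraMap C Ω (z 0)) := by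
    rintro ⟨k, hk⟩
    have := congrArg Z hk
    rw [map_sub, Derivation.leibniz, z1, z2, Derivation.map_algebraMap,
      Derivation.map_algebraMap] at this
    exact h1.nw m v hv ⟨z 0, by simpa [sub_eq_zero] using this⟩
  have h2 := pen_eval v F (algebraMap C Ω (z 0))
  rw [h, eval_zero, ← ev_uni] at h2
  have h3 := (transcendental_iff.1 (Curve.trans hc)) _ h2.symm
  have h4 := ev_uni (Ω := C) (z 0) F (z 1)
  rw [h3, map_zero] at h4
  have h5 : ![z 0, z 1] = z := by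
    funext i
    fin_cases i <;> rfl
  simpa [ev, h5] using h4.symm

lemma lift {E : IntermediateField C Ω} {g : Polynomial Ω} (h : ∀ j, g.coeff j ∈ E) :
    ∃ g' : E[X], g'.map (algebraMap E Ω) = g :=
  (mem_lifts g).1 ((lifts_iff_coeff_lifts g).2 fun j => ⟨⟨_, h j⟩, rfl⟩)

lemma ht_eq {u s : Ω} (hs : IsIntegral (adjoin C {u}) s) :
    ht (adjoin C {u, s}) u = (minpoly (adjoin C {u}) s).natDegree := by
  have h : adjoin C {u} ≤ adjoin C {u, s} := adjoin.mono _ _ _ (by simp)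
  have e : adjoin (adjoin C {u}) ({u, s} : Set Ω) = adjoin (adjoin C {u}) {s} := by
    refine le_antisymm (adjoin_le_iff.2 ?_) (adjoin.mono _ _ _ (by simp))
    rintro _ (rfl | rfl)
    · exact IntermediateField.algebraMap_mem _ (⟨_, mem_adjoin_simple_self C _⟩ : adjoin C {_})
    · exact mem_adjoin_simple_self _ _
  rw [ht, relfinrank_eq_finrank_of_le h, extendScalars_adjoin h, e, adjoin.finrank hs]

lemma root {E : IntermediateField C Ω} {g : Polynomial Ω} (g0 : g ≠ 0) (h : ∀ j, g.coeff j ∈ E) {s : Ω}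
    (hs : g.eval s = 0) : IsIntegral E s ∧ (minpoly E s).natDegree ≤ g.natDegree := by
  obtain ⟨g', rfl⟩ := lift h
  have h0 : g' ≠ 0 := fun e => g0 (by rw [e, Polynomial.map_zero])
  rw [eval_map, ← aeval_def] at hs
  rw [natDegree_map]
  exact ⟨(show IsAlgebraic E s from ⟨g', h0, hs⟩).isIntegral,
    natDegree_le_natDegree (minpoly.degree_le_of_ne_zero E s h0 hs)⟩

lemma other [CharZero Ω] [IsAlgClosed Ω] {u s : Ω} (hs : IsIntegral (adjoin C {u}) s)
    (h2 : 2 ≤ ht (adjoin C {u, s}) u) :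
    ∃ s', s' ≠ s ∧ ∀ F : P2 C, ev (u, s) F = 0 ↔ ev (u, s') F = 0 := by
  rw [ht_eq hs, ← card_rootSet_eq_natDegree (K := Ω) (minpoly.irreducible hs).separable
    (IsAlgClosed.splits _)] at h2
  have hm : s ∈ (minpoly (adjoin C {u}) s).rootSet Ω :=
    mem_rootSet.2 ⟨minpoly.ne_zero hs, minpoly.aeval _ _⟩
  obtain ⟨s', hne⟩ := Fintype.exists_ne_of_one_lt_card h2 ⟨s, hm⟩
  have e : minpoly (adjoin C {u}) s = minpoly (adjoin C {u}) (s' : Ω) :=
    minpoly.eq_of_irreducible_of_monic (minpoly.irreducible hs) (mem_rootSet.1 s'.2).2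
      (minpoly.monic hs)
  refine ⟨s', fun h => hne (Subtype.ext h), fun F => ?_⟩
  obtain ⟨q, hq⟩ := lift (aev_coeff (adjoin C {u}) ![Polynomial.C u, X] (fun i j => by
    fin_cases i
    · simpa using lin_coeff (mem_adjoin_simple_self C u) (zero_mem _) j
    · exact X_coeff _ j) F)
  have key : ∀ t, ev (u, t) F = aeval t q := fun t => by
    rw [aeval_def, ← eval_map, hq, aev_eval]
    simp
  rw [key, key, ← minpoly.dvd_iff, ← minpoly.dvd_iff, ← e]

lemma line_eq {q : Vx Ω} {l l' : Ω × Ω} (h : Inc q l) (h' : Inc q l') (e : l.1 = l'.1) :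
    l = l' := by
  refine Prod.ext e ?_
  unfold Inc at h h'
  rw [e] at h
  exact add_right_cancel (h.symm.trans h')

lemma slope {q q' : Vx Ω} {l : Ω × Ω} (h : Inc q l) (h' : Inc q' l) (hy : q.y ≠ q'.y) :
    l.1 = (q.x - q'.x) / (q.y - q'.y) := by
  unfold Inc at h h'
  rw [eq_div_iff (sub_ne_zero.2 hy), h, h']
  ring

lemma inc_map {q : Vx Ω} {l : Ω × Ω} (h : Inc q l) (σ : Ω ≃ₐ[C] Ω) : Inc (q.map σ) (mp σ l) := by
  unfold Inc at h ⊢
  simp only [Vx.map, mp]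
  rw [h, map_add, map_mul]

lemma second (h2 : B2 C Ω) {m : Mir C} (hm : m.Con) {E : IntermediateField C Ω} {q q' : Vx Ω}
    {l : Ω × Ω} (hq : m.On q) (hq' : m.On q') (h : Inc q l) (h' : Inc q' l) (hy : q.y ≠ q'.y)
    (hx1 : q.x ∈ E) (hy1 : q.y ∈ E) (hs : l.1 ∈ E) : q'.x ∈ E ∧ q'.y ∈ E := by
  have hc : l.2 ∈ E := by
    rw [show l.2 = q.x - l.1 * q.y by rw [h]; ring]
    exact sub_mem hx1 (mul_mem hs hy1)
  suffices q'.y ∈ E from ⟨by rw [h']; exact add_mem hc (mul_mem hs this), this⟩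
  have hd : (sec m.f l).natDegree < 3 := by
    have := sec_deg m.f l
    rw [show m.f.totalDegree = 2 from hm] at this
    omega
  have e1 := (sec_eval h m.f).trans hq.f0
  have e2 := (sec_eval h' m.f).trans hq'.f0
  rw [eval_eq_sum_range' hd] at e1 e2
  simp only [Finset.sum_range_succ, Finset.sum_range_zero] at e1 e2
  have co := sec_coeff hs hc m.f
  have e3 : (sec m.f l).coeff 1 + (sec m.f l).coeff 2 * (q.y + q'.y) = 0 :=
    mul_left_cancel₀ (sub_ne_zero.2 hy) (by linear_combination e1 - e2)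
  by_cases a : (sec m.f l).coeff 2 = 0
  · refine absurd (Polynomial.ext fun j => ?_) (h2.sec0 m l)
    have b : (sec m.f l).coeff 1 = 0 := by simpa [a] using e3
    have c : (sec m.f l).coeff 0 = 0 := by simpa [a, b] using e1
    rcases j with _ | _ | _ | j
    exacts [c, b, a, coeff_eq_zero_of_natDegree_lt (by omega)]
  · rw [show q'.y = -(sec m.f l).coeff 1 / (sec m.f l).coeff 2 - q.y by
      field_simp
      linear_combination e3]
    exact sub_mem (div_mem (neg_mem (co 1)) (co 2)) hy1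

lemma fld (h2 : B2 C Ω) {m : Mir C} (hm : m.Con) (τ : P2 C) {q q' : Vx Ω} {l : Ω × Ω}
    (hq : m.On q) (hq' : m.On q') (h : Inc q l) (h' : Inc q' l) (hy : q.y ≠ q'.y)
    (a : q.x ∈ adjoin C {ev q.p τ} ∧ q.y ∈ adjoin C {ev q.p τ})
    (b : q'.x ∈ adjoin C {ev q'.p τ} ∧ q'.y ∈ adjoin C {ev q'.p τ}) :
    adjoin C {ev q.p τ, ev q'.p τ} = adjoin C {ev q.p τ, l.1} := by
  refine le_antisymm (adjoin_le_iff.2 ?_) (adjoin_le_iff.2 ?_)
  · have m1 : adjoin C {ev q.p τ} ≤ adjoin C {ev q.p τ, l.1} := adjoin.mono _ _ _ (by simp)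
    have := second h2 hm hq hq' h h' hy (m1 a.1) (m1 a.2) (subset_adjoin _ _ (by simp))
    rintro _ (rfl | rfl)
    exacts [subset_adjoin _ _ (by simp), ev_mem this.1 this.2 τ]
  · have m1 : adjoin C {ev q.p τ} ≤ adjoin C {ev q.p τ, ev q'.p τ} := adjoin.mono _ _ _ (by simp)
    have m2 : adjoin C {ev q'.p τ} ≤ adjoin C {ev q.p τ, ev q'.p τ} := adjoin.mono _ _ _ (by simp)
    rintro _ (rfl | rfl)
    · exact subset_adjoin _ _ (by simp)
    · rw [slope h h' hy]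
      exact div_mem (sub_mem (m1 a.1) (m2 b.1)) (sub_mem (m1 a.2) (m2 b.2))

lemma two (h1 : B1 C Ω) (h2 : B2 C Ω) (hc : CO1 C Ω) {m : Mir C} (hm : m.Con) {q q' r : Vx Ω}
    {l : Ω × Ω} (hq : m.On q) (hq' : m.On q') (hr : m.On r) (h : Inc q l) (h' : Inc q' l)
    (h'' : Inc r l) (hy : q.y ≠ q'.y) (hn : r.y ≠ q.y) : r = q' := by
  classical
  have mem : ∀ z : Vx Ω, m.On z → Inc z l → z.y ∈ Pts m l := fun z hz hi =>
    (h2.mem m l z.y).2 (by rw [← hi]; exact hz.f0)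
  have e : r.y = q'.y := by
    by_contra hn'
    have := (Finset.card_le_card (s := {r.y, q.y, q'.y}) (by
      intro z hz
      simp only [Finset.mem_insert, Finset.mem_singleton] at hz
      rcases hz with rfl | rfl | rfl
      exacts [mem r hr h'', mem q hq h, mem q' hq' h'])).trans (hc.two m l hm)
    rw [Finset.card_eq_three.2 ⟨_, _, _, hn, hn', hy, rfl⟩] at this
    omega
  refine (h1.uniq m m r q' hr hq' (Prod.ext ?_ e)).2
  change r.x = q'.x
  rw [h'', h', e]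

lemma wf_mem {E : IntermediateField C Ω} (w : Fin 4 → C) {a b : Ω} (ha : a ∈ E) (hb : b ∈ E) :
    Wf w a b ∈ E :=
  add_mem (add_mem (add_mem (mul_mem (E.algebraMap_mem _) (pow_mem (mul_mem ha hb) 2))
    (mul_mem (E.algebraMap_mem _) (mul_mem ha hb)))
    (mul_mem (E.algebraMap_mem _) (pow_mem (add_mem ha hb) 2))) (E.algebraMap_mem _)

lemma lam_mem {E : IntermediateField C Ω} {w : Fin 4 → C} {Λ a b : Ω}
    (h : (a - b) ^ 2 = Λ * Wf w a b) (h0 : Wf w a b ≠ 0) (ha : a ∈ E) (hb : b ∈ E) : Λ ∈ E := by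
  rw [(eq_div_iff h0).2 h.symm]
  exact div_mem (pow_mem (sub_mem ha hb) 2) (wf_mem w ha hb)

lemma sum_mem' {E : IntermediateField C Ω} {w : Fin 4 → C} {Λ a b c : Ω} (h : Qr w Λ a b c)
    (hΛ : Λ ∈ E) (hb : b ∈ E) : a + c ∈ E := by
  rw [(eq_div_iff h.a).2 ((mul_comm _ _).trans h.s)]
  have h2 : (2 : Ω) ∈ E := ofNat_mem E 2
  exact div_mem (mul_mem hb (add_mem h2 (mul_mem hΛ (add_mem (E.algebraMap_mem _)
    (mul_mem h2 (E.algebraMap_mem _)))))) (sub_mem (one_mem E) (mul_mem hΛ (add_mem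
    (mul_mem (E.algebraMap_mem _) (pow_mem hb 2)) (E.algebraMap_mem _))))

lemma fld_succ {w : Fin 4 → C} {Λ a b c : Ω} (h : Qr w Λ a b c) (h0 : Wf w a b ≠ 0)
    (h' : (b - c) ^ 2 = Λ * Wf w b c) (h0' : Wf w b c ≠ 0) : adjoin C {b, c} = adjoin C {a, b} := by
  refine le_antisymm (adjoin_le_iff.2 ?_) (adjoin_le_iff.2 ?_)
  · have ha : a ∈ adjoin C {a, b} := subset_adjoin _ _ (by simp)
    have hb : b ∈ adjoin C {a, b} := subset_adjoin _ _ (by simp)
    rintro _ (rfl | rfl)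
    exacts [hb, by simpa using sub_mem (sum_mem' h (lam_mem h.r h0 ha hb) hb) ha]
  · have hb : b ∈ adjoin C {b, c} := subset_adjoin _ _ (by simp)
    have hc : c ∈ adjoin C {b, c} := subset_adjoin _ _ (by simp)
    rintro _ (rfl | rfl)
    exacts [by simpa using sub_mem (sum_mem' h (lam_mem h' h0' hb hc) hb) hc, hb]

lemma cl_one [IsAlgClosed C] {k : Ω × Ω} (hk : ¬Gen C k) {t : Ω} (ht : t ∈ H88.cl C {k.1, k.2})
    (hc : ¬Cst C t) : H88.cl C {k.1, k.2} ≤ H88.cl C {t} := by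
  obtain ⟨F, f1, f2⟩ : ∃ F : P2 C, ev k F = 0 ∧ F ≠ 0 := by
    by_contra hh
    exact hk fun F hF => by_contra fun h => hh ⟨F, hF, h⟩
  have h1 := H88.rk_le_of_root (σ := Fin 2) (e := 1) rfl f2 f1
  have h2 : Set.range ![k.1, k.2] = {k.1, k.2} := by
    simp [Set.pair_comm]
  have h3 : t ∉ H88.cl C (∅ : Set Ω) := fun h => by
    obtain ⟨a, ha⟩ := IntermediateField.mem_bot.1 (H17.mem_bot_of_cl h)
    exact hc ⟨a, ha.symm⟩
  have h4 := H88.rk_insert h3
  rw [H17.rk_empty, zero_add, insert_empty_eq] at h4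
  rw [h2] at h1
  exact H17.cl_le (H17.mem_cl_of_rk (H17.rk_finite (Set.toFinite _)) (by simpa using ht)
    (by rw [h4]; exact h1))

/-- The data of an orbit. -/
structure Dat (m : Mir C) (k : Ω × Ω) (p : ℕ → Vx Ω) (L : ℕ → Ω × Ω) (u : ℕ → Ω) (h : ℕ → ℕ) :
    Prop where
  l0 : L 0 = k
  on : ∀ j, m.On (p j)
  i0 : ∀ j, Inc (p j) (L j)
  ny : ∀ j, (p j).y ≠ (p (j + 1)).y
  st : ∀ j, St m (L j) (p (j + 1)) (L (j + 1))
  xy : ∀ j, (p j).x ∈ adjoin C {u j} ∧ (p j).y ∈ adjoin C {u j}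
  h0 : ∀ j, h j = ht (adjoin C {u j, (L j).1}) (u j)
  h1 : ∀ j, h (j + 1) = ht (adjoin C {u (j + 1), (L j).1}) (u (j + 1))
  mono : ∀ j, h j ≤ h (j + 1)
  two : ∀ j, 2 ≤ h (j + 2)
  big : ∀ N, ∃ j, N < h j

lemma orbit [IsAlgClosed C] (h1 : B1 C Ω) (h2 : B2 C Ω) (hc : CO1 C Ω) (hH : HT C Ω)
    (hP : PARAM C Ω) {m : Mir C} {k : Ω × Ω} (hm : m.Con) (hk : Cur C k) (hd : Dg C 2 k)
    (hl : ¬Lev m k) : ∃ p L u h, Dat m k p L u h := by
  obtain ⟨w, κ, τ, hw, hκ, P1, P2, P3, P4, P5, P6⟩ := hP m hm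
  have hκ' : algebraMap C Ω κ ≠ 0 := (_root_.map_ne_zero _).2 hκ
  obtain ⟨v, v', hv, hv', iv, iv', ny, hle⟩ : ∃ v v' : Vx Ω, m.On v ∧ m.On v' ∧ Inc v k ∧
      Inc v' k ∧ v.y ≠ v'.y ∧ ht (adjoin C {ev v.p τ, ev v'.p τ}) (ev v.p τ) ≤
        ht (adjoin C {ev v.p τ, ev v'.p τ}) (ev v'.p τ) := by
    obtain ⟨v, v', hv, hv', iv, iv', ny⟩ := hc.pts m k hm hd hl
    rcases le_total (ht (adjoin C {ev v.p τ, ev v'.p τ}) (ev v.p τ))
      (ht (adjoin C {ev v.p τ, ev v'.p τ}) (ev v'.p τ)) with h | h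
    · exact ⟨v, v', hv, hv', iv, iv', ny, h⟩
    · exact ⟨v', v, hv', hv, iv', iv, ny.symm, by rwa [Set.pair_comm]⟩
  have vne : v ≠ v' := fun e => ny (by rw [e])
  have e5 := P5 v v' k hv hv' vne iv iv'
  have ab : ev v.p τ - ev v'.p τ ≠ 0 := sub_ne_zero.2 fun e => vne (P3 v v' hv hv' e)
  have W0 : Wf w (ev v.p τ) (ev v'.p τ) ≠ 0 := fun e => by
    rw [e, mul_zero] at e5
    exact mul_ne_zero (mul_ne_zero hκ' hk.s0) (pow_ne_zero 2 ab) e5.symm
  obtain ⟨Λ, hΛ⟩ : ∃ Λ, (ev v.p τ - ev v'.p τ) ^ 2 = Λ * Wf w (ev v.p τ) (ev v'.p τ) :=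
    ⟨_, (div_mul_cancel₀ _ W0).symm⟩
  have nΛ : ¬Cst C Λ := by
    rintro ⟨ν, rfl⟩
    refine hl ⟨κ * ν, mul_right_cancel₀ W0 ?_⟩
    rw [e5, hΛ, map_mul]
    ring
  have Λ0 : Λ ≠ 0 := fun e => nΛ ⟨0, by rw [e, map_zero]⟩
  have k1 : k.1 ∈ H88.cl C {k.1, k.2} := H88.subset_cl _ (by simp)
  have k2 : k.2 ∈ H88.cl C {k.1, k.2} := H88.subset_cl _ (by simp)
  have alg : ∀ q : Vx Ω, m.On q → Inc q k → ev q.p τ ∈ H88.cl C {k.1, k.2} := fun q hq hi => by
    have hy : q.y ∈ H88.cl C {k.1, k.2} :=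
      H88.mem_cl_of_root (h2.sec0 m k) (sec_coeff k1 k2 m.f) ((sec_eval hi m.f).trans hq.f0)
    exact ev_mem (l := q.p) (by change q.x ∈ _; rw [hi]; exact add_mem k2 (mul_mem k1 hy)) hy τ
  have hcl := cl_one hk.ng (lam_mem hΛ W0 (alg v hv iv) (alg v' hv' iv')) nΛ
  have ma : ev v.p τ ∈ adjoin C {ev v.p τ, ev v'.p τ} := subset_adjoin _ _ (by simp)
  have mb : ev v'.p τ ∈ adjoin C {ev v.p τ, ev v'.p τ} := subset_adjoin _ _ (by simp)
  obtain ⟨u, u0, u1, hu, big⟩ := hH w {ev v.p τ, ev v'.p τ} Λ _ _ hw (Set.toFinite _)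
    (by rintro _ (rfl | rfl); exacts [hcl (alg v hv iv), hcl (alg v' hv' iv')])
    (lam_mem hΛ W0 ma mb) ma mb nΛ (P2 v hv).1 (P2 v' hv').1 hle hΛ
  choose p on pu using fun j => P1 (u j) (hu j).1
  have p0 : p 0 = v := P3 _ _ (on 0) hv ((pu 0).trans u0)
  have p1 : p 1 = v' := P3 _ _ (on 1) hv' ((pu 1).trans u1)
  have une : ∀ j, u j ≠ u (j + 1) := fun j e => by
    have a := (hu j).2.1.r
    have b := (P2 _ (on j)).2.1
    rw [pu] at b
    rw [← e, sub_self, zero_pow two_ne_zero] at a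
    exact mul_ne_zero Λ0 b a.symm
  have Wne : ∀ j, Wf w (u j) (u (j + 1)) ≠ 0 := fun j e => by
    have a := (hu j).2.1.r
    rw [e, mul_zero] at a
    exact pow_ne_zero 2 (sub_ne_zero.2 (une j)) a
  have pne : ∀ j, p j ≠ p (j + 1) := fun j e => une j (by rw [← pu, ← pu, e])
  have xy := fun j => P4 _ _ (on j) (on (j + 1)) (pne j) (by rw [pu, pu]; exact Wne j)
  obtain ⟨L, i0, i1⟩ : ∃ L : ℕ → Ω × Ω, (∀ j, Inc (p j) (L j)) ∧ ∀ j, Inc (p (j + 1)) (L j) := by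
    refine ⟨fun j => (((p j).x - (p (j + 1)).x) / ((p j).y - (p (j + 1)).y),
      (p j).x - ((p j).x - (p (j + 1)).x) / ((p j).y - (p (j + 1)).y) * (p j).y),
      fun j => by simp [Inc], fun j => ?_⟩
    have := sub_ne_zero.2 (xy j).2
    simp only [Inc]
    field_simp
    ring
  have hF : ∀ j, adjoin C {u j, u (j + 1)} = adjoin C {ev v.p τ, ev v'.p τ} := fun j => by
    induction j with
    | zero => rw [u0, u1]
    | succ j ih => rw [fld_succ (hu j).2.1 (Wne j) (hu (j + 1)).2.1.r (Wne (j + 1)), ih]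
  refine ⟨p, L, u, fun j => ht (adjoin C {ev v.p τ, ev v'.p τ}) (u j), ?_, on, i0,
    fun j => (xy j).2, fun j => ⟨on _, i1 j, i0 _, ?_, fun e => ?_⟩,
    fun j => pu j ▸ (P2 _ (on j)).2.2, fun j => ?_, fun j => ?_, fun j => (hu j).2.2.1,
    fun j => (hu j).2.2.2, big⟩
  · refine line_eq (i0 0) (p0 ▸ iv) ?_
    rw [slope (i0 0) (i1 0) (xy 0).2, slope iv iv' ny, p0, zero_add, p1]
  · exact P6 _ _ _ _ _ Λ (on j) (on _) (on _) (pne j) (pne _) (i0 j) (i1 j) (i0 _) (i1 _)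
      (by rw [pu, pu, pu]; exact (hu j).2.1)
  · have a := P5 _ _ _ (on j) (on _) (pne j) (i0 j) (i1 j)
    have b := (on (j + 1)).sl
    rw [hc.sq m _ _ hm (on _) (i1 j), pu, pu, e, mul_comm _ (p (j + 1)).w, b,
      zero_pow two_ne_zero, zero_mul] at a
    exact mul_ne_zero (mul_ne_zero hκ' (h1.w0 m _ (on _)))
      (pow_ne_zero 2 (sub_ne_zero.2 (une j))) a.symm
  · have := fld h2 hm τ (on j) (on _) (i0 j) (i1 j) (xy j).2 (P2 _ (on j)).2.2 (P2 _ (on _)).2.2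
    rw [pu, pu, hF] at this
    rw [← this]
  · have := fld h2 hm τ (on (j + 1)) (on j) (i1 j) (i0 j) (xy j).2.symm (P2 _ (on _)).2.2
      (P2 _ (on j)).2.2
    rw [pu, pu, Set.pair_comm, hF] at this
    rw [← this]

variable {m : Mir C} {k : Ω × Ω} {p : ℕ → Vx Ω} {L : ℕ → Ω × Ω} {u : ℕ → Ω} {h : ℕ → ℕ}

/-- A symmetry of the orbit reverses it. -/
lemma Dat.rev (D : Dat m k p L u h) (h1 : B1 C Ω) (h2 : B2 C Ω) (hc : CO1 C Ω) (hm : m.Con)
    (ρ : Ω ≃ₐ[C] Ω) (t : ℕ) : ∀ i j, mp ρ (L (i + t)) = L j → (p (i + t)).map ρ = p (j + 1) →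
      mp ρ (L i) = L (j + t) := by
  induction t with
  | zero => exact fun _ _ a _ => a
  | succ t ih =>
    intro i j a b
    have s1 := h2.map _ _ _ _ ρ (h2.symm _ _ _ _ (D.st (i + t)))
    rw [show i + t + 1 = i + (t + 1) from rfl, a, b] at s1
    have e := (h2.det _ _ _ _ _ _ s1 (D.st j) rfl).2
    rw [show j + (t + 1) = j + 1 + t by omega]
    refine ih i (j + 1) e (Orb.two h1 h2 hc hm (D.on (j + 1)) (D.on _)
      (h2.onmap _ _ ρ (D.on _)) (D.i0 _) (D.st (j + 1)).i0 (e ▸ inc_map (D.i0 _) ρ) (D.ny _) ?_)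
    rw [← b]
    exact fun h => D.ny (i + t) (ρ.injective h)

lemma Dat.dg [IsAlgClosed C] [CharZero Ω] [IsAlgClosed Ω] (D : Dat m k p L u h) (h1 : B1 C Ω)
    (h2 : B2 C Ω) (h3 : B3 C Ω) {i : ℕ}
    (hs : ∀ ρ : Ω ≃ₐ[C] Ω, mp ρ (L (i + 1)) = L (i + 1) → (p (i + 1)).map ρ ≠ p (i + 2)) :
    Dg C 3 (L (i + 1)) := by
  classical
  intro F F0 hF
  by_contra hd
  have i1 : Inc (p (i + 2)) (L (i + 1)) := (D.st (i + 1)).i0
  have g0 := pen_ne h1 (D.on (i + 2)) F0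
  have hr := (pen_inc i1 F).trans hF
  have hint := (root g0 (pen_coeff (D.xy _).1 (D.xy _).2 F) hr).1
  obtain ⟨s', ns, hs'⟩ := other hint (D.h1 (i + 1) ▸ D.two i)
  obtain ⟨σ, hσ⟩ := h3.conj _ _ hs'
  have σu : σ (u (i + 2)) = u (i + 2) := congrArg Prod.fst hσ
  have σs : σ (L (i + 1)).1 = s' := congrArg Prod.snd hσ
  have fx : ∀ a ∈ adjoin C {u (i + 2)}, σ a = a := fun a ha => by
    induction ha using adjoin_induction with
    | mem x hx => rw [Set.mem_singleton_iff.1 hx, σu]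
    | algebraMap x => exact σ.commutes x
    | add x y _ _ hx hy => rw [map_add, hx, hy]
    | inv x _ hx => rw [map_inv₀, hx]
    | mul x y _ _ hx hy => rw [map_mul, hx, hy]
  have σp : (p (i + 2)).map σ = p (i + 2) :=
    (h1.uniq m m _ _ (h2.onmap _ _ σ (D.on _)) (D.on _)
      (Prod.ext (fx _ (D.xy _).1) (fx _ (D.xy _).2))).2
  obtain ⟨g, hg⟩ := h3.conj (p (i + 1)).p (p (i + 2)).p fun F =>
    (h1.ker m _ (D.on _) F).trans (h1.ker m _ (D.on _) F).symm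
  have gp : (p (i + 1)).map g = p (i + 2) :=
    (h1.uniq m m _ _ (h2.onmap _ _ g (D.on _)) (D.on _) hg).2
  have i2 : Inc (p (i + 2)) (mp σ (L (i + 1))) := σp ▸ inc_map i1 σ
  have i3 : Inc (p (i + 2)) (mp g (L (i + 1))) := gp ▸ inc_map (D.i0 _) g
  have r2 := (pen_inc i2 F).trans (by rw [h3.evmap, hF, map_zero])
  have r3 := (pen_inc i3 F).trans (by rw [h3.evmap, hF, map_zero])
  have n1 : (mp g (L (i + 1))).1 ≠ (L (i + 1)).1 := fun e => hs g (line_eq i3 i1 e) gp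
  have n2 : (mp g (L (i + 1))).1 ≠ (mp σ (L (i + 1))).1 := fun e => by
    have e1 := line_eq i3 i2 e
    refine hs (g.trans σ.symm) ?_ ?_
    · exact Prod.ext (σ.symm_apply_eq.2 (congrArg Prod.fst e1))
        (σ.symm_apply_eq.2 (congrArg Prod.snd e1))
    · have e2 := gp.trans σp.symm
      exact Vx.ext (σ.symm_apply_eq.2 (congrArg Vx.x e2)) (σ.symm_apply_eq.2 (congrArg Vx.y e2))
        (σ.symm_apply_eq.2 (congrArg Vx.w e2))
  have n3 : (L (i + 1)).1 ≠ (mp σ (L (i + 1))).1 := fun e => ns (σs.symm.trans e.symm)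
  have c1 : ({(mp g (L (i + 1))).1, (L (i + 1)).1, (mp σ (L (i + 1))).1} : Finset Ω) ⊆
      (pen F (p (i + 2))).roots.toFinset := by
    intro z hz
    simp only [Finset.mem_insert, Finset.mem_singleton] at hz
    rw [Multiset.mem_toFinset, mem_roots g0]
    rcases hz with rfl | rfl | rfl
    exacts [r3, hr, r2]
  have c2 := (Finset.card_le_card c1).trans ((Multiset.toFinset_card_le _).trans
    ((card_roots' _).trans (pen_deg F _)))
  rw [Finset.card_eq_three.2 ⟨_, _, _, n1, n2, n3, rfl⟩] at c2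
  exact hd c2

end Orb

theorem orb [IsAlgClosed C] [CharZero Ω] [IsAlgClosed Ω] (h1 : B1 C Ω) (h2 : B2 C Ω)
    (h3 : B3 C Ω) (hc : CO1 C Ω) (hH : HT C Ω) (hP : PARAM C Ω) : ORB C Ω := by
  classical
  intro m n Ψ k hm hn hΨ hk hd hl h0
  obtain ⟨p, L, u, h, D⟩ := Orb.orbit h1 h2 hc hH hP hm hk hd hl
  have cur : ∀ j, Cur C (L j) := fun j => by
    induction j with
    | zero => exact D.l0 ▸ hk
    | succ j ih => exact h2.cur _ _ _ _ (D.st j) ih
  have bd : ∀ j, ev (L j) Ψ = 0 → h j ≤ Ψ.totalDegree := fun j hj => by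
    obtain ⟨a, b⟩ := Orb.root (Orb.pen_ne h1 (D.on j) hΨ) (Orb.pen_coeff (D.xy j).1 (D.xy j).2 Ψ)
      ((Orb.pen_inc (D.i0 j) Ψ).trans hj)
    rw [D.h0, Orb.ht_eq a]
    exact b.trans (Orb.pen_deg Ψ _)
  obtain ⟨N, hN⟩ := D.big Ψ.totalDegree
  obtain ⟨j, j1, j2⟩ : ∃ j, ev (L j) Ψ = 0 ∧ ∀ i, j < i → ev (L i) Ψ ≠ 0 := by
    refine ⟨Nat.findGreatest (fun j => ev (L j) Ψ = 0) N,
      Nat.findGreatest_spec (P := fun j => ev (L j) Ψ = 0) (Nat.zero_le N) (D.l0 ▸ h0),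
      fun i hi => ?_⟩
    rcases le_total i N with a | a
    · exact Nat.findGreatest_is_greatest hi a
    · intro e
      have := (monotone_nat_of_le_succ D.mono a).trans (bd i e)
      omega
  obtain ⟨n, rfl⟩ : ∃ t, n = t + 1 := ⟨n - 1, by omega⟩
  have e1 : (2 * ((n + 1 : ℕ) : ℤ)).toNat = (n + 1) + (n + 1) := by omega
  refine ⟨fun i => L (j + i.toNat), fun i => p (j + i.toNat + 1), ⟨fun i a _ => ?_, fun i a _ => ?_⟩,
    cur _, j1, j2 _ (by omega), cur _, ?_⟩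
  · rw [show (i + 1).toNat = i.toNat + 1 by omega]
    exact D.st _
  · rw [show (i + 1).toNat = i.toNat + 1 by omega]
    exact D.ny _
  · refine D.dg h1 h2 h3 (i := j + n) fun ρ a b => j2 (j + n + 1 + (n + 1)) (by omega) ?_
    rw [← D.rev h1 h2 hc hm ρ (n + 1) j (j + n + 1) a b, h3.evmap, j1, map_zero]

end Pool.Agent.MP_249f74_an.H96A
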