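import Pool.Agent.MP_249f74_an.H96.Chn

/-!
Chains of reflections in algebraic mirrors: definitions.
-/

open Polynomial

namespace Pool.Agent.MP_249f74_an.H96A

/-- Polynomials in two variables. -/
abbrev P2 (C : Type) [Field C] := MvPolynomial (Fin 2) C

/-- The coefficient of `X 0 ^ i * X 1 ^ j`. -/
noncomputable def cf {C : Type} [Field C] (f : P2 C) (i j : ℕ) : C :=
  MvPolynomial.coeff (Finsupp.single 0 i + Finsupp.single 1 j) f

/-- Irreducible curves of degree at least two that contain both or none of the circular points. -/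
structure Mir (C : Type) [Field C] where
  /-- the equation -/
  f : P2 C
  irr : Irreducible f
  deg : 2 ≤ f.totalDegree
  nrm : f = Quot.out (Associates.mk f)
  sym : cf f f.totalDegree 0 = 0 ↔ cf f 0 f.totalDegree = 0

/-- A point with a slope. -/
@[ext] structure Vx (Ω : Type) where
  /-- first coordinate -/
  x : Ω
  /-- second coordinate -/
  y : Ω
  /-- slope `dx / dy` -/
  w : Ω

/-- The ray of events `(x, y, t)` with `x = c + z ^ 2 * y`, `t = e + z * y`. -/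
@[ext] structure Ray (Ω : Type) where
  /-- direction -/
  z : Ω
  /-- position -/
  c : Ω
  /-- time -/
  e : Ω

variable {C Ω : Type} [Field C] [Field Ω] [Algebra C Ω]

/-- Evaluation at a pair. A pair `(s, c)` also stands for the line `x = c + s * y`. -/
noncomputable def ev (l : Ω × Ω) : P2 C →ₐ[C] Ω := MvPolynomial.aeval ![l.1, l.2]

variable (C) in
/-- Constants. -/
def Cst (a : Ω) : Prop := ∃ k : C, a = algebraMap C Ω k

variable (C) in
/-- Generic pairs. -/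
def Gen (l : Ω × Ω) : Prop := ∀ F : P2 C, ev l F = 0 → F = 0

variable (C) in
/-- Generic points of curves in the space of non isotropic lines. -/
structure Cur (l : Ω × Ω) : Prop where
  ng : ¬Gen C l
  nc : ¬(Cst C l.1 ∧ Cst C l.2)
  s0 : l.1 ≠ 0

variable (C) in
/-- No equation of degree less than `k`. -/
def Dg (k : ℕ) (l : Ω × Ω) : Prop := ∀ F : P2 C, F ≠ 0 → ev l F = 0 → k ≤ F.totalDegree

variable (C Ω) in
/-- Transcendence degree at most two. -/
def Sf : Prop := ∀ l : Ω × Ω, Gen C l → ∀ a, a ∈ H88.cl C {l.1, l.2}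

/-- The position. -/
def Vx.p (v : Vx Ω) : Ω × Ω := (v.x, v.y)

/-- The tangent line. -/
def Vx.tl (v : Vx Ω) : Ω × Ω := (v.w, v.x - v.w * v.y)

/-- The image under an automorphism. -/
def Vx.map (σ : Ω ≃ₐ[C] Ω) (v : Vx Ω) : Vx Ω := ⟨σ v.x, σ v.y, σ v.w⟩

/-- The image under an automorphism. -/
def mp (σ : Ω ≃ₐ[C] Ω) (l : Ω × Ω) : Ω × Ω := (σ l.1, σ l.2)

/-- The line of a ray. -/
def Ray.ln (ρ : Ray Ω) : Ω × Ω := (ρ.z ^ 2, ρ.c)

/-- A generic point of the mirror with its slope. -/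
structure Mir.On (m : Mir C) (v : Vx Ω) : Prop where
  f0 : ev v.p m.f = 0
  ny : ¬Cst C v.y
  sl : v.w * ev v.p (MvPolynomial.pderiv 0 m.f) + ev v.p (MvPolynomial.pderiv 1 m.f) = 0

/-- The point is on the line. -/
def Inc (v : Vx Ω) (l : Ω × Ω) : Prop := v.x = l.2 + l.1 * v.y

/-- Reflection of unoriented lines at a point that is not a point of tangency. -/
structure St (m : Mir C) (l : Ω × Ω) (v : Vx Ω) (l' : Ω × Ω) : Prop where
  on : m.On v
  i0 : Inc v l
  i1 : Inc v l'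
  rf : l.1 * l'.1 = v.w ^ 2
  nt : l.1 ≠ v.w

/-- Reflection of rays. -/
structure Rf (m : Mir C) (ρ : Ray Ω) (v : Vx Ω) (ρ' : Ray Ω) : Prop where
  on : m.On v
  i0 : Inc v ρ.ln
  i1 : Inc v ρ'.ln
  rf : ρ.z * ρ'.z = v.w
  tm : ρ.e + ρ.z * v.y = ρ'.e + ρ'.z * v.y

variable (C) in
/-- Rays that are joined by finitely many reflections. -/
inductive Pth : Ray Ω → Ray Ω → Prop
  | nil (ρ : Ray Ω) : Pth ρ ρ
  | snoc {ρ ρ' ρ'' : Ray Ω} {m : Mir C} {v : Vx Ω} : Pth ρ ρ' → Rf m ρ' v ρ'' → Pth ρ ρ''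

/-- The section of a curve by a line. -/
noncomputable def sec (f : P2 C) (l : Ω × Ω) : Polynomial Ω :=
  MvPolynomial.aeval ![Polynomial.C l.2 + Polynomial.C l.1 * X, X] f

/-- The restriction of a function of lines to the pencil of a point. -/
noncomputable def pen (F : P2 C) (v : Vx Ω) : Polynomial Ω :=
  MvPolynomial.aeval ![X, Polynomial.C v.x - Polynomial.C v.y * X] F

open Classical in
/-- The second coordinates of the points of the mirror on a line. -/
noncomputable def Pts (m : Mir C) (l : Ω × Ω) : Finset Ω := (sec m.f l).roots.toFinset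

/-- Conics. -/
def Mir.Con (m : Mir C) : Prop := m.f.totalDegree = 2

open MvPolynomial in
/-- The discriminant of the section of a conic. -/
noncomputable def dq (f : P2 C) : P2 C :=
  MvPolynomial.C (cf f 1 1 ^ 2 - 4 * cf f 2 0 * cf f 0 2) * X 1 ^ 2 +
    MvPolynomial.C (4 * cf f 2 0 * cf f 0 1 - 2 * cf f 1 1 * cf f 1 0) * (X 0 * X 1) +
    MvPolynomial.C (2 * cf f 1 1 * cf f 0 1 - 4 * cf f 0 2 * cf f 1 0) * X 1 +
    MvPolynomial.C (cf f 1 0 ^ 2 - 4 * cf f 2 0 * cf f 0 0) * X 0 ^ 2 +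
    MvPolynomial.C (2 * cf f 1 0 * cf f 0 1 - 4 * cf f 1 1 * cf f 0 0) * X 0 +
    MvPolynomial.C (cf f 0 1 ^ 2 - 4 * cf f 0 2 * cf f 0 0)

/-- Confocal conics. -/
def Conf (m m' : Mir C) : Prop :=
  m.Con ∧ m'.Con ∧ ∃ k ν : C, k ≠ 0 ∧
    dq m'.f = MvPolynomial.C k * dq m.f + MvPolynomial.C ν * MvPolynomial.X 0

/-- The integral of the conic is constant. -/
def Lev (m : Mir C) (l : Ω × Ω) : Prop := ∃ ν : C, ev l (dq m.f) = algebraMap C Ω ν * l.1

/-- Chains with the vertices `a ≤ i < b` and the lines `a ≤ i ≤ b`. -/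
structure Chn (m : ℤ → Mir C) (L : ℤ → Ω × Ω) (v : ℤ → Vx Ω) (a b : ℤ) : Prop where
  st : ∀ i, a ≤ i → i < b → St (m i) (L i) (v i) (L (i + 1))
  nb : ∀ i, a ≤ i → i + 1 < b → (v i).y ≠ (v (i + 1)).y

/-- Equal conics in a confocal run are contiguous. -/
def Red (m : ℤ → Mir C) (a b : ℤ) : Prop :=
  ∀ i k j, a ≤ i → i < k → k < j → j < b → m i = m j →
    (∀ t, i ≤ t → t ≤ j → Conf (m i) (m t)) → m k = m i

/-- The automorphisms that fix a set. -/
def Fx (C : Type) [Field C] [Algebra C Ω] (S : Set Ω) : Subgroup (Ω ≃ₐ[C] Ω) where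
  carrier := {σ | ∀ a ∈ S, σ a = a}
  mul_mem' := fun h h' a ha => by rw [AlgEquiv.mul_apply, h' a ha, h a ha]
  one_mem' := fun _ _ => rfl
  inv_mem' := fun {σ} h a ha => σ.symm_apply_eq.2 (h a ha).symm

variable (C) in
/-- The automorphisms that fix a line. -/
def FL (l : Ω × Ω) : Subgroup (Ω ≃ₐ[C] Ω) := Fx C {l.1, l.2}

variable (C) in
/-- The automorphisms that fix a chain. -/
def Hg (L : ℤ → Ω × Ω) (v : ℤ → Vx Ω) (a b : ℤ) : Subgroup (Ω ≃ₐ[C] Ω) :=
  Fx C ({t | ∃ i, a ≤ i ∧ i ≤ b ∧ (t = (L i).1 ∨ t = (L i).2)} ∪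
    {t | ∃ i, a ≤ i ∧ i < b ∧ t = (v i).y})

/-- Invariant elements. -/
def Inv (H : Subgroup (Ω ≃ₐ[C] Ω)) (a : Ω) : Prop := ∀ σ ∈ H, σ a = a

/-- The group acts on the finite set as the full symmetric group. -/
structure Full (H : Subgroup (Ω ≃ₐ[C] Ω)) (P : Finset Ω) : Prop where
  stb : ∀ σ ∈ H, ∀ a ∈ P, σ a ∈ P
  all : ∀ π : Equiv.Perm P, ∃ σ ∈ H, ∀ a : P, σ a = π a

open Classical in
/-- The sign of the action on a finite set. -/
noncomputable def sg (σ : Ω ≃ₐ[C] Ω) (P : Finset Ω) : ℤˣ :=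
  if h : ∀ a, σ.toEquiv a ∈ P ↔ a ∈ P then
    Equiv.Perm.sign (Equiv.Perm.subtypePerm σ.toEquiv h : Equiv.Perm P) else 1

open Classical in
/-- The free points at the right end of a chain. -/
noncomputable def Fr (m : ℤ → Mir C) (L : ℤ → Ω × Ω) (v : ℤ → Vx Ω) (a b : ℤ) : Finset Ω :=
  if a < b then (Pts (m b) (L b)).erase (v (b - 1)).y else Pts (m b) (L b)

open Classical in
/-- The free points at the left end of a chain. -/
noncomputable def Fl (m : ℤ → Mir C) (L : ℤ → Ω × Ω) (v : ℤ → Vx Ω) (a b : ℤ) : Finset Ω :=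
  if a < b then (Pts (m (a - 1)) (L a)).erase (v a).y else Pts (m (a - 1)) (L a)

section Chain

variable (m : ℤ → Mir C) (L : ℤ → Ω × Ω) (v : ℤ → Vx Ω)

/-- The next vertex on the right is free. -/
def FR (a b : ℤ) : Prop := Full (Hg C L v a b) (Fr m L v a b)

/-- The next vertex on the left is free. -/
def FF (a b : ℤ) : Prop := Full (Hg C L v a b) (Fl m L v a b)

/-- The signs at both ends are independent. -/
def NL (a b : ℤ) : Prop :=
  a < b ∨ m (a - 1) ≠ m b → 2 ≤ (Fr m L v a b).card →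
    ∃ σ ∈ Hg C L v a b, sg σ (Pts (m (a - 1)) (L a)) ≠ sg σ (Pts (m b) (L b))

/-- The vertices `b ≤ i < e` form the last maximal run of equal mirrors. -/
structure Run (a b e : ℤ) : Prop where
  ab : a ≤ b
  be : b < e
  eq : ∀ i, b ≤ i → i < e → m i = m (e - 1)
  ne : a < b → m (b - 1) ≠ m (e - 1)

/-- The function `x * Ψ (L e)` is a square, where `x` is defined before `b`, and `k` is a curve
in the zero set of `Ψ`. -/
structure Rel (a b e : ℤ) (x r : Ω) (Ψ : P2 C) (k : Ω × Ω) : Prop where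
  x0 : x ≠ 0
  hx : Inv (Hg C L v a b) x
  hr : Inv (Hg C L v a e) r
  sq : r ^ 2 = x * ev (L e) Ψ
  sf : Squarefree Ψ
  cur : Cur C k
  zero : ev k Ψ = 0

variable (C) in
/-- No function with a curve of class at least three is a square. -/
def G1 (a e : ℤ) : Prop := ∀ r (Ψ : P2 C) k, Rel L v a a e 1 r Ψ k → ¬Dg C 3 k

/-- Relations at the end of a chain. -/
def G2 (a e : ℤ) : Prop :=
  ∀ b x r (Ψ : P2 C) k, Run m a b e → Rel L v a b e x r Ψ k →
    (m (e - 1)).Con ∧ (Dg C 2 k → Lev (m (e - 1)) k)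

end Chain

/-- The square class of the discriminant of the section. -/
structure Dsc (m : Mir C) (l : Ω × Ω) (Δ : P2 C) : Prop where
  sq : Squarefree Δ
  sgn : ∀ σ ∈ FL C l, ∀ r, r ^ 2 = ev l Δ → σ r = ((sg σ (Pts m l) : ℤ) : Ω) * r
  own : ∀ v : Vx Ω, m.On v → ev v.tl Δ = 0
  oth : ∀ m' : Mir C, m' ≠ m → ∀ v : Vx Ω, m'.On v → ev v.tl Δ ≠ 0

variable (C Ω) in
/-- A place of `Ω` with values in `Ω` and an element of its inertia group. -/
structure Pl where
  /-- specialization -/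
  sp : Ω → Ω → Prop
  /-- the inertia element -/
  σ : Ω ≃ₐ[C] Ω
  fn : ∀ {a b b'}, sp a b → sp a b' → b = b'
  cst : ∀ k : C, sp (algebraMap C Ω k) (algebraMap C Ω k)
  add : ∀ {a b a' b'}, sp a b → sp a' b' → sp (a + a') (b + b')
  mul : ∀ {a b a' b'}, sp a b → sp a' b' → sp (a * a') (b * b')
  tot : ∀ a, (∃ b, sp a b) ∨ (a ≠ 0 ∧ sp a⁻¹ 0)
  ine : ∀ {a b}, sp a b → sp (σ a) b

/-- The pair is fixed by the inertia element and specializes to the second pair. -/
structure Pl.Sp (P : Pl C Ω) (l l' : Ω × Ω) : Prop where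
  s1 : P.sp l.1 l'.1
  s2 : P.sp l.2 l'.2
  fx : P.σ ∈ FL C l

/-- The height of an element of a function field. -/
noncomputable def ht (F : IntermediateField C Ω) (u : Ω) : ℕ :=
  IntermediateField.relfinrank (IntermediateField.adjoin C {u}) F

/-- The symmetric form that vanishes on isotropic chords of a conic. -/
def Wf (w : Fin 4 → C) (u u' : Ω) : Ω :=
  algebraMap C Ω (w 0) * (u * u') ^ 2 + algebraMap C Ω (w 1) * (u * u') +
    algebraMap C Ω (w 2) * (u + u') ^ 2 + algebraMap C Ω (w 3)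

/-- Central conics, circles and parabolas. -/
def Wok (w : Fin 4 → C) : Prop :=
  (w 0 ≠ 0 ∧ w 3 ≠ 0 ∧ w 2 = 0 ∧ w 1 ^ 2 ≠ 4 * w 0 * w 3) ∨
    (w 0 = 0 ∧ w 3 = 0 ∧ w 2 = 0 ∧ w 1 ≠ 0) ∨ (w 0 = 0 ∧ w 1 = 0 ∧ w 2 ≠ 0 ∧ w 3 ≠ 0)

/-- `u` and `u''` are the two solutions `T` of `(u' - T) ^ 2 = Λ * Wf w u' T`. -/
structure Qr (w : Fin 4 → C) (Λ u u' u'' : Ω) : Prop where
  r : (u - u') ^ 2 = Λ * Wf w u u'
  a : 1 - Λ * (algebraMap C Ω (w 0) * u' ^ 2 + algebraMap C Ω (w 2)) ≠ 0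
  s : (1 - Λ * (algebraMap C Ω (w 0) * u' ^ 2 + algebraMap C Ω (w 2))) * (u + u'') =
    u' * (2 + Λ * (algebraMap C Ω (w 1) + 2 * algebraMap C Ω (w 2)))

end Pool.Agent.MP_249f74_an.H96A
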