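import Pool.Agent.MP_249f74_an.H96A.Curve

/-!
Curves, conjugation and square classes.
-/

namespace Pool.Agent.MP_249f74_an.H96A

namespace Bt

/-- Every nonzero element is a squarefree element times a square. -/
theorem sqfree {R : Type} [CommRing R] [IsDomain R] [WfDvdMonoid R] (a : R) (ha : a ≠ 0) :
    ∃ Ψ U : R, Squarefree Ψ ∧ U ≠ 0 ∧ a = Ψ * U ^ 2 := by
  induction a using (wellFounded_dvdNotUnit (α := R)).induction with
  | _ a ih =>
    by_cases h : Squarefree a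
    · exact ⟨a, 1, h, one_ne_zero, by simp⟩
    · unfold Squarefree at h
      push Not at h
      obtain ⟨x, ⟨b, hb⟩, hx⟩ := h
      have hb0 : b ≠ 0 := by rintro rfl; exact ha (by rw [hb, mul_zero])
      have hx0 : x ≠ 0 := by rintro rfl; exact ha (by rw [hb]; simp)
      obtain ⟨Ψ, U, h1, h2, h3⟩ := ih b ⟨hb0, x * x, fun hu => hx (isUnit_of_mul_isUnit_left hu),
        by rw [hb, mul_comm]⟩ hb0
      exact ⟨Ψ, x * U, h1, mul_ne_zero hx0 h2, by rw [hb, h3]; ring⟩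

variable {C Ω : Type} [Field C] [Field Ω] [IsAlgClosed Ω] [Algebra C Ω]

/-- An isomorphism between finitely generated subalgebras extends to an automorphism. -/
theorem ext_iso (A A' : Subalgebra C Ω) [Algebra.FiniteType C A] (e : A ≃ₐ[C] A') :
    ∃ τ : Ω ≃ₐ[C] Ω, ∀ x : A, τ x = e x := by
  obtain ⟨s, hs⟩ := exists_isTranscendenceBasis A Ω
  obtain ⟨s', hs'⟩ := exists_isTranscendenceBasis A' Ω
  have h1 : Algebra.trdeg A Ω = Algebra.trdeg A' Ω := by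
    refine Cardinal.eq_of_add_eq_add_left (a := Algebra.trdeg C A) ?_
      trdeg_lt_aleph0_of_finiteType
    rw [trdeg_add_eq C A, e.trdeg_eq, trdeg_add_eq C A']
  rw [← hs.cardinalMk_eq_trdeg, ← hs'.cardinalMk_eq_trdeg] at h1
  obtain ⟨q⟩ := Cardinal.eq.1 h1
  have := IsAlgClosed.isAlgClosure_of_transcendence_basis _ hs
  have := IsAlgClosed.isAlgClosure_of_transcendence_basis _ hs'
  let e' := ((hs.1.aevalEquiv.symm.toRingEquiv.trans (MvPolynomial.mapEquiv s e.toRingEquiv)).trans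
    (MvPolynomial.renameEquiv A' q).toRingEquiv).trans hs'.1.aevalEquiv.toRingEquiv
  have h : ∀ x : A, IsAlgClosure.equivOfEquiv Ω Ω e' x = e x := fun x => by
    have := IsAlgClosure.equivOfEquiv_algebraMap Ω Ω e' (algebraMap A _ x)
    refine this.trans ?_
    simp only [e', RingEquiv.trans_apply, AlgEquiv.coe_ringEquiv, AlgEquiv.commutes]
    simp
  exact ⟨{ IsAlgClosure.equivOfEquiv Ω Ω e' with
    commutes' := fun c => (h (algebraMap C A c)).trans (by rw [e.commutes]; rfl) }, h⟩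

/-- Families with the same equations are conjugate. -/
theorem conj_fam {ι : Type} [Finite ι] (l l' : ι → Ω)
    (h : ∀ F : MvPolynomial ι C, MvPolynomial.aeval l F = 0 ↔ MvPolynomial.aeval l' F = 0) :
    ∃ σ : Ω ≃ₐ[C] Ω, ∀ i, σ (l i) = l' i := by
  let φ : MvPolynomial ι C →ₐ[C] Ω := MvPolynomial.aeval l
  let φ' : MvPolynomial ι C →ₐ[C] Ω := MvPolynomial.aeval l'
  have hk : RingHom.ker φ = RingHom.ker φ' := by
    ext F
    rw [RingHom.mem_ker, RingHom.mem_ker]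
    exact h F
  let e : φ.range ≃ₐ[C] φ'.range := ((Ideal.quotientKerEquivRange φ).symm.trans
    (Ideal.quotientEquivAlgOfEq C hk)).trans (Ideal.quotientKerEquivRange φ')
  have he : ∀ F, (e ⟨φ F, F, rfl⟩ : Ω) = φ' F := fun F => by
    have h1 : (⟨φ F, F, rfl⟩ : φ.range) =
        Ideal.quotientKerEquivRange φ (Ideal.Quotient.mk _ F) := rfl
    rw [h1]
    simp only [e, AlgEquiv.trans_apply, AlgEquiv.symm_apply_apply]
    rfl
  have : Algebra.FiniteType C φ.range :=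
    Algebra.FiniteType.of_surjective φ.rangeRestrict φ.rangeRestrict_surjective
  obtain ⟨τ, hτ⟩ := ext_iso _ _ e
  refine ⟨τ, fun i => ?_⟩
  have h2 := (hτ ⟨φ (MvPolynomial.X i), _, rfl⟩).trans (he _)
  simpa [φ, φ'] using h2

omit [IsAlgClosed Ω] in
theorem evmap (l : Ω × Ω) (σ : Ω ≃ₐ[C] Ω) (F : P2 C) : ev (mp σ l) F = σ (ev l F) := by
  have h : ev (mp σ l) = (σ : Ω →ₐ[C] Ω).comp (ev l) := by
    refine MvPolynomial.algHom_ext fun i => ?_
    fin_cases i <;> simp [ev, mp]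
  rw [h]
  rfl

theorem conj (l l' : Ω × Ω) (h : ∀ F : P2 C, ev l F = 0 ↔ ev l' F = 0) :
    ∃ σ : Ω ≃ₐ[C] Ω, mp σ l = l' := by
  obtain ⟨σ, hσ⟩ := conj_fam ![l.1, l.2] ![l'.1, l'.2] h
  exact ⟨σ, Prod.ext (hσ 0) (hσ 1)⟩

theorem dcl [CharZero Ω] (S : Set Ω) (a : Ω) (hS : ∀ b, b ∈ H88.cl C S) (ha : Inv (Fx C S) a) :
    a ∈ IntermediateField.adjoin C S := by
  let K := IntermediateField.adjoin C S
  have h1 : Algebra.IsAlgebraic K Ω := ⟨fun b => H17.mem_cl_iff.1 (by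
    rw [H17.cl_adjoin]; exact hS b)⟩
  have h2 : CharZero K := (algebraMap K Ω).charZero
  have h3 : IsAlgClosure K Ω := ⟨inferInstance, h1⟩
  have h4 : IsGalois K Ω := {}
  obtain ⟨y, hy⟩ := (InfiniteGalois.mem_range_algebraMap_iff_fixed (k := K) a).2 fun f =>
    ha (f.restrictScalars C) fun x hx => f.commutes ⟨x, IntermediateField.subset_adjoin C S hx⟩
  rw [← hy]
  exact y.2

omit [IsAlgClosed Ω] in
theorem inv_ev (l : Ω × Ω) (F : P2 C) : Inv (FL C l) (ev l F) := fun σ hσ => by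
  rw [← evmap]
  congr 2
  exact Prod.ext (hσ _ (by simp)) (hσ _ (by simp))

theorem sqf [CharZero Ω] (hS : Sf C Ω) (l : Ω × Ω) (θ : Ω) (hl : Gen C l) (h0 : θ ≠ 0)
    (hθ : Inv (FL C l) θ) :
    ∃ (Ψ : P2 C) (u : Ω), Squarefree Ψ ∧ u ≠ 0 ∧ Inv (FL C l) u ∧ θ = ev l Ψ * u ^ 2 := by
  have h1 := dcl _ θ (hS l hl) hθ
  have e : ({l.1, l.2} : Set Ω) = Set.range ![l.1, l.2] := by simp [Set.pair_comm]
  rw [e, IntermediateField.mem_adjoin_range_iff] at h1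
  obtain ⟨A, B, hAB⟩ := h1
  change θ = ev l A / ev l B at hAB
  have hA : ev l A ≠ 0 := fun h => h0 (by rw [hAB, h, zero_div])
  have hB : ev l B ≠ 0 := fun h => h0 (by rw [hAB, h, div_zero])
  have hA0 : A ≠ 0 := fun h => hA (by rw [h, map_zero])
  have hB0 : B ≠ 0 := fun h => hB (by rw [h, map_zero])
  obtain ⟨Ψ, U, p1, p2, p3⟩ := sqfree (A * B) (mul_ne_zero hA0 hB0)
  have hU : ev l U ≠ 0 := fun h => p2 (hl U h)
  refine ⟨Ψ, ev l U / ev l B, p1, div_ne_zero hU hB, fun σ hσ => ?_, ?_⟩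
  · rw [map_div₀, inv_ev l U σ hσ, inv_ev l B σ hσ]
  · have h2 := congrArg (ev l) p3
    rw [map_mul, map_mul, map_pow] at h2
    rw [hAB, div_pow, ← mul_div_assoc, ← h2]
    field_simp

omit [IsAlgClosed Ω] in
theorem odd [IsAlgClosed C] (l : Ω × Ω) (Ψ Φ : P2 C) (hl : Cur C l) (hΨ : Squarefree Ψ)
    (h1 : ev l Ψ = 0) (h2 : ev l Φ ≠ 0) :
    ∃ Ψ' A : P2 C, Squarefree Ψ' ∧ A ≠ 0 ∧ Ψ * Φ = Ψ' * A ^ 2 ∧ ev l Ψ' = 0 := by
  obtain ⟨π, hπ, hk⟩ := curve l hl.ng hl.nc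
  have hΦ : Φ ≠ 0 := fun h => h2 (by rw [h, map_zero])
  obtain ⟨Ψ', A, p1, p2, p3⟩ := sqfree (Ψ * Φ) (mul_ne_zero hΨ.ne_zero hΦ)
  refine ⟨Ψ', A, p1, p2, p3, (hk _).2 ?_⟩
  have d1 : π ∣ Ψ' * A ^ 2 := p3 ▸ ((hk _).1 h1).mul_right _
  rcases hπ.dvd_or_dvd d1 with d2 | d2
  · exact d2
  · have d3 : π ^ 2 ∣ Ψ * Φ := p3 ▸ (pow_dvd_pow_of_dvd (hπ.dvd_of_dvd_pow d2) 2).mul_left _
    have d4 : π ^ 2 ∣ Ψ := hπ.pow_dvd_of_dvd_mul_right 2 (fun h => h2 ((hk _).2 h)) d3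
    exact absurd (hΨ π (by rwa [← sq])) hπ.not_isUnit

end Bt

variable {C Ω : Type} [Field C] [IsAlgClosed C] [Field Ω] [CharZero Ω] [IsAlgClosed Ω] [Algebra C Ω]

theorem b3 (hS : Sf C Ω) : B3 C Ω :=
  ⟨curve, Bt.conj, Bt.evmap, Bt.dcl, Bt.sqf hS, Bt.odd⟩

end Pool.Agent.MP_249f74_an.H96A
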