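import Pool.Agent.MP_249f74_an.H96A.Spec

/-!
Existence of places with a nontrivial inertia element. The function field is embedded in an
algebraic closure of `Ω(s)`, where the place `s = 0` has an algebraically closed residue field.
-/

open Polynomial

namespace Pool.Agent.MP_249f74_an.H96A

namespace Place

/-- A root of a polynomial with a coefficient of nonzero value is finite or infinite. -/
lemma uinv {L Ω : Type} [Field L] [Field Ω] {B : Type} [CommRing B] [Algebra B L] (φ : B →+* Ω)
    (hB : ∀ x : L, IsIntegral B x → ∃ b, algebraMap B L b = x)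
    (hi : Function.Injective (algebraMap B L)) (x : L) (n : ℕ) :
    ∀ p : B[X], p.natDegree ≤ n → aeval x p = 0 → p.map φ ≠ 0 →
      (∃ d e : B, φ d ≠ 0 ∧ x * algebraMap B L d = algebraMap B L e) ∨
        ∃ d e : B, φ d ≠ 0 ∧ φ e = 0 ∧ x * algebraMap B L e = algebraMap B L d := by
  induction n with
  | zero =>
    intro p h1 h2 h3
    rw [eq_C_of_natDegree_le_zero h1] at h2 h3
    rw [aeval_C] at h2
    have h4 : p.coeff 0 = 0 := hi (by rw [h2, map_zero])
    simp [h4] at h3
  | succ n ih =>
    intro p h1 h2 h3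
    rcases h1.lt_or_eq with h4 | h4
    · exact ih p (by omega) h2 h3
    obtain ⟨y, hy⟩ := hB _ (isIntegral_leadingCoeff_smul p x h2)
    rw [Algebra.smul_def, mul_comm] at hy
    by_cases h5 : φ p.leadingCoeff = 0
    swap
    · exact Or.inl ⟨_, y, h5, hy.symm⟩
    by_cases h6 : φ y = 0
    swap
    · exact Or.inr ⟨y, _, h6, h5, hy.symm⟩
    have h7 := eraseLead_add_monomial_natDegree_leadingCoeff p
    refine ih (p.eraseLead + monomial n y) ?_ ?_ ?_
    · refine (natDegree_add_le _ _).trans (max_le ?_ (natDegree_monomial_le _))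
      have := eraseLead_natDegree_le p
      omega
    · rw [← h7, map_add, aeval_monomial, h4] at h2
      rw [map_add, aeval_monomial, hy]
      linear_combination h2
    · rw [← h7, Polynomial.map_add, Polynomial.map_monomial, h5, monomial_zero_right] at h3
      rwa [Polynomial.map_add, Polynomial.map_monomial, h6, monomial_zero_right]

/-- Primes of the integral closure over the same prime are conjugate. -/
lemma conj {A F L : Type} [CommRing A] [IsDomain A] [IsIntegrallyClosed A] [Field F] [Algebra A F]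
    [IsFractionRing A F] [Field L] [Algebra F L] [Algebra A L] [IsScalarTower A F L] [IsGalois F L]
    (P Q : Ideal (integralClosure A L)) [P.IsPrime] [Q.IsPrime] (h : P.under A = Q.under A) :
    ∃ g : L ≃ₐ[F] L, ∀ b ∈ P, g • b ∈ Q := by
  letI : TopologicalSpace (integralClosure A L) := ⊥
  haveI : DiscreteTopology (integralClosure A L) := ⟨rfl⟩
  haveI : ContinuousSMul (L ≃ₐ[F] L) (integralClosure A L) := by
    rw [continuousSMul_iff_stabilizer_isOpen]
    intro b
    convert stabilizer_isOpen_of_isIntegral (K := F) (b : L) using 2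
    ext g
    rw [MulAction.mem_stabilizer_iff, MulAction.mem_stabilizer_iff, Subtype.ext_iff]
    rfl
  haveI : Algebra.IsInvariant A (integralClosure A L) (L ≃ₐ[F] L) := ⟨fun b hb => by
    obtain ⟨x, hx⟩ := (InfiniteGalois.mem_bot_iff_fixed (k := F) (b : L)).2
      fun g => congrArg Subtype.val (hb g)
    have h1 : IsIntegral A x := by
      rw [← isIntegral_algHom_iff (IsScalarTower.toAlgHom A F L) (algebraMap F L).injective]
      exact (show algebraMap F L x = b from hx) ▸ b.2
    obtain ⟨a, rfl⟩ := IsIntegrallyClosed.isIntegral_iff.1 h1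
    exact ⟨a, Subtype.ext ((IsScalarTower.algebraMap_apply A F L a).trans hx)⟩⟩
  obtain ⟨g, hg⟩ := Algebra.IsInvariant.exists_smul_of_under_eq_of_profinite
    (G := L ≃ₐ[F] L) P Q h
  exact ⟨g, fun b hb => hg ▸ Ideal.smul_mem_pointwise_smul g b P hb⟩

/-- A homomorphism onto an algebraically closed field extends to an integral extension. -/
lemma extend {A B Ω : Type} [CommRing A] [CommRing B] [Field Ω] [IsAlgClosed Ω] [Algebra A B]
    [Algebra.IsIntegral A B] (hi : Function.Injective (algebraMap A B)) (e : A →+* Ω)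
    (c : Ω →+* A) (hc : ∀ x, e (c x) = x) : ∃ φ : B →+* Ω, ∀ a, φ (algebraMap A B a) = e a := by
  haveI := RingHom.ker_isPrime e
  obtain ⟨Q, -, hQ, h⟩ := Ideal.exists_ideal_over_prime_of_isIntegral (S := B) (RingHom.ker e) ⊥
    (fun a ha => by
      have h1 : a = 0 := hi (by rw [map_zero]; exact ha)
      rw [h1]; exact zero_mem _)
  let f : Ω →+* B ⧸ Q := (Ideal.Quotient.mk Q).comp ((algebraMap A B).comp c)
  have h1 : f.comp e = (Ideal.Quotient.mk Q).comp (algebraMap A B) := by
    ext a
    refine Ideal.Quotient.eq.2 ?_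
    have h2 : c (e a) - a ∈ Q.comap (algebraMap A B) := by
      rw [h, RingHom.mem_ker, map_sub, hc, sub_self]
    simpa using h2
  have h2 : f.IsIntegral := fun x => by
    obtain ⟨b, rfl⟩ := Ideal.Quotient.mk_surjective x
    obtain ⟨p, p1, p2⟩ := Algebra.IsIntegral.isIntegral (R := A) b
    refine ⟨p.map e, p1.map e, ?_⟩
    rw [eval₂_map, h1, ← hom_eval₂, p2, map_zero]
  let g := RingEquiv.ofBijective f (IsAlgClosed.ringHom_bijective_of_isIntegral f h2)
  refine ⟨g.symm.toRingHom.comp (Ideal.Quotient.mk Q), fun a => ?_⟩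
  exact g.symm_apply_eq.2 (RingHom.congr_fun h1 a).symm

/-- A place over `s = 0` and an element of its inertia group that sends `s` to `-s`. -/
structure Pz (E L : Type) [Field E] [Field L] [Algebra E[X] L] where
  /-- specialization -/
  sp : L → E → Prop
  /-- the inertia element -/
  σ : L ≃+* L
  fn : ∀ {a b b'}, sp a b → sp a b' → b = b'
  base : ∀ p : E[X], sp (algebraMap _ L p) (p.eval 0)
  add : ∀ {a b a' b'}, sp a b → sp a' b' → sp (a + a') (b + b')
  mul : ∀ {a b a' b'}, sp a b → sp a' b' → sp (a * a') (b * b')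
  tot : ∀ a, (∃ b, sp a b) ∨ (a ≠ 0 ∧ sp a⁻¹ 0)
  ine : ∀ {a b}, sp a b → sp (σ a) b
  neg : ∀ p : E[X], σ (algebraMap _ L p) = algebraMap _ L (p.comp (-X))

lemma univ (E F L : Type) [Field E] [IsAlgClosed E] [Field F] [Algebra E[X] F]
    [IsFractionRing E[X] F] [Field L] [IsAlgClosed L] [Algebra F L] [Algebra E[X] L]
    [IsScalarTower E[X] F L] [IsGalois F L] : Nonempty (Pz E L) := by
  have hi : Function.Injective (algebraMap E[X] L) := by
    rw [IsScalarTower.algebraMap_eq E[X] F L]
    exact (algebraMap F L).injective.comp (IsFractionRing.injective E[X] F)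
  haveI : Module.IsTorsionFree E[X] L := Module.isTorsionFree_iff_algebraMap_injective.2 hi
  haveI : Algebra.IsAlgebraic E[X] L := ⟨fun x =>
    (IsFractionRing.isAlgebraic_iff E[X] F L).2 (Algebra.IsAlgebraic.isAlgebraic x)⟩
  haveI : IsAlgClosure E[X] L := ⟨inferInstance, inferInstance⟩
  obtain ⟨φ, hφ⟩ := extend (B := integralClosure E[X] L)
    (fun a b h => hi (congrArg Subtype.val h)) (evalRingHom 0) C (fun x => eval_C)
  let n : E[X] ≃+* E[X] := algEquivAevalNegX.toRingEquiv
  have hn : ∀ p, n p = p.comp (-X) := fun p => (comp_eq_aeval).symm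
  let g0 : L ≃+* L := IsAlgClosure.equivOfEquiv L L n
  have h0 : ∀ p : E[X], g0 (algebraMap _ L p) = algebraMap _ L (p.comp (-X)) := fun p => by
    rw [← hn]; exact IsAlgClosure.equivOfEquiv_algebraMap L L n p
  let g1 : integralClosure E[X] L →+* integralClosure E[X] L :=
    (g0.toRingHom.comp (integralClosure E[X] L).val.toRingHom).codRestrict _ fun b =>
      IsIntegral.map_of_comp_eq n.toRingHom g0.toRingHom
        (RingHom.ext fun p => (IsAlgClosure.equivOfEquiv_algebraMap L L n p).symm) b.2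
  have h1 : ∀ p : E[X], g1 (algebraMap _ _ p) = algebraMap _ _ (p.comp (-X)) := fun p =>
    Subtype.ext (h0 p)
  haveI := RingHom.ker_isPrime φ
  haveI := RingHom.ker_isPrime (φ.comp g1)
  obtain ⟨g, hg⟩ := conj (F := F) (RingHom.ker φ) (RingHom.ker (φ.comp g1)) (by
    ext a
    simp only [Ideal.under, Ideal.mem_comap, RingHom.mem_ker, RingHom.comp_apply, h1, hφ]
    simp [eval_comp])
  have h2 : ∀ p : E[X], g • algebraMap _ (integralClosure E[X] L) p = algebraMap _ _ p := fun p =>
    Subtype.ext (by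
      change g (algebraMap _ L p) = algebraMap _ L p
      rw [IsScalarTower.algebraMap_apply E[X] F L, AlgEquiv.commutes])
  have h3 : ∀ b, φ (g1 (g • b)) = φ b := fun b => by
    have h4 := hg (b - algebraMap _ _ (C (φ b))) (by rw [RingHom.mem_ker, map_sub, hφ]; simp)
    rw [RingHom.mem_ker, smul_sub, h2, RingHom.comp_apply, map_sub, h1, map_sub, hφ] at h4
    simpa [sub_eq_zero] using h4
  refine ⟨{
    sp := fun a b => ∃ d e : integralClosure E[X] L, φ d ≠ 0 ∧ a * d = e ∧ φ e = b * φ d
    σ := g.toRingEquiv.trans g0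
    fn := ?_, base := ?_, add := ?_, mul := ?_, tot := ?_, ine := ?_, neg := ?_ }⟩
  · rintro a b b' ⟨d, e, k1, k2, k3⟩ ⟨d', e', k4, k5, k6⟩
    have k7 : e * d' = e' * d := Subtype.ext (by
      push_cast
      rw [← k2, ← k5]; ring)
    have k8 := congrArg φ k7
    rw [map_mul, map_mul, k3, k6] at k8
    exact mul_right_cancel₀ (mul_ne_zero k1 k4) (by linear_combination k8)
  · exact fun p => ⟨1, algebraMap _ _ p, by simp, by simp, by simp [hφ]⟩
  · rintro a b a' b' ⟨d, e, k1, k2, k3⟩ ⟨d', e', k4, k5, k6⟩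
    refine ⟨d * d', e * d' + e' * d, by simp [k1, k4], ?_, ?_⟩
    · push_cast
      rw [← k2, ← k5]; ring
    · simp only [map_add, map_mul, k3, k6]; ring
  · rintro a b a' b' ⟨d, e, k1, k2, k3⟩ ⟨d', e', k4, k5, k6⟩
    refine ⟨d * d', e * e', by simp [k1, k4], ?_, ?_⟩
    · push_cast
      rw [← k2, ← k5]; ring
    · simp only [map_mul, k3, k6]; ring
  · intro x
    obtain ⟨p, p0, p1⟩ := Algebra.IsAlgebraic.isAlgebraic (R := E[X]) x
    obtain ⟨m, q, q1, rfl⟩ := WfDvdMonoid.max_power_factor' p0
      (x := C X) (fun h => not_isUnit_X (isUnit_C.1 h))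
    rw [map_mul, map_pow, aeval_C] at p1
    have q2 := (mul_eq_zero.1 p1).resolve_left
      (pow_ne_zero _ ((map_ne_zero_iff _ hi).2 X_ne_zero))
    rcases uinv φ (fun y hy => ⟨⟨y, isIntegral_trans y hy⟩, rfl⟩) Subtype.val_injective x _
      (q.map (algebraMap _ _)) le_rfl (by rwa [aeval_map_algebraMap]) (fun h => q1 (by
        rw [C_dvd_iff_dvd_coeff]
        intro i
        have h5 := congrArg (fun r => coeff r i) h
        simp only [coeff_map, hφ, coeff_zero] at h5
        rw [X_dvd_iff, coeff_zero_eq_eval_zero]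
        exact h5)) with ⟨d, e, k1, k2⟩ | ⟨d, e, k1, k2, k3⟩
    · exact Or.inl ⟨φ e / φ d, d, e, k1, k2, (div_mul_cancel₀ _ k1).symm⟩
    · have k4 : x ≠ 0 := by
        rintro rfl
        have k5 : d = 0 := Subtype.ext (by rw [zero_mul] at k3; exact k3.symm)
        exact k1 (by rw [k5, map_zero])
      refine Or.inr ⟨k4, d, e, k1, ?_, by rw [k2, zero_mul]⟩
      rw [inv_mul_eq_iff_eq_mul₀ k4]
      exact k3.symm
  · rintro a b ⟨d, e, k1, k2, k3⟩
    refine ⟨g1 (g • d), g1 (g • e), by rwa [h3], ?_, by rwa [h3, h3]⟩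
    change g0 (g a) * g0 (g d) = g0 (g e)
    rw [← map_mul, ← map_mul, k2]
  · intro p
    change g0 (g _) = _
    rw [← h0]
    exact congrArg (fun t : integralClosure E[X] L => g0 t) (h2 p)

/-- Square roots of invariant units are invariant. -/
lemma unit {E L : Type} [Field E] [CharZero E] [Field L] [Algebra E[X] L] (P : Pz E L) (u : E[X])
    (h0 : u.eval 0 ≠ 0) (h1 : u.comp (-X) = u) (r : L) (hr : r ^ 2 = algebraMap _ L u) :
    P.σ r = r := by
  have h2 : P.σ r ^ 2 = r ^ 2 := by rw [← map_pow, hr, P.neg, h1]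
  refine (sq_eq_sq_iff_eq_or_eq_neg.1 h2).resolve_right fun h3 => ?_
  have z0 := P.base 0
  have z1 := P.base 1
  rw [map_zero, eval_zero] at z0
  rw [map_one, eval_one] at z1
  have h4 := P.base u
  rw [← hr] at h4
  rcases P.tot r with ⟨b, hb⟩ | ⟨r0, hb⟩
  · have h5 := P.add hb (P.ine hb)
    rw [h3, add_neg_cancel] at h5
    have h6 : b = 0 := add_self_eq_zero.1 (P.fn h5 z0)
    have h7 := P.mul hb hb
    rw [← sq, h6, mul_zero] at h7
    exact h0 (P.fn h4 h7)
  · have h5 := P.mul (P.mul hb hb) h4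
    rw [show r⁻¹ * r⁻¹ * r ^ 2 = 1 by field_simp, zero_mul, zero_mul] at h5
    exact one_ne_zero (P.fn z1 h5)

/-- Restriction of an automorphism to a relative algebraic closure. -/
lemma pull {R E L : Type} [CommRing R] [IsDomain R] [Field E] [IsAlgClosed E] [Field L]
    [IsAlgClosed L] (a : R →+* E) (b : R →+* L) (ha : Function.Injective a)
    (hb : Function.Injective b) (hg : ∀ x, ∃ p : R[X], p ≠ 0 ∧ eval₂ a x p = 0) (σ : L ≃+* L)
    (hσ : ∀ r, σ (b r) = b r) : ∃ (j : E →+* L) (τ : E ≃+* E),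
      (∀ r, j (a r) = b r) ∧ (∀ r, τ (a r) = a r) ∧ ∀ x, j (τ x) = σ (j x) := by
  letI := a.toAlgebra
  letI := b.toAlgebra
  haveI : Module.IsTorsionFree R E := Module.isTorsionFree_iff_algebraMap_injective.2 ha
  haveI : Module.IsTorsionFree R L := Module.isTorsionFree_iff_algebraMap_injective.2 hb
  haveI : Algebra.IsAlgebraic R E := ⟨hg⟩
  let j : E →+* L := (IsAlgClosed.lift : E →ₐ[R] L).toRingHom
  have h1 : ∀ r, j (a r) = b r := (IsAlgClosed.lift : E →ₐ[R] L).commutes
  have h2 : ∀ x, σ (j x) ∈ j.range := fun x => by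
    obtain ⟨p, p0, p1⟩ := hg x
    refine (IsAlgClosed.splits (p.map a)).mem_range_of_isRoot
      ((Polynomial.map_ne_zero_iff ha).2 p0) ?_
    have h3 := congrArg (σ.toRingHom.comp j) p1
    rw [hom_eval₂, map_zero] at h3
    rw [IsRoot, Polynomial.map_map, eval_map]
    have h4 : j.comp a = (σ.toRingHom.comp j).comp a := RingHom.ext fun r => by
      change j (a r) = σ (j (a r))
      rw [h1, hσ]
    rw [h4]
    exact h3
  choose t ht using h2
  let τ : E →ₐ[R] E :=
    { toFun := t
      map_one' := j.injective (by simp [ht])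
      map_mul' := fun x y => j.injective (by simp [ht])
      map_zero' := j.injective (by simp [ht])
      map_add' := fun x y => j.injective (by simp [ht])
      commutes' := fun r => j.injective (by
        change j (t (a r)) = j (a r)
        rw [ht, h1, hσ]) }
  exact ⟨j, (AlgEquiv.ofBijective τ (Algebra.IsAlgebraic.algHom_bijective τ)).toRingEquiv, h1,
    τ.commutes, ht⟩

variable {C Ω ι : Type} [Field C] [Field Ω] [Algebra C Ω]

open Classical in
/-- Restriction to a coordinate line. -/
noncomputable def th (k : ι → Ω) (j : ι) : MvPolynomial ι C →ₐ[C] Polynomial Ω :=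
  MvPolynomial.aeval fun i => Polynomial.C (k i) + if i = j then X else 0

lemma th0 (k : ι → Ω) (j : ι) (F : MvPolynomial ι C) :
    (th k j F).coeff 0 = MvPolynomial.aeval k F := by
  induction F using MvPolynomial.induction_on with
  | C a => simp [th, Polynomial.algebraMap_apply]
  | add p q hp hq => simp [hp, hq]
  | mul_X p i hp =>
    rw [map_mul, map_mul, mul_coeff_zero, hp]
    by_cases h : i = j <;> simp [th, h]

lemma th1 (k : ι → Ω) (j : ι) (F : MvPolynomial ι C) :
    (th k j F).coeff 1 = MvPolynomial.aeval k (MvPolynomial.pderiv j F) := by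
  induction F using MvPolynomial.induction_on with
  | C a => simp [th, Polynomial.algebraMap_apply, coeff_C]
  | add p q hp hq => simp [hp, hq]
  | mul_X p i hp =>
    rw [map_mul, MvPolynomial.pderiv_mul, map_add, map_mul, map_mul, ← hp, ← th0 k j p]
    generalize th k j p = w
    by_cases h : i = j
    · simp [th, h, mul_add, coeff_mul_X]
    · simp [th, h, MvPolynomial.pderiv_X_of_ne h]

lemma pd [CharZero C] {π : MvPolynomial ι C} (hπ : Prime π) :
    ∃ j, ¬π ∣ MvPolynomial.pderiv j π := by
  by_contra h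
  push Not at h
  have h2 : ∀ j, MvPolynomial.pderiv j π = 0 := fun j => by
    by_contra h3
    have h4 := MvPolynomial.totalDegree_le_of_dvd_of_isDomain (h j) h3
    have h5 := H88.totalDegree_pderiv_lt h3
    omega
  have h3 : π.totalDegree = 0 := by
    rw [MvPolynomial.totalDegree_eq_zero_iff]
    intro m hm j
    by_contra h4
    have h5 := MvPolynomial.coeff_pderiv (i := j) π (m - Finsupp.single j 1)
    have h6 : m - Finsupp.single j 1 + Finsupp.single j 1 = m := by
      apply tsub_add_cancel_of_le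
      rw [Finsupp.single_le_iff]; omega
    rw [h2, h6, MvPolynomial.coeff_zero] at h5
    rcases mul_eq_zero.1 h5.symm with h7 | h7
    · exact (MvPolynomial.mem_support_iff.1 hm) h7
    · exact Nat.cast_add_one_ne_zero _ h7
  rw [MvPolynomial.totalDegree_eq_zero_iff_eq_C] at h3
  refine hπ.not_isUnit ?_
  rw [h3]
  refine IsUnit.map _ (Ne.isUnit fun h4 => hπ.ne_zero ?_)
  rw [h3, h4, map_zero]

end Place

variable {C Ω : Type} [Field C] [IsAlgClosed C] [Field Ω] [CharZero Ω] [IsAlgClosed Ω] [Algebra C Ω]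

open Place in
theorem place : PLACE C Ω := by
  intro ι l k π Ψ hl hcl hπ hk hΨ hd
  haveI : CharZero C := (algebraMap C Ω).charZero
  obtain ⟨i0, h0⟩ := pd hπ
  rw [← hk, ← th1 k i0] at h0
  let F := FractionRing (Polynomial Ω)
  haveI : CharZero F :=
    charZero_of_injective_algebraMap (IsFractionRing.injective (Polynomial Ω) F)
  let L := AlgebraicClosure F
  obtain ⟨P⟩ := univ Ω F L
  have hi : Function.Injective (algebraMap (Polynomial Ω) L) := by
    rw [IsScalarTower.algebraMap_eq (Polynomial Ω) F L]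
    exact (algebraMap F L).injective.comp (IsFractionRing.injective (Polynomial Ω) F)
  have h1 : Function.Injective (th (C := C) k i0) := by
    rw [injective_iff_map_eq_zero]
    intro G hG
    by_contra G0
    obtain ⟨n, G', g1, rfl⟩ := WfDvdMonoid.max_power_factor G0 hπ.irreducible
    rw [map_mul, map_pow] at hG
    rcases mul_eq_zero.1 hG with h | h
    · exact h0 (by rw [pow_eq_zero_iff'.1 h |>.1, coeff_zero])
    · exact g1 ((hk _).1 (by rw [← th0 k i0, h, coeff_zero]))
  have h2 : ∀ q : Polynomial Ω, (expand Ω 2 q).comp (-X) = expand Ω 2 q := fun q => by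
    rw [expand_eq_comp_X_pow, comp_assoc]; simp
  have h3 : ∀ q : Polynomial Ω, (expand Ω 2 q).eval 0 = q.coeff 0 := fun q => by
    rw [expand_eval, coeff_zero_eq_eval_zero]; simp
  obtain ⟨j, τ, j1, j2, j3⟩ := pull (MvPolynomial.aeval l : MvPolynomial ι C →ₐ[C] Ω).toRingHom
    ((algebraMap (Polynomial Ω) L).comp
      ((expand Ω 2).toRingHom.comp (th (C := C) k i0).toRingHom))
    hl (hi.comp ((expand_injective two_pos).comp h1)) (fun x => by
      obtain ⟨p, p0, p1⟩ := H88.mem_cl.1 (hcl x)
      refine ⟨p.map hl.aevalEquiv.symm.toRingEquiv.toRingHom,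
        (Polynomial.map_ne_zero_iff hl.aevalEquiv.symm.injective).2 p0, ?_⟩
      rw [eval₂_map, ← p1, aeval_def]
      congr 1
      ext y
      obtain ⟨y, rfl⟩ := hl.aevalEquiv.surjective y
      simp) P.σ (fun r => (P.neg _).trans (congrArg _ (h2 _)))
  have j4 : ∀ G, j (MvPolynomial.aeval l G) = algebraMap _ L (expand Ω 2 (th k i0 G)) := j1
  have j5 : ∀ G : MvPolynomial ι C, τ (MvPolynomial.aeval l G) = MvPolynomial.aeval l G := j2
  have h4 : ∀ G : MvPolynomial ι C,
      P.sp (j (MvPolynomial.aeval l G)) (MvPolynomial.aeval k G) := fun G => by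
    rw [j4, ← th0 k i0, ← h3]; exact P.base _
  refine ⟨{
    sp := fun a b => P.sp (j a) b
    σ := AlgEquiv.ofRingEquiv (f := τ) fun c => by simpa using j5 (MvPolynomial.C c)
    fn := P.fn
    cst := fun c => by simpa using h4 (MvPolynomial.C c)
    add := fun h h' => by rw [map_add]; exact P.add h h'
    mul := fun h h' => by rw [map_mul]; exact P.mul h h'
    tot := fun a => (P.tot (j a)).imp id fun h =>
      ⟨(map_ne_zero j).1 h.1, by rw [map_inv₀]; exact h.2⟩
    ine := fun h => (j3 _).symm ▸ P.ine h }, fun i => ⟨?_, ?_⟩, fun r hr => ?_⟩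
  · simpa using h4 (MvPolynomial.X i)
  · simpa using j5 (MvPolynomial.X i)
  obtain ⟨Ψ', rfl⟩ := hd
  have h5 : (th k i0 π).coeff 0 = 0 := by rw [th0]; exact (hk _).2 dvd_rfl
  have h6 : (th k i0 Ψ').coeff 0 ≠ 0 := fun h =>
    hπ.not_isUnit (hΨ _ (mul_dvd_mul_left _ ((hk _).1 (th0 k i0 Ψ' ▸ h))))
  obtain ⟨q, hq⟩ := X_dvd_iff.2 h5
  rw [hq, coeff_X_mul] at h0
  have s0 : algebraMap (Polynomial Ω) L X ≠ 0 := (map_ne_zero_iff _ hi).2 X_ne_zero
  have h7 := unit P (expand Ω 2 (q * th k i0 Ψ'))
    (by rw [h3, mul_coeff_zero]; exact mul_ne_zero h0 h6) (h2 _)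
    (j r / algebraMap (Polynomial Ω) L X) (by
      rw [div_pow, ← map_pow j, hr, j4, map_mul, hq, div_eq_iff (pow_ne_zero _ s0)]
      simp only [map_mul, expand_X, map_pow]
      ring)
  rw [map_div₀, P.neg, X_comp, map_neg, div_neg, ← neg_div, div_left_inj' s0] at h7
  refine j.injective ((j3 r).trans ?_)
  rw [map_neg]
  exact neg_eq_iff_eq_neg.1 h7

end Pool.Agent.MP_249f74_an.H96A
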