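import Pool.Agent.MP_249f74_an.H96A.Spec

/-!
Calculus of places.
-/

open Polynomial

namespace Pool.Agent.MP_249f74_an.H96A

variable {C Ω : Type} [Field C] [Field Ω] [Algebra C Ω]

namespace Lift

variable (P : Pl C Ω)

lemma sp0 : P.sp 0 0 := by simpa using P.cst 0

lemma sp1 : P.sp 1 1 := by simpa using P.cst 1

variable {P}

lemma neg {a b : Ω} (h : P.sp a b) : P.sp (-a) (-b) := by
  simpa using P.mul (P.cst (-1)) h

lemma sub {a b a' b' : Ω} (h : P.sp a b) (h' : P.sp a' b') : P.sp (a - a') (b - b') := by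
  rw [sub_eq_add_neg, sub_eq_add_neg]
  exact P.add h (neg h')

lemma ne {a b : Ω} (h : P.sp a b) (hb : b ≠ 0) : a ≠ 0 := by
  rintro rfl
  exact hb (P.fn h (sp0 P))

lemma inv {a b : Ω} (h : P.sp a b) (hb : b ≠ 0) : P.sp a⁻¹ b⁻¹ := by
  rcases P.tot a⁻¹ with ⟨b', h'⟩ | ⟨-, h'⟩
  · have h1 := P.mul h h'
    rw [mul_inv_cancel₀ (ne h hb)] at h1
    rw [← eq_inv_of_mul_eq_one_right (P.fn h1 (sp1 P))]
    exact h'
  · rw [inv_inv] at h'
    exact absurd (P.fn h h') hb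

lemma pow {a b : Ω} (h : P.sp a b) (n : ℕ) : P.sp (a ^ n) (b ^ n) := by
  induction n with
  | zero => simpa using sp1 P
  | succ n ih => rw [pow_succ, pow_succ]; exact P.mul ih h

lemma sum {ι : Type} (s : Finset ι) {a b : ι → Ω} (h : ∀ i ∈ s, P.sp (a i) (b i)) :
    P.sp (∑ i ∈ s, a i) (∑ i ∈ s, b i) := by
  classical
  induction s using Finset.induction_on with
  | empty => simpa using sp0 P
  | insert i s hi ih =>
    rw [Finset.sum_insert hi, Finset.sum_insert hi]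
    exact P.add (h i (Finset.mem_insert_self _ _))
      (ih fun j hj => h j (Finset.mem_insert_of_mem hj))

lemma ev_sp {l k : Ω × Ω} (F : P2 C) (h1 : P.sp l.1 k.1) (h2 : P.sp l.2 k.2) :
    P.sp (ev l F) (ev k F) := by
  induction F using MvPolynomial.induction_on with
  | C a => simpa [ev] using P.cst a
  | add p q hp hq => rw [map_add, map_add]; exact P.add hp hq
  | mul_X p i hp =>
    rw [map_mul, map_mul]
    refine P.mul hp ?_
    fin_cases i
    · simpa [ev] using h1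
    · simpa [ev] using h2

lemma unit [CharZero Ω] {a b r : Ω} (h : P.sp a b) (hb : b ≠ 0) (hσ : P.σ a = a)
    (hr : r ^ 2 = a) : P.σ r = r := by
  rcases P.tot r with ⟨b', h'⟩ | ⟨r0, h'⟩
  · have h1 : b' ^ 2 = b := P.fn (hr ▸ pow h' 2) h
    have h2 : P.σ r ^ 2 = r ^ 2 := by rw [← map_pow, hr, hσ]
    rcases sq_eq_sq_iff_eq_or_eq_neg.1 h2 with h3 | h3
    · exact h3
    · have h4 := P.ine h'
      rw [h3] at h4
      have h5 : b' = -b' := P.fn h4 (neg h')
      have h6 : b' = 0 := by linear_combination (1 / 2 : Ω) * h5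
      rw [h6] at h1
      exact absurd (by rw [← h1]; ring) hb
  · have h1 := P.mul h (P.mul h' h')
    have h2 : a * (r⁻¹ * r⁻¹) = 1 := by rw [← hr]; field_simp
    rw [h2, mul_zero, mul_zero] at h1
    exact absurd (P.fn (sp1 P) h1) one_ne_zero

variable (P) in
/-- Specialization of the coefficients. -/
def SP (p q : Polynomial Ω) : Prop := ∀ i, P.sp (p.coeff i) (q.coeff i)

lemma SP.deg {p q : Polynomial Ω} (h : SP P p q) (hq : q ≠ 0) :
    p ≠ 0 ∧ q.natDegree ≤ p.natDegree := by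
  have h1 : p.coeff q.natDegree ≠ 0 := ne (h _) (leadingCoeff_ne_zero.2 hq)
  exact ⟨by rintro rfl; exact h1 (coeff_zero _), le_natDegree_of_ne_zero h1⟩

lemma SP.eval {p q : Polynomial Ω} (h : SP P p q) {y b : Ω} (hy : P.sp y b) :
    P.sp (p.eval y) (q.eval b) := by
  rw [eval_eq_sum_range' (n := p.natDegree + q.natDegree + 1) (by omega),
    eval_eq_sum_range' (n := p.natDegree + q.natDegree + 1) (by omega)]
  exact sum _ fun i _ => P.mul (h i) (pow hy i)

lemma SP.add {p q p' q' : Polynomial Ω} (h : SP P p q) (h' : SP P p' q') :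
    SP P (p + p') (q + q') := fun i => by
  rw [coeff_add, coeff_add]
  exact P.add (h i) (h' i)

lemma SP.mul {p q p' q' : Polynomial Ω} (h : SP P p q) (h' : SP P p' q') :
    SP P (p * p') (q * q') := fun i => by
  rw [coeff_mul, coeff_mul]
  exact sum _ fun x _ => P.mul (h _) (h' _)

lemma sp_C {a b : Ω} (h : P.sp a b) : SP P (Polynomial.C a) (Polynomial.C b) := fun i => by
  rw [coeff_C, coeff_C]
  split_ifs
  exacts [h, sp0 P]

lemma sp_X : SP P X X := fun i => by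
  rw [coeff_X]
  split_ifs
  exacts [sp1 P, sp0 P]

lemma sec_sp {l k : Ω × Ω} (f : P2 C) (h1 : P.sp l.1 k.1) (h2 : P.sp l.2 k.2) :
    SP P (sec f l) (sec f k) := by
  unfold sec
  induction f using MvPolynomial.induction_on with
  | C a =>
    rw [MvPolynomial.aeval_C, MvPolynomial.aeval_C, Polynomial.algebraMap_apply]
    exact sp_C (P.cst a)
  | add p q hp hq => rw [map_add, map_add]; exact hp.add hq
  | mul_X p i hp =>
    rw [map_mul, map_mul, MvPolynomial.aeval_X, MvPolynomial.aeval_X]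
    refine hp.mul ?_
    fin_cases i
    · exact (sp_C h2).add ((sp_C h1).mul sp_X)
    · exact sp_X

/-- Division by a finite root. -/
lemma SP.div {p q : Polynomial Ω} {y b : Ω} (h : SP P ((X - Polynomial.C y) * p) ((X - Polynomial.C b) * q))
    (hy : P.sp y b) : SP P p q := by
  have key : ∀ k i, p.natDegree + q.natDegree + 1 ≤ i + k → P.sp (p.coeff i) (q.coeff i) := by
    intro k
    induction k with
    | zero =>
      intro i hi
      rw [coeff_eq_zero_of_natDegree_lt (by omega), coeff_eq_zero_of_natDegree_lt (by omega)]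
      exact sp0 P
    | succ k ih =>
      intro i hi
      have h1 := P.add (h (i + 1)) (P.mul hy (ih (i + 1) (by omega)))
      simpa only [sub_mul, coeff_sub, coeff_X_mul, coeff_C_mul, sub_add_cancel] using h1
  exact fun i => key _ i (Nat.le_add_left _ _)

/-- Division by an infinite root. -/
lemma SP.inf {p q : Polynomial Ω} {z : Ω} (h : SP P ((1 - Polynomial.C z * X) * p) q) (hz : P.sp z 0) :
    SP P p q := by
  intro i
  induction i with
  | zero => simpa using h 0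
  | succ i ih =>
    have h1 := P.add (h (i + 1)) (P.mul hz ih)
    simpa only [sub_mul, one_mul, mul_assoc, coeff_sub, coeff_X_mul, coeff_C_mul, sub_add_cancel,
      zero_mul, add_zero] using h1

lemma split_fin {p q : Polynomial Ω} {y b : Ω} (h : SP P p q) (hy : p.eval y = 0)
    (hb : P.sp y b) : ∃ p1 q1, p = (X - Polynomial.C y) * p1 ∧ q = (X - Polynomial.C b) * q1 ∧ SP P p1 q1 := by
  have h1 := h.eval hb
  rw [hy] at h1
  obtain ⟨p1, rfl⟩ : X - Polynomial.C y ∣ p := dvd_iff_isRoot.2 hy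
  obtain ⟨q1, rfl⟩ : X - Polynomial.C b ∣ q := dvd_iff_isRoot.2 (P.fn h1 (sp0 P))
  exact ⟨p1, q1, rfl, rfl, h.div hb⟩

lemma split_inf {p q : Polynomial Ω} {y : Ω} (h : SP P p q) (hp : p ≠ 0) (hy : p.eval y = 0)
    (y0 : y ≠ 0) (hb : P.sp y⁻¹ 0) :
    ∃ p1, SP P p1 q ∧ p1.natDegree < p.natDegree ∧ ∀ t, p1.eval t = 0 → p.eval t = 0 := by
  obtain ⟨p1, rfl⟩ : X - Polynomial.C y ∣ p := dvd_iff_isRoot.2 hy
  have h1 : (X - Polynomial.C y) * p1 = (1 - Polynomial.C y⁻¹ * X) * (Polynomial.C (-y) * p1) := by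
    have h2 : Polynomial.C y⁻¹ * Polynomial.C y = (1 : Polynomial Ω) := by rw [← C_mul, inv_mul_cancel₀ y0, C_1]
    rw [C_neg]
    linear_combination (-(X * p1)) * h2
  refine ⟨Polynomial.C (-y) * p1, SP.inf (h1 ▸ h) hb, ?_, fun t ht => ?_⟩
  · rw [natDegree_mul (X_sub_C_ne_zero y) (right_ne_zero_of_mul hp), natDegree_X_sub_C]
    have := natDegree_C_mul_le (-y) p1
    omega
  · rw [h1, eval_mul, ht, mul_zero]

lemma root [IsAlgClosed Ω] {b : Ω} (n : ℕ) : ∀ {p q : Polynomial Ω},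
    p.natDegree = n → SP P p q → q ≠ 0 → q.eval b = 0 → ∃ y, p.eval y = 0 ∧ P.sp y b := by
  induction n using Nat.strong_induction_on with
  | _ n ih =>
  intro p q hn h hq hb
  obtain ⟨hp, hd⟩ := h.deg hq
  have h1 : p.degree ≠ 0 := by
    intro h0
    have h2 : q.natDegree = 0 := by
      rw [natDegree_eq_of_degree_eq_some (n := 0) h0] at hd
      omega
    rw [eq_C_of_natDegree_eq_zero h2] at hb hq
    rw [eval_C] at hb
    exact hq (by rw [hb, C_0])
  obtain ⟨y, hy⟩ := IsAlgClosed.exists_root p h1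
  rcases P.tot y with ⟨b', h'⟩ | ⟨y0, h'⟩
  · obtain ⟨p1, q1, rfl, rfl, h2⟩ := split_fin h hy h'
    rw [eval_mul, eval_sub, eval_X, eval_C] at hb
    rcases mul_eq_zero.1 hb with hb | hb
    · exact ⟨y, hy, sub_eq_zero.1 hb ▸ h'⟩
    · have h3 : p1.natDegree < n := by
        rw [← hn, natDegree_mul (X_sub_C_ne_zero y) (right_ne_zero_of_mul hp), natDegree_X_sub_C]
        omega
      obtain ⟨t, ht, ht'⟩ := ih _ h3 rfl h2 (right_ne_zero_of_mul hq) hb
      exact ⟨t, by rw [eval_mul, ht, mul_zero], ht'⟩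
  · obtain ⟨p1, h2, h3, h4⟩ := split_inf h hp hy y0 h'
    obtain ⟨t, ht, ht'⟩ := ih _ (hn ▸ h3) rfl h2 hq hb
    exact ⟨t, h4 t ht, ht'⟩

lemma mult {b : Ω} (T : Finset Ω) : ∀ {p q : Polynomial Ω}, SP P p q → q ≠ 0 →
    (∀ y ∈ T, p.eval y = 0 ∧ P.sp y b) → T.card ≤ q.rootMultiplicity b := by
  classical
  induction T using Finset.induction_on with
  | empty => intro p q _ _ _; simp
  | insert y T hy ih =>
    intro p q h hq hT
    obtain ⟨h1, h2⟩ := hT y (Finset.mem_insert_self _ _)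
    obtain ⟨p1, q1, rfl, rfl, h3⟩ := split_fin h h1 h2
    have h4 := ih h3 (right_ne_zero_of_mul hq) fun t ht => by
      obtain ⟨h5, h6⟩ := hT t (Finset.mem_insert_of_mem ht)
      rw [eval_mul, eval_sub, eval_X, eval_C] at h5
      refine ⟨(mul_eq_zero.1 h5).resolve_left fun h7 => hy ?_, h6⟩
      rwa [← sub_eq_zero.1 h7]
    rw [Finset.card_insert_of_notMem hy, rootMultiplicity_mul hq, rootMultiplicity_X_sub_C_self]
    omega

lemma fin {p q : Polynomial Ω} {y : Ω} (h : SP P p q) (hq : q ≠ 0)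
    (hd : q.natDegree = p.natDegree) (hy : p.eval y = 0) : ∃ b, q.eval b = 0 ∧ P.sp y b := by
  rcases P.tot y with ⟨b, h'⟩ | ⟨y0, h'⟩
  · have h1 := h.eval h'
    rw [hy] at h1
    exact ⟨b, P.fn h1 (sp0 P), h'⟩
  · obtain ⟨p1, h2, h3, -⟩ := split_inf h (h.deg hq).1 hy y0 h'
    have := (h2.deg hq).2
    omega

lemma mem_pts (h2 : B2 C Ω) (m : Mir C) (l : Ω × Ω) (y : Ω) :
    y ∈ Pts m l ↔ (sec m.f l).eval y = 0 := by
  classical
  simp only [Pts, Multiset.mem_toFinset, mem_roots (h2.sec0 m l), IsRoot.def]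

lemma slope (h1 : B1 C Ω) {m : Mir C} {v : Vx Ω} (hv : m.On v) :
    v.w = -ev v.p (MvPolynomial.pderiv 1 m.f) * (ev v.p (MvPolynomial.pderiv 0 m.f))⁻¹ := by
  rw [eq_mul_inv_iff_mul_eq₀ (h1.fx m v hv)]
  linear_combination hv.sl

lemma step [IsAlgClosed Ω] (h1 : B1 C Ω) (h2 : B2 C Ω) (h3 : B3 C Ω) (m : Mir C)
    (l k k' : Ω × Ω) (u : Vx Ω) (hl : Gen C l) (hk : P.Sp l k) (hu : St m k u k') :
    ∃ v l', St m l v l' ∧ P.Sp l' k' ∧ P.sp v.y u.y ∧ P.σ v.y = v.y := by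
  classical
  have hsp := sec_sp m.f hk.s1 hk.s2
  have hq := h2.sec0 m k
  have hu0 : (sec m.f k).eval u.y = 0 := by
    rw [← mem_pts h2, h2.mem, ← hu.i0]
    exact hu.on.f0
  obtain ⟨y, hy, hyu⟩ := root _ rfl hsp hq hu0
  have hy' : (sec m.f l).eval (P.σ y) = 0 := by
    rw [← mem_pts h2, h2.mem] at hy ⊢
    have h4 := h3.evmap (l.2 + l.1 * y, y) P.σ m.f
    rw [hy, map_zero, mp, map_add, map_mul, hk.fx l.1 (by simp), hk.fx l.2 (by simp)] at h4
    exact h4
  have hσ : P.σ y = y := by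
    by_contra hne
    have h4 := mult (b := u.y) {P.σ y, y} hsp hq fun t ht => by
      rcases Finset.mem_insert.1 ht with rfl | ht
      · exact ⟨hy', P.ine hyu⟩
      · rw [Finset.mem_singleton.1 ht]
        exact ⟨hy, hyu⟩
    rw [Finset.card_pair hne] at h4
    exact h2.simple m k k' u hu ((one_lt_rootMultiplicity_iff_isRoot hq).1 h4).2
  obtain ⟨v, l', rfl, hv⟩ := h2.step m l y hl ((mem_pts h2 m l y).2 hy)
  have hx : P.sp v.x u.x := by
    rw [hv.i0, hu.i0]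
    exact P.add hk.s2 (P.mul hk.s1 hyu)
  have hw : P.sp v.w u.w := by
    rw [slope h1 hv.on, slope h1 hu.on]
    exact P.mul (neg (ev_sp _ hx hyu)) (inv (ev_sp _ hx hyu) (h1.fx m u hu.on))
  have hs : P.sp l'.1 k'.1 := by
    have e1 : l'.1 = l.1⁻¹ * v.w ^ 2 := by
      rw [eq_inv_mul_iff_mul_eq₀ (h2.s0 m l l' v hv), hv.rf]
    have e2 : k'.1 = k.1⁻¹ * u.w ^ 2 := by
      rw [eq_inv_mul_iff_mul_eq₀ (h2.s0 m k k' u hu), hu.rf]
    rw [e1, e2]
    exact P.mul (inv hk.s1 (h2.s0 m k k' u hu)) (pow hw 2)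
  have hc : P.sp l'.2 k'.2 := by
    rw [← sub_eq_of_eq_add hv.i1, ← sub_eq_of_eq_add hu.i1]
    exact sub hx (P.mul hs hyu)
  exact ⟨v, l', hv, ⟨hs, hc, (h2.fix m l l' v P.σ hv hk.fx hσ).2⟩, hyu, hσ⟩

lemma place (hS : Sf C Ω) (h3 : B3 C Ω) (hP : PLACE C Ω) (l k : Ω × Ω) (Ψ : P2 C)
    (hl : Gen C l) (hk : Cur C k) (hΨ : Squarefree Ψ) (h0 : ev k Ψ = 0) :
    ∃ P : Pl C Ω, P.Sp l k ∧ ∀ r, r ^ 2 = ev l Ψ → P.σ r = -r := by
  obtain ⟨π, hπ, hker⟩ := h3.curve k hk.ng hk.nc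
  have hr : Set.range ![l.1, l.2] = {l.1, l.2} := by
    ext t
    simp [or_comm]
  obtain ⟨P, hp1, hp2⟩ := hP (Fin 2) ![l.1, l.2] ![k.1, k.2] π Ψ (algebraicIndependent_iff.2 hl)
    (fun a => hr ▸ hS l hl a) hπ hker hΨ ((hker Ψ).1 h0)
  refine ⟨P, ⟨(hp1 0).1, (hp1 1).1, fun a ha => ?_⟩, hp2⟩
  rcases ha with rfl | rfl
  exacts [(hp1 0).2, (hp1 1).2]

end Lift

theorem lift [IsAlgClosed C] [CharZero Ω] [IsAlgClosed Ω] (hS : Sf C Ω) (h1 : B1 C Ω)
    (h2 : B2 C Ω) (h3 : B3 C Ω) (hP : PLACE C Ω) : LIFT C Ω where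
  inv _ _ _ := Lift.inv
  neg _ _ _ := Lift.neg
  ev _ _ _ := Lift.ev_sp
  unit _ _ _ _ := Lift.unit
  root _ _ _ _ h := Lift.root _ rfl h
  mult _ _ _ _ T h := Lift.mult T h
  fin _ _ _ _ h := Lift.fin h
  sec _ _ _ := Lift.sec_sp
  step _ := Lift.step h1 h2 h3
  place := Lift.place hS h3 hP

end Pool.Agent.MP_249f74_an.H96A
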