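import Pool.Agent.MP_249f74_an.H96A.Spec

/-!
Group theory: actions on finite sets and their signs.
-/

open Equiv Equiv.Perm

namespace Pool.Agent.MP_249f74_an.H96A

section
variable {α : Type} [Fintype α] [DecidableEq α]

theorem top_of_swap {N : Subgroup (Perm α)} (hN : N.Normal) {a b : α} (hab : a ≠ b)
    (h : swap a b ∈ N) : N = ⊤ := by
  rw [eq_top_iff, ← closure_isSwap, Subgroup.closure_le]
  rintro _ ⟨c, d, hcd, rfl⟩
  obtain ⟨g, hg⟩ := isConj_iff.1 (isConj_swap hab hcd)
  rw [← hg]; exact hN.conj_mem _ h g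

/-- A normal subgroup with an odd element is everything. -/
theorem top_of_odd {N : Subgroup (Perm α)} (hN : N.Normal) (π : Perm α) (hπ : π ∈ N)
    (ho : sign π = -1) : N = ⊤ := by
  induction hn : π.support.card using Nat.strong_induction_on generalizing π with
  | _ n ih =>
  have cm : ∀ a b, swap (π a) (π b) * swap a b ∈ N := by
    intro a b
    have := N.mul_mem hπ (hN.conj_mem _ (N.inv_mem hπ) (swap a b))
    rwa [swap_inv, ← mul_assoc, ← mul_assoc, ← swap_apply_apply] at this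
  by_cases h2 : ∀ a, π (π a) = a
  · obtain ⟨a, ha⟩ : ∃ a, π a ≠ a := by
      by_contra hh
      push Not at hh
      rw [show π = 1 from Equiv.ext hh] at ho
      simp at ho
    by_cases h3 : ∀ c, c ≠ a → c ≠ π a → π c = c
    · refine top_of_swap hN ha.symm ?_
      convert hπ using 1
      ext c
      rw [swap_apply_def]
      split_ifs with e1 e2
      · rw [e1]
      · rw [e2, h2]
      · exact (h3 c e1 e2).symm
    · push Not at h3
      obtain ⟨c, c1, c2, c3⟩ := h3
      have d1 : π c ≠ a := fun e => c2 (by rw [← e, h2])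
      have d2 : π c ≠ π a := fun e => c1 (π.injective e)
      have h4 := hN.conj_mem _ (cm a c) (swap (π a) c)
      have h5 : swap (π a) c * (swap (π a) (π c) * swap a c) * (swap (π a) c)⁻¹ =
          swap c (π c) * swap a (π a) := by
        rw [← MulAut.conj_apply, map_mul, MulAut.conj_apply, MulAut.conj_apply,
          ← swap_apply_apply, ← swap_apply_apply, swap_apply_left, swap_apply_right,
          swap_apply_of_ne_of_ne d2 c3, swap_apply_of_ne_of_ne ha.symm c1.symm]
      rw [h5] at h4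
      refine ih _ ?_ (π * (swap c (π c) * swap a (π a))) (N.mul_mem hπ h4) ?_ rfl
      · rw [← hn]
        refine Finset.card_lt_card ⟨?_, fun hh => ?_⟩
        · intro z hz
          rw [mem_support] at hz ⊢
          intro e
          apply hz
          have z1 : z ≠ a := fun k => ha (k ▸ e)
          have z2 : z ≠ π a := fun k => ha (by rw [k, h2] at e; exact e.symm)
          have z3 : z ≠ c := fun k => c3 (k ▸ e)
          have z4 : z ≠ π c := fun k => c3 (by rw [k, h2] at e; exact e.symm)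
          simp [swap_apply_of_ne_of_ne, z1, z2, z3, z4, e]
        · have := hh (mem_support.2 ha)
          rw [mem_support] at this
          apply this
          simp [swap_apply_of_ne_of_ne c2.symm d2.symm, h2]
      · simp [sign_swap c3.symm, sign_swap ha.symm, ho]
  · push Not at h2
    obtain ⟨a, ha⟩ := h2
    have a1 : π a ≠ a := fun e => ha (by rw [e, e])
    have a2 : π (π a) ≠ π a := fun e => a1 (π.injective e)
    have h3 : IsThreeCycle (swap (π a) (π (π a)) * swap (π a) a) :=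
      isThreeCycle_swap_mul_swap_same a2.symm a1 ha
    have h4 := cm a (π a)
    rw [swap_comm a] at h4
    have hA : alternatingGroup α ≤ N := by
      rw [← closure_three_cycles_eq_alternating, Subgroup.closure_le]
      intro t ht
      obtain ⟨g, hg⟩ := isConj_iff.1 (isConj_of_cycleType_eq (h3.cycleType.trans ht.symm))
      rw [← hg]; exact hN.conj_mem _ h4 g
    rw [eq_top_iff]
    intro g _
    rcases Int.units_eq_one_or (sign g) with e | e
    · exact hA e
    · have : g * π⁻¹ ∈ N := hA (by simp [mem_alternatingGroup, e, ho])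
      simpa using N.mul_mem this hπ

/-- A nontrivial character that is trivial on the kernel is the sign. -/
theorem char_sign {G : Type} [Group G] (ρ : G →* Perm α) (hρ : Function.Surjective ρ)
    (χ : G →* ℤˣ) (hχ : Function.Surjective χ) (hk : ∀ g, ρ g = 1 → χ g = 1) (g : G) :
    χ g = sign (ρ g) := by
  let s := ρ.liftOfSurjective hρ ⟨χ, hk⟩
  have hs : ∀ g, s (ρ g) = χ g := fun g => ρ.liftOfRightInverse_comp_apply _ _ _ g
  have : s = sign := eq_sign_of_surjective_hom (fun u => by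
    obtain ⟨g, rfl⟩ := hχ u; exact ⟨ρ g, hs g⟩)
  rw [← hs, this]

end

variable {C Ω : Type} [Field C] [Field Ω] [Algebra C Ω]

theorem stb_iff {σ : Ω ≃ₐ[C] Ω} {P : Finset Ω} (h : ∀ a ∈ P, σ a ∈ P) (a : Ω) :
    σ.toEquiv a ∈ P ↔ a ∈ P := by
  refine ⟨fun ha => ?_, h a⟩
  obtain ⟨b, hb, e⟩ := Finset.surj_on_of_inj_on_of_card_le (s := P) (t := P) (fun a _ => σ a) h
    (fun _ _ _ _ e => σ.injective e) le_rfl _ ha
  rwa [σ.injective e]

theorem sg_eq {α : Type} [Fintype α] [DecidableEq α] {σ : Ω ≃ₐ[C] Ω} {P : Finset Ω} (e : α ≃ P)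
    (π : Perm α) (h : ∀ a, σ (e a) = e (π a)) : sg σ P = sign π := by
  have hs : ∀ a ∈ P, σ a ∈ P := by
    intro a ha
    have := h (e.symm ⟨a, ha⟩)
    rw [e.apply_symm_apply] at this
    rw [this]; exact (e _).2
  unfold sg
  rw [dif_pos (stb_iff hs)]
  classical
  convert (sign_eq_sign_of_equiv π (subtypePerm σ.toEquiv (stb_iff hs) : Perm P) e
    (fun a => Subtype.ext (h a).symm)).symm

/-- The action on a stable finite set. -/
def act (H : Subgroup (Ω ≃ₐ[C] Ω)) (P : Finset Ω) (h : ∀ σ ∈ H, ∀ a ∈ P, σ a ∈ P) :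
    H →* Perm P where
  toFun σ := subtypePerm σ.1.toEquiv (stb_iff (h σ.1 σ.2))
  map_one' := rfl
  map_mul' _ _ := rfl

theorem act_apply (H : Subgroup (Ω ≃ₐ[C] Ω)) (P : Finset Ω) (h : ∀ σ ∈ H, ∀ a ∈ P, σ a ∈ P)
    (σ : H) (a : P) : (act H P h σ a : Ω) = σ.1 a := rfl

theorem sg_act [DecidableEq Ω] (H : Subgroup (Ω ≃ₐ[C] Ω)) (P : Finset Ω)
    (h : ∀ σ ∈ H, ∀ a ∈ P, σ a ∈ P) (σ : H) : sg σ.1 P = sign (act H P h σ) :=
  sg_eq (Equiv.refl _) _ (fun _ => rfl)

theorem Full.surj {H : Subgroup (Ω ≃ₐ[C] Ω)} {P : Finset Ω} (h : Full H P) :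
    Function.Surjective (act H P h.stb) := by
  intro π
  obtain ⟨σ, hσ, e⟩ := h.all π
  exact ⟨⟨σ, hσ⟩, Equiv.ext fun a => Subtype.ext (e a)⟩

theorem act_eq_one {H : Subgroup (Ω ≃ₐ[C] Ω)} {P : Finset Ω} {h : ∀ σ ∈ H, ∀ a ∈ P, σ a ∈ P}
    {σ : H} : act H P h σ = 1 ↔ ∀ a ∈ P, σ.1 a = a :=
  ⟨fun e a ha => by rw [← act_apply H P h σ ⟨a, ha⟩, e]; rfl,
    fun e => Equiv.ext fun a => Subtype.ext (e a a.2)⟩

/-- Removing a point. -/
def erEq [DecidableEq Ω] (P : Finset Ω) (y : Ω) : {x : P // (x : Ω) ≠ y} ≃ P.erase y where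
  toFun x := ⟨x.1.1, Finset.mem_erase.2 ⟨x.2, x.1.2⟩⟩
  invFun x := ⟨⟨x.1, (Finset.mem_erase.1 x.2).2⟩, (Finset.mem_erase.1 x.2).1⟩
  left_inv _ := rfl
  right_inv _ := rfl

theorem full_small (H : Subgroup (Ω ≃ₐ[C] Ω)) (P : Finset Ω) (h : ∀ σ ∈ H, ∀ a ∈ P, σ a ∈ P)
    (hc : P.card ≤ 1) : Full H P :=
  ⟨h, fun π => ⟨1, H.one_mem, fun a => Finset.card_le_one.1 hc _ a.2 _ (π a).2⟩⟩

theorem grp : GRP C Ω where
  mul σ τ P h1 h2 := by
    classical
    have h : ∀ g ∈ Subgroup.closure {σ, τ}, ∀ a ∈ P, g a ∈ P := by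
      intro g hg
      induction hg using Subgroup.closure_induction with
      | mem g hg => rcases hg with rfl | rfl; exacts [h1, h2]
      | one => exact fun a ha => ha
      | mul g g' _ _ k k' => exact fun a ha => k _ (k' a ha)
      | inv g _ k =>
        intro a ha
        exact (stb_iff k _).1 (by simpa using ha)
    have m1 : σ ∈ Subgroup.closure {σ, τ} := Subgroup.subset_closure (by simp)
    have m2 : τ ∈ Subgroup.closure {σ, τ} := Subgroup.subset_closure (by simp)
    have := sg_act _ P h (⟨σ, m1⟩ * ⟨τ, m2⟩)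
    rw [map_mul, map_mul, ← sg_act, ← sg_act] at this
    exact this
  erase σ P y hy := by
    have hy' : ∀ a, σ a = y ↔ a = y := fun a =>
      ⟨fun e => σ.injective (e.trans hy.symm), fun e => by rw [e, hy]⟩
    by_cases h : ∀ a ∈ P, σ a ∈ P
    · let π : Perm P := subtypePerm σ.toEquiv (stb_iff h)
      have h1 : ∀ x : P, (π x : Ω) ≠ y ↔ (x : Ω) ≠ y := fun x => not_congr (hy' x)
      rw [sg_eq (erEq P y) (subtypePerm π h1) (fun _ => rfl), sg_eq (Equiv.refl _) π (fun _ => rfl)]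
      refine sign_subtypePerm π h1 (fun x hx e => hx (Subtype.ext ?_))
      change σ x = x
      rw [e, hy]
    · unfold sg
      rw [dif_neg, dif_neg]
      · exact fun k => h fun a ha => (k a).2 ha
      · intro k
        refine h fun a ha => ?_
        by_cases e : a = y
        · rwa [e, hy, ← e]
        · exact (Finset.mem_erase.1 ((k a).2 (Finset.mem_erase.2 ⟨e, ha⟩))).2
  one σ P h := by
    classical
    rw [sg_eq (Equiv.refl _) 1 (fun a => h a a.2), map_one]
  swap σ P a b ha hb hab h1 h2 h3 := by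
    classical
    rw [sg_eq (Equiv.refl _) (swap (⟨a, ha⟩ : P) ⟨b, hb⟩), sign_swap (by simpa using hab)]
    intro c
    simp only [Equiv.refl_apply, swap_apply_def]
    split_ifs with e1 e2
    · rw [e1]; exact h1
    · rw [e2]; exact h2
    · exact h3 c c.2 (fun e => e1 (Subtype.ext e)) (fun e => e2 (Subtype.ext e))
  stab H P y h hy := by
    constructor
    · intro σ hσ a ha
      rw [Finset.mem_erase] at ha ⊢
      exact ⟨fun e => ha.1 (σ.injective (e.trans (hσ.2 y rfl).symm)), h.stb σ hσ.1 a ha.2⟩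
    · intro π
      obtain ⟨σ, hσ, e⟩ := h.all (π.extendDomain (erEq P y).symm)
      refine ⟨σ, ⟨hσ, ?_⟩, fun a => ?_⟩
      · rintro _ rfl
        have := e ⟨_, hy⟩
        rwa [π.extendDomain_apply_not_subtype _ (by simp)] at this
      · have := e ((erEq P y).symm a)
        rw [π.extendDomain_apply_image] at this
        exact this
  small := full_small
  trans H P a b h ha hb := by
    classical
    obtain ⟨σ, hσ, e⟩ := h.all (swap ⟨a, ha⟩ ⟨b, hb⟩)
    exact ⟨σ, hσ, by simpa using e ⟨a, ha⟩⟩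
  drop H P Q hP hQ h := by
    classical
    have hs : ∀ σ ∈ H ⊓ Fx C P, ∀ a ∈ Q, σ a ∈ Q := fun σ hσ => hQ.stb σ hσ.1
    by_cases hc : Q.card ≤ 1
    · exact full_small _ _ hs hc
    obtain ⟨σ, hσ, hne⟩ := h (by omega)
    have hN : ((act H P hP.stb).ker.map (act H Q hQ.stb)).Normal :=
      (MonoidHom.normal_ker _).map _ hQ.surj
    have hT : (act H P hP.stb).ker.map (act H Q hQ.stb) = ⊤ := by
      by_contra hh
      have : Nontrivial Q := Fintype.one_lt_card_iff_nontrivial.1 (by simp; omega)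
      have := char_sign (act H P hP.stb) hP.surj (sign.comp (act H Q hQ.stb))
        ((sign_surjective _).comp hQ.surj) (fun g hg => by
          rcases Int.units_eq_one_or (sign (act H Q hQ.stb g)) with e | e
          · exact e
          · exact absurd (top_of_odd hN _ ⟨g, hg, rfl⟩ e) hh) ⟨σ, hσ⟩
      rw [MonoidHom.comp_apply, ← sg_act, ← sg_act] at this
      exact hne this.symm
    refine ⟨hs, fun π => ?_⟩
    obtain ⟨g, hg, e⟩ : π ∈ (act H P hP.stb).ker.map (act H Q hQ.stb) := hT ▸ trivial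
    exact ⟨g.1, ⟨g.2, act_eq_one.1 hg⟩, fun a => by rw [← e]; rfl⟩
  quad H Q y u hQ hy h1 h2 h3 := by
    classical
    have pm : ∀ σ ∈ H, σ u = u ∨ σ u = -u := fun σ hσ =>
      sq_eq_sq_iff_eq_or_eq_neg.1 (by rw [← map_pow]; exact h2 σ hσ)
    obtain ⟨τ, hτ, hu⟩ : ∃ τ ∈ H, τ u ≠ u := by
      by_contra hh; push Not at hh; exact h3 hh
    have hne : -u ≠ u := fun e => hu ((pm τ hτ).elim id fun k => k.trans e)
    let χ : H →* ℤˣ := MonoidHom.mk' (fun σ => if σ.1 u = u then 1 else -1) (by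
      intro σ σ'
      rcases pm _ σ.2 with a | a <;> rcases pm _ σ'.2 with b | b <;> simp [a, b, hne])
    have hχ : ∀ σ : H, χ σ = if σ.1 u = u then 1 else -1 := fun _ => rfl
    have key := char_sign (act H Q hQ.stb) hQ.surj χ (fun v => by
      rcases Int.units_eq_one_or v with rfl | rfl
      · exact ⟨1, map_one _⟩
      · exact ⟨⟨τ, hτ⟩, by rw [hχ, if_neg hu]⟩) (fun g hg => by
      rw [hχ, if_pos (h1 g.1 ⟨g.2, by rintro _ rfl; exact act_eq_one.1 hg _ hy⟩)])
    refine ⟨?_, fun σ hσ => ?_⟩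
    · have c1 : 1 < Q.card := by
        by_contra hh
        exact hu (h1 τ ⟨hτ, by
          rintro _ rfl
          exact Finset.card_le_one.1 (by omega) _ (hQ.stb τ hτ _ hy) _ hy⟩)
      by_contra hh
      obtain ⟨a, ha, b, hb, hab⟩ := Finset.one_lt_card.1
        (show 1 < (Q.erase y).card by rw [Finset.card_erase_of_mem hy]; omega)
      rw [Finset.mem_erase] at ha hb
      obtain ⟨g, hg⟩ := hQ.surj (swap ⟨a, ha.2⟩ ⟨b, hb.2⟩)
      have k := key g
      rw [hg, sign_swap (by simpa using hab), hχ, if_pos (h1 g.1 ⟨g.2, ?_⟩)] at k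
      · exact absurd k (by decide)
      · rintro _ rfl
        rw [← act_apply H Q hQ.stb g ⟨_, hy⟩, hg, swap_apply_of_ne_of_ne]
        · simpa using ha.1.symm
        · simpa using hb.1.symm
    · rw [sg_act H Q hQ.stb ⟨σ, hσ⟩, ← key, hχ]
      rcases pm σ hσ with a | a <;> simp [a, hne]
  full H P h h2 h3 := by
    classical
    obtain ⟨σ, hσ, a, ha, b, hb, hab, e1, e2, e3⟩ := h3
    have hs : act H P h ⟨σ, hσ⟩ = swap ⟨a, ha⟩ ⟨b, hb⟩ := by
      ext c
      rw [act_apply, swap_apply_def]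
      split_ifs with k1 k2
      · rw [k1]; exact e1
      · rw [k2]; exact e2
      · exact e3 c c.2 (fun e => k1 (Subtype.ext e)) (fun e => k2 (Subtype.ext e))
    have hT : (act H P h).range = ⊤ := by
      rw [eq_top_iff, ← closure_isSwap, Subgroup.closure_le]
      rintro _ ⟨c, d, hcd, rfl⟩
      obtain ⟨τ, hτ, t1, t2⟩ := h2 a ha b hb c c.2 d d.2 hab (fun e => hcd (Subtype.ext e))
      refine ⟨⟨τ, hτ⟩ * ⟨σ, hσ⟩ * ⟨τ, hτ⟩⁻¹, ?_⟩
      rw [map_mul, map_mul, map_inv, hs, ← swap_apply_apply]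
      congr 1 <;> exact Subtype.ext ‹_›
    refine ⟨h, fun π => ?_⟩
    obtain ⟨g, e⟩ : π ∈ (act H P h).range := hT ▸ trivial
    exact ⟨g.1, g.2, fun a => by rw [← e]; rfl⟩

end Pool.Agent.MP_249f74_an.H96A
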