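import Pool.Agent.MP_249f74_an.H96A.Spec

/-!
The Galois group of the section of a mirror by a generic line and its sign.
-/

open Polynomial

namespace Pool.Agent.MP_249f74_an.H96A

variable {C Ω : Type} [Field C] [Field Ω] [Algebra C Ω]

namespace Sec

lemma deg_le (f : P2 C) (l : Ω × Ω) : (sec f l).natDegree ≤ f.totalDegree := by
  rw [sec, MvPolynomial.aeval_def, MvPolynomial.eval₂_eq']
  refine natDegree_sum_le_of_forall_le _ _ fun d hd => natDegree_mul_le.trans ?_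
  have h1 : (Polynomial.C l.2 + Polynomial.C l.1 * X).natDegree ≤ 1 := by compute_degree
  have h2 := MvPolynomial.le_totalDegree hd
  rw [Finsupp.sum_fintype _ _ fun _ => rfl, Fin.sum_univ_two] at h2
  rw [Fin.prod_univ_two, Polynomial.algebraMap_apply, natDegree_C, zero_add]
  refine natDegree_mul_le.trans ((add_le_add natDegree_pow_le natDegree_pow_le).trans ?_)
  have h3 := Nat.mul_le_mul_left (d 0) h1
  simp only [Matrix.cons_val_zero, Matrix.cons_val_one, natDegree_X]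
  omega

open Classical in
lemma deg_eq (hs : SEC1 C Ω) (m : Mir C) {l : Ω × Ω} (hl : Gen C l) :
    (sec m.f l).natDegree = m.f.totalDegree :=
  le_antisymm (deg_le _ _) (hs.card m l hl ▸ (Multiset.toFinset_card_le _).trans (card_roots' _))

lemma mem_pts (h2 : B2 C Ω) {m : Mir C} {l : Ω × Ω} {y : Ω} :
    y ∈ Pts m l ↔ (sec m.f l).eval y = 0 := by
  simp [Pts, h2.sec0 m l]

lemma ev_fix (h3 : B3 C Ω) {l : Ω × Ω} {σ : Ω ≃ₐ[C] Ω} (h : σ ∈ FL C l) (F : P2 C) :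
    σ (ev l F) = ev l F := by
  rw [← h3.evmap, mp, h l.1 (by simp), h l.2 (by simp)]

/-- The graph of a place. -/
def gr (P : Pl C Ω) : Subalgebra C (Ω × Ω) where
  carrier := {p | P.sp p.1 p.2}
  mul_mem' := P.mul
  add_mem' := P.add
  algebraMap_mem' := P.cst

lemma pen_map {R : Type} [CommRing R] [Algebra C R] (φ : R →ₐ[C] Ω) (F : P2 C) (x y : R)
    (v : Vx Ω) (hx : φ x = v.x) (hy : φ y = v.y) :
    (MvPolynomial.aeval ![X, Polynomial.C x - Polynomial.C y * X] F : R[X]).map φ.toRingHom =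
      pen F v := by
  have := MvPolynomial.comp_aeval_apply (f := ![X, Polynomial.C x - Polynomial.C y * X])
    (Polynomial.mapAlgHom φ) F
  refine this.trans ?_
  rw [pen]
  congr 2
  ext1 i
  fin_cases i <;> simp [hx, hy]

lemma pen_eval (F : P2 C) {v : Vx Ω} {l : Ω × Ω} (h : Inc v l) : (pen F v).eval l.1 = ev l F := by
  have := MvPolynomial.comp_aeval_apply (f := ![X, Polynomial.C v.x - Polynomial.C v.y * X])
    ((Polynomial.aeval l.1 : Polynomial Ω →ₐ[Ω] Ω).restrictScalars C) F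
  refine this.trans ?_
  rw [ev]
  congr 2
  ext1 i
  have h' : v.x = l.2 + l.1 * v.y := h
  fin_cases i
  · simp
  · simp
    linear_combination h'

lemma sp_div (P : Pl C Ω) (F : P2 C) {u v : Vx Ω} {s : Ω} (hx : P.sp u.x v.x)
    (hy : P.sp u.y v.y) (hw : P.sp u.w v.w) (hs : P.sp s v.w) :
    P.sp ((pen F u /ₘ (X - Polynomial.C u.w) ^ 2).eval s)
      ((pen F v /ₘ (X - Polynomial.C v.w) ^ 2).eval v.w) := by
  let R := gr P
  let x : R := ⟨(u.x, v.x), hx⟩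
  let y : R := ⟨(u.y, v.y), hy⟩
  let w : R := ⟨(u.w, v.w), hw⟩
  let t : R := ⟨(s, v.w), hs⟩
  let p : R[X] := MvPolynomial.aeval ![X, Polynomial.C x - Polynomial.C y * X] F
  have key : ∀ (φ : R →ₐ[C] Ω) (v : Vx Ω), φ x = v.x → φ y = v.y → φ w = v.w →
      φ ((p /ₘ (X - Polynomial.C w) ^ 2).eval t) =
        (pen F v /ₘ (X - Polynomial.C v.w) ^ 2).eval (φ t) := fun φ v h1 h2 h3 => by
    have := eval_map_apply (p := p /ₘ (X - Polynomial.C w) ^ 2) (f := φ.toRingHom) t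
    rw [map_divByMonic _ ((monic_X_sub_C w).pow 2), pen_map φ F x y v h1 h2] at this
    simpa [h3] using this.symm
  have h1 := key ((AlgHom.fst C Ω Ω).comp R.val) u rfl rfl rfl
  have h2 := key ((AlgHom.snd C Ω Ω).comp R.val) v rfl rfl rfl
  exact h1 ▸ h2 ▸ ((p /ₘ (X - Polynomial.C w) ^ 2).eval t).2

section

variable (h1 : B1 C Ω) (h2 : B2 C Ω) (h3 : B3 C Ω) (hL : LIFT C Ω) (hs : SEC1 C Ω) (hT : TAN C Ω)
  {m m' : Mir C} {l : Ω × Ω} {v : Vx Ω} {P : Pl C Ω}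

include h2 hL hs hT

lemma val (hl : Gen C l) (hv : m'.On v) (hP : P.Sp l v.tl) {y : Ω} (hy : y ∈ Pts m l) :
    ∃ b ∈ Pts m v.tl, P.sp y b := by
  obtain ⟨b, p1, p2⟩ := hL.fin P _ _ y (hL.sec P l v.tl m.f hP.s1 hP.s2) (h2.sec0 m _)
    (by rw [hT.deg m m' v hv, deg_eq hs m hl]) ((mem_pts h2).1 hy)
  exact ⟨b, (mem_pts h2).2 p1, p2⟩

omit hs hT in
lemma fib (hP : P.Sp l v.tl) {b : Ω} (T : Finset Ω) (h : ∀ y ∈ T, y ∈ Pts m l ∧ P.sp y b) :
    T.card ≤ (sec m.f v.tl).rootMultiplicity b :=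
  hL.mult P _ _ b T (hL.sec P l v.tl m.f hP.s1 hP.s2) (h2.sec0 m _)
    fun y hy => ⟨(mem_pts h2).1 (h y hy).1, (h y hy).2⟩

lemma fix (hv : m'.On v) (hP : P.Sp l v.tl) {y b : Ω} (hy : y ∈ Pts m l) (hb : b ∈ Pts m v.tl)
    (h : P.sp y b) (hn : m ≠ m' ∨ b ≠ v.y) : P.σ y = y := by
  classical
  by_contra e
  have := fib h2 hL (m := m) hP (b := b) {P.σ y, y} (by
    simp only [Finset.mem_insert, Finset.mem_singleton, forall_eq_or_imp, forall_eq]
    exact ⟨⟨hs.stb m l _ hP.fx y hy, P.ine h⟩, hy, h⟩)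
  rw [hT.oth m m' v hv b hb hn, Finset.card_pair e] at this
  omega

include h1 h3

variable [CharZero Ω] [IsAlgClosed Ω]

omit hs in
lemma move (hl : Gen C l) (hv : m.On v) (hP : P.Sp l v.tl) {π : P2 C} (hπ : Prime π)
    (h0 : ev v.tl π = 0) (hr : ∀ r, r ^ 2 = ev l π → P.σ r = -r) {y : Ω} (hy : y ∈ Pts m l)
    (h : P.sp y v.y) : P.σ y ≠ y := fun e => by
  obtain ⟨u, l', rfl, hu⟩ := h2.step m l _ hl hy
  have f1 := (h2.fix m l l' u P.σ hu hP.fx e).1
  have hx : P.sp u.x v.x := by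
    have := P.add hP.s2 (P.mul hP.s1 h)
    rwa [← show u.x = _ from hu.i0, Vx.tl, sub_add_cancel] at this
  have hw : ∀ t : Vx Ω, m.On t → t.w = -ev t.p (MvPolynomial.pderiv 1 m.f) *
      (ev t.p (MvPolynomial.pderiv 0 m.f))⁻¹ := fun t ht => by
    have := h1.fx m t ht
    field_simp
    linear_combination ht.sl
  have hw' : P.sp u.w v.w := by
    rw [hw u hu.on, hw v hv]
    exact P.mul (hL.neg P _ _ (hL.ev P u.p v.p _ hx h))
      (hL.inv P _ _ (hL.ev P u.p v.p _ hx h) (h1.fx m v hv))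
  obtain ⟨τ, hτ⟩ := h3.conj v.p u.p fun F => by rw [h1.ker m v hv, h1.ker m u hu.on]
  have e1 := (h1.uniq m m _ u (h2.onmap m v τ hv) hu.on hτ).2
  have e2 : ev u.tl π = 0 := by
    have : u.tl = mp τ v.tl := by rw [← e1]; simp [Vx.tl, Vx.map, mp]
    rw [this, h3.evmap, h0, map_zero]
  have t1 := hT.two m u π hu.on hπ e2
  have t2 := hT.two m v π hv hπ h0
  have g0 := eval_divByMonic_pow_rootMultiplicity_ne_zero v.w (p := pen π v) fun e => by
    simp [e] at t2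
  have g1 := congrArg (eval l.1) (pow_mul_divByMonic_rootMultiplicity_eq (pen π u) u.w)
  rw [t2] at g0
  rw [t1, pen_eval π hu.i0, eval_mul, eval_pow, eval_sub, eval_X, eval_C] at g1
  have g2 := sp_div P π hx h hw' hP.s1
  set g := (pen π u /ₘ (X - Polynomial.C u.w) ^ 2).eval l.1
  have s1 : P.σ (l.1 - u.w) = l.1 - u.w := by
    rw [map_sub, hP.fx l.1 (by simp), show P.σ u.w = u.w from congrArg Vx.w f1]
  have s2 : P.σ g = g := by
    have := ev_fix h3 hP.fx π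
    rw [← g1, map_mul, map_pow, s1] at this
    exact mul_left_cancel₀ (pow_ne_zero _ (sub_ne_zero.2 hu.nt)) this
  obtain ⟨r, hr0⟩ := IsAlgClosed.exists_pow_nat_eq g two_pos
  have r1 := hr ((l.1 - u.w) * r) (by rw [mul_pow, hr0, g1])
  rw [map_mul, s1, hL.unit P g _ r g2 g0 s2 hr0, ← add_eq_zero_iff_eq_neg, add_self_eq_zero] at r1
  exact hπ.ne_zero (hl π (by rw [← g1, ← hr0, ← mul_pow, r1]; simp))

/-- The inertia element at the dual curve is a transposition. -/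
lemma sw (hl : Gen C l) (hv : m.On v) : ∃ P : Pl C Ω, P.Sp l v.tl ∧ ∃ a ∈ Pts m l, ∃ b ∈ Pts m l,
    a ≠ b ∧ P.σ a = b ∧ P.σ b = a ∧ ∀ c ∈ Pts m l, c ≠ a → c ≠ b → P.σ c = c := by
  classical
  have hk := (h1.tl m v hv).1
  obtain ⟨π, hπ, p1⟩ := h3.curve v.tl hk.ng hk.nc
  have h0 := (p1 π).2 dvd_rfl
  obtain ⟨P, hP, hr⟩ := hL.place l v.tl π hl hk hπ.squarefree h0
  obtain ⟨a, a1, a2⟩ := hL.root P _ _ v.y (hL.sec P l v.tl m.f hP.s1 hP.s2) (h2.sec0 m _)
    (rootMultiplicity_pos'.1 (by rw [hT.own m v hv]; exact two_pos)).2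
  have a3 := (mem_pts h2).2 a1
  have b1 := hs.stb m l _ hP.fx a a3
  have ne := (move h1 h2 h3 hL hT hl hv hP hπ h0 hr a3 a2).symm
  have key : ∀ c ∈ Pts m l, P.sp c v.y → c = a ∨ c = P.σ a := fun c hc h => by
    by_contra hn
    push Not at hn
    have := fib h2 hL (m := m) hP (b := v.y) {c, a, P.σ a} (by
      simp only [Finset.mem_insert, Finset.mem_singleton, forall_eq_or_imp, forall_eq]
      exact ⟨⟨hc, h⟩, ⟨a3, a2⟩, b1, P.ine a2⟩)
    rw [hT.own m v hv, Finset.card_insert_of_notMem (by simp [hn.1, hn.2]),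
      Finset.card_pair ne] at this
    omega
  refine ⟨P, hP, a, a3, _, b1, ne, rfl, (key _ (hs.stb m l _ hP.fx _ b1)
    (P.ine (P.ine a2))).resolve_right fun e => ne (P.σ.injective e).symm, fun c hc c1 c2 => ?_⟩
  obtain ⟨b, p2, p3⟩ := val h2 hL hs hT hl hv hP hc
  exact fix h2 hL hs hT hv hP hc p2 p3 (Or.inr fun e => (key c hc (e ▸ p3)).elim c1 c2)

end

/-- The square root of the discriminant. -/
lemma vdm (T : Finset Ω) : ∃ δ : Ω, δ ≠ 0 ∧ ∀ σ : Ω ≃ₐ[C] Ω, (∀ a ∈ T, σ a ∈ T) →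
    σ δ = ((sg σ T : ℤ) : Ω) * δ := by
  classical
  let e := Fintype.equivFin T
  let M : Matrix T T Ω := (Matrix.vandermonde fun i => (e.symm i : Ω)).submatrix e e
  refine ⟨M.det, ?_, fun σ hσ => ?_⟩
  · rw [Matrix.det_submatrix_equiv_self]
    exact Matrix.det_vandermonde_ne_zero_iff.2 (Subtype.val_injective.comp e.symm.injective)
  · have h : ∀ a, σ.toEquiv a ∈ T ↔ a ∈ T := fun a =>
      ⟨fun h => by simpa using Equiv.Perm.perm_symm_on_of_perm_on_finset (f := σ.toEquiv) hσ h,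
        hσ a⟩
    rw [sg, dif_pos h, ← Matrix.det_permute, AlgEquiv.map_det]
    congr 1
    ext a b
    simp [M]

end Sec

open Sec in
theorem sec' [CharZero Ω] [IsAlgClosed Ω] (_hS : Sf C Ω) (h1 : B1 C Ω) (h2 : B2 C Ω) (h3 : B3 C Ω)
    (hG : GRP C Ω) (hL : LIFT C Ω) (hs : SEC1 C Ω) (hT : TAN C Ω) : SEC C Ω where
  full m l hl := by
    obtain ⟨x, w, hv⟩ := h1.ex m l.1 (by
      rintro ⟨k, hk⟩
      have := hl (MvPolynomial.X 0 - MvPolynomial.C k) (by simp [ev, hk])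
      simpa using congrArg (MvPolynomial.pderiv 0) this)
    obtain ⟨P, hP, h⟩ := sw h1 h2 h3 hL hs hT hl hv
    exact hG.full _ _ (hs.stb m l) (hs.two m l hl) ⟨P.σ, hP.fx, h⟩
  dsc m l hl := by
    obtain ⟨δ, δ0, hδ⟩ := vdm (C := C) (Pts m l)
    obtain ⟨Δ, u, p1, p2, p3, p4⟩ := h3.sqf l (δ ^ 2) hl (pow_ne_zero _ δ0) fun σ hσ => by
      rw [map_pow, hδ σ (hs.stb m l σ hσ)]
      rcases Int.units_eq_one_or (sg σ (Pts m l)) with e | e <;> simp [e]
    have sgn : ∀ σ ∈ FL C l, ∀ r, r ^ 2 = ev l Δ → σ r = ((sg σ (Pts m l) : ℤ) : Ω) * r :=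
      fun σ hσ r hr => mul_right_cancel₀ p2 (by
        have h4 := hδ σ (hs.stb m l σ hσ)
        rw [← hr, ← mul_pow] at p4
        rw [mul_assoc]
        conv_lhs => rw [← p3 σ hσ, ← map_mul]
        rcases sq_eq_sq_iff_eq_or_eq_neg.1 p4 with e | e
        · rwa [← e]
        · rw [show r * u = -δ by rw [e, neg_neg], map_neg, h4, mul_neg])
    obtain ⟨r, hr⟩ := IsAlgClosed.exists_pow_nat_eq (ev l Δ) two_pos
    have r0 : r ≠ -r := fun e => p1.ne_zero (hl Δ (by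
      rw [← add_eq_zero_iff_eq_neg, add_self_eq_zero] at e
      simp [← hr, e]))
    refine ⟨Δ, p1, sgn, fun v hv => by_contra fun hn => ?_, fun m' hm v hv hn => ?_⟩
    · obtain ⟨P, hP, a, a1, b, b1, q1, q2, q3, q4⟩ := sw h1 h2 h3 hL hs hT hl hv
      have := sgn _ hP.fx r hr
      rw [hG.swap _ _ a b a1 b1 q1 q2 q3 q4,
        hL.unit P _ _ r (hL.ev P l v.tl Δ hP.s1 hP.s2) hn (ev_fix h3 hP.fx Δ) hr] at this
      exact r0 (by simpa using this)
    · obtain ⟨P, hP, q⟩ := hL.place l v.tl Δ hl (h1.tl m' v hv).1 p1 hn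
      have := sgn _ hP.fx r hr
      rw [hG.one _ _ fun y hy => by
        obtain ⟨b, b1, b2⟩ := val h2 hL hs hT hl hv hP hy
        exact fix h2 hL hs hT hv hP hy b1 b2 (Or.inl hm.symm), q r hr] at this
      exact r0 (by simpa using this.symm)

end Pool.Agent.MP_249f74_an.H96A
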