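import Pool.Agent.MP_249f74_an.H96A.Spec

/-!
Elementary facts on chains: subchains, fixing groups, reversal and translation.
-/

namespace Pool.Agent.MP_249f74_an.H96A

open scoped Classical

variable {C Ω : Type} [Field C] [Field Ω] [Algebra C Ω]
variable {m : ℤ → Mir C} {L : ℤ → Ω × Ω} {v : ℤ → Vx Ω} {a b a' b' e i : ℤ} {σ τ : Ω ≃ₐ[C] Ω}

lemma mem_Fx {S : Set Ω} : σ ∈ Fx C S ↔ ∀ t ∈ S, σ t = t := Iff.rfl

lemma mem_Fx_one {y : Ω} : σ ∈ Fx C {y} ↔ σ y = y := by simp [mem_Fx]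

lemma mem_FL {l : Ω × Ω} : σ ∈ FL C l ↔ σ l.1 = l.1 ∧ σ l.2 = l.2 := by simp [FL, mem_Fx]

lemma mem_FL' {l : Ω × Ω} : σ ∈ FL C l ↔ mp σ l = l := by simp [mem_FL, mp, Prod.ext_iff]

lemma mem_Hg : σ ∈ Hg C L v a b ↔
    (∀ i, a ≤ i → i ≤ b → σ ∈ FL C (L i)) ∧ ∀ i, a ≤ i → i < b → σ (v i).y = (v i).y := by
  simp only [Hg, mem_Fx, mem_FL]
  constructor
  · exact fun h => ⟨fun i h1 h2 => ⟨h _ (Or.inl ⟨i, h1, h2, Or.inl rfl⟩),
      h _ (Or.inl ⟨i, h1, h2, Or.inr rfl⟩)⟩, fun i h1 h2 => h _ (Or.inr ⟨i, h1, h2, rfl⟩)⟩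
  · rintro ⟨h, h'⟩ t (⟨i, h1, h2, rfl | rfl⟩ | ⟨i, h1, h2, rfl⟩)
    exacts [(h i h1 h2).1, (h i h1 h2).2, h' i h1 h2]

lemma ev_mp (l : Ω × Ω) (σ : Ω ≃ₐ[C] Ω) (F : P2 C) : ev (mp σ l) F = σ (ev l F) := by
  have : ev (mp σ l) = (σ : Ω →ₐ[C] Ω).comp (ev l) := by
    ext i; fin_cases i <;> simp [ev, mp]
  rw [this]; rfl

lemma inv_ev (l : Ω × Ω) (F : P2 C) : Inv (FL C l) (ev l F) := fun σ h => by
  rw [← ev_mp, mem_FL'.1 h]

lemma mp_mul (l : Ω × Ω) : mp (σ * τ) l = mp σ (mp τ l) := rfl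

lemma map_mul' (u : Vx Ω) : u.map (σ * τ) = (u.map τ).map σ := rfl

lemma Gen.mp {l : Ω × Ω} (h : Gen C l) (σ : Ω ≃ₐ[C] Ω) : Gen C (mp σ l) := fun F hF =>
  h F (by rwa [ev_mp, map_eq_zero] at hF)

lemma Gen.nc {l : Ω × Ω} (h : Gen C l) : ¬Cst C l.1 := fun ⟨k, hk⟩ => by
  have := congrArg (MvPolynomial.eval ![k + 1, 0])
    (h (MvPolynomial.X 0 - MvPolynomial.C k) (by simp [ev, hk]))
  simp at this

lemma Gen.dg {l : Ω × Ω} (h : Gen C l) (n : ℕ) : Dg C n l := fun F h0 hF => (h0 (h F hF)).elim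

lemma Dg.mono {l : Ω × Ω} {n n' : ℕ} (h : Dg C n l) (hn : n' ≤ n) : Dg C n' l := fun F h0 hF =>
  hn.trans (h F h0 hF)

lemma Inv.mono {H H' : Subgroup (Ω ≃ₐ[C] Ω)} {x : Ω} (h : Inv H x) (hH : H' ≤ H) : Inv H' x :=
  fun σ hσ => h σ (hH hσ)

lemma Inv.mul {H : Subgroup (Ω ≃ₐ[C] Ω)} {x y : Ω} (h : Inv H x) (h' : Inv H y) : Inv H (x * y) :=
  fun σ hσ => by rw [map_mul, h σ hσ, h' σ hσ]

lemma Inv.div {H : Subgroup (Ω ≃ₐ[C] Ω)} {x y : Ω} (h : Inv H x) (h' : Inv H y) : Inv H (x / y) :=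
  fun σ hσ => by rw [map_div₀, h σ hσ, h' σ hσ]

lemma Inv.pow {H : Subgroup (Ω ≃ₐ[C] Ω)} {x : Ω} (h : Inv H x) (n : ℕ) : Inv H (x ^ n) :=
  fun σ hσ => by rw [map_pow, h σ hσ]

lemma Full.mono {H H' : Subgroup (Ω ≃ₐ[C] Ω)} {P : Finset Ω} (h : Full H P) (hH : H ≤ H')
    (hs : ∀ σ ∈ H', ∀ a ∈ P, σ a ∈ P) : Full H' P :=
  ⟨hs, fun π => (h.all π).imp fun _ h => ⟨hH h.1, h.2⟩⟩

lemma hg_self : Hg C L v a a = FL C (L a) := by
  ext σ
  rw [mem_Hg]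
  exact ⟨fun h => h.1 a le_rfl le_rfl, fun h => ⟨fun i h1 h2 => by rwa [h2.antisymm h1],
    fun i h1 h2 => absurd h1 h2.not_ge⟩⟩

lemma hg_mono (ha : a ≤ a') (hb : b' ≤ b) : Hg C L v a b ≤ Hg C L v a' b' := fun _ h =>
  mem_Hg.2 ⟨fun i h1 h2 => (mem_Hg.1 h).1 i (ha.trans h1) (h2.trans hb),
    fun i h1 h2 => (mem_Hg.1 h).2 i (ha.trans h1) (h2.trans_le hb)⟩

lemma hg_fl (h1 : a ≤ i) (h2 : i ≤ b) : Hg C L v a b ≤ FL C (L i) := fun _ h =>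
  (mem_Hg.1 h).1 i h1 h2

lemma hg_y (h : σ ∈ Hg C L v a b) (h1 : a ≤ i) (h2 : i < b) : σ (v i).y = (v i).y :=
  (mem_Hg.1 h).2 i h1 h2

lemma Red.mono (h : Red m a b) (ha : a ≤ a') (hb : b' ≤ b) : Red m a' b' :=
  fun i k j h1 h2 h3 h4 => h i k j (ha.trans h1) h2 h3 (h4.trans_le hb)

lemma exists_run (m : ℤ → Mir C) (h : a < e) : ∃ b, Run m a b e := by
  obtain ⟨b, ⟨h1, h2, h3⟩, h4⟩ := Int.exists_least_of_bdd
    (P := fun b => a ≤ b ∧ b < e ∧ ∀ i, b ≤ i → i < e → m i = m (e - 1)) ⟨a, fun z hz => hz.1⟩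
    ⟨e - 1, by omega, by omega, fun i h1 h2 => by rw [show i = e - 1 by omega]⟩
  refine ⟨b, h1, h2, h3, fun h5 h6 => ?_⟩
  have := h4 (b - 1) ⟨by omega, by omega, fun i h7 h8 => by
    rcases h7.eq_or_lt with rfl | h9
    exacts [h6, h3 i (by omega) h8]⟩
  omega

lemma St.mem (h2 : B2 C Ω) {m : Mir C} {l l' : Ω × Ω} {v : Vx Ω} (h : St m l v l') :
    v.y ∈ Pts m l := by
  rw [h2.mem, ← h.i0]; exact h.on.f0

lemma pts_stb (h2 : B2 C Ω) (m : Mir C) {l : Ω × Ω} (hσ : σ ∈ FL C l) {y : Ω} (hy : y ∈ Pts m l) :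
    σ y ∈ Pts m l := by
  rw [h2.mem] at hy ⊢
  have := congrArg σ hy
  rw [← ev_mp, map_zero] at this
  simpa [mp, (mem_FL.1 hσ).1, (mem_FL.1 hσ).2] using this

namespace Chn

lemma mono (h : Chn m L v a b) (ha : a ≤ a') (hb : b' ≤ b) : Chn m L v a' b' :=
  ⟨fun i h1 h2 => h.st i (ha.trans h1) (h2.trans_le hb),
    fun i h1 h2 => h.nb i (ha.trans h1) (h2.trans_le hb)⟩

lemma nil (m : ℤ → Mir C) (L : ℤ → Ω × Ω) (v : ℤ → Vx Ω) (a : ℤ) : Chn m L v a a :=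
  ⟨fun _ h1 h2 => absurd h1 h2.not_ge, fun _ h1 h2 => by omega⟩

lemma ind (h : Chn m L v a b) {p : Ω × Ω → Prop}
    (hp : ∀ (m : Mir C) l l' v, St m l v l' → p l → p l') (h0 : p (L a)) (h1 : a ≤ i)
    (h2 : i ≤ b) : p (L i) := by
  induction i, h1 using Int.leInduction with
  | base => exact h0
  | succ i h1 ih => exact hp _ _ _ _ (h.st i h1 (by omega)) (ih (by omega))

lemma gen (h2 : B2 C Ω) (h : Chn m L v a b) (h0 : Gen C (L a)) (h1 : a ≤ i) (h3 : i ≤ b) :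
    Gen C (L i) := h.ind h2.gen h0 h1 h3

lemma cur (h2 : B2 C Ω) (h : Chn m L v a b) (h0 : Cur C (L a)) (h1 : a ≤ i) (h3 : i ≤ b) :
    Cur C (L i) := h.ind h2.cur h0 h1 h3

lemma map (h2 : B2 C Ω) (h : Chn m L v a b) (σ : Ω ≃ₐ[C] Ω) :
    Chn m (fun i => mp σ (L i)) (fun i => (v i).map σ) a b :=
  ⟨fun i h1 h3 => h2.map _ _ _ _ σ (h.st i h1 h3),
    fun i h1 h3 e => h.nb i h1 h3 (σ.injective e)⟩

lemma fixv (h2 : B2 C Ω) (h : Chn m L v a b) (hσ : σ ∈ Hg C L v a b) (h1 : a ≤ i) (h3 : i < b) :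
    (v i).map σ = v i :=
  (h2.fix _ _ _ _ σ (h.st i h1 h3) (hg_fl h1 h3.le hσ) (hg_y hσ h1 h3)).1

lemma hg_right (h2 : B2 C Ω) (h : Chn m L v a (b + 1)) (hab : a ≤ b) :
    Hg C L v a (b + 1) = Hg C L v a b ⊓ Fx C {(v b).y} := by
  refine le_antisymm (le_inf (hg_mono le_rfl (by omega)) fun σ hσ =>
    mem_Fx_one.2 (hg_y hσ hab (by omega))) fun σ ⟨h3, h4⟩ => mem_Hg.2 ⟨fun i h5 h6 => ?_,
      fun i h5 h6 => ?_⟩
  · rcases h6.eq_or_lt with rfl | h7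
    · exact (h2.fix _ _ _ _ σ (h.st b hab (by omega)) (hg_fl hab le_rfl h3) (mem_Fx_one.1 h4)).2
    · exact hg_fl h5 (by omega) h3
  · rcases (show i ≤ b by omega).eq_or_lt with rfl | h7
    exacts [mem_Fx_one.1 h4, hg_y h3 h5 h7]

lemma hg_left (h2 : B2 C Ω) (h : Chn m L v a b) (hab : a < b) :
    Hg C L v a b = Hg C L v (a + 1) b ⊓ Fx C {(v a).y} := by
  refine le_antisymm (le_inf (hg_mono (by omega) le_rfl) fun σ hσ =>
    mem_Fx_one.2 (hg_y hσ le_rfl hab)) fun σ ⟨h3, h4⟩ => mem_Hg.2 ⟨fun i h5 h6 => ?_,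
      fun i h5 h6 => ?_⟩
  · rcases h5.eq_or_lt with rfl | h7
    · exact (h2.fix _ _ _ _ σ (h2.symm _ _ _ _ (h.st a le_rfl hab)) (hg_fl le_rfl hab h3)
        (mem_Fx_one.1 h4)).2
    · exact hg_fl h7 h6 h3
  · rcases h5.eq_or_lt with rfl | h7
    exacts [mem_Fx_one.1 h4, hg_y h3 h7 h6]

lemma mem_fr (h2 : B2 C Ω) (h : Chn m L v a (b + 1)) (hab : a ≤ b) : (v b).y ∈ Fr m L v a b := by
  have := (h.st b hab (by omega)).mem h2
  unfold Fr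
  split_ifs with h3
  · exact Finset.mem_erase.2 ⟨by simpa using (h.nb (b - 1) (by omega) (by omega)).symm, this⟩
  · exact this

lemma mem_fl (h2 : B2 C Ω) (h : Chn m L v a b) (hab : a < b) :
    (v a).y ∈ Fl m L v (a + 1) b := by
  have := (h2.symm _ _ _ _ (h.st a le_rfl hab)).mem h2
  unfold Fl
  rw [add_sub_cancel_right]
  split_ifs with h3
  · exact Finset.mem_erase.2 ⟨h.nb a le_rfl h3, this⟩
  · exact this

end Chn

lemma fr_sub : Fr m L v a b ⊆ Pts (m b) (L b) := by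
  unfold Fr; split_ifs
  exacts [Finset.erase_subset _ _, le_rfl]

lemma fl_sub : Fl m L v a b ⊆ Pts (m (a - 1)) (L a) := by
  unfold Fl; split_ifs
  exacts [Finset.erase_subset _ _, le_rfl]

lemma fr_stb (h2 : B2 C Ω) (hab : a ≤ b) (hσ : σ ∈ Hg C L v a b) {y : Ω}
    (hy : y ∈ Fr m L v a b) : σ y ∈ Fr m L v a b := by
  have := pts_stb h2 _ (hg_fl hab le_rfl hσ) (fr_sub hy)
  unfold Fr at hy ⊢
  split_ifs at hy ⊢ with h3
  · exact Finset.mem_erase.2 ⟨fun e => (Finset.mem_erase.1 hy).1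
      (σ.injective (e.trans (hg_y hσ (by omega) (by omega)).symm)), this⟩
  · exact this

lemma fl_stb (h2 : B2 C Ω) (hab : a ≤ b) (hσ : σ ∈ Hg C L v a b) {y : Ω}
    (hy : y ∈ Fl m L v a b) : σ y ∈ Fl m L v a b := by
  have := pts_stb h2 _ (hg_fl le_rfl hab hσ) (fl_sub hy)
  unfold Fl at hy ⊢
  split_ifs at hy ⊢ with h3
  · exact Finset.mem_erase.2 ⟨fun e => (Finset.mem_erase.1 hy).1
      (σ.injective (e.trans (hg_y hσ le_rfl h3).symm)), this⟩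
  · exact this

lemma sg_fr (hG : GRP C Ω) (hσ : σ ∈ Hg C L v a b) :
    sg σ (Fr m L v a b) = sg σ (Pts (m b) (L b)) := by
  unfold Fr; split_ifs with h
  exacts [@GRP.erase _ _ _ _ _ hG _ σ _ _ (hg_y hσ (by omega) (by omega)), rfl]

lemma sg_fl (hG : GRP C Ω) (hσ : σ ∈ Hg C L v a b) :
    sg σ (Fl m L v a b) = sg σ (Pts (m (a - 1)) (L a)) := by
  unfold Fl; split_ifs with h
  exacts [@GRP.erase _ _ _ _ _ hG _ σ _ _ (hg_y hσ le_rfl h), rfl]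

/-- At the beginning of a run all the points of the section are free. -/
lemma Chn.fr_eq (h2 : B2 C Ω) (h : Chn m L v a b) (hg : Gen C (L b))
    (hm : a < b → m (b - 1) ≠ m b) : Fr m L v a b = Pts (m b) (L b) := by
  unfold Fr; split_ifs with h3
  · refine Finset.erase_eq_of_notMem fun e => hm h3 (h2.dis _ _ _ _ hg ?_ e)
    simpa using (h2.symm _ _ _ _ (h.st (b - 1) (by omega) (by omega))).mem h2
  · rfl

lemma Chn.fl_eq (h2 : B2 C Ω) (h : Chn m L v a b) (hg : Gen C (L a))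
    (hm : a < b → m a ≠ m (a - 1)) : Fl m L v a b = Pts (m (a - 1)) (L a) := by
  unfold Fl; split_ifs with h3
  · exact Finset.erase_eq_of_notMem fun e =>
      hm h3 (h2.dis _ _ _ _ hg ((h.st a le_rfl h3).mem h2) e)
  · rfl

/-- Reversal for mirrors and vertices. -/
def rm {α : Type} (m : ℤ → α) (i : ℤ) : α := m (-1 - i)

/-- Reversal for lines. -/
def rl {α : Type} (L : ℤ → α) (i : ℤ) : α := L (-i)

lemma Chn.rev (h2 : B2 C Ω) (h : Chn m L v a b) : Chn (rm m) (rl L) (rm v) (-b) (-a) := by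
  refine ⟨fun i h1 h3 => ?_, fun i h1 h3 => ?_⟩
  · have := h2.symm _ _ _ _ (h.st (-1 - i) (by omega) (by omega))
    rwa [show -1 - i + 1 = -i by ring, show L (-1 - i) = rl L (i + 1) by
      rw [rl, show -(i + 1) = -1 - i by ring]] at this
  · have := (h.nb (-1 - (i + 1)) (by omega) (by omega)).symm
    rwa [show -1 - (i + 1) + 1 = -1 - i by ring] at this

lemma Red.rev (h : Red m a b) : Red (rm m) (-b) (-a) := fun i k j h1 h2 h3 h4 e hc => by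
  rw [rm, rm] at e
  rw [rm, rm, e]
  refine h (-1 - j) (-1 - k) (-1 - i) (by omega) (by omega) (by omega) (by omega) e.symm
    fun t h5 h6 => ?_
  have := hc (-1 - t) (by omega) (by omega)
  rwa [rm, rm, e, show -1 - (-1 - t) = t by ring] at this

lemma hg_rev : Hg C (rl L) (rm v) (-b) (-a) = Hg C L v a b := by
  ext σ
  simp only [mem_Hg, rl, rm]
  exact ⟨fun h => ⟨fun i h1 h2 => by simpa using h.1 (-i) (by omega) (by omega),
    fun i h1 h2 => by simpa using h.2 (-1 - i) (by omega) (by omega)⟩,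
    fun h => ⟨fun i h1 h2 => h.1 _ (by omega) (by omega),
      fun i h1 h2 => h.2 _ (by omega) (by omega)⟩⟩

lemma fr_rev : Fr (rm m) (rl L) (rm v) (-b) (-a) = Fl m L v a b := by
  simp only [Fr, Fl, rm, rl, neg_neg, neg_lt_neg_iff, show -1 - -a = a - 1 by ring,
    show -1 - (-a - 1) = a by ring]

lemma fl_rev : Fl (rm m) (rl L) (rm v) (-b) (-a) = Fr m L v a b := by
  simp only [Fr, Fl, rm, rl, neg_neg, neg_lt_neg_iff, show -1 - -b = b - 1 by ring,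
    show -1 - (-b - 1) = b by ring]

lemma FR_rev : FR (rm m) (rl L) (rm v) (-b) (-a) ↔ FF m L v a b := by
  rw [FR, FF, hg_rev, fr_rev]

lemma FF_rev : FF (rm m) (rl L) (rm v) (-b) (-a) ↔ FR m L v a b := by
  rw [FR, FF, hg_rev, fl_rev]

/-- Translation of the indices. -/
lemma Chn.shift (h : Chn m L v a b) (t : ℤ) :
    Chn (fun i => m (i + t)) (fun i => L (i + t)) (fun i => v (i + t)) (a - t) (b - t) :=
  ⟨fun i h1 h3 => by
    have := h.st (i + t) (by omega) (by omega)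
    rwa [add_right_comm] at this, fun i h1 h3 => by
    have := h.nb (i + t) (by omega) (by omega)
    rwa [add_right_comm] at this⟩

lemma Chn.congr {m' : ℤ → Mir C} (h : Chn m L v a b) (e : ∀ i, a ≤ i → i < b → m' i = m i) :
    Chn m' L v a b := ⟨fun i h1 h3 => e i h1 h3 ▸ h.st i h1 h3, h.nb⟩

/-- No function with a curve is a square in the field of a generic line. -/
lemma PAR.zero (hP : PAR C Ω) {l k : Ω × Ω} {Ψ Φ Φ' : P2 C} {r : Ω} (hl : Gen C l) (hk : Cur C k)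
    (hΨ : Squarefree Ψ) (h0 : ev k Ψ = 0) (h1 : ev k Φ ≠ 0) (h2 : ev k Φ' ≠ 0)
    (hr : r ^ 2 = ev l Ψ * ev l Φ * ev l Φ') (m : Mir C) : ¬Inv (FL C l) r := by
  have := hP (fun _ => m) (fun _ => l) (fun _ => k) (fun _ => ⟨0, 0, 0⟩) (fun _ => ⟨0, 0, 0⟩) 0 0 0
    Ψ Φ Φ' r le_rfl le_rfl (Chn.nil _ _ _ _) hl (fun i h1 h2 => absurd h1 h2.not_ge)
    (Chn.nil _ _ _ _) hk hΨ h0 h1 h2 hr
  rwa [hg_self] at this

end Pool.Agent.MP_249f74_an.H96A
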