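import Pool.Agent.MP_249f74_an.H96A.Spec

/-!
Relations at the end of a chain whose last mirror is a conic.
-/

namespace Pool.Agent.MP_249f74_an.H96A

variable {C Ω : Type} [Field C] [Field Ω] [Algebra C Ω]

namespace ConR

variable {m : ℤ → Mir C} {L : ℤ → Ω × Ω} {v : ℤ → Vx Ω} {a b e i : ℤ} {σ : Ω ≃ₐ[C] Ω}

theorem mem_fl {l : Ω × Ω} : σ ∈ FL C l ↔ σ l.1 = l.1 ∧ σ l.2 = l.2 :=
  ⟨fun h => ⟨h _ (Or.inl rfl), h _ (Or.inr rfl)⟩, fun h _ k => k.elim (· ▸ h.1) (· ▸ h.2)⟩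

theorem mem_hg : σ ∈ Hg C L v a b ↔ (∀ i, a ≤ i → i ≤ b → σ ∈ FL C (L i)) ∧
    ∀ i, a ≤ i → i < b → σ (v i).y = (v i).y := by
  refine ⟨fun h => ⟨fun i h1 h2 => mem_fl.2 ⟨h _ (Or.inl ⟨i, h1, h2, Or.inl rfl⟩),
    h _ (Or.inl ⟨i, h1, h2, Or.inr rfl⟩)⟩, fun i h1 h2 => h _ (Or.inr ⟨i, h1, h2, rfl⟩)⟩, ?_⟩
  rintro h _ (⟨i, h1, h2, rfl | rfl⟩ | ⟨i, h1, h2, rfl⟩)
  exacts [(mem_fl.1 (h.1 i h1 h2)).1, (mem_fl.1 (h.1 i h1 h2)).2, h.2 i h1 h2]

theorem inv_ev (h3 : B3 C Ω) {l : Ω × Ω} (h : σ ∈ FL C l) (F : P2 C) : σ (ev l F) = ev l F := by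
  rw [← h3.evmap, show mp σ l = l from Prod.ext (mem_fl.1 h).1 (mem_fl.1 h).2]

theorem mem_pts (h2 : B2 C Ω) {m : Mir C} {u : Vx Ω} {l : Ω × Ω} (h : m.On u) (k : Inc u l) :
    u.y ∈ Pts m l := (h2.mem m l u.y).2 (k ▸ h.f0)

theorem gen (h2 : B2 C Ω) (h : Chn m L v a e) (g : Gen C (L a)) (h1 : a ≤ i) (h' : i ≤ e) :
    Gen C (L i) := by
  induction i, h1 using Int.leInduction with
  | base => exact g
  | succ i hi ih => exact h2.gen _ _ _ _ (h.st i hi (by omega)) (ih (by omega))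

omit [Field Ω] in
theorem other {P : Finset Ω} (hP : P.card ≤ 2) {x y z : Ω} (hx : x ∈ P) (hy : y ∈ P) (hz : z ∈ P)
    (h1 : x ≠ y) (h2 : z ≠ x) : z = y :=
  by_contra fun h => absurd (Finset.two_lt_card.2 ⟨x, hx, y, hy, z, hz, h1, h2.symm, Ne.symm h⟩)
    (not_lt.2 hP)

/-- On a conic the first vertex determines the chain. -/
theorem fix (h2 : B2 C Ω) (hs : SEC1 C Ω) (hc : CO1 C Ω) {m0 : Mir C} (h0 : m0.Con)
    (h : Chn m L v a e) (hab : a ≤ b) (hm : ∀ i, b ≤ i → i < e → m i = m0) (k1 : σ ∈ FL C (L b))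
    (k2 : σ (v b).y = (v b).y) (h1 : b ≤ i) :
    (i ≤ e → σ ∈ FL C (L i)) ∧ (i < e → σ (v i).y = (v i).y) := by
  induction i, h1 using Int.leInduction with
  | base => exact ⟨fun _ => k1, fun _ => k2⟩
  | succ i hi ih =>
    have e1 : i + 1 ≤ e → σ ∈ FL C (L (i + 1)) := fun k =>
      (h2.fix _ _ _ _ σ (h.st i (by omega) (by omega)) (ih.1 (by omega)) (ih.2 (by omega))).2
    refine ⟨e1, fun k => ?_⟩
    have s1 := h.st i (by omega) (by omega)
    have s2 := h.st (i + 1) (by omega) k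
    rw [hm _ hi (by omega)] at s1
    rw [hm _ (by omega) k] at s2
    have e2 := h.nb i (by omega) k
    exact other (hc.two m0 _ h0) (mem_pts h2 s1.on s1.i1) (mem_pts h2 s2.on s2.i0)
      (hs.stb _ _ σ (e1 k.le) _ (mem_pts h2 s2.on s2.i0)) e2
      fun k' => e2 (σ.injective ((ih.2 (by omega)).trans k'.symm))

/-- The norm of an element of a quadratic extension. -/
theorem inv_norm {K : Subgroup (Ω ≃ₐ[C] Ω)} {P : Finset Ω} (hP : P.card ≤ 2)
    (hK : ∀ σ ∈ K, ∀ y ∈ P, σ y ∈ P) {τ : Ω ≃ₐ[C] Ω} (hτ : τ ∈ K) {y z : Ω} (hy : y ∈ P)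
    (h1 : τ y ≠ y) (hz : ∀ σ ∈ K, σ y = y → σ z = z) : Inv K (z * τ z) := by
  intro σ hσ
  have h2 := hK τ hτ y hy
  have key : ∀ g ∈ K, g y = τ y → g z = τ z := fun g hg k =>
    τ.symm_apply_eq.1 (hz (τ⁻¹ * g) (K.mul_mem (K.inv_mem hτ) hg) (τ.symm_apply_eq.2 k))
  rw [map_mul]
  by_cases c : σ y = y
  · rw [hz σ hσ c]
    exact congrArg _ (key (σ * τ) (K.mul_mem hσ hτ) (other hP hy h2 (hK σ hσ _ h2) h1.symm
      fun k => h1 (σ.injective (k.trans c.symm))))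
  · have e1 := other hP hy h2 (hK σ hσ y hy) h1.symm c
    rw [key σ hσ e1, mul_comm]
    exact congrArg (· * τ z) (hz (σ * τ) (K.mul_mem hσ hτ) (other hP h2 hy (hK σ hσ _ h2) h1
      fun k => h1 (σ.injective (k.trans e1.symm))))

/-- Chains in one conic are free. -/
theorem fr (h2 : B2 C Ω) (hg : GRP C Ω) (hs : SEC1 C Ω) (hs' : SEC C Ω) (hc : CO1 C Ω)
    {m0 : Mir C} (h0 : m0.Con) (h : Chn (fun _ => m0) L v a e) (g : Gen C (L a)) (h1 : a ≤ i)
    (h' : i < e) : FR (fun _ => m0) L v a i := by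
  classical
  rcases h1.eq_or_lt with rfl | h1
  · have : Hg C L v a a = FL C (L a) := Subgroup.ext fun σ => mem_hg.trans
      ⟨fun k => k.1 a le_rfl le_rfl, fun k => ⟨fun i k1 k2 => le_antisymm k1 k2 ▸ k,
        fun i k1 k2 => by omega⟩⟩
    rw [FR, Fr, if_neg (lt_irrefl a), this]
    exact hs'.full _ _ g
  · have s := h.st (i - 1) (by omega) (by omega)
    rw [sub_add_cancel] at s
    rw [FR, Fr, if_pos h1]
    refine hg.small _ _ (fun σ hσ y hy => ?_) ?_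
    · rw [Finset.mem_erase] at hy ⊢
      exact ⟨fun k => hy.1 (σ.injective (k.trans
        ((mem_hg.1 hσ).2 (i - 1) (by omega) (by omega)).symm)),
        hs.stb _ _ σ ((mem_hg.1 hσ).1 i h1.le le_rfl) y hy.2⟩
    · rw [Finset.card_erase_of_mem (mem_pts h2 s.on s.i1)]
      have := hc.two m0 (L i) h0
      omega

end ConR

open ConR in
theorem con (_h1 : B1 C Ω) (h2 : B2 C Ω) (h3 : B3 C Ω) (hg : GRP C Ω) (hs : SEC1 C Ω)
    (hs' : SEC C Ω) (hp : PAR C Ω) (hc : CO1 C Ω) (ho : ORB C Ω) : CON C Ω := by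
  classical
  intro m L v a b e x r Ψ k hch g hr hf h1 hR h0 hk
  by_contra hl
  have hab := hr.ab
  have hbe := hr.be
  have hm := hr.eq
  have hne := hr.ne
  generalize m (e - 1) = m0 at h0 hl hm hne
  have gb := gen h2 hch g hab hbe.le
  have ge := gen h2 hch g (hab.trans hbe.le) le_rfl
  have st : ∀ i, b ≤ i → i < e → St m0 (L i) (v i) (L (i + 1)) := fun i k1 k2 =>
    hm i k1 k2 ▸ hch.st i (hab.trans k1) k2
  have y1 := mem_pts h2 (st b le_rfl hbe).on (st b le_rfl hbe).i0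
  have hP := hc.two m0 (L b) h0
  have hF : Full (Hg C L v a b) (Pts m0 (L b)) := by
    rw [FR, Fr, hm b le_rfl hbe] at hf
    split_ifs at hf with c
    · have s := hch.st (b - 1) (by omega) (by omega)
      rw [sub_add_cancel] at s
      rwa [Finset.erase_eq_of_notMem fun k =>
        hne c (h2.dis _ _ _ _ gb (mem_pts h2 s.on s.i1) k)] at hf
    · exact hf
  obtain ⟨y2, y3, y4⟩ := Finset.exists_mem_ne (s := Pts m0 (L b))
    (by rw [hs.card _ _ gb, h0]; omega) (v b).y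
  obtain ⟨τ, t1, t2⟩ := hg.trans _ _ _ _ hF y1 y3
  have t3 : τ (v b).y ≠ (v b).y := t2 ▸ y4
  have hH : ∀ σ ∈ Hg C L v a b, σ ∈ FL C (L b) := fun σ h => (mem_hg.1 h).1 b hab le_rfl
  have i1 : Inv (Hg C L v a b) (r * τ r) := inv_norm hP hF.stb t1 y1 t3 fun σ hσ k =>
    hR.hr σ (mem_hg.2 ⟨fun i k1 k2 => (le_total i b).elim ((mem_hg.1 hσ).1 i k1) fun k3 =>
      (fix h2 hs hc h0 hch hab hm (hH σ hσ) k k3).1 k2, fun i k1 k2 => (lt_or_ge i b).elim
      ((mem_hg.1 hσ).2 i k1) fun k3 => (fix h2 hs hc h0 hch hab hm (hH σ hσ) k k3).2 k2⟩)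
  have i2 : Inv (FL C (L b)) (ev (L e) Ψ * τ (ev (L e) Ψ)) :=
    inv_norm hP (hs.stb _ _) (hH τ t1) y1 t3 fun σ hσ k =>
      inv_ev h3 ((fix h2 hs hc h0 hch hab hm hσ k hbe.le).1 le_rfl) Ψ
  have p0 : ev (L e) Ψ ≠ 0 := fun k => hR.sf.ne_zero (ge Ψ k)
  obtain ⟨Φ, u, f1, f2, f3, f4⟩ := h3.sqf _ _ gb (mul_ne_zero p0 ((map_ne_zero τ).2 p0)) i2
  obtain ⟨n, hn⟩ := Int.eq_ofNat_of_zero_le (sub_nonneg.2 hbe.le)
  obtain ⟨K, w, c1, c2, c3, c4, c5, c6⟩ := ho m0 n Ψ k h0 (by omega) hR.sf.ne_zero hR.cur hk hl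
    hR.zero
  have c7 : ev (K n) Φ ≠ 0 := fun z => h1 (r * τ r / (x * u)) Φ (K n)
    ⟨one_ne_zero, fun σ _ => map_one σ, fun σ hσ => by
      rw [map_div₀, i1 σ hσ, map_mul σ x, hR.hx σ hσ, f3 σ (hH σ hσ)], by
      have := hR.x0
      rw [div_pow, mul_pow, ← map_pow, hR.sq, map_mul, hR.hx τ t1, div_eq_iff (by positivity)]
      linear_combination x ^ 2 * f4, f1, c5, z⟩ c6
  have tb : mp τ (L b) = L b := Prod.ext (mem_fl.1 (hH τ t1)).1 (mem_fl.1 (hH τ t1)).2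
  obtain ⟨M, M1, M2⟩ : ∃ M : ℤ → Ω × Ω, (∀ i : ℤ, i ≤ n → M i = L (e - i)) ∧
      ∀ i, (n : ℤ) ≤ i → M i = mp τ (L (b + i - n)) := by
    refine ⟨fun i => if i ≤ n then L (e - i) else mp τ (L (b + i - n)), fun i k => if_pos k,
      fun i k => ?_⟩
    rcases k.eq_or_lt with rfl | k
    · exact (if_pos le_rfl).trans (by rw [add_sub_cancel_right, tb, show e - n = b by omega])
    · exact if_neg (not_le.2 k)
  obtain ⟨W, W1, W2⟩ : ∃ W : ℤ → Vx Ω, (∀ i : ℤ, i < n → W i = v (e - (i + 1))) ∧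
      ∀ i, (n : ℤ) ≤ i → W i = (v (b + i - n)).map τ :=
    ⟨fun i => if i < n then v (e - (i + 1)) else (v (b + i - n)).map τ, fun i k => if_pos k,
      fun i k => if_neg (not_lt.2 k)⟩
  have hM : Chn (fun _ => m0) M W 0 (2 * n) := by
    refine ⟨fun i k1 k2 => ?_, fun i k1 k2 => ?_⟩
    · rcases lt_or_ge i n with c | c
      · have s := h2.symm _ _ _ _ (st (e - (i + 1)) (by omega) (by omega))
        rwa [show e - (i + 1) + 1 = e - i by ring, ← M1 i c.le, ← W1 i c, ← M1 (i + 1) c] at s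
      · have s := h2.map _ _ _ _ τ (st (b + i - n) (by omega) (by omega))
        rwa [show b + i - n + 1 = b + (i + 1) - n by ring, ← M2 i c, ← W2 i c,
          ← M2 (i + 1) (by omega)] at s
    · rcases lt_trichotomy (i + 1) n with c | c | c
      · have s := hch.nb (e - (i + 1 + 1)) (by omega) (by omega)
        rw [show e - (i + 1 + 1) + 1 = e - (i + 1) by ring] at s
        rw [W1 i (by omega), W1 _ c]
        exact s.symm
      · rw [W1 i (by omega), W2 _ c.ge, show e - (i + 1) = b by omega,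
          show b + (i + 1) - n = b by omega]
        exact t3.symm
      · have s := hch.nb (b + i - n) (by omega) (by omega)
        rw [show b + i - n + 1 = b + (i + 1) - n by ring] at s
        rw [W2 i (by omega), W2 _ c.le]
        exact fun k => s (τ.injective k)
  have m0' : M 0 = L e := by rw [M1 0 (by omega), sub_zero]
  have mn : M n = L b := by rw [M1 n le_rfl, show e - n = b by omega]
  have m2 : M (2 * n) = mp τ (L e) := by rw [M2 _ (by omega), show b + 2 * n - n = e by omega]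
  refine hp (fun _ => m0) M K W w 0 n (2 * n) Ψ Φ Ψ (ev (L b) Φ * u) (by omega) (by omega) hM
    (m0' ▸ ge) (fun i => fr h2 hg hs hs' hc h0 hM (m0' ▸ ge)) c1 c2 hR.sf c3 c7 c4 ?_
    fun σ hσ => ?_
  · rw [m0', mn, m2, h3.evmap]
    linear_combination (-ev (L b) Φ) * f4
  · have k : σ ∈ FL C (L b) := mn ▸ (mem_hg.1 hσ).1 n (by omega) (by omega)
    rw [map_mul, inv_ev h3 k, f3 σ k]

end Pool.Agent.MP_249f74_an.H96A
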