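import Pool.Agent.MP_249f74_an.H96A.Spec

/-!
Row MV: descent of a relation along a Galois extension.
-/

namespace Pool.Agent.MP_249f74_an.H96A

variable {C Ω : Type} [Field C] [Field Ω] [Algebra C Ω]

namespace Mv

theorem mem_Fx {S : Set Ω} {σ : Ω ≃ₐ[C] Ω} : σ ∈ Fx C S ↔ ∀ a ∈ S, σ a = a := Iff.rfl

theorem inv_mul_mem {S : Set Ω} {σ τ : Ω ≃ₐ[C] Ω} (h : ∀ a ∈ S, τ a = σ a) :
    τ⁻¹ * σ ∈ Fx C S := fun a ha => by
  rw [AlgEquiv.mul_apply, ← h a ha, ← AlgEquiv.mul_apply, inv_mul_cancel, AlgEquiv.one_apply]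

theorem apply_eq (σ τ : Ω ≃ₐ[C] Ω) (a : Ω) : σ a = τ ((τ⁻¹ * σ) a) := by
  rw [← AlgEquiv.mul_apply, mul_inv_cancel_left]

/-- The invariant elements form a monoid. -/
def fixM (N : Subgroup (Ω ≃ₐ[C] Ω)) : Submonoid Ω where
  carrier := {a | Inv N a}
  mul_mem' := fun ha hb σ hσ => by rw [map_mul, ha σ hσ, hb σ hσ]
  one_mem' := fun σ _ => map_one σ

theorem out_eq (H' : Subgroup (Ω ≃ₐ[C] Ω)) (S : Set Ω)
    (q q' : H' ⧸ (Fx C S).subgroupOf H')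
    (h : ∀ a ∈ S, (q.out : Ω ≃ₐ[C] Ω) a = (q'.out : Ω ≃ₐ[C] Ω) a) : q = q' := by
  rw [← QuotientGroup.out_eq' q, ← QuotientGroup.out_eq' q', QuotientGroup.eq,
    Subgroup.mem_subgroupOf]
  exact inv_mul_mem h

theorem fin_quot (H' : Subgroup (Ω ≃ₐ[C] Ω)) (P : Finset Ω) (h : ∀ σ ∈ H', ∀ a ∈ P, σ a ∈ P) :
    Finite (H' ⧸ (Fx C (P : Set Ω)).subgroupOf H') :=
  Finite.of_injective
    (fun (q : H' ⧸ (Fx C (P : Set Ω)).subgroupOf H') (a : P) =>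
      (⟨(q.out : Ω ≃ₐ[C] Ω) a, h _ q.out.2 a a.2⟩ : P))
    fun q q' e => out_eq H' _ q q' fun a ha => congrArg Subtype.val (congrFun e ⟨a, ha⟩)

end Mv

open Mv in
theorem mv : MV C Ω := by
  classical
  intro H H' P x ψ r hle hP hsur hr hsq hx hψ hrN hq
  have := fin_quot H' P fun σ hσ => hP σ (hle hσ)
  let Q := H' ⧸ (Fx C (P : Set Ω)).subgroupOf H'
  have : Fintype Q := Fintype.ofFinite Q
  let g : Q → (Ω ≃ₐ[C] Ω) := fun q => (q.out : Ω ≃ₐ[C] Ω)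
  have hg : ∀ q, g q ∈ H' := fun q => q.out.2
  let χ : Q → (fixM (H ⊓ Fx C P) →* Ω) := fun q =>
    ((g q : Ω →* Ω)).comp (fixM (H ⊓ Fx C P)).subtype
  have hχ : Function.Injective χ := fun q q' e =>
    out_eq H' _ q q' fun a ha => DFunLike.congr_fun e ⟨a, fun σ hσ => hσ.2 a ha⟩
  have hli := (linearIndependent_monoidHom (fixM (H ⊓ Fx C P)) Ω).comp χ hχ
  obtain ⟨a, ha, hb⟩ : ∃ a, Inv (H ⊓ Fx C P) a ∧ ∑ q, g q r / r * g q a ≠ 0 := by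
    by_contra hh
    push Not at hh
    have h0 := Fintype.linearIndependent_iff.1 hli (fun q => g q r / r) (by
      funext a
      rw [Finset.sum_apply]
      exact hh a.1 a.2) ((1 : H') : Q)
    exact div_ne_zero ((map_ne_zero _).2 hr) hr h0
  set b := ∑ q, g q r / r * g q a with hbdef
  have hbN : Inv (H ⊓ Fx C P) b := by
    intro n hn
    rw [hbdef, map_sum]
    refine Finset.sum_congr rfl fun q _ => ?_
    have h1 : (g q)⁻¹ * (n * g q) ∈ H ⊓ Fx C P :=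
      ⟨H.mul_mem (H.inv_mem (hle (hg q))) (H.mul_mem hn.1 (hle (hg q))),
        inv_mul_mem fun c hc => (hn.2 _ (hP _ (hle (hg q)) c hc)).symm⟩
    rw [map_mul, hq _ (hg q) n hn, ← AlgEquiv.mul_apply, apply_eq (n * g q) (g q), ha _ h1]
  have hrb : r * b = ∑ q, g q (r * a) := by
    rw [hbdef, Finset.mul_sum]
    refine Finset.sum_congr rfl fun q _ => ?_
    rw [map_mul, ← mul_assoc, mul_div_cancel₀ _ hr]
  have hr' : Inv H' (r * b) := by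
    intro σ hσ
    rw [hrb, map_sum]
    refine Fintype.sum_equiv (MulAction.toPerm (⟨σ, hσ⟩ : H')) _ _ fun q => ?_
    have h1 : ((MulAction.toPerm (⟨σ, hσ⟩ : H') q).out : H')⁻¹ * ((⟨σ, hσ⟩ : H') * q.out) ∈
        (Fx C (P : Set Ω)).subgroupOf H' := by
      rw [← QuotientGroup.eq, QuotientGroup.out_eq', MulAction.toPerm_apply, ← smul_eq_mul,
        MulAction.Quotient.coe_smul_out]
    have h2 : (g (MulAction.toPerm (⟨σ, hσ⟩ : H') q))⁻¹ * (σ * g q) ∈ H' ⊓ Fx C P :=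
      ⟨H'.mul_mem (H'.inv_mem (hg _)) (H'.mul_mem hσ (hg q)), h1⟩
    rw [← AlgEquiv.mul_apply, apply_eq (σ * g q) (g (MulAction.toPerm (⟨σ, hσ⟩ : H') q)),
      map_mul _ r a, hrN _ h2, ha _ ⟨hle h2.1, h2.2⟩]
  have hψ0 : ψ ≠ 0 := fun e => pow_ne_zero 2 hr (by rw [hsq, e, mul_zero])
  have hsq' : (r * b) ^ 2 = x * b ^ 2 * ψ := by rw [mul_pow, hsq]; ring
  refine ⟨x * b ^ 2, r * b, mul_ne_zero hr hb, hsq', fun σ hσ => ?_, hr'⟩
  obtain ⟨τ, hτ, he⟩ := hsur σ hσ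
  have h1 : τ⁻¹ * σ ∈ H ⊓ Fx C P := ⟨H.mul_mem (H.inv_mem (hle hτ)) hσ, inv_mul_mem he⟩
  have h2 : (τ⁻¹ * σ) (x * b ^ 2) = x * b ^ 2 := by rw [map_mul, map_pow, hx _ h1, hbN _ h1]
  rw [apply_eq σ τ, h2]
  apply mul_right_cancel₀ hψ0
  rw [← hsq']
  conv_lhs => rw [← hψ τ hτ, ← map_mul, ← hsq', map_pow, hr' τ hτ]

end Pool.Agent.MP_249f74_an.H96A
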