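import Pool.Agent.MP_249f74_an.H96A.Spec

/-!
No relation at the end of a chain whose last mirror is not a conic.
-/

open Polynomial

namespace Pool.Agent.MP_249f74_an.H96A

namespace RUN

variable {C Ω : Type} [Field C] [Field Ω] [Algebra C Ω]
variable {m : ℤ → Mir C} {L : ℤ → Ω × Ω} {v : ℤ → Vx Ω}

theorem mem_fx {S : Set Ω} {σ : Ω ≃ₐ[C] Ω} : σ ∈ Fx C S ↔ ∀ a ∈ S, σ a = a := Iff.rfl

theorem mem_fl {l : Ω × Ω} {σ : Ω ≃ₐ[C] Ω} : σ ∈ FL C l ↔ σ l.1 = l.1 ∧ σ l.2 = l.2 := by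
  simp [FL, mem_fx]

theorem mem_hg {a b : ℤ} {σ : Ω ≃ₐ[C] Ω} : σ ∈ Hg C L v a b ↔
    (∀ i, a ≤ i → i ≤ b → σ ∈ FL C (L i)) ∧ ∀ i, a ≤ i → i < b → σ (v i).y = (v i).y := by
  constructor
  · intro h
    refine ⟨fun i h1 h2 => mem_fl.2 ⟨?_, ?_⟩, fun i h1 h2 => ?_⟩
    · exact h _ (Or.inl ⟨i, h1, h2, Or.inl rfl⟩)
    · exact h _ (Or.inl ⟨i, h1, h2, Or.inr rfl⟩)
    · exact h _ (Or.inr ⟨i, h1, h2, rfl⟩)
  · rintro ⟨h, h'⟩ t (⟨i, h1, h2, rfl | rfl⟩ | ⟨i, h1, h2, rfl⟩)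
    · exact (mem_fl.1 (h i h1 h2)).1
    · exact (mem_fl.1 (h i h1 h2)).2
    · exact h' i h1 h2

theorem hg_mono {a b a' b' : ℤ} (ha : a ≤ a') (hb : b' ≤ b) : Hg C L v a b ≤ Hg C L v a' b' := by
  intro σ h
  rw [mem_hg] at h ⊢
  exact ⟨fun i h1 h2 => h.1 i (by omega) (by omega), fun i h1 h2 => h.2 i (by omega) (by omega)⟩

theorem ev_fix {l : Ω × Ω} {σ : Ω ≃ₐ[C] Ω} (h : σ ∈ FL C l) (F : P2 C) : σ (ev l F) = ev l F := by
  have : (σ : Ω →ₐ[C] Ω).comp (ev l) = ev l := by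
    apply MvPolynomial.algHom_ext
    intro i
    fin_cases i
    · simpa [ev] using (mem_fl.1 h).1
    · simpa [ev] using (mem_fl.1 h).2
  exact DFunLike.congr_fun this F

theorem gen_at (h2 : B2 C Ω) {a e : ℤ} (hc : Chn m L v a e) (hg : Gen C (L a)) :
    ∀ i, a ≤ i → i ≤ e → Gen C (L i) := by
  intro i hi
  induction i, hi using Int.leInduction with
  | base => exact fun _ => hg
  | succ n hn ih => exact fun h => h2.gen _ _ _ _ (hc.st n hn (by omega)) (ih (by omega))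

theorem mem_pts (h2 : B2 C Ω) {μ : Mir C} {w : Vx Ω} {l : Ω × Ω} (ho : μ.On w) (hi : Inc w l) :
    w.y ∈ Pts μ l := by
  rw [h2.mem, ← hi]
  exact ho.f0

theorem hg_right (h2 : B2 C Ω) {a e a' i : ℤ} (hc : Chn m L v a e) (ha : a ≤ a') (hi : a' ≤ i)
    (he : i < e) {σ : Ω ≃ₐ[C] Ω} (h : σ ∈ Hg C L v a' i) (hy : σ (v i).y = (v i).y) :
    σ ∈ Hg C L v a' (i + 1) := by
  rw [mem_hg] at h ⊢
  refine ⟨fun t h1 ht => ?_, fun t h1 ht => ?_⟩
  · rcases eq_or_lt_of_le ht with rfl | ht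
    · exact (h2.fix _ _ _ _ σ (hc.st i (by omega) he) (h.1 i hi le_rfl) hy).2
    · exact h.1 t h1 (by omega)
  · rcases eq_or_lt_of_le (show t ≤ i by omega) with rfl | ht
    · exact hy
    · exact h.2 t h1 ht

theorem hg_left (h2 : B2 C Ω) {a e j : ℤ} (hc : Chn m L v a e) (hj : a + 1 ≤ j)
    (he : a < e) {σ : Ω ≃ₐ[C] Ω} (h : σ ∈ Hg C L v (a + 1) j) (hy : σ (v a).y = (v a).y) :
    σ ∈ Hg C L v a j := by
  rw [mem_hg] at h ⊢
  refine ⟨fun t h1 ht => ?_, fun t h1 ht => ?_⟩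
  · rcases eq_or_lt_of_le h1 with rfl | h1
    · exact (h2.fix _ _ _ _ σ (h2.symm _ _ _ _ (hc.st a le_rfl he)) (h.1 (a + 1) le_rfl hj) hy).2
    · exact h.1 t (by omega) ht
  · rcases eq_or_lt_of_le h1 with rfl | h1
    · exact hy
    · exact h.2 t (by omega) ht

theorem sg_fr (hG : GRP C Ω) {a b : ℤ} {σ : Ω ≃ₐ[C] Ω} (h : σ ∈ Hg C L v a b) :
    sg σ (Fr m L v a b) = sg σ (Pts (m b) (L b)) := by
  classical
  unfold Fr
  split_ifs with hab
  · exact hG.erase σ _ _ ((mem_hg.1 h).2 (b - 1) (by omega) (by omega))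
  · rfl

theorem sg_fl (hG : GRP C Ω) {a b : ℤ} {σ : Ω ≃ₐ[C] Ω} (h : σ ∈ Hg C L v a b) :
    sg σ (Fl m L v a b) = sg σ (Pts (m (a - 1)) (L a)) := by
  classical
  unfold Fl
  split_ifs with hab
  · exact hG.erase σ _ _ ((mem_hg.1 h).2 a le_rfl hab)
  · rfl

/-- A full group realizes the action of any automorphism that keeps the set. -/
theorem full_real {H : Subgroup (Ω ≃ₐ[C] Ω)} {P : Finset Ω} (h : Full H P) (σ : Ω ≃ₐ[C] Ω)
    (hσ : ∀ a ∈ P, σ a ∈ P) : ∃ τ ∈ H, ∀ a ∈ P, τ a = σ a := by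
  let f : P → P := fun a => ⟨σ a, hσ a a.2⟩
  have hf : Function.Injective f := fun a b hab =>
    Subtype.ext (σ.injective (congrArg Subtype.val hab))
  obtain ⟨τ, hτ, h'⟩ := h.all (Equiv.ofBijective f (Finite.injective_iff_bijective.1 hf))
  exact ⟨τ, hτ, fun a ha => h' ⟨a, ha⟩⟩

/-- The kernel of the action on a finite set is normal. -/
theorem inv_conj {H : Subgroup (Ω ≃ₐ[C] Ω)} {P : Finset Ω} (hP : ∀ σ ∈ H, ∀ a ∈ P, σ a ∈ P)
    {τ : Ω ≃ₐ[C] Ω} (hτ : τ ∈ H) {r : Ω} (hr : Inv (H ⊓ Fx C P) r) :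
    Inv (H ⊓ Fx C P) (τ r) := by
  intro σ hσ
  have h1 : τ⁻¹ * σ * τ ∈ H ⊓ Fx C P := by
    refine ⟨H.mul_mem (H.mul_mem (H.inv_mem hτ) hσ.1) hτ, fun a ha => ?_⟩
    rw [AlgEquiv.mul_apply, AlgEquiv.mul_apply, hσ.2 _ (hP τ hτ a ha)]
    exact τ.symm_apply_apply a
  have h2 := hr _ h1
  rw [AlgEquiv.mul_apply, AlgEquiv.mul_apply] at h2
  exact τ.symm_apply_eq.1 h2

theorem inv_div {H : Subgroup (Ω ≃ₐ[C] Ω)} {a b : Ω} (ha : Inv H a) (hb : Inv H b) :
    Inv H (a / b) := fun σ hσ => by rw [map_div₀, ha σ hσ, hb σ hσ]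

theorem exists_step (p : ℤ → Prop) (b j : ℤ) (hbj : b ≤ j) (hb : ¬p b) (hj : p j) :
    ∃ i, b ≤ i ∧ i < j ∧ ¬p i ∧ p (i + 1) := by
  induction j, hbj using Int.leInduction with
  | base => exact absurd hj hb
  | succ n hn ih =>
    by_cases hn' : p n
    · obtain ⟨i, h1, h2, h3⟩ := ih hn'
      exact ⟨i, h1, by omega, h3⟩
    · exact ⟨n, hn, by omega, hn', hj⟩

/-- The free points on the left do not depend on the right end inside the last run. -/
theorem fl_eq (h2 : B2 C Ω) {a b e j : ℤ} (hc : Chn m L v a e) (hg : Gen C (L a))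
    (hr : Run m a b e) (hab : a < b) (hj : b ≤ j) :
    Fl m L v (a + 1) j = Fl m L v (a + 1) e := by
  classical
  have hbe := hr.be
  unfold Fl
  rw [if_pos (show a + 1 < e by omega)]
  split_ifs with h
  · rfl
  · have hb : a + 1 = b := by omega
    symm
    apply Finset.erase_eq_of_notMem
    intro hmem
    have h3 : (v (a + 1)).y ∈ Pts (m (a + 1)) (L (a + 1)) :=
      mem_pts h2 (hc.st (a + 1) (by omega) (by omega)).on (hc.st (a + 1) (by omega) (by omega)).i0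
    have h4 := h2.dis _ _ _ _ (gen_at h2 hc hg (a + 1) (by omega) (by omega)) hmem h3
    apply hr.ne hab
    rw [← hb, h4]
    exact hr.eq _ (by omega) (by omega)

theorem mem_fl_left (h2 : B2 C Ω) {a e : ℤ} (hc : Chn m L v a e) (he : a + 1 < e) :
    (v a).y ∈ Fl m L v (a + 1) e := by
  classical
  unfold Fl
  rw [if_pos he, Finset.mem_erase, add_sub_cancel_right]
  exact ⟨hc.nb a le_rfl he,
    mem_pts h2 (hc.st a le_rfl (by omega)).on (hc.st a le_rfl (by omega)).i1⟩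

theorem mem_fr_right (h2 : B2 C Ω) {a a' e i : ℤ} (hc : Chn m L v a e) (ha : a ≤ a')
    (hi : a' ≤ i) (he : i < e) : (v i).y ∈ Fr m L v a' i := by
  classical
  have h0 : (v i).y ∈ Pts (m i) (L i) :=
    mem_pts h2 (hc.st i (by omega) he).on (hc.st i (by omega) he).i0
  unfold Fr
  split_ifs with h
  · rw [Finset.mem_erase]
    refine ⟨?_, h0⟩
    have := hc.nb (i - 1) (by omega) (by omega)
    rw [sub_add_cancel] at this
    exact this.symm
  · exact h0

theorem fr_eq (h2 : B2 C Ω) {a b e : ℤ} (hc : Chn m L v a e) (hg : Gen C (L a))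
    (hr : Run m a b e) (hab : a < b) : Fr m L v (a + 1) b = Pts (m b) (L b) := by
  classical
  have hbe := hr.be
  unfold Fr
  split_ifs with h
  · apply Finset.erase_eq_of_notMem
    intro hmem
    have hs := hc.st (b - 1) (by omega) (by omega)
    rw [sub_add_cancel] at hs
    have h3 : (v (b - 1)).y ∈ Pts (m (b - 1)) (L b) := mem_pts h2 hs.on hs.i1
    have h4 := h2.dis _ _ _ _ (gen_at h2 hc hg b (by omega) (by omega)) h3 hmem
    apply hr.ne hab
    rw [h4]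
    exact hr.eq _ le_rfl hbe
  · rfl

/-- The relation over the extension by the free points on the left. -/
def Q (L : ℤ → Ω × Ω) (v : ℤ → Vx Ω) (P : Finset Ω) (a b j : ℤ) : Prop :=
  ∃ (x r : Ω) (Ψ : P2 C) (k : Ω × Ω), x ≠ 0 ∧ Inv (Hg C L v a b ⊓ Fx C P) x ∧
    Inv (Hg C L v a j ⊓ Fx C P) r ∧ r ^ 2 = x * ev (L j) Ψ ∧ Squarefree Ψ ∧ Cur C k ∧ ev k Ψ = 0

theorem step [IsAlgClosed Ω] (h1 : B1 C Ω) (h2 : B2 C Ω) (hG : GRP C Ω) (hMV : MV C Ω)
    (hS1 : SEC1 C Ω) (hS : SEC C Ω) {a b e : ℤ} (hc : Chn m L v a e) (hg : Gen C (L a))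
    (hr : Run m a b e) (hab : a < b)
    (hFR : ∀ i j, a ≤ i → i ≤ j → j < e → FR m L v i j)
    (hFF : ∀ i j, a < i → i ≤ j → j ≤ e → FF m L v i j)
    (hNL : ∀ i j, a < i → i ≤ j → j < e → NL m L v i j)
    (hn : ¬(m (e - 1)).Con)
    (ih : ∀ j x r (Ψ : P2 C) k, b < j → j ≤ e → ¬Rel L v (a + 1) b j x r Ψ k) :
    ∀ n : ℕ, ∀ j, j ≤ b + n → b < j → j ≤ e → ¬Q (C := C) L v (Fl m L v (a + 1) e) (a + 1) b j := by
  have hbe := hr.be
  set P := Fl m L v (a + 1) e with hP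
  have hfull : ∀ j, b ≤ j → j ≤ e → Full (Hg C L v (a + 1) j) P := fun j hj hj' => by
    have := hFF (a + 1) j (by omega) (by omega) hj'
    unfold FF at this
    rwa [fl_eq h2 hc hg hr hab hj] at this
  intro n
  induction n with
  | zero => intro j h h'; omega
  | succ n ihn =>
    rintro j hjn hbj hje ⟨x, r, Ψ, k, hx0, hx, hrr, hsq, hsf, hcur, hz⟩
    have hgj := gen_at h2 hc hg j (by omega) hje
    have hψ : ev (L j) Ψ ≠ 0 := fun h => hsf.ne_zero (hgj Ψ h)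
    have hr0 : r ≠ 0 := by
      rintro rfl
      rw [zero_pow two_ne_zero] at hsq
      exact mul_ne_zero hx0 hψ hsq.symm
    have hle : Hg C L v (a + 1) j ≤ Hg C L v (a + 1) b := hg_mono le_rfl hbj.le
    have hψi : Inv (Hg C L v (a + 1) j) (ev (L j) Ψ) := fun σ hσ =>
      ev_fix ((mem_hg.1 hσ).1 j (by omega) le_rfl) Ψ
    by_cases hall : ∀ τ ∈ Hg C L v (a + 1) j, Inv (Hg C L v (a + 1) b ⊓ Fx C P) (τ r / r)
    · obtain ⟨x', r', hr', hsq', hx', hri⟩ := hMV _ _ P x _ r hle (hfull b le_rfl hbe.le).stb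
        (fun σ hσ => full_real (hfull j hbj.le hje) σ ((hfull b le_rfl hbe.le).stb σ hσ))
        hr0 hsq hx hψi hrr hall
      refine ih j x' r' Ψ k hbj hje ⟨?_, hx', hri, hsq', hsf, hcur, hz⟩
      rintro rfl
      rw [zero_mul] at hsq'
      exact hr' (pow_eq_zero_iff two_ne_zero |>.1 hsq')
    · push Not at hall
      obtain ⟨τ, hτ, hnu⟩ := hall
      set u := τ r / r with hu
      have hu0 : u ≠ 0 := div_ne_zero ((map_ne_zero τ).2 hr0) hr0
      have huj : Inv (Hg C L v (a + 1) j ⊓ Fx C P) u :=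
        inv_div (inv_conj (hfull j hbj.le hje).stb hτ hrr) hrr
      have hu2 : u ^ 2 = τ x / x := by
        rw [hu, div_pow, ← map_pow, hsq, map_mul, hψi τ hτ, mul_div_mul_right _ _ hψ]
      have hub : Inv (Hg C L v (a + 1) b ⊓ Fx C P) (u ^ 2) := by
        rw [hu2]
        exact inv_div (inv_conj (hfull b le_rfl hbe.le).stb (hle hτ) hx) hx
      obtain ⟨i, hbi, hij, hni, hi1⟩ :=
        exists_step (fun i => Inv (Hg C L v (a + 1) i ⊓ Fx C P) u) b j hbj.le hnu huj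
      have hie : i < e := by omega
      have hfr : Full (Hg C L v (a + 1) i) (Fr m L v (a + 1) i) :=
        hFR (a + 1) i (by omega) (by omega) hie
      have hdrop : Full (Hg C L v (a + 1) i ⊓ Fx C P) (Fr m L v (a + 1) i) := by
        refine hG.drop _ _ _ (hfull i hbi hie.le) hfr fun hcard => ?_
        obtain ⟨σ, hσ, hne⟩ := hNL (a + 1) i (by omega) (by omega) hie (by
          by_cases h : a + 1 < i
          · exact Or.inl h
          · right
            have hb : a + 1 = b := by omega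
            rw [hb, hr.eq i hbi hie]
            exact hr.ne hab) hcard
        refine ⟨σ, hσ, ?_⟩
        rw [hP, ← fl_eq h2 hc hg hr hab hbi, sg_fl hG hσ, sg_fr hG hσ]
        exact hne
      have hib : Hg C L v (a + 1) i ⊓ Fx C P ≤ Hg C L v (a + 1) b ⊓ Fx C P :=
        inf_le_inf_right _ (hg_mono le_rfl hbi)
      obtain ⟨hcard, hsg⟩ := hG.quad _ _ (v i).y u hdrop
        (mem_fr_right h2 hc (by omega) (by omega) hie)
        (fun σ hσ => hi1 σ ⟨hg_right h2 hc (by omega) (by omega) hie hσ.1.1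
          (hσ.2 _ rfl), hσ.1.2⟩)
        (fun σ hσ => hub σ (hib hσ)) hni
      rcases eq_or_lt_of_le hbi with rfl | hbi'
      · rw [fr_eq h2 hc hg hr hab, hS1.card _ _ (gen_at h2 hc hg b (by omega) hbe.le),
          hr.eq b le_rfl hbe] at hcard
        exact hn hcard
      · obtain ⟨Δ, hΔ⟩ := hS.dsc (m i) (L i) (gen_at h2 hc hg i (by omega) hie.le)
        obtain ⟨ρ, hρ⟩ := IsAlgClosed.exists_pow_nat_eq (ev (L i) Δ) two_pos
        have hon := (hc.st i (by omega) hie).on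
        refine ihn i (by push_cast at hjn; omega) hbi' hie.le
          ⟨u ^ 2, u * ρ, Δ, (v i).tl, pow_ne_zero 2 hu0, hub, fun σ hσ => ?_, ?_, hΔ.sq,
            (h1.tl _ _ hon).1, hΔ.own _ hon⟩
        · rw [map_mul, hsg σ hσ, hΔ.sgn σ ((mem_hg.1 hσ.1).1 i (by omega) le_rfl) ρ hρ,
            sg_fr hG hσ.1]
          rcases Int.units_eq_one_or (sg σ (Pts (m i) (L i))) with h | h <;> simp [h]
        · rw [mul_pow, hρ]

end RUN

variable {C Ω : Type} [Field C] [IsAlgClosed C] [Field Ω] [CharZero Ω] [IsAlgClosed Ω] [Algebra C Ω]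

omit [IsAlgClosed C] [CharZero Ω] in
theorem run (h1 : B1 C Ω) (h2 : B2 C Ω) (hG : GRP C Ω) (hMV : MV C Ω) (hS1 : SEC1 C Ω)
    (hS : SEC C Ω) (hBR : BR C Ω) : RUN C Ω := by
  have key : ∀ (m : ℤ → Mir C) (L : ℤ → Ω × Ω) (v : ℤ → Vx Ω) (b : ℤ) (n : ℕ) (a e : ℤ) (x r : Ω)
      (Ψ : P2 C) (k : Ω × Ω), b = a + n → Chn m L v a e → Gen C (L a) → Run m a b e →
      (∀ i j, a ≤ i → i ≤ j → j < e → FR m L v i j) →
      (∀ i j, a < i → i ≤ j → j ≤ e → FF m L v i j) →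
      (∀ i j, a < i → i ≤ j → j < e → NL m L v i j) → Rel L v a b e x r Ψ k →
      (m (e - 1)).Con := by
    intro m L v b n
    induction n with
    | zero =>
      intro a e x r Ψ k hb hc hg hr hFR hFF _ hrel
      obtain rfl : b = a := by simpa using hb
      exact hBR m L v b e x r Ψ k hc hg hr (fun i h h' => hFR b i le_rfl h h')
        (fun i h h' => hFF i e h h' le_rfl) hrel
    | succ n ih =>
      intro a e x r Ψ k hb hc hg hr hFR hFF hNL hrel
      have hab : a < b := by push_cast at hb; omega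
      have hbe := hr.be
      by_contra hn
      refine RUN.step h1 h2 hG hMV hS1 hS hc hg hr hab hFR hFF hNL hn ?_ (e - b).toNat e
        (by omega) hbe le_rfl ?_
      · intro j x' r' Ψ' k' hbj hje hrel'
        apply hn
        rw [← hr.eq (j - 1) (by omega) (by omega)]
        refine ih (a + 1) j x' r' Ψ' k' (by push_cast at hb; omega)
          ⟨fun i h h' => hc.st i (by omega) (by omega), fun i h h' => hc.nb i (by omega) (by omega)⟩
          (RUN.gen_at h2 hc hg (a + 1) (by omega) (by omega)) ⟨by omega, hbj, fun i h h' => ?_,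
            fun _ => ?_⟩
          (fun i t h h' h'' => hFR i t (by omega) h' (by omega))
          (fun i t h h' h'' => hFF i t (by omega) h' (by omega))
          (fun i t h h' h'' => hNL i t (by omega) h' (by omega)) hrel'
        · rw [hr.eq i h (by omega), hr.eq (j - 1) (by omega) (by omega)]
        · rw [hr.eq (j - 1) (by omega) (by omega)]
          exact hr.ne hab
      · have hy := RUN.mem_fl_left h2 hc (show a + 1 < e by omega)
        exact ⟨x, r, Ψ, k, hrel.x0,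
          fun σ hσ => hrel.hx σ (RUN.hg_left h2 hc (by omega) (by omega) hσ.1 (hσ.2 _ hy)),
          fun σ hσ => hrel.hr σ (RUN.hg_left h2 hc (by omega) (by omega) hσ.1 (hσ.2 _ hy)),
          hrel.sq, hrel.sf, hrel.cur, hrel.zero⟩
  intro m L v a b e x r Ψ k hc hg hr
  have := hr.ab
  exact key m L v b (b - a).toNat a e x r Ψ k (by omega) hc hg hr

end Pool.Agent.MP_249f74_an.H96A
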