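import Pool.Agent.MP_249f74_an.H96A.Spec

/-!
Reduction to transcendence degree two.
-/

open Polynomial Set

namespace Pool.Agent.MP_249f74_an.H96A

open H88 (cl rk mem_cl subset_cl mem_cl_of_root le_rk_iff)
open H17 (mem_cl_of_rk rk_finite mem_cl_iff cl_le)

namespace Down

variable {C Ω : Type} [Field C] [Field Ω] [Algebra C Ω]

lemma mem_cl_of_map {Ω' : Type} [Field Ω'] [Algebra C Ω'] (ι : Ω →ₐ[C] Ω') {S : Set Ω} {x : Ω}
    (h : ι x ∈ cl C (ι '' S)) : x ∈ cl C S := by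
  rw [mem_cl, ← AlgHom.map_adjoin] at h
  rw [mem_cl]
  exact h.of_ringHom_of_comp_eq
    (f := (Subalgebra.equivMapOfInjective (Algebra.adjoin C S) ι ι.injective).toRingEquiv.toRingHom)
    (g := ι.toRingHom)
    (Subalgebra.equivMapOfInjective (Algebra.adjoin C S) ι ι.injective).surjective
    ι.injective (RingHom.ext fun _ => rfl)

lemma ev_map {Ω' : Type} [Field Ω'] [Algebra C Ω'] (ι : Ω →ₐ[C] Ω') (l : Ω × Ω) (F : P2 C) :
    ev (ι l.1, ι l.2) F = ι (ev l F) := by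
  have : (ev (ι l.1, ι l.2) : P2 C →ₐ[C] Ω') = ι.comp (ev l) := by
    ext i
    fin_cases i <;> simp [ev]
  rw [this]; rfl

omit [Field Ω] in
lemma range_pair (a b : Ω) : range ![a, b] = {a, b} := by
  ext x; simp [or_comm]

lemma two_le_rk {l : Ω × Ω} (h : Gen C l) : (2 : ℕ∞) ≤ rk C {l.1, l.2} := by
  have h1 : AlgebraicIndependent C ![l.1, l.2] :=
    algebraicIndependent_iff.2 h
  rw [← range_pair]
  exact (le_rk_iff ![l.1, l.2] 2).2 ⟨Finset.univ, by simp, h1.comp _ Subtype.val_injective⟩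

lemma rk_le_two (a b : Ω) : rk C ({a, b} : Set Ω) ≤ 2 := by
  rw [← range_pair]
  simpa using H88.rk_le_card (k := C) ![a, b]

lemma closed [IsAlgClosed Ω] (S : Set Ω) : IsAlgClosed (cl C S) :=
  IsAlgClosed.of_exists_root _ fun p _ hp => by
    obtain ⟨x, hx⟩ :=
      IsAlgClosed.exists_aeval_eq_zero Ω p (Polynomial.degree_pos_of_irreducible hp).ne'
    have h1 : x ∈ cl C S :=
      cl_le (S := S) (T := (cl C S : Set Ω)) subset_rfl (mem_cl_iff.2 ⟨p, hp.ne_zero, hx⟩)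
    refine ⟨⟨x, h1⟩, (algebraMap (cl C S) Ω).injective ?_⟩
    rw [map_zero, ← hx, ← Polynomial.coe_aeval_eq_eval, ← Polynomial.aeval_algebraMap_apply]
    rfl

lemma sf (a b : Ω) : Sf C (cl C ({a, b} : Set Ω)) := by
  let K := cl C ({a, b} : Set Ω)
  intro (l : K × K) hl (x : K)
  have hg : Gen C ((l.1 : Ω), (l.2 : Ω)) := fun F hF => hl F (by
    have := ev_map K.val l F
    exact Subtype.ext (this.symm.trans hF))
  refine mem_cl_of_map K.val ?_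
  rw [image_pair]
  have h1 : ({a, b} : Set Ω) ⊆ cl C {(l.1 : Ω), (l.2 : Ω)} :=
    mem_cl_of_rk (rk_finite (toFinite _)) (by
      rintro _ (rfl | rfl)
      exacts [l.1.2, l.2.2]) ((rk_le_two a b).trans (two_le_rk hg))
  exact cl_le h1 x.2

lemma sec_map {Ω' : Type} [Field Ω'] [Algebra C Ω'] (ι : Ω →ₐ[C] Ω') (l : Ω × Ω) (f : P2 C) :
    sec f (ι l.1, ι l.2) = (sec f l).map ι.toRingHom := by
  have : (MvPolynomial.aeval ![Polynomial.C (ι l.2) + Polynomial.C (ι l.1) * X, X] :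
      P2 C →ₐ[C] Polynomial Ω') = (Polynomial.mapAlgHom ι).comp
        (MvPolynomial.aeval ![Polynomial.C l.2 + Polynomial.C l.1 * X, X]) := by
    ext i : 1
    fin_cases i <;> simp
  exact congrArg (fun φ : P2 C →ₐ[C] Polynomial Ω' => φ f) this

lemma eval_sec (f : P2 C) (l : Ω × Ω) (y : Ω) :
    (sec f l).eval y = ev (l.2 + l.1 * y, y) f := by
  have : ((Polynomial.aeval y : Polynomial Ω →ₐ[Ω] Ω).restrictScalars C).comp
      (MvPolynomial.aeval ![Polynomial.C l.2 + Polynomial.C l.1 * X, X]) =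
        (ev (l.2 + l.1 * y, y) : P2 C →ₐ[C] Ω) := by
    ext i : 1
    fin_cases i <;> simp [ev]
  exact congrArg (fun φ : P2 C →ₐ[C] Ω => φ f) this

/-- One reflection stays in the algebraic closure. -/
lemma step (h1 : B1 C Ω) (h2 : B2 C Ω) {S : Set Ω} {m : Mir C} {ρ ρ' : Ray Ω} {v : Vx Ω} {e : Ω}
    (h : Rf m ρ v ρ') (r : Ray (cl C S)) (hz : (r.z : Ω) = ρ.z) (hc : (r.c : Ω) = ρ.c)
    (he : (r.e : Ω) = ρ.e - e) : ∃ (u : Vx (cl C S)) (r' : Ray (cl C S)), Rf m r u r' ∧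
      (r'.z : Ω) = ρ'.z ∧ (r'.c : Ω) = ρ'.c ∧ (r'.e : Ω) = ρ'.e - e := by
  let K := cl C S
  have hl : ρ.ln = (K.val r.ln.1, K.val r.ln.2) := by
    change (ρ.z ^ 2, ρ.c) = ((r.z : Ω) ^ 2, (r.c : Ω))
    rw [hz, hc]
  have i0 : v.x = ρ.c + ρ.z ^ 2 * v.y := h.i0
  have i1 : v.x = ρ'.c + ρ'.z ^ 2 * v.y := h.i1
  have hy : v.y ∈ K := by
    refine mem_cl_of_root (h2.sec0 m ρ.ln) (fun i => ?_) ?_
    · rw [hl, sec_map, coeff_map]
      exact ((sec m.f r.ln).coeff i).2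
    · rw [eval_sec]
      have := h.on.f0
      rwa [Vx.p, i0] at this
  have hK : cl C {v.y} ≤ K := cl_le (singleton_subset_iff.2 hy)
  have hx : v.x ∈ K := hK (h1.alg m v h.on).1
  have hw : v.w ∈ K := hK (h1.alg m v h.on).2
  have z0 : ρ.z ≠ 0 := fun h0 => h1.w0 m v h.on (by rw [← h.rf, h0, zero_mul])
  have hz1 : ρ.z ∈ K := hz ▸ r.z.2
  have hz' : ρ'.z ∈ K := by
    have : ρ'.z = v.w / ρ.z := by rw [← h.rf]; field_simp
    rw [this]; exact div_mem hw hz1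
  have hc' : ρ'.c ∈ K := by
    have : ρ'.c = v.x - ρ'.z ^ 2 * v.y := by rw [i1]; ring
    rw [this]; exact sub_mem hx (mul_mem (pow_mem hz' 2) hy)
  have he' : ρ'.e - e ∈ K := by
    have : ρ'.e - e = r.e + ρ.z * v.y - ρ'.z * v.y := by rw [he]; linear_combination -h.tm
    rw [this]; exact sub_mem (add_mem r.e.2 (mul_mem hz1 hy)) (mul_mem hz' hy)
  let u : Vx K := ⟨⟨v.x, hx⟩, ⟨v.y, hy⟩, ⟨v.w, hw⟩⟩
  have hev : ∀ F : P2 C, K.val (ev u.p F) = ev v.p F := fun F => (ev_map K.val u.p F).symm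
  refine ⟨u, ⟨⟨ρ'.z, hz'⟩, ⟨ρ'.c, hc'⟩, ⟨ρ'.e - e, he'⟩⟩, ⟨⟨?_, ?_, ?_⟩, ?_, ?_, ?_, ?_⟩,
    rfl, rfl, rfl⟩
  · exact K.val.injective (by rw [map_zero]; exact (hev _).trans h.on.f0)
  · rintro ⟨k, hk⟩
    exact h.on.ny ⟨k, congrArg Subtype.val hk⟩
  · refine K.val.injective ?_
    change K.val _ = K.val _
    rw [map_zero, map_add, map_mul, hev, hev]
    exact h.on.sl
  · refine Subtype.ext ?_
    change v.x = (r.c : Ω) + (r.z : Ω) ^ 2 * v.y
    rw [hz, hc, i0]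
  · exact Subtype.ext i1
  · refine Subtype.ext ?_
    change (r.z : Ω) * ρ'.z = v.w
    rw [hz, h.rf]
  · refine Subtype.ext ?_
    change (r.e : Ω) + (r.z : Ω) * v.y = ρ'.e - e + ρ'.z * v.y
    rw [hz, he]; linear_combination h.tm

lemma path (h1 : B1 C Ω) (h2 : B2 C Ω) {S : Set Ω} {ρ ρ' : Ray Ω} {e : Ω}
    (h : Pth C ρ ρ') (r : Ray (cl C S)) (hz : (r.z : Ω) = ρ.z) (hc : (r.c : Ω) = ρ.c)
    (he : (r.e : Ω) = ρ.e - e) : ∃ r' : Ray (cl C S), Pth C r r' ∧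
      (r'.z : Ω) = ρ'.z ∧ (r'.c : Ω) = ρ'.c ∧ (r'.e : Ω) = ρ'.e - e := by
  induction h with
  | nil => exact ⟨r, Pth.nil r, hz, hc, he⟩
  | snoc _ hr ih =>
    obtain ⟨r1, p1, a1, a2, a3⟩ := ih
    obtain ⟨u, r2, p2, b⟩ := step h1 h2 hr r1 a1 a2 a3
    exact ⟨r2, p1.snoc p2, b⟩

lemma adj {Ω' : Type} [Field Ω'] [Algebra C Ω'] (ι : Ω →ₐ[C] Ω') {S : Set Ω} {x : Ω}
    (h : ι x ∈ IntermediateField.adjoin C (ι '' S)) : x ∈ IntermediateField.adjoin C S := by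
  rw [← IntermediateField.adjoin_map] at h
  obtain ⟨y, hy, hxy⟩ := h
  exact ι.injective hxy ▸ hy

end Down

open H96A.Down in
theorem down (h1 : All B1) (h2 : All B2) : DOWN := by
  intro hZ C Ω _ _ _ _ _ _ ρ ρ' hg hp a1 a2
  let K := cl C ({ρ.ln.1, ρ.ln.2} : Set Ω)
  have : IsAlgClosed K := closed _
  have : CharZero K := algebraRat.charZero _
  have hc : ρ.c ∈ K := subset_cl _ (Or.inr rfl)
  have hz : ρ.z ∈ K := by
    refine mem_cl_of_root (p := X ^ 2 - Polynomial.C (ρ.z ^ 2)) (X_pow_sub_C_ne_zero two_pos _)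
      (fun i => ?_) (by simp)
    rw [coeff_sub, coeff_X_pow, coeff_C]
    refine sub_mem ?_ ?_
    · split_ifs
      exacts [one_mem _, zero_mem _]
    · split_ifs
      exacts [subset_cl _ (Or.inl rfl), zero_mem _]
  let r : Ray K := ⟨⟨ρ.z, hz⟩, ⟨ρ.c, hc⟩, 0⟩
  obtain ⟨r', p, b1, b2, b3⟩ := path (h1 C Ω) (h2 C Ω) (e := ρ.e) hp r rfl rfl (by simp [r])
  have hl : ρ.ln = (K.val r.ln.1, K.val r.ln.2) := rfl
  have hS : ({ρ.ln.1, ρ.ln.2} : Set Ω) = K.val '' {r.ln.1, r.ln.2} := by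
    rw [image_pair]; rfl
  have hg' : Gen C r.ln := fun F hF => hg F (by rw [hl, ev_map, hF, map_zero])
  have := hZ C K (sf _ _) r r' hg' p (adj K.val ?_) (adj K.val ?_)
  · subst this
    ext
    · exact b1.symm
    · exact b2.symm
    · have : (0 : Ω) = ρ'.e - ρ.e := b3
      linear_combination -this
  · rw [← hS]
    have : K.val r'.ln.1 = ρ'.ln.1 := by
      change (r'.z : Ω) ^ 2 = ρ'.z ^ 2
      rw [b1]
    rwa [this]
  · rw [← hS]
    have : K.val r'.ln.2 = ρ'.ln.2 := b2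
    rwa [this]

end Pool.Agent.MP_249f74_an.H96A
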