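import Pool.Agent.MP_249f74_an.H96A.Curve

/-!
Points of mirrors.
-/

open MvPolynomial

namespace Pool.Agent.MP_249f74_an.H96A

open H17 (Der)
open H88 (cl subset_cl)

variable {C Ω : Type} [Field C] [IsAlgClosed C] [Field Ω] [CharZero Ω] [Algebra C Ω]

namespace B1

omit [IsAlgClosed C] [CharZero Ω] in
/-- The chain rule. -/
lemma chain (Z : Der C Ω) (l : Ω × Ω) (F : P2 C) :
    Z (ev l F) = ev l (pderiv 0 F) * Z l.1 + ev l (pderiv 1 F) * Z l.2 := by
  induction F using MvPolynomial.induction_on with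
  | C a => simp [ev]
  | add p q hp hq => simp only [map_add, hp, hq]; ring
  | mul_X p i hp =>
    rw [map_mul, Derivation.leibniz, hp, pderiv_mul, pderiv_mul]
    fin_cases i <;> simp [ev] <;> ring

omit [IsAlgClosed C] [CharZero Ω] in
lemma ev_mem {K : IntermediateField C Ω} {l : Ω × Ω} (h1 : l.1 ∈ K) (h2 : l.2 ∈ K) (F : P2 C) :
    ev l F ∈ K := by
  induction F using MvPolynomial.induction_on with
  | C a => simp [ev]
  | add p q hp hq => rw [map_add]; exact add_mem hp hq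
  | mul_X p i hp =>
    rw [map_mul]
    refine mul_mem hp ?_
    fin_cases i <;> simpa [ev]

omit [CharZero Ω] in
lemma cst_of_cl {a : Ω} (h : a ∈ cl C (∅ : Set Ω)) : Cst C a := by
  obtain ⟨k, hk⟩ := H17.mem_bot_of_cl h
  exact ⟨k, hk.symm⟩

omit [IsAlgClosed C] [CharZero Ω] in
lemma der_cst (Z : Der C Ω) {a : Ω} (h : Cst C a) : Z a = 0 := by
  obtain ⟨k, rfl⟩ := h; exact Z.map_algebraMap k

lemma exists_der {y : Ω} (h : ¬Cst C y) : ∃ Z : Der C Ω, Z y = 1 := by
  obtain ⟨Z, -, hZ⟩ := H96.sep (S := ∅) fun h' => h (cst_of_cl h')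
  exact ⟨Z, hZ⟩

lemma cst_of_der {Z : Der C Ω} {a y : Ω} (hy : Z y = 1) (ha : a ∈ cl C {y}) (h : Z a = 0) :
    Cst C a :=
  cst_of_cl (H96.mem_cl_of_der (S := ∅) (t := y) (δ := Z) (by simpa using ha) (by simp [H96.Kil])
    h (by rw [hy]; exact one_ne_zero))

omit [IsAlgClosed C] [CharZero Ω] in
/-- Two algebraic functions of one variable are dependent. -/
lemma not_gen {l : Ω × Ω} {t : Ω} (h1 : l.1 ∈ cl C {t}) (h2 : l.2 ∈ cl C {t}) : ¬Gen C l := by
  intro hg
  have h3 : AlgebraicIndependent C ![l.1, l.2] := algebraicIndependent_iff.2 hg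
  have h4 := (H88.le_rk_iff (k := C) ![l.1, l.2] 2).2
    ⟨Finset.univ, by simp, h3.comp _ Subtype.val_injective⟩
  have h5 : H88.rk C (Set.range ![l.1, l.2]) ≤ H88.rk C {t} := H88.rk_le (by
    rintro _ ⟨i, rfl⟩
    fin_cases i
    exacts [h1, h2])
  have h6 : H88.rk C {t} ≤ 1 := (Matroid.eRk_le_encard _ _).trans (by simp)
  have h7 := h4.trans (h5.trans h6)
  norm_num at h7

omit [IsAlgClosed C] in
lemma cst_pderiv {F : P2 C} (h : F.totalDegree ≤ 1) (j : Fin 2) :
    ∃ a : C, pderiv j F = MvPolynomial.C a := by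
  by_cases h0 : pderiv j F = 0
  · exact ⟨0, by rw [h0, map_zero]⟩
  · have := H88.totalDegree_pderiv_lt h0
    exact ⟨_, totalDegree_eq_zero_iff_eq_C.1 (by omega)⟩

lemma pderiv_ne {l : Ω × Ω} (h : ¬(Cst C l.1 ∧ Cst C l.2)) {π : P2 C} (hπ : Irreducible π)
    (h0 : ev l π = 0) (h1 : ev l (pderiv 0 π) = 0) (h2 : ev l (pderiv 1 π) = 0) : False := by
  have : CharZero C := (algebraMap C Ω).charZero
  obtain ⟨j, hj⟩ := H88.exists_pderiv_ne (Curve.gen h) hπ h0
  fin_cases j
  exacts [hj h1, hj h2]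

omit [CharZero Ω] in
/-- No linear relation between the coordinates of a point of a mirror. -/
lemma lin (m : Mir C) {x y : Ω} (h0 : ev (x, y) m.f = 0) (h : ¬(Cst C x ∧ Cst C y)) {a b k : C}
    (e : algebraMap C Ω a * x + algebraMap C Ω b * y = algebraMap C Ω k) : a = 0 ∧ b = 0 := by
  have h1 : m.f ∣ MvPolynomial.C a * X 0 + MvPolynomial.C b * X 1 - MvPolynomial.C k :=
    (Curve.ker (l := (x, y)) h m.irr h0 _).1 (by simp [ev, e])
  have h2 : (MvPolynomial.C a * X 0 + MvPolynomial.C b * X 1 - MvPolynomial.C k : P2 C) = 0 := by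
    by_contra hn
    have h3 := totalDegree_le_of_dvd_of_isDomain h1 hn
    have h4 : (MvPolynomial.C a * X 0 + MvPolynomial.C b * X 1 - MvPolynomial.C k :
        P2 C).totalDegree ≤ 1 := by
      refine (totalDegree_sub _ _).trans (max_le ((totalDegree_add _ _).trans (max_le ?_ ?_)) ?_)
      · exact (totalDegree_mul _ _).trans (by simp)
      · exact (totalDegree_mul _ _).trans (by simp)
      · simp
    have := m.deg
    omega
  have h3 := congrArg (pderiv 0) h2
  have h4 := congrArg (pderiv 1) h2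
  simp at h3 h4
  exact ⟨h3, h4⟩

omit [IsAlgClosed C] [CharZero Ω] in
/-- The condition at infinity in terms of the equation. -/
lemma nc_iff {y : Fin 2 → Ω} {i j : Fin 2} (hij : i ≠ j) {π : P2 C}
    (hπ : ∀ F, aeval y F = 0 ↔ π ∣ F) :
    H96.NC1 C (y i) (y j) ↔ coeff (Finsupp.single j π.totalDegree) π ≠ 0 := by
  classical
  have hu : (Finset.univ : Finset (Fin 2)) = {i, j} :=
    (Finset.eq_univ_of_card _ (by rw [Finset.card_pair hij]; rfl)).symm
  have hs : ∀ n : Fin 2 →₀ ℕ, (n.sum fun _ e => e) = n i + n j := fun n => by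
    rw [Finsupp.sum_fintype _ _ (by simp), hu, Finset.sum_pair hij]
  have he : ∀ n : Fin 2 →₀ ℕ, n i = 0 → n = Finsupp.single j (n j) := fun n hn => by
    ext k
    have : k ∈ ({i, j} : Finset (Fin 2)) := hu ▸ Finset.mem_univ k
    rcases Finset.mem_insert.1 this with rfl | h
    · rw [hn, Finsupp.single_eq_of_ne hij]
    · rw [Finset.mem_singleton.1 h, Finsupp.single_eq_same]
  constructor
  · rintro ⟨N, hN⟩
    obtain ⟨G, g1, g2, g3⟩ : ∃ G : P2 C, aeval y G = y j ^ N ∧ G.totalDegree ≤ N ∧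
        coeff (Finsupp.single j N) G = 0 := by
      refine Submodule.span_induction (p := fun u _ => ∃ G : P2 C, aeval y G = u ∧
        G.totalDegree ≤ N ∧ coeff (Finsupp.single j N) G = 0) ?_ ⟨0, by simp⟩ ?_ ?_ hN
      · rintro _ ⟨a, b, h1, h2, rfl⟩
        refine ⟨X i ^ a * X j ^ b, by simp, ?_, ?_⟩
        · exact (totalDegree_mul _ _).trans (by simpa using h1)
        · rw [X_pow_eq_monomial, X_pow_eq_monomial, monomial_mul, coeff_monomial, if_neg]
          intro e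
          have := DFunLike.congr_fun e j
          simp [Finsupp.single_eq_of_ne hij.symm] at this
          omega
      · rintro _ _ - - ⟨G, rfl, g2, g3⟩ ⟨G', rfl, g2', g3'⟩
        exact ⟨G + G', map_add _ _ _, (totalDegree_add _ _).trans (max_le g2 g2'), by
          rw [coeff_add, g3, g3', add_zero]⟩
      · rintro a _ - ⟨G, rfl, g2, g3⟩
        exact ⟨a • G, map_smul _ _ _, (totalDegree_smul_le _ _).trans g2, by
          rw [coeff_smul, g3, smul_zero]⟩
    obtain ⟨g, hg⟩ := (hπ (X j ^ N - G)).1 (by simp [g1])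
    have c1 : coeff (Finsupp.single j N) (π * g) ≠ 0 := by
      rw [← hg, coeff_sub, g3, coeff_X_pow]; simp
    have n0 : π * g ≠ 0 := by rintro e; rw [e] at c1; simp at c1
    have d1 : (π * g).totalDegree ≤ N := by
      rw [← hg]; exact (totalDegree_sub _ _).trans (max_le (by simp) g2)
    rw [totalDegree_mul_of_isDomain (left_ne_zero_of_mul n0) (right_ne_zero_of_mul n0)] at d1
    rw [coeff_mul] at c1
    obtain ⟨⟨a, b⟩, h1, h2⟩ := Finset.exists_ne_zero_of_sum_ne_zero c1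
    have h3 : a + b = Finsupp.single j N := Finset.HasAntidiagonal.mem_antidiagonal.1 h1
    have h4 := DFunLike.congr_fun h3 i
    have h5 := DFunLike.congr_fun h3 j
    simp only [Finsupp.add_apply, Finsupp.single_eq_of_ne hij, Finsupp.single_eq_same] at h4 h5
    have h6 := le_totalDegree (mem_support_iff.2 (left_ne_zero_of_mul h2))
    have h7 := le_totalDegree (mem_support_iff.2 (right_ne_zero_of_mul h2))
    rw [hs] at h6 h7
    dsimp only at h6 h7
    have h8 : π.totalDegree = a j := by omega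
    rw [h8, ← he a (by omega)]
    exact left_ne_zero_of_mul h2
  · intro hc
    refine ⟨π.totalDegree, ?_⟩
    have h0 := (hπ π).2 dvd_rfl
    rw [aeval_def, eval₂_eq', ← Finset.add_sum_erase _ _ (mem_support_iff.2 hc)] at h0
    rw [← Submodule.smul_mem_iff _ hc]
    have h1 : coeff (Finsupp.single j π.totalDegree) π • y j ^ π.totalDegree =
        -∑ n ∈ π.support.erase (Finsupp.single j π.totalDegree),
          coeff n π • (y i ^ n i * y j ^ n j) := by
      rw [eq_neg_iff_add_eq_zero, ← h0, hu]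
      simp [Finset.prod_pair hij, Algebra.smul_def, Finsupp.single_eq_of_ne hij]
    rw [h1]
    refine neg_mem (Submodule.sum_mem _ fun n hn => Submodule.smul_mem _ _
      (Submodule.subset_span ⟨n i, n j, ?_, ?_, rfl⟩))
    · rw [← hs]; exact le_totalDegree (Finset.mem_of_mem_erase hn)
    · have h2 := le_totalDegree (Finset.mem_of_mem_erase hn)
      rw [hs] at h2
      by_contra h3
      refine Finset.ne_of_mem_erase hn ?_
      rw [he n (by omega)]
      congr 1; omega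

omit [IsAlgClosed C] [CharZero Ω] in
lemma nc_sym {x y : Ω} {π : P2 C} (hπ : ∀ F, ev (x, y) F = 0 ↔ π ∣ F) :
    (H96.NC1 C x y ↔ H96.NC1 C y x) ↔
      (cf π π.totalDegree 0 = 0 ↔ cf π 0 π.totalDegree = 0) := by
  have h1 : H96.NC1 C x y ↔ _ := nc_iff (y := ![x, y]) (i := 0) (j := 1) (by decide) hπ
  have h2 : H96.NC1 C y x ↔ _ := nc_iff (y := ![x, y]) (i := 1) (j := 0) (by decide) hπ
  rw [h1, h2]
  simp only [cf, Finsupp.single_zero, add_zero, zero_add]
  tauto

variable {m : Mir C} {v : Vx Ω}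

omit [IsAlgClosed C] [CharZero Ω] in
lemma hc (h : m.On v) : ¬(Cst C v.p.1 ∧ Cst C v.p.2) := fun e => h.ny e.2

omit [CharZero Ω] in
lemma ker' (h : m.On v) (F : P2 C) : ev v.p F = 0 ↔ m.f ∣ F := Curve.ker (hc h) m.irr h.f0 F

lemma fx' (h : m.On v) : ev v.p (pderiv 0 m.f) ≠ 0 := fun e =>
  pderiv_ne (hc h) m.irr h.f0 e (by simpa [e] using h.sl)

lemma slope (h : m.On v) (Z : Der C Ω) : Z v.x = v.w * Z v.y := by
  have h1 := chain Z v.p m.f
  rw [h.f0, map_zero] at h1
  refine mul_left_cancel₀ (fx' h) ?_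
  have h2 := h.sl
  simp only [Vx.p] at h1 h2 ⊢
  linear_combination -h1 - Z v.y * h2

lemma alg' (h : m.On v) : v.x ∈ cl C {v.y} ∧ v.w ∈ cl C {v.y} := by
  have h1 : v.x ∈ cl C {v.y} :=
    H96.mem_cl_of_kil fun θ hθ => by rw [slope h, hθ _ rfl, mul_zero]
  have h2 : v.y ∈ cl C {v.y} := subset_cl _ rfl
  refine ⟨h1, ?_⟩
  have h3 : v.w = -ev v.p (pderiv 1 m.f) / ev v.p (pderiv 0 m.f) := by
    rw [eq_div_iff (fx' h)]; linear_combination h.sl
  rw [h3]
  exact div_mem (neg_mem (ev_mem h1 h2 _)) (ev_mem h1 h2 _)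

lemma der' (h : m.On v) : ∃ Z : Der C Ω, Z v.y = 1 ∧ Z v.x = v.w ∧ Z v.w ≠ 0 := by
  obtain ⟨Z, hZ⟩ := exists_der h.ny
  have h1 : Z v.x = v.w := by rw [slope h, hZ, mul_one]
  refine ⟨Z, hZ, h1, fun e => ?_⟩
  obtain ⟨a, ha⟩ := cst_of_der hZ (alg' h).2 e
  obtain ⟨k, hk⟩ := cst_of_der hZ (a := v.x - v.w * v.y)
    (sub_mem (alg' h).1 (mul_mem (alg' h).2 (subset_cl _ rfl))) (by simp [hZ, h1, e])
  exact one_ne_zero (lin m h.f0 (hc h) (a := 1) (b := -a) (k := k) (by
    rw [map_one, map_neg, ← ha, ← hk]; ring)).1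

lemma nw' (h : m.On v) : ¬Cst C v.w := fun e => by
  obtain ⟨Z, -, -, h3⟩ := der' h
  exact h3 (der_cst Z e)

lemma w0' (h : m.On v) : v.w ≠ 0 := fun e => nw' h ⟨0, by rw [e, map_zero]⟩

lemma nx' (h : m.On v) : ¬Cst C v.x := fun e => by
  obtain ⟨Z, -, h2, -⟩ := der' h
  exact w0' h (h2.symm.trans (der_cst Z e))

lemma uniq' {m' : Mir C} {v' : Vx Ω} (h : m.On v) (h' : m'.On v') (e : v.p = v'.p) :
    m = m' ∧ v = v' := by
  have h1 : Associated m.f m'.f :=
    associated_of_dvd_dvd ((ker' h _).1 (e ▸ h'.f0)) ((ker' h' _).1 (e ▸ h.f0))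
  have h2 : m.f = m'.f := by rw [m.nrm, m'.nrm, Associates.mk_eq_mk_iff_associated.2 h1]
  have h3 : m = m' := by cases m; cases m'; simpa using h2
  subst h3
  refine ⟨rfl, Vx.ext (congrArg Prod.fst e) (congrArg Prod.snd e) ?_⟩
  refine mul_right_cancel₀ (fx' h) ?_
  have h4 := h'.sl
  rw [← e] at h4
  linear_combination h.sl - h4

lemma tl' (h : m.On v) : Cur C v.tl ∧ Dg C 2 v.tl := by
  have h0 : Cur C v.tl := ⟨not_gen (t := v.y) (alg' h).2
    (sub_mem (alg' h).1 (mul_mem (alg' h).2 (subset_cl _ rfl))), fun e => nw' h e.1, w0' h⟩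
  refine ⟨h0, fun F F0 hF => ?_⟩
  obtain ⟨π, p1, p2⟩ := curve _ h0.ng h0.nc
  by_contra hn
  have h1 := totalDegree_le_of_dvd_of_isDomain ((p2 F).1 hF) F0
  obtain ⟨a, ha⟩ := cst_pderiv (F := π) (by omega) 0
  obtain ⟨b, hb⟩ := cst_pderiv (F := π) (by omega) 1
  obtain ⟨Z, z1, z2, z3⟩ := der' h
  have h2 := chain Z v.tl π
  have h3 := (p2 π).2 dvd_rfl
  rw [h3, ha, hb] at h2
  have h4 : algebraMap C Ω a = algebraMap C Ω b * v.y := by
    refine mul_right_cancel₀ z3 ?_
    simp only [Vx.tl, ev, map_zero, algHom_C, map_sub, Derivation.leibniz, smul_eq_mul, z1,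
      z2] at h2
    linear_combination -h2
  have h5 : b = 0 := by
    by_contra h6
    refine h.ny ⟨a / b, ?_⟩
    rw [map_div₀, h4, mul_div_cancel_left₀ _ ((_root_.map_ne_zero _).2 h6)]
  refine pderiv_ne h0.nc p1.irreducible h3 ?_ ?_
  · rw [ha, algHom_C, h4, h5, map_zero, zero_mul]
  · rw [hb, h5, map_zero, map_zero]

lemma pt' (m : Mir C) {x y : Ω} (h0 : ev (x, y) m.f = 0) (h : ¬(Cst C x ∧ Cst C y)) :
    ∃ w, m.On ⟨x, y, w⟩ := by
  have hy : ¬Cst C y := by
    rintro ⟨k, hk⟩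
    exact one_ne_zero (lin m h0 h (a := 0) (b := 1) (k := k) (by simp [hk])).2
  obtain ⟨Z, hZ⟩ := exists_der hy
  refine ⟨Z x, h0, hy, ?_⟩
  have h1 := chain Z (x, y) m.f
  rw [h0, map_zero, hZ] at h1
  simp only [Vx.p]
  linear_combination -h1

lemma ex' [IsAlgClosed Ω] (m : Mir C) {y : Ω} (hy : ¬Cst C y) : ∃ x w, m.On ⟨x, y, w⟩ := by
  have : CharZero C := (algebraMap C Ω).charZero
  suffices h : ∃ x, ev (x, y) m.f = 0 by
    obtain ⟨x, hx⟩ := h
    exact ⟨x, pt' m hx fun e => hy e.2⟩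
  by_contra hn
  push Not at hn
  have e1 : ∀ x : Ω, (aeval ![Polynomial.X, Polynomial.C y] m.f : Polynomial Ω).eval x =
      ev (x, y) m.f := fun x => by
    have := comp_aeval_apply ![Polynomial.X, Polynomial.C y]
      ((Polynomial.aeval x : Polynomial Ω →ₐ[Ω] Ω).restrictScalars C) m.f
    refine (Polynomial.coe_aeval_eq_eval x ▸ this :).trans ?_
    unfold ev; congr 2; funext i; fin_cases i <;> simp
  have e2 : ∀ k : C, Polynomial.aeval y (aeval ![Polynomial.C k, Polynomial.X] m.f : Polynomial C) =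
      ev (algebraMap C Ω k, y) m.f := fun k => by
    rw [comp_aeval_apply]
    unfold ev; congr 2; funext i; fin_cases i <;> simp
  have h1 : ∀ x, ev (x, y) m.f = ev (algebraMap C Ω 0, y) m.f := by
    have h2 : (aeval ![Polynomial.X, Polynomial.C y] m.f : Polynomial Ω).degree = 0 := by
      by_contra h3
      obtain ⟨x, hx⟩ := IsAlgClosed.exists_root _ h3
      exact hn x ((e1 x).symm.trans hx)
    intro x
    rw [← e1, ← e1, Polynomial.eq_C_of_degree_eq_zero h2, Polynomial.eval_C, Polynomial.eval_C]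
  obtain ⟨q, hq⟩ : ∃ q : Polynomial C, ∀ k : C,
      (aeval ![Polynomial.C k, Polynomial.X] m.f : Polynomial C) = q :=
    ⟨_, fun k => (transcendental_iff_injective.1 (Curve.trans hy)) (by rw [e2, e2, h1])⟩
  have h3 : m.f = Polynomial.aeval (X 1 : P2 C) q := by
    refine MvPolynomial.funext fun z => ?_
    have h4 := Polynomial.aeval_algHom_apply (aeval z : P2 C →ₐ[C] C) (X 1) q
    have h5 := comp_aeval_apply ![Polynomial.C (z 0), Polynomial.X]
      (Polynomial.aeval (z 1) : Polynomial C →ₐ[C] C) m.f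
    rw [hq] at h5
    rw [← coe_aeval_eq_eval]
    change aeval z m.f = aeval z _
    rw [← h4, aeval_X, h5]
    congr 2; funext i; fin_cases i <;> simp
  by_cases h4 : q.degree = 0
  · have h5 := m.deg
    rw [h3, Polynomial.eq_C_of_degree_eq_zero h4] at h5
    simp at h5
  · obtain ⟨k, hk⟩ := IsAlgClosed.exists_root _ h4
    have h5 : ev (y, algebraMap C Ω k) m.f = 0 := by
      rw [h3, ← Polynomial.aeval_algHom_apply]
      simp only [ev, aeval_X, Matrix.cons_val_one, Matrix.cons_val_zero]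
      rw [Polynomial.aeval_algebraMap_apply, Polynomial.coe_aeval_eq_eval, hk.eq_zero, map_zero]
    obtain ⟨w, hw⟩ := pt' m h5 fun e => hy e.1
    exact hw.ny ⟨k, rfl⟩

lemma mir' {x y w : Ω} {Z : Der C Ω} (h1 : Z y = 1) (h2 : Z x = w) (h3 : Z w ≠ 0)
    (h4 : x ∈ cl C {y}) (h5 : H96.NC1 C x y ↔ H96.NC1 C y x) : ∃ m : Mir C, m.On ⟨x, y, w⟩ := by
  have hy : ¬Cst C y := fun e => one_ne_zero (h1.symm.trans (der_cst Z e))
  have hc : ¬(Cst C (x, y).1 ∧ Cst C (x, y).2) := fun e => hy e.2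
  obtain ⟨π, p1, p2⟩ := curve (x, y) (not_gen (t := y) h4 (subset_cl _ rfl)) hc
  obtain ⟨f, hf⟩ : ∃ f : P2 C, f = Quot.out (Associates.mk π) := ⟨_, rfl⟩
  have e1 : Associates.mk f = Associates.mk π := by rw [hf]; exact Quot.out_eq _
  have e2 : Associated f π := Associates.mk_eq_mk_iff_associated.1 e1
  have p3 : ∀ F, ev (x, y) F = 0 ↔ f ∣ F := fun F => (p2 F).trans e2.dvd_iff_dvd_left.symm
  have p4 : Irreducible f := e2.symm.irreducible p1.irreducible
  have p5 := (p3 f).2 dvd_rfl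
  have p6 := chain Z (x, y) f
  rw [p5, map_zero, h1, h2] at p6
  refine ⟨⟨f, p4, ?_, by rw [e1, ← hf], (nc_sym p3).1 h5⟩, p5, hy, ?_⟩
  · by_contra hn
    obtain ⟨a, ha⟩ := cst_pderiv (F := f) (by omega) 0
    obtain ⟨b, hb⟩ := cst_pderiv (F := f) (by omega) 1
    rw [ha, hb, algHom_C, algHom_C] at p6
    have p7 := congrArg Z p6
    simp only [map_zero, map_add, mul_one, Derivation.leibniz, Derivation.map_algebraMap,
      smul_eq_mul, mul_zero, add_zero] at p7
    have p8 : algebraMap C Ω a = 0 := (mul_eq_zero.1 p7.symm).resolve_right h3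
    refine pderiv_ne hc p4 p5 (by rw [ha, algHom_C, p8]) ?_
    rw [hb, algHom_C]
    rw [p8] at p6
    linear_combination -p6
  · simp only [Vx.p]
    linear_combination -p6

end B1

theorem b1 [IsAlgClosed Ω] : B1 C Ω where
  fx _ _ h := B1.fx' h
  w0 _ _ h := B1.w0' h
  nw _ _ h := B1.nw' h
  nx _ _ h := B1.nx' h
  ker _ _ h := B1.ker' h
  uniq _ _ _ _ h h' e := B1.uniq' h h' e
  der _ _ h := B1.der' h
  alg _ _ h := B1.alg' h
  nc m _ h := (B1.nc_sym (B1.ker' h)).2 m.sym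
  tl _ _ h := B1.tl' h
  pt m _ _ h0 h := B1.pt' m h0 h
  ex m _ hy := B1.ex' m hy
  mir _ _ _ _ h1 h2 h3 h4 h5 := B1.mir' h1 h2 h3 h4 h5

end Pool.Agent.MP_249f74_an.H96A
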