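import Pool.Agent.MP_249f74_an.H96A.Spec

/-!
Basic properties of reflections in algebraic mirrors.
-/

open Polynomial

namespace Pool.Agent.MP_249f74_an.H96A

variable {C Ω : Type} [Field C] [Field Ω] [Algebra C Ω]

namespace B2x

lemma ev_X0 (l : Ω × Ω) : ev (C := C) l (MvPolynomial.X 0) = l.1 := by simp [ev]

lemma ev_X1 (l : Ω × Ω) : ev (C := C) l (MvPolynomial.X 1) = l.2 := by simp [ev]

lemma ev_C (l : Ω × Ω) (k : C) : ev l (MvPolynomial.C k) = algebraMap C Ω k := by simp [ev]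

lemma eval_sec (f : P2 C) (l : Ω × Ω) (y : Ω) :
    (sec f l).eval y = ev (l.2 + l.1 * y, y) f := by
  induction f using MvPolynomial.induction_on with
  | C a => simp [sec, ev]
  | add p q hp hq =>
    simp only [sec, map_add, eval_add] at hp hq ⊢
    rw [hp, hq]
  | mul_X p i hp =>
    simp only [sec, map_mul, eval_mul] at hp ⊢
    rw [hp]
    fin_cases i <;> simp [ev]

lemma sec_map {Ω' : Type} [Field Ω'] [Algebra C Ω'] (φ : Ω →ₐ[C] Ω') (f : P2 C) (l : Ω × Ω) :
    sec f (φ l.1, φ l.2) = (sec f l).map φ.toRingHom := by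
  induction f using MvPolynomial.induction_on with
  | C a => simp [sec]
  | add p q hp hq =>
    simp only [sec, map_add, Polynomial.map_add] at hp hq ⊢
    rw [hp, hq]
  | mul_X p i hp =>
    simp only [sec, map_mul, Polynomial.map_mul] at hp ⊢
    rw [hp]
    fin_cases i <;> simp

lemma coeff_sec_mem (K : IntermediateField C Ω) (f : P2 C) (l : Ω × Ω) (h1 : l.1 ∈ K)
    (h2 : l.2 ∈ K) (i : ℕ) : (sec f l).coeff i ∈ K := by
  have := sec_map K.val f (⟨l.1, h1⟩, ⟨l.2, h2⟩)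
  have e : sec f l = (sec f ((⟨l.1, h1⟩, ⟨l.2, h2⟩) : K × K)).map K.val.toRingHom := this
  rw [e, coeff_map]
  exact Subtype.property _

lemma der_sec (f : P2 C) (l : Ω × Ω) : derivative (sec f l) =
    Polynomial.C l.1 * sec (MvPolynomial.pderiv 0 f) l + sec (MvPolynomial.pderiv 1 f) l := by
  induction f using MvPolynomial.induction_on with
  | C a => simp [sec]
  | add p q hp hq =>
    simp only [sec, map_add] at hp hq ⊢
    rw [hp, hq]; ring
  | mul_X p i hp =>
    simp only [sec, map_mul, derivative_mul, Derivation.leibniz, smul_eq_mul, map_add] at hp ⊢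
    rw [hp]
    fin_cases i <;> simp <;> ring

lemma ev_map (l : Ω × Ω) (σ : Ω ≃ₐ[C] Ω) (F : P2 C) : ev (σ l.1, σ l.2) F = σ (ev l F) := by
  induction F using MvPolynomial.induction_on with
  | C a => simp [ev]
  | add p q hp hq => simp only [map_add, hp, hq]
  | mul_X p i hp =>
    simp only [map_mul, hp]
    fin_cases i <;> simp [ev]

lemma dvd_sub_aeval (d : P2 C) (g : Fin 2 → P2 C) (h : ∀ i, d ∣ MvPolynomial.X i - g i)
    (f : P2 C) : d ∣ f - MvPolynomial.aeval g f := by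
  induction f using MvPolynomial.induction_on with
  | C a => simp
  | add p q hp hq =>
    have : p + q - MvPolynomial.aeval g (p + q) =
        (p - MvPolynomial.aeval g p) + (q - MvPolynomial.aeval g q) := by
      rw [map_add]; ring
    rw [this]; exact dvd_add hp hq
  | mul_X p i hp =>
    have : p * MvPolynomial.X i - MvPolynomial.aeval g (p * MvPolynomial.X i) =
        (p - MvPolynomial.aeval g p) * MvPolynomial.X i +
          MvPolynomial.aeval g p * (MvPolynomial.X i - g i) := by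
      rw [map_mul, MvPolynomial.aeval_X]; ring
    rw [this]; exact dvd_add (hp.mul_right _) ((h i).mul_left _)

/-- a mirror has no factor of degree one -/
lemma not_dvd (m : Mir C) {d : P2 C} (h0 : d ≠ 0) (h1 : d.totalDegree ≤ 1) (p : Fin 2 → C)
    (hp : MvPolynomial.eval p d = 0) : ¬d ∣ m.f := by
  intro h
  rcases m.irr.dvd_iff.1 h with hu | ha
  · have := hu.map (MvPolynomial.eval p)
    rw [hp] at this
    exact not_isUnit_zero this
  · have := MvPolynomial.totalDegree_le_of_dvd_of_isDomain ha.dvd h0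
    have := m.deg
    omega

lemma col_ne (m : Mir C) (k : C) :
    (MvPolynomial.aeval ![X, Polynomial.C k] m.f : Polynomial C) ≠ 0 := by
  intro h
  have h1 : MvPolynomial.aeval (![MvPolynomial.X 0, MvPolynomial.C k] : Fin 2 → P2 C) m.f = 0 := by
    have h2 := congrArg (Polynomial.aeval (MvPolynomial.X 0 : P2 C)) h
    rw [map_zero, ← AlgHom.comp_apply, MvPolynomial.comp_aeval] at h2
    rw [← h2]
    congr 2
    ext i
    fin_cases i <;> simp
  have h3 := dvd_sub_aeval (MvPolynomial.X 1 - MvPolynomial.C k)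
    ![MvPolynomial.X 0, MvPolynomial.C k] (by intro i; fin_cases i <;> simp) m.f
  rw [h1, sub_zero] at h3
  refine not_dvd m ?_ ?_ ![0, k] (by simp) h3
  · intro e
    have := congrArg (MvPolynomial.eval ![0, k + 1]) e
    simp at this
  · refine (MvPolynomial.totalDegree_sub _ _).trans ?_
    simp

lemma line_ne (m : Mir C) (s c : C) :
    (MvPolynomial.aeval ![Polynomial.C c + Polynomial.C s * X, X] m.f : Polynomial C) ≠ 0 := by
  intro h
  have h1 : MvPolynomial.aeval (![MvPolynomial.C c + MvPolynomial.C s * MvPolynomial.X 1,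
      MvPolynomial.X 1] : Fin 2 → P2 C) m.f = 0 := by
    have h2 := congrArg (Polynomial.aeval (MvPolynomial.X 1 : P2 C)) h
    rw [map_zero, ← AlgHom.comp_apply, MvPolynomial.comp_aeval] at h2
    rw [← h2]
    congr 2
    ext i
    fin_cases i <;> simp
  have h3 := dvd_sub_aeval
    (MvPolynomial.X 0 - (MvPolynomial.C c + MvPolynomial.C s * MvPolynomial.X 1))
    ![MvPolynomial.C c + MvPolynomial.C s * MvPolynomial.X 1, MvPolynomial.X 1]
    (by intro i; fin_cases i <;> simp) m.f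
  rw [h1, sub_zero] at h3
  refine not_dvd m ?_ ?_ ![c, 0] (by simp) h3
  · intro e
    have := congrArg (MvPolynomial.eval ![c + 1, 0]) e
    simp at this
  · refine (MvPolynomial.totalDegree_sub _ _).trans (max_le (by simp) ?_)
    refine (MvPolynomial.totalDegree_add _ _).trans (max_le (by simp) ?_)
    refine (MvPolynomial.totalDegree_mul _ _).trans ?_
    simp

lemma cst_of_root [IsAlgClosed C] {a : Ω} {q : Polynomial C} (hq : q ≠ 0) (h : aeval a q = 0) :
    Cst C a := by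
  have hi : IsIntegral C a := (IsAlgebraic.isIntegral ⟨q, hq, h⟩)
  obtain ⟨k, hk⟩ := minpoly.mem_range_of_degree_eq_one C a
    (IsAlgClosed.degree_eq_one_of_irreducible C (minpoly.irreducible hi))
  exact ⟨k, hk.symm⟩

lemma sec0 [IsAlgClosed C] (m : Mir C) (l : Ω × Ω) : sec m.f l ≠ 0 := by
  intro h
  have h1 : ∀ k : C, Cst C (l.2 + l.1 * algebraMap C Ω k) := by
    intro k
    refine cst_of_root (col_ne m k) ?_
    have h2 := eval_sec m.f l (algebraMap C Ω k)
    rw [h, eval_zero] at h2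
    rw [← AlgHom.comp_apply, MvPolynomial.comp_aeval, h2, ev]
    congr 2
    ext i
    fin_cases i <;> simp
  obtain ⟨c, hc⟩ := h1 0
  obtain ⟨t, ht⟩ := h1 1
  rw [map_zero, mul_zero, add_zero] at hc
  rw [map_one, mul_one] at ht
  have hs : l.1 = algebraMap C Ω (t - c) := by rw [map_sub, ← ht, ← hc]; ring
  have h3 := sec_map (Algebra.ofId C Ω) m.f ((t - c, c) : C × C)
  have h4 : sec m.f l = (sec m.f ((t - c, c) : C × C)).map (Algebra.ofId C Ω).toRingHom := by
    rw [← h3]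
    congr 1
    ext
    · exact hs
    · exact hc
  rw [h4, Polynomial.map_eq_zero] at h
  exact line_ne m (t - c) c h

lemma mem [IsAlgClosed C] (m : Mir C) (l : Ω × Ω) (y : Ω) :
    y ∈ Pts m l ↔ ev (l.2 + l.1 * y, y) m.f = 0 := by
  classical
  unfold Pts
  rw [Multiset.mem_toFinset, mem_roots (sec0 m l), IsRoot.def, eval_sec]

lemma y_mem [IsAlgClosed C] {m : Mir C} {v : Vx Ω} {l : Ω × Ω} (h : m.On v) (hi : Inc v l)
    {S : Set Ω} (h1 : l.1 ∈ H88.cl C S) (h2 : l.2 ∈ H88.cl C S) : v.y ∈ H88.cl C S := by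
  refine H88.mem_cl_of_root (sec0 m l) (coeff_sec_mem _ _ _ h1 h2) ?_
  rw [eval_sec, ← hi]
  exact h.f0

lemma onmap (m : Mir C) (v : Vx Ω) (σ : Ω ≃ₐ[C] Ω) (h : m.On v) : m.On (v.map σ) where
  f0 := by
    have := ev_map v.p σ m.f
    rw [h.f0, map_zero] at this
    exact this
  ny := by
    rintro ⟨k, hk⟩
    refine h.ny ⟨k, σ.injective ?_⟩
    rw [AlgEquiv.commutes]; exact hk
  sl := by
    have h1 := congrArg σ h.sl
    rw [map_add, map_mul, map_zero, ← ev_map, ← ev_map] at h1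
    exact h1

lemma inc_map {v : Vx Ω} {l : Ω × Ω} (σ : Ω ≃ₐ[C] Ω) (h : Inc v l) : Inc (v.map σ) (mp σ l) := by
  have h1 := congrArg σ h
  rw [map_add, map_mul] at h1
  exact h1

lemma map (m : Mir C) (l l' : Ω × Ω) (v : Vx Ω) (σ : Ω ≃ₐ[C] Ω) (h : St m l v l') :
    St m (mp σ l) (v.map σ) (mp σ l') where
  on := onmap m v σ h.on
  i0 := inc_map σ h.i0
  i1 := inc_map σ h.i1
  rf := by
    have h1 := congrArg σ h.rf
    rw [map_mul, map_pow] at h1
    exact h1
  nt := fun e => h.nt (σ.injective e)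

lemma rk_two {l : Ω × Ω} (h : Gen C l) : (2 : ℕ∞) ≤ H88.rk C (Set.range ![l.1, l.2]) := by
  refine (H88.le_rk_iff ![l.1, l.2] 2).2 ⟨Finset.univ, by simp, ?_⟩
  have h1 : AlgebraicIndependent C ![l.1, l.2] := algebraicIndependent_iff.2 h
  exact h1.comp (fun i : (Finset.univ : Finset (Fin 2)) => (i : Fin 2)) Subtype.val_injective

lemma gen_of_cl {l l' : Ω × Ω} (h : Gen C l) (h1 : l.1 ∈ H88.cl C (Set.range ![l'.1, l'.2]))
    (h2 : l.2 ∈ H88.cl C (Set.range ![l'.1, l'.2])) : Gen C l' := by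
  intro F hF
  by_contra h0
  have h3 := H88.rk_le_of_root (e := 1) (by simp) h0 hF
  have h4 : H88.rk C (Set.range ![l.1, l.2]) ≤ H88.rk C (Set.range ![l'.1, l'.2]) := by
    refine H88.rk_le ?_
    rintro _ ⟨i, rfl⟩
    fin_cases i
    · exact h1
    · exact h2
  have h5 := ((rk_two h).trans h4).trans h3
  norm_num at h5

lemma gen_s0 {l : Ω × Ω} (h : Gen C l) : l.1 ≠ 0 := fun e =>
  MvPolynomial.X_ne_zero (0 : Fin 2) (h _ (by rw [ev_X0, e]))

lemma gen_nc {l : Ω × Ω} (h : Gen C l) (y : Ω) : ¬(Cst C (l.2 + l.1 * y) ∧ Cst C y) := by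
  rintro ⟨⟨a, ha⟩, b, hb⟩
  have h1 := h (MvPolynomial.X 1 + MvPolynomial.X 0 * MvPolynomial.C b - MvPolynomial.C a) (by
    rw [map_sub, map_add, map_mul, ev_X0, ev_X1, ev_C, ev_C, ← ha, ← hb, sub_self])
  have h2 := congrArg (MvPolynomial.eval ![0, a + 1]) h1
  simp at h2

section

variable (h1 : B1 C Ω)
include h1

lemma symm (m : Mir C) (l l' : Ω × Ω) (v : Vx Ω) (h : St m l v l') : St m l' v l where
  on := h.on
  i0 := h.i1
  i1 := h.i0
  rf := by rw [mul_comm]; exact h.rf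
  nt := fun e => h.nt (mul_right_cancel₀ (h1.w0 m v h.on) (by rw [← pow_two, ← h.rf, e]))

lemma s0 (m : Mir C) (l l' : Ω × Ω) (v : Vx Ω) (h : St m l v l') : l.1 ≠ 0 := fun e =>
  h1.w0 m v h.on (pow_eq_zero_iff (two_ne_zero) |>.1 (by rw [← h.rf, e, zero_mul]))

lemma det (m : Mir C) (l l' l'' : Ω × Ω) (v v' : Vx Ω) (h : St m l v l') (h' : St m l v' l'')
    (e : v.y = v'.y) : v = v' ∧ l' = l'' := by
  have e1 : v.x = v'.x := by rw [h.i0, h'.i0, e]
  have e2 : v = v' := (h1.uniq m m v v' h.on h'.on (Prod.ext e1 e)).2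
  subst e2
  have e3 : l'.1 = l''.1 := mul_left_cancel₀ (s0 h1 m l l' v h) (h.rf.trans h'.rf.symm)
  refine ⟨rfl, Prod.ext e3 ?_⟩
  have e4 : l'.2 + l'.1 * v.y = l''.2 + l''.1 * v.y := h.i1.symm.trans h'.i1
  rw [e3] at e4
  exact add_right_cancel e4

lemma fix (m : Mir C) (l l' : Ω × Ω) (v : Vx Ω) (σ : Ω ≃ₐ[C] Ω) (h : St m l v l')
    (hσ : σ ∈ FL C l) (e : σ v.y = v.y) : v.map σ = v ∧ σ ∈ FL C l' := by
  have e1 : mp σ l = l := Prod.ext (hσ _ (by simp)) (hσ _ (by simp))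
  have h2 := map m l l' v σ h
  rw [e1] at h2
  obtain ⟨e2, e3⟩ := det h1 m l _ _ _ _ h2 h e
  refine ⟨e2, ?_⟩
  intro a ha
  rcases ha with rfl | rfl
  · exact congrArg Prod.fst e3
  · exact congrArg Prod.snd e3

lemma nt_gen {m : Mir C} {v : Vx Ω} {l : Ω × Ω} (h : m.On v) (hi : Inc v l) (hg : Gen C l) :
    l.1 ≠ v.w := by
  intro e
  refine (h1.tl m v h).1.ng ?_
  have : v.tl = l := by
    refine Prod.ext e.symm ?_
    change v.x - v.w * v.y = l.2
    rw [hi, e]; ring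
  rwa [this]

variable [IsAlgClosed C]

lemma gen (m : Mir C) (l l' : Ω × Ω) (v : Vx Ω) (h : St m l v l') (hg : Gen C l) : Gen C l' := by
  have a1 : l'.1 ∈ H88.cl C (Set.range ![l'.1, l'.2]) := H88.subset_cl _ ⟨0, rfl⟩
  have a2 : l'.2 ∈ H88.cl C (Set.range ![l'.1, l'.2]) := H88.subset_cl _ ⟨1, rfl⟩
  have hy := y_mem h.on h.i1 a1 a2
  have hle := H17.cl_le (C := C) (T := {v.y}) (Set.singleton_subset_iff.2 hy)
  have hx := hle (h1.alg m v h.on).1
  have hw := hle (h1.alg m v h.on).2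
  have s' := s0 h1 m l' l v (symm h1 m l l' v h)
  have b1 : l.1 ∈ H88.cl C (Set.range ![l'.1, l'.2]) := by
    have : l.1 = v.w ^ 2 / l'.1 := by rw [← h.rf]; field_simp
    rw [this]; exact div_mem (pow_mem hw 2) a1
  refine gen_of_cl hg b1 ?_
  have : l.2 = v.x - l.1 * v.y := by rw [h.i0]; ring
  rw [this]; exact sub_mem hx (mul_mem b1 hy)

lemma cur (m : Mir C) (l l' : Ω × Ω) (v : Vx Ω) (h : St m l v l') (hc : Cur C l) : Cur C l' where
  ng := fun hg => hc.ng (gen h1 m l' l v (symm h1 m l l' v h) hg)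
  nc := by
    rintro ⟨⟨a, ha⟩, b, hb⟩
    have hy := y_mem (S := ∅) h.on h.i1 (by rw [ha]; exact IntermediateField.algebraMap_mem _ a)
      (by rw [hb]; exact IntermediateField.algebraMap_mem _ b)
    obtain ⟨k, hk⟩ := IntermediateField.mem_bot.1 (H17.mem_bot_of_cl hy)
    exact h.on.ny ⟨k, hk.symm⟩
  s0 := s0 h1 m l' l v (symm h1 m l l' v h)

lemma step (m : Mir C) (l : Ω × Ω) (y : Ω) (hg : Gen C l) (hy : y ∈ Pts m l) :
    ∃ v l', v.y = y ∧ St m l v l' := by
  obtain ⟨w, hw⟩ := h1.pt m _ _ ((mem m l y).1 hy) (gen_nc hg y)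
  have hs := gen_s0 hg
  refine ⟨_, (w ^ 2 / l.1, l.2 + l.1 * y - w ^ 2 / l.1 * y), rfl, hw, rfl, ?_, ?_,
    nt_gen h1 hw rfl hg⟩
  · simp [Inc]
  · change l.1 * (w ^ 2 / l.1) = w ^ 2
    field_simp

lemma dis (m m' : Mir C) (l : Ω × Ω) (y : Ω) (hg : Gen C l) (hy : y ∈ Pts m l)
    (hy' : y ∈ Pts m' l) : m = m' := by
  obtain ⟨w, hw⟩ := h1.pt m _ _ ((mem m l y).1 hy) (gen_nc hg y)
  obtain ⟨w', hw'⟩ := h1.pt m' _ _ ((mem m' l y).1 hy') (gen_nc hg y)
  exact (h1.uniq m m' _ _ hw hw' rfl).1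

omit [IsAlgClosed C] in
lemma rf (m : Mir C) (ρ ρ' : Ray Ω) (v : Vx Ω) (h : Rf m ρ v ρ') (hg : Gen C ρ.ln) :
    St m ρ.ln v ρ'.ln where
  on := h.on
  i0 := h.i0
  i1 := h.i1
  rf := by
    change ρ.z ^ 2 * ρ'.z ^ 2 = v.w ^ 2
    rw [← h.rf, mul_pow]
  nt := nt_gen h1 h.on h.i0 hg

omit [IsAlgClosed C] in
lemma simple (m : Mir C) (l l' : Ω × Ω) (v : Vx Ω) (h : St m l v l') :
    (derivative (sec m.f l)).eval v.y ≠ 0 := by
  rw [der_sec, eval_add, eval_mul, eval_C, eval_sec, eval_sec, ← h.i0]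
  have h2 := h.on.sl
  have h3 := mul_ne_zero (sub_ne_zero.2 h.nt) (h1.fx m v h.on)
  intro e
  apply h3
  change l.1 * ev v.p _ + ev v.p _ = 0 at e
  linear_combination e - h2

end

end B2x

variable [IsAlgClosed C]

theorem b2 (h1 : B1 C Ω) : B2 C Ω where
  sec0 := B2x.sec0
  mem := B2x.mem
  symm := B2x.symm h1
  s0 := B2x.s0 h1
  onmap := B2x.onmap
  map := B2x.map
  det := B2x.det h1
  fix := B2x.fix h1
  gen := B2x.gen h1
  cur := B2x.cur h1
  step := B2x.step h1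
  dis := B2x.dis h1
  rf := B2x.rf h1
  simple := B2x.simple h1

end Pool.Agent.MP_249f74_an.H96A
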