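import Pool.Agent.MP_249f74_an.H96A.Spec

/-!
No relation over a run of one curve that is not a conic.
-/

namespace Pool.Agent.MP_249f74_an.H96A

variable {C Ω : Type} [Field C] [Field Ω] [Algebra C Ω]

namespace Br

theorem hg_le {L : ℤ → Ω × Ω} {v : ℤ → Vx Ω} {a b : ℤ} (h : a ≤ b) :
    Hg C L v a b ≤ FL C (L a) := by
  intro σ hσ t ht
  refine hσ t (Or.inl ⟨a, le_rfl, h, ?_⟩)
  simpa using ht

theorem le_hg {L : ℤ → Ω × Ω} {v : ℤ → Vx Ω} {a : ℤ} : FL C (L a) ≤ Hg C L v a a := by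
  intro σ hσ t ht
  rcases ht with ⟨i, h1, h2, h3⟩ | ⟨i, h1, h2, -⟩
  · obtain rfl : i = a := le_antisymm h2 h1
    exact hσ t (by simpa using h3)
  · omega

theorem hg_rev (L : ℤ → Ω × Ω) (v : ℤ → Vx Ω) (a b : ℤ) :
    Hg C (fun i => L (-i)) (fun i => v (-i - 1)) a b = Hg C L v (-b) (-a) := by
  unfold Hg
  congr 1
  ext t
  constructor
  · rintro (⟨i, h1, h2, h3⟩ | ⟨i, h1, h2, h3⟩)
    · exact Or.inl ⟨-i, by omega, by omega, h3⟩
    · exact Or.inr ⟨-i - 1, by omega, by omega, h3⟩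
  · rintro (⟨i, h1, h2, h3⟩ | ⟨i, h1, h2, h3⟩)
    · exact Or.inl ⟨-i, by omega, by omega, by simpa using h3⟩
    · exact Or.inr ⟨-i - 1, by omega, by omega, by simpa using h3⟩

theorem fr_rev (m : ℤ → Mir C) (L : ℤ → Ω × Ω) (v : ℤ → Vx Ω) (a b : ℤ) :
    Fr (fun i => m (-i - 1)) (fun i => L (-i)) (fun i => v (-i - 1)) a b =
      Fl m L v (-b) (-a) := by
  unfold Fr Fl
  have e : -(b - 1) - 1 = -b := by ring
  simp only [e, neg_lt_neg_iff]

theorem chn_rev (h2 : B2 C Ω) {m : ℤ → Mir C} {L : ℤ → Ω × Ω} {v : ℤ → Vx Ω} {a b : ℤ}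
    (h : Chn m L v a b) :
    Chn (fun i => m (-i - 1)) (fun i => L (-i)) (fun i => v (-i - 1)) (-b) (-a) := by
  constructor
  · intro i h1 h3
    have := h2.symm _ _ _ _ (h.st (-i - 1) (by omega) (by omega))
    rw [show -i - 1 + 1 = -i by ring] at this
    rw [show -(i + 1) = -i - 1 by ring]
    exact this
  · intro i h1 h3
    have := h.nb (-(i + 1) - 1) (by omega) (by omega)
    rw [show -(i + 1) - 1 + 1 = -i - 1 by ring] at this
    exact this.symm

theorem gen_to (h2 : B2 C Ω) {m : ℤ → Mir C} {L : ℤ → Ω × Ω} {v : ℤ → Vx Ω} {a b : ℤ}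
    (h : Chn m L v a b) (hg : Gen C (L a)) (i : ℤ) (hi : a ≤ i) : i ≤ b → Gen C (L i) := by
  induction i, hi using Int.le_induction with
  | base => exact fun _ => hg
  | succ n hn ih => exact fun hb => h2.gen _ _ _ _ (h.st n hn (by omega)) (ih (by omega))

theorem chn_shift {m0 : Mir C} {m : ℤ → Mir C} {K : ℤ → Ω × Ω} {u : ℤ → Vx Ω} {n a b : ℤ}
    (h : Chn (fun _ => m0) K u 0 n) (hn : n = b - a) (hm : ∀ i, a ≤ i → i < b → m i = m0) :
    Chn m (fun i => K (i - a)) (fun i => u (i - a)) a b := by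
  constructor
  · intro i h1 h3
    have := h.st (i - a) (by omega) (by omega)
    rw [show i - a + 1 = i + 1 - a by ring] at this
    rw [hm i h1 h3]
    exact this
  · intro i h1 h3
    have := h.nb (i - a) (by omega) (by omega)
    rw [show i - a + 1 = i + 1 - a by ring] at this
    exact this

end Br

theorem br (h2 : B2 C Ω) (h3 : B3 C Ω) (hP : PAR C Ω) (hG : GEO C Ω) : BR C Ω := by
  intro m L v b e x r Ψ k hc hg hrun hFR hFF hrel
  by_contra hcon
  have hbe := hrun.be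
  obtain ⟨Φ, w, hΦ, hw0, hw, hx⟩ :=
    h3.sqf (L b) x hg hrel.x0 (fun σ hσ => hrel.hx σ (Br.le_hg hσ))
  have hr0 : (r / w) ^ 2 = ev (L b) Φ * ev (L e) Ψ := by
    rw [div_pow, hrel.sq, hx]; field_simp
  have hinv : Inv (Hg C L v b e) (r / w) := by
    intro σ hσ
    rw [map_div₀, hrel.hr σ hσ, hw σ (Br.hg_le hbe.le hσ)]
  obtain ⟨K, u, hK, hcur, hz, hnz⟩ := hG (m (e - 1)) (e - b).toNat (Φ * Ψ) k (L b) hg hcon
    (by omega) (mul_ne_zero hΦ.ne_zero hrel.sf.ne_zero) hrel.cur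
    (by rw [map_mul, hrel.zero, mul_zero])
  have hn : (((e - b).toNat : ℕ) : ℤ) = e - b := by omega
  rw [hn] at hK hnz
  rw [map_mul] at hz hnz
  rcases mul_eq_zero.1 hz with h0 | h0
  · refine hP m L (fun i => K (i - b)) v (fun i => u (i - b)) b b e Φ 1 Ψ (r / w) le_rfl hbe.le
      hc hg hFR (Br.chn_shift hK rfl hrun.eq) ?_ hΦ ?_ ?_ ?_ ?_ hinv
    · simpa using hcur
    · simpa using h0
    · simp
    · exact right_ne_zero_of_mul hnz
    · rw [hr0, map_one, mul_one]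
  · refine hP (fun i => m (-i - 1)) (fun i => L (-i)) (fun i => K (i - -e)) (fun i => v (-i - 1))
      (fun i => u (i - -e)) (-e) (-e) (-b) Ψ 1 Φ (r / w) le_rfl (by omega) (Br.chn_rev h2 hc) ?_ ?_
      (Br.chn_shift hK (by ring) fun i h1 h3 => hrun.eq _ (by omega) (by omega)) ?_ hrel.sf ?_ ?_
      ?_ ?_ ?_
    · simpa using Br.gen_to h2 hc hg e hbe.le le_rfl
    · intro i h1 h3
      unfold FR
      rw [Br.hg_rev, Br.fr_rev, neg_neg]
      exact hFF (-i) (by omega) (by omega)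
    · simpa using hcur
    · simpa using h0
    · simp
    · have := left_ne_zero_of_mul hnz
      rwa [show e - b = -b - -e by ring] at this
    · simp only [neg_neg, map_one, mul_one]
      rw [hr0, mul_comm]
    · rw [Br.hg_rev, neg_neg, neg_neg]
      exact hinv

end Pool.Agent.MP_249f74_an.H96A
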