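import Pool.Agent.MP_249f74_an.H96A.Spec

/-!
Conics: the discriminant of the section and confocal families.
-/

namespace Pool.Agent.MP_249f74_an.H96A

namespace Co1

open MvPolynomial

variable {C Ω : Type} [Field C] [Field Ω] [Algebra C Ω]

lemma ex2 {i j i' j' : ℕ} : (Finsupp.single 0 i + Finsupp.single 1 j : Fin 2 →₀ ℕ) =
    Finsupp.single 0 i' + Finsupp.single 1 j' ↔ i = i' ∧ j = j' :=
  ⟨fun h => ⟨by simpa using DFunLike.congr_fun h 0, by simpa using DFunLike.congr_fun h 1⟩,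
    fun h => by rw [h.1, h.2]⟩

lemma cf_zero {f : P2 C} {i j : ℕ} (h : f.totalDegree < i + j) : cf f i j = 0 := by
  by_contra hn
  have := le_totalDegree (mem_support_iff.2 hn)
  rw [Finsupp.sum_add_index' (fun _ => rfl) (fun _ _ _ => rfl), Finsupp.sum_single_index rfl,
    Finsupp.sum_single_index rfl] at this
  omega

lemma mono (i j : ℕ) (k : C) : (monomial (Finsupp.single 0 i + Finsupp.single 1 j) k : P2 C) =
    MvPolynomial.C k * (X 0 ^ i * X 1 ^ j) := by
  rw [X_pow_eq_monomial, X_pow_eq_monomial, monomial_mul, C_mul_monomial, mul_one, mul_one]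

/-- A polynomial of degree at most two in terms of its coefficients. -/
lemma repr {f : P2 C} (h : f.totalDegree ≤ 2) : f =
    MvPolynomial.C (cf f 2 0) * X 0 ^ 2 + MvPolynomial.C (cf f 1 1) * (X 0 * X 1) +
      MvPolynomial.C (cf f 0 2) * X 1 ^ 2 + MvPolynomial.C (cf f 1 0) * X 0 +
      MvPolynomial.C (cf f 0 1) * X 1 + MvPolynomial.C (cf f 0 0) := by
  have e : f = ∑ p ∈ ({(2, 0), (1, 1), (0, 2), (1, 0), (0, 1), (0, 0)} : Finset (ℕ × ℕ)),
      monomial (Finsupp.single 0 p.1 + Finsupp.single 1 p.2) (cf f p.1 p.2) := by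
    ext n
    obtain ⟨i, j, rfl⟩ : ∃ i j, n = Finsupp.single 0 i + Finsupp.single 1 j :=
      ⟨n 0, n 1, by ext t; fin_cases t <;> simp⟩
    simp only [coeff_sum, coeff_monomial, ex2, ← Prod.mk.injEq, Prod.mk.eta, Finset.sum_ite_eq']
    split_ifs with hm
    · rfl
    · refine cf_zero (i := i) (j := j) (h.trans_lt (not_le.1 fun hh => hm ?_))
      simp only [Finset.mem_insert, Finset.mem_singleton, Prod.mk.injEq]
      omega
  conv_lhs => rw [e]
  simp [mono, add_assoc]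

@[simp] lemma ev_X0 (l : Ω × Ω) : ev l (X 0 : P2 C) = l.1 := by simp [ev]

@[simp] lemma ev_X1 (l : Ω × Ω) : ev l (X 1 : P2 C) = l.2 := by simp [ev]

@[simp] lemma ev_C (l : Ω × Ω) (k : C) : ev l (MvPolynomial.C k : P2 C) = algebraMap C Ω k := by
  simp [ev]

variable (Ω) in
/-- The coefficients in the large field. -/
noncomputable abbrev co (f : P2 C) (i j : ℕ) : Ω := algebraMap C Ω (cf f i j)

/-- The leading coefficient of the section. -/
noncomputable def qA (f : P2 C) (l : Ω × Ω) : Ω :=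
  co Ω f 2 0 * l.1 ^ 2 + co Ω f 1 1 * l.1 + co Ω f 0 2

/-- The middle coefficient of the section. -/
noncomputable def qB (f : P2 C) (l : Ω × Ω) : Ω :=
  2 * co Ω f 2 0 * l.1 * l.2 + co Ω f 1 1 * l.2 + co Ω f 1 0 * l.1 + co Ω f 0 1

/-- The constant coefficient of the section. -/
noncomputable def qD (f : P2 C) (l : Ω × Ω) : Ω :=
  co Ω f 2 0 * l.2 ^ 2 + co Ω f 1 0 * l.2 + co Ω f 0 0

variable {f : P2 C}

lemma ev_f (h : f.totalDegree ≤ 2) (p : Ω × Ω) : ev p f = co Ω f 2 0 * p.1 ^ 2 +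
    co Ω f 1 1 * (p.1 * p.2) + co Ω f 0 2 * p.2 ^ 2 + co Ω f 1 0 * p.1 + co Ω f 0 1 * p.2 +
    co Ω f 0 0 := by
  conv_lhs => rw [repr h]
  simp

lemma ev_fx (h : f.totalDegree ≤ 2) (p : Ω × Ω) :
    ev p (pderiv 0 f) = 2 * co Ω f 2 0 * p.1 + co Ω f 1 1 * p.2 + co Ω f 1 0 := by
  conv_lhs => rw [repr h]
  simp [map_ofNat]
  ring

lemma ev_fy (h : f.totalDegree ≤ 2) (p : Ω × Ω) :
    ev p (pderiv 1 f) = co Ω f 1 1 * p.1 + 2 * co Ω f 0 2 * p.2 + co Ω f 0 1 := by
  conv_lhs => rw [repr h]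
  simp [map_ofNat]
  ring

lemma ev_dq (f : P2 C) (l : Ω × Ω) : ev l (dq f) = qB f l ^ 2 - 4 * qA f l * qD f l := by
  simp [dq, qA, qB, qD, map_ofNat]
  ring

lemma ev_ln (h : f.totalDegree ≤ 2) (l : Ω × Ω) (y : Ω) :
    ev (l.2 + l.1 * y, y) f = qA f l * y ^ 2 + qB f l * y + qD f l := by
  rw [ev_f h, qA, qB, qD]
  ring

lemma sec_eq (h : f.totalDegree ≤ 2) (l : Ω × Ω) : sec f l = Polynomial.C (qA f l) *
    Polynomial.X ^ 2 + Polynomial.C (qB f l) * Polynomial.X + Polynomial.C (qD f l) := by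
  rw [sec]
  conv_lhs => rw [repr h]
  simp [qA, qB, qD, Polynomial.algebraMap_apply, map_ofNat]
  ring

lemma ev_e (h : f.totalDegree ≤ 2) {v : Vx Ω} {l : Ω × Ω} (hi : Inc v l) :
    ev v.p (pderiv 0 f) * l.1 + ev v.p (pderiv 1 f) = 2 * qA f l * v.y + qB f l := by
  rw [ev_fx h, ev_fy h, Vx.p, show v.x = _ from hi, qA, qB]
  ring

lemma root {m : Mir C} (h : m.Con) {v : Vx Ω} {l : Ω × Ω} (hv : m.On v) (hi : Inc v l) :
    qA m.f l * v.y ^ 2 + qB m.f l * v.y + qD m.f l = 0 := by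
  rw [← ev_ln h.le, ← show v.x = _ from hi]
  exact hv.f0

lemma sq {m : Mir C} (h : m.Con) {v : Vx Ω} {l : Ω × Ω} (hv : m.On v) (hi : Inc v l) :
    ev l (dq m.f) = (ev v.p (pderiv 0 m.f) * l.1 + ev v.p (pderiv 1 m.f)) ^ 2 := by
  rw [ev_e h.le hi, ev_dq]
  linear_combination (-4 * qA m.f l) * root h hv hi

lemma sq' {m : Mir C} (h : m.Con) {v : Vx Ω} {l : Ω × Ω} (hv : m.On v) (hi : Inc v l) :
    ev l (dq m.f) = (ev v.p (pderiv 0 m.f) * (l.1 - v.w)) ^ 2 := by
  rw [sq h hv hi]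
  congr 1
  linear_combination hv.sl

lemma deg_lin (a b c : C) : (MvPolynomial.C a * X 0 + MvPolynomial.C b * X 1 + MvPolynomial.C c :
    P2 C).totalDegree ≤ 1 := by
  refine (totalDegree_add _ _).trans (max_le ((totalDegree_add _ _).trans (max_le ?_ ?_)) ?_) <;>
    first | exact (totalDegree_mul _ _).trans (by simp) | simp

lemma deg (f : P2 C) : (dq f).totalDegree ≤ 2 := by
  have h : ∀ (k : C) (g : P2 C), g.totalDegree ≤ 2 → (MvPolynomial.C k * g).totalDegree ≤ 2 :=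
    fun k g hg => (totalDegree_mul _ _).trans (by simpa using hg)
  have a : ∀ g g' : P2 C, g.totalDegree ≤ 2 → g'.totalDegree ≤ 2 → (g + g').totalDegree ≤ 2 :=
    fun g g' h h' => (totalDegree_add _ _).trans (max_le h h')
  refine a _ _ (a _ _ (a _ _ (a _ _ (a _ _ (h _ _ ?_) (h _ _ ?_)) (h _ _ ?_)) (h _ _ ?_))
    (h _ _ ?_)) (by rw [totalDegree_C]; omega)
  · simp [totalDegree_X_pow]
  · exact (totalDegree_mul _ _).trans (by simp)
  · simp
  · simp [totalDegree_X_pow]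
  · simp

/-- No linear relation. -/
lemma lin {k : Ω × Ω} (h : Dg C 2 k) {a b c : C}
    (e : algebraMap C Ω a * k.1 + algebraMap C Ω b * k.2 + algebraMap C Ω c = 0) :
    a = 0 ∧ b = 0 := by
  have h0 : (MvPolynomial.C a * X 0 + MvPolynomial.C b * X 1 + MvPolynomial.C c : P2 C) = 0 := by
    by_contra hn
    have := (h _ hn (by simpa using e)).trans (deg_lin a b c)
    omega
  exact ⟨by simpa using congrArg (pderiv 0) h0, by simpa using congrArg (pderiv 1) h0⟩

lemma ncst {k : Ω × Ω} (h : Dg C 2 k) : ¬Cst C k.1 := fun ⟨a, e⟩ =>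
  one_ne_zero (lin h (a := 1) (b := 0) (c := -a) (by simp [e])).1

lemma qA_ne [IsAlgClosed C] {m : Mir C} (h : m.Con) {l : Ω × Ω} (hl : ¬Cst C l.1) :
    qA m.f l ≠ 0 := fun e => by
  by_cases h0 : (Polynomial.C (cf m.f 2 0) * Polynomial.X ^ 2 + Polynomial.C (cf m.f 1 1) *
      Polynomial.X + Polynomial.C (cf m.f 0 2)) = 0
  · have a : cf m.f 2 0 = 0 := by simpa using congrArg (Polynomial.coeff · 2) h0
    have b : cf m.f 1 1 = 0 := by simpa using congrArg (Polynomial.coeff · 1) h0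
    have c : cf m.f 0 2 = 0 := by simpa using congrArg (Polynomial.coeff · 0) h0
    have r := repr h.le
    simp only [a, b, c, map_zero, zero_mul, zero_add] at r
    have := deg_lin (cf m.f 1 0) (cf m.f 0 1) (cf m.f 0 0)
    rw [← r, h] at this
    omega
  · have hi : IsIntegral C l.1 := IsAlgebraic.isIntegral ⟨_, h0, by simpa [qA] using e⟩
    obtain ⟨k, hk⟩ := minpoly.mem_range_of_degree_eq_one C l.1
      (IsAlgClosed.degree_eq_one_of_irreducible C (minpoly.irreducible hi))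
    exact hl ⟨k, hk.symm⟩

end Co1

open Co1

variable {C Ω : Type} [Field C] [IsAlgClosed C] [Field Ω] [CharZero Ω] [IsAlgClosed Ω] [Algebra C Ω]

theorem co1 (h1 : B1 C Ω) (_h2 : B2 C Ω) : CO1 C Ω where
  sq _ _ _ h hv hi := Co1.sq h hv hi
  inv m m' v l l' := fun ⟨h, _, k, ν, _, e⟩ s => by
    simp only [e, map_add, map_mul, ev_C, ev_X0, sq' h s.on s.i0, sq' h s.on s.i1]
    linear_combination (algebraMap C Ω k * ev v.p (MvPolynomial.pderiv 0 m.f) ^ 2 *
      (l'.1 - l.1)) * s.rf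
  deg := Co1.deg
  refl m h := ⟨h, h, 1, 0, one_ne_zero, by simp⟩
  symm m m' := fun ⟨h, h', k, ν, hk, e⟩ => ⟨h', h, k⁻¹, -(k⁻¹ * ν), inv_ne_zero hk, by
    rw [e, mul_add, ← mul_assoc, ← map_mul, inv_mul_cancel₀ hk]
    simp [mul_assoc]⟩
  trans m m' m'' := fun ⟨h, _, k, ν, hk, e⟩ ⟨_, h'', k', ν', hk', e'⟩ =>
    ⟨h, h'', k' * k, k' * ν + ν', mul_ne_zero hk' hk, by
      rw [e', e, map_add, map_mul, map_mul]
      ring⟩
  two m l h := by
    classical
    refine (Multiset.toFinset_card_le _).trans ((Polynomial.card_roots' _).trans ?_)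
    rw [sec_eq h.le]
    exact Polynomial.natDegree_quadratic_le
  flip m v l l' h s := by
    refine ⟨_, fun e => ?_, (Co1.sq h s.on s.i0).symm, fun σ hσ => ?_⟩
    · refine mul_ne_zero (h1.fx m v s.on) (sub_ne_zero.2 s.nt) ?_
      linear_combination e - s.on.sl
    · have s1 : σ l.1 = l.1 := hσ _ (by simp)
      have s2 : σ l.2 = l.2 := hσ _ (by simp)
      have a : σ (qA m.f l) = qA m.f l := by simp [qA, s1]
      have b : σ (qB m.f l) = qB m.f l := by simp [qB, s1, s2, map_ofNat]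
      have d : σ (qD m.f l) = qD m.f l := by simp [qD, s2]
      have r := root h s.on s.i0
      have r' := congrArg σ r
      simp only [map_add, map_mul, map_pow, a, b, d, map_zero] at r'
      rw [ev_e h.le s.i0]
      simp only [map_add, map_mul, map_ofNat, a, b]
      refine ⟨fun e => by rw [e], fun e => mul_left_cancel₀ (sub_ne_zero.2 e) ?_⟩
      linear_combination 2 * r' - 2 * r
  pts m k h hk hl := by
    have hA := qA_ne h (ncst hk)
    have hD : ev k (dq m.f) ≠ 0 := fun e => hl ⟨0, by simp [e]⟩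
    obtain ⟨r, hr⟩ := IsAlgClosed.exists_pow_nat_eq (ev k (dq m.f)) two_pos
    have key : ∀ r : Ω, r ^ 2 = ev k (dq m.f) → ∃ v : Vx Ω, m.On v ∧ Inc v k ∧
        2 * qA m.f k * v.y + qB m.f k = r := fun r hr => by
      obtain ⟨y, hy⟩ : ∃ y, 2 * qA m.f k * y + qB m.f k = r :=
        ⟨(r - qB m.f k) / (2 * qA m.f k), by field_simp; ring⟩
      obtain ⟨w, hw⟩ := h1.pt m (k.2 + k.1 * y) y (by
        rw [ev_ln h.le]
        refine mul_left_cancel₀ (mul_ne_zero (show (4 : Ω) ≠ 0 by norm_num) hA) ?_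
        rw [ev_dq, ← hy] at hr
        linear_combination hr) fun ⟨⟨a, ha⟩, b, hb⟩ =>
          one_ne_zero (lin hk (a := b) (b := 1) (c := -a) (by
            rw [map_neg, map_one, ← ha, ← hb]; ring)).2
      exact ⟨_, hw, rfl, hy⟩
    obtain ⟨v, a1, a2, a3⟩ := key r hr
    obtain ⟨v', b1, b2, b3⟩ := key (-r) (by rw [neg_sq, hr])
    refine ⟨v, v', a1, b1, a2, b2, fun e => hD ?_⟩
    rw [← hr, self_eq_neg.1 (a3.symm.trans (e ▸ b3)), zero_pow two_ne_zero]
  huge m k h hk := fun ⟨ν, e⟩ => by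
    have h0 : dq m.f - MvPolynomial.C ν * MvPolynomial.X 0 = 0 := by
      by_contra hn
      have := (hk _ hn (by simp [e])).trans ((MvPolynomial.totalDegree_sub _ _).trans
        (max_le (Co1.deg m.f) ((MvPolynomial.totalDegree_mul _ _).trans (by simp))))
      omega
    obtain ⟨x, w, hv⟩ := h1.ex m k.1 (ncst fun F a b => (hk F a b).trans' (by omega))
    have key : ∀ s : Ω, algebraMap C Ω ν * s =
        (ev (x, k.1) (MvPolynomial.pderiv 0 m.f) * (s - w)) ^ 2 := fun s => by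
      have := sq' h hv (l := (s, x - s * k.1)) (by simp [Inc])
      rw [sub_eq_zero.1 h0] at this
      simpa [Vx.p] using this
    have h2 := key w
    have h3 := key (w + 1)
    rw [sub_self, mul_zero, zero_pow two_ne_zero] at h2
    rw [(mul_eq_zero.1 h2).resolve_right (h1.w0 m _ hv), zero_mul, add_sub_cancel_left,
      mul_one] at h3
    exact h1.fx m _ hv (pow_eq_zero_iff two_ne_zero |>.1 h3.symm)

end Pool.Agent.MP_249f74_an.H96A
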