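import Pool.Agent.MP_249f74_an.H96A.Co1

/-!
Dual conics: the square class of the discriminant and confocal families.
-/

namespace Pool.Agent.MP_249f74_an.H96A

namespace Co2

open MvPolynomial Co1

variable {C Ω : Type} [Field C] [Field Ω] [Algebra C Ω]

/-- The general polynomial of degree at most two. -/
noncomputable def Q (p q r t u z : C) : P2 C :=
  MvPolynomial.C p * X 1 ^ 2 + MvPolynomial.C q * (X 0 * X 1) + MvPolynomial.C r * X 1 +
    MvPolynomial.C t * X 0 ^ 2 + MvPolynomial.C u * X 0 + MvPolynomial.C z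

lemma deg_cm (k : C) {F : P2 C} {n : ℕ} (h : F.totalDegree ≤ n) :
    (MvPolynomial.C k * F).totalDegree ≤ n :=
  (totalDegree_mul _ _).trans (by rw [totalDegree_C, zero_add]; exact h)

lemma deg_add {F G : P2 C} {n : ℕ} (h : F.totalDegree ≤ n) (h' : G.totalDegree ≤ n) :
    (F + G).totalDegree ≤ n := (totalDegree_add _ _).trans (max_le h h')

lemma deg_lin (a b c : C) :
    (MvPolynomial.C a * X 1 + MvPolynomial.C b * X 0 + MvPolynomial.C c : P2 C).totalDegree ≤ 1 :=
  deg_add (deg_add (deg_cm _ (totalDegree_X _).le) (deg_cm _ (totalDegree_X _).le))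
    (by rw [totalDegree_C]; omega)

lemma deg_Q (p q r t u z : C) : (Q p q r t u z).totalDegree ≤ 2 := by
  have x1 : ∀ i : Fin 2, (X i : P2 C).totalDegree ≤ 2 := fun i => by rw [totalDegree_X]; omega
  have x2 : ∀ i : Fin 2, (X i ^ 2 : P2 C).totalDegree ≤ 2 := fun i => (totalDegree_X_pow _ _).le
  refine deg_add (deg_add (deg_add (deg_add (deg_add (deg_cm _ (x2 1)) (deg_cm _ ?_))
    (deg_cm _ (x1 1))) (deg_cm _ (x2 0))) (deg_cm _ (x1 0))) (by rw [totalDegree_C]; omega)
  exact (totalDegree_mul _ _).trans (by rw [totalDegree_X, totalDegree_X])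

lemma Q_zero [CharZero C] {p q r t u z : C} (h : Q p q r t u z = 0) :
    p = 0 ∧ q = 0 ∧ r = 0 ∧ t = 0 ∧ u = 0 ∧ z = 0 := by
  have e : ∀ a b : C, p * b ^ 2 + q * (a * b) + r * b + t * a ^ 2 + u * a + z = 0 := fun a b => by
    simpa [Q] using congrArg (MvPolynomial.eval ![a, b]) h
  have two : (2 : C) ≠ 0 := two_ne_zero
  have hz : z = 0 := by linear_combination e 0 0
  have hp : p = 0 := mul_left_cancel₀ two (by linear_combination e 0 1 + e 0 (-1) - 2 * hz)
  have hr : r = 0 := by linear_combination e 0 1 - hp - hz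
  have ht : t = 0 := mul_left_cancel₀ two (by linear_combination e 1 0 + e (-1) 0 - 2 * hz)
  have hu : u = 0 := by linear_combination e 1 0 - ht - hz
  exact ⟨hp, by linear_combination e 1 1 - hp - hr - ht - hu - hz, hr, ht, hu, hz⟩

lemma cofactor {A B : P2 C} (h0 : A * B ≠ 0) (h : (A * B).totalDegree ≤ 2)
    (hA : 2 ≤ A.totalDegree) : ∃ k : C, k ≠ 0 ∧ B = MvPolynomial.C k := by
  rw [totalDegree_mul_of_isDomain (left_ne_zero_of_mul h0) (right_ne_zero_of_mul h0)] at h
  have e := totalDegree_eq_zero_iff_eq_C.1 (show B.totalDegree = 0 by omega)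
  exact ⟨_, fun k => right_ne_zero_of_mul h0 (by rw [e, k, C_0]), e⟩

lemma own (hc : CO1 C Ω) {m : Mir C} (h : m.Con) {v : Vx Ω} (hv : m.On v) :
    ev v.tl (dq m.f) = 0 := by
  rw [hc.sq m v v.tl h hv (by simp [Inc, Vx.tl])]
  have := hv.sl
  simp only [Vx.tl]
  rw [show ev v.p (pderiv 0 m.f) * v.w + ev v.p (pderiv 1 m.f) = 0 by linear_combination this]
  ring

lemma dq_ne (h1 : B1 C Ω) (hc : CO1 C Ω) {m : Mir C} (h : m.Con) {v : Vx Ω} (hv : m.On v) :
    dq m.f ≠ 0 := by
  intro k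
  have e := hc.sq m v (v.w + 1, v.x - (v.w + 1) * v.y) h hv (by simp [Inc])
  rw [k, map_zero] at e
  have e2 := pow_eq_zero_iff (two_ne_zero) |>.1 e.symm
  exact h1.fx m v hv (by linear_combination e2 - hv.sl)

lemma disc (p q r t u z : C) (v : Vx Ω) (h0 : (pen (Q p q r t u z) v).eval v.w = 0)
    (h1 : (Polynomial.derivative (pen (Q p q r t u z) v)).eval v.w = 0) :
    ev v.p (Q (r ^ 2 - 4 * p * z) (2 * q * r - 4 * p * u) (4 * q * z - 2 * r * u)
      (q ^ 2 - 4 * t * p) (2 * q * u - 4 * t * r) (u ^ 2 - 4 * t * z)) = 0 := by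
  simp [pen, Q, Polynomial.algebraMap_apply, Polynomial.derivative_pow] at h0 h1
  simp [Q, Vx.p, map_ofNat]
  set P := algebraMap C Ω p
  set Q' := algebraMap C Ω q
  set R := algebraMap C Ω r
  set T := algebraMap C Ω t
  set U := algebraMap C Ω u
  set Z := algebraMap C Ω z
  linear_combination (-4 * (P * v.y ^ 2 - Q' * v.y + T)) * h0 +
    (2 * (P * v.y ^ 2 - Q' * v.y + T) * v.w + (-2 * P * v.x * v.y + Q' * v.x - R * v.y + U)) * h1

lemma degen [CharZero C] [CharZero Ω] {p q r t u z : C} {k : Ω × Ω} (hk : Dg C 2 k)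
    (h0 : ev k (Q p q r t u z) = 0)
    (hE : Q (r ^ 2 - 4 * p * z) (2 * q * r - 4 * p * u) (4 * q * z - 2 * r * u)
      (q ^ 2 - 4 * t * p) (2 * q * u - 4 * t * r) (u ^ 2 - 4 * t * z) = 0) : Q p q r t u z = 0 := by
  obtain ⟨e1, e2, e3, e4, e5, e6⟩ := Q_zero hE
  have lin : ∀ a b c : C, (algebraMap C Ω a * k.2 + algebraMap C Ω b * k.1 + algebraMap C Ω c) ^ 2
      = 0 → a = 0 ∧ b = 0 ∧ c = 0 := by
    intro a b c h
    have h' := pow_eq_zero_iff (two_ne_zero) |>.1 h
    have hz : (MvPolynomial.C a * X 1 + MvPolynomial.C b * X 0 + MvPolynomial.C c : P2 C) = 0 := by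
      by_contra hn
      have := (hk _ hn (by simpa using h')).trans (deg_lin a b c)
      omega
    have := Q_zero (p := 0) (q := 0) (r := a) (t := 0) (u := b) (z := c) (by simpa [Q] using hz)
    exact ⟨this.2.2.1, this.2.2.2.2.1, this.2.2.2.2.2⟩
  have m1 := congrArg (algebraMap C Ω) e1
  have m2 := congrArg (algebraMap C Ω) e2
  have m3 := congrArg (algebraMap C Ω) e3
  have m4 := congrArg (algebraMap C Ω) e4
  have m5 := congrArg (algebraMap C Ω) e5
  have m6 := congrArg (algebraMap C Ω) e6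
  simp only [map_sub, map_mul, map_pow, map_ofNat, map_zero] at m1 m2 m3 m4 m5 m6
  simp only [Q, map_add, map_mul, map_pow, ev_C, ev_X0, ev_X1] at h0
  have l1 := lin (2 * p) q r (by
    simp only [map_mul, map_ofNat]
    linear_combination (4 * algebraMap C Ω p) * h0 + k.1 ^ 2 * m4 + k.1 * m2 + m1)
  have l2 := lin q (2 * t) u (by
    simp only [map_mul, map_ofNat]
    linear_combination (4 * algebraMap C Ω t) * h0 + k.2 ^ 2 * m4 + k.2 * m5 + m6)
  have l3 := lin r u (2 * z) (by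
    simp only [map_mul, map_ofNat]
    linear_combination (4 * algebraMap C Ω z) * h0 + k.2 ^ 2 * m1 - k.1 * k.2 * m3 + k.1 ^ 2 * m6)
  have two : (2 : C) ≠ 0 := two_ne_zero
  rw [(mul_eq_zero.1 l1.1).resolve_left two, l1.2.1, l1.2.2, (mul_eq_zero.1 l2.2.1).resolve_left two,
    l2.2.2, (mul_eq_zero.1 l3.2.2).resolve_left two]
  simp [Q]

end Co2

variable {C Ω : Type} [Field C] [IsAlgClosed C] [Field Ω] [CharZero Ω] [IsAlgClosed Ω] [Algebra C Ω]

open Co1 Co2 MvPolynomial in
omit [IsAlgClosed C] in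
theorem co2 (h1 : B1 C Ω) (h2 : B2 C Ω) (h3 : B3 C Ω) (hg : GRP C Ω) (ht : TAN C Ω)
    (hc : CO1 C Ω) : CO2 C Ω := by
  classical
  have : CharZero C := (algebraMap C Ω).charZero
  refine ⟨fun m l h g => ?_, fun m m' v h hv hl => ?_⟩
  · obtain ⟨v0, _, hv0, _, i0, _, _⟩ := hc.pts m l h (fun F hF k => absurd (g F k) hF)
      (hc.huge m l h fun F hF k => absurd (g F k) hF)
    have y0 : v0.y ∈ Pts m l := (h2.mem m l v0.y).2 (i0 ▸ hv0.f0)
    obtain ⟨v, l', hy, st⟩ := h2.step m l v0.y g y0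
    rw [← hy] at y0
    have d0 := dq_ne h1 hc h st.on
    refine ⟨fun A ⟨B, hB⟩ => ?_, fun σ hσ r hr => ?_, fun u hu => own hc h hu, fun m' hm u hu k => ?_⟩
    · have hd := hc.deg m.f
      have e := own hc h st.on
      have dg := (h1.tl m v st.on).2
      rw [hB] at d0 hd e
      have a0 : A ≠ 0 := left_ne_zero_of_mul (left_ne_zero_of_mul d0)
      have b0 := right_ne_zero_of_mul d0
      rw [totalDegree_mul_of_isDomain (left_ne_zero_of_mul d0) b0,
        totalDegree_mul_of_isDomain a0 a0] at hd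
      rw [map_mul, map_mul, mul_eq_zero, mul_self_eq_zero] at e
      have z : A.totalDegree = 0 := by
        rcases e with e | e
        · have := dg A a0 e
          omega
        · have := dg B b0 e
          omega
      have e' := totalDegree_eq_zero_iff_eq_C.1 z
      rw [e']
      exact (isUnit_iff_ne_zero.2 fun k => a0 (by rw [e', k, C_0])).map MvPolynomial.C
    · obtain ⟨e, _, e2, he⟩ := hc.flip m v l l' h st
      have f1 : σ l.1 = l.1 := hσ _ (Or.inl rfl)
      have f2 : σ l.2 = l.2 := hσ _ (Or.inr rfl)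
      have stb : ∀ a ∈ Pts m l, σ a ∈ Pts m l := fun a ha => by
        have := h3.evmap (l.2 + l.1 * a, a) σ m.f
        rw [(h2.mem m l a).1 ha, map_zero, mp] at this
        simp only [map_add, map_mul, f1, f2] at this
        exact (h2.mem m l _).2 this
      have oth : ∀ x ∈ Pts m l, ∀ y ∈ Pts m l, ∀ z ∈ Pts m l, x ≠ y → z ≠ x → z = y :=
        fun x hx y hy z hz k1 k2 => by_contra fun k => absurd
          (Finset.two_lt_card.2 ⟨x, hx, y, hy, z, hz, k1, k2.symm, Ne.symm k⟩)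
          (not_lt.2 (hc.two m l h))
      have key : σ e = ((sg σ (Pts m l) : ℤ) : Ω) * e := by
        by_cases c : σ v.y = v.y
        · rw [(he σ hσ).1 c, hg.one σ _ fun a ha => ?_]
          · simp
          · by_cases c' : a = v.y
            · rw [c', c]
            · exact oth _ y0 _ ha _ (stb a ha) (Ne.symm c') fun k => c' (σ.injective (k.trans c.symm))
        · rw [(he σ hσ).2 c, hg.swap σ _ v.y (σ v.y) y0 (stb _ y0) (Ne.symm c) rfl
            (oth _ (stb _ y0) _ y0 _ (stb _ (stb _ y0)) c fun k => c (σ.injective k))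
            fun a ha k1 k2 => absurd (oth _ y0 _ (stb _ y0) _ ha (Ne.symm c) k1) k2]
          simp
      rcases sq_eq_sq_iff_eq_or_eq_neg.1 (hr.trans e2.symm) with k | k
      · rw [k, key]
      · rw [k, map_neg, key, mul_neg]
    · have dg := ht.deg m m' u hu
      obtain ⟨y, hy⟩ := IsAlgClosed.exists_root (sec m.f u.tl) fun z => by
        rw [Polynomial.natDegree_eq_of_degree_eq_some (n := 0) z] at dg
        have := m.deg
        omega
      have s0 := h2.sec0 m u.tl
      have mem : y ∈ Pts m u.tl := Multiset.mem_toFinset.2 ((Polynomial.mem_roots s0).2 hy)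
      have one := ht.oth m m' u hu y mem (Or.inl hm.symm)
      have : 1 < (sec m.f u.tl).rootMultiplicity y := by
        refine (Polynomial.one_lt_rootMultiplicity_iff_isRoot s0).2 ⟨hy, ?_⟩
        rw [sec_eq h.le] at hy ⊢
        rw [ev_dq] at k
        simp only [Polynomial.IsRoot, Polynomial.eval_add, Polynomial.eval_mul, Polynomial.eval_C,
          Polynomial.eval_pow, Polynomial.eval_X] at hy
        have e : (2 * qA m.f u.tl * y + qB m.f u.tl) ^ 2 = 0 := by
          linear_combination k + 4 * qA m.f u.tl * hy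
        have e' := pow_eq_zero_iff (two_ne_zero) |>.1 e
        simp [Polynomial.IsRoot]
        linear_combination e'
      omega
  · obtain ⟨ν, hν⟩ := hl
    obtain ⟨x0, w0, hu⟩ := h1.ex m v.y hv.ny
    obtain ⟨p, q, r, t, u, z, hD⟩ : ∃ p q r t u z : C,
        dq m.f - MvPolynomial.C ν * X 0 = Q p q r t u z :=
      ⟨cf m.f 1 1 ^ 2 - 4 * cf m.f 2 0 * cf m.f 0 2,
        4 * cf m.f 2 0 * cf m.f 0 1 - 2 * cf m.f 1 1 * cf m.f 1 0,
        2 * cf m.f 1 1 * cf m.f 0 1 - 4 * cf m.f 0 2 * cf m.f 1 0,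
        cf m.f 1 0 ^ 2 - 4 * cf m.f 2 0 * cf m.f 0 0,
        (2 * cf m.f 1 0 * cf m.f 0 1 - 4 * cf m.f 1 1 * cf m.f 0 0) - ν,
        cf m.f 0 1 ^ 2 - 4 * cf m.f 0 2 * cf m.f 0 0, by rw [dq, Q, C_sub _ _ ν]; ring⟩
    have z0 : ev v.tl (Q p q r t u z) = 0 := by
      rw [← hD, map_sub, hν, map_mul, ev_C, ev_X0, sub_self]
    have D0 : Q p q r t u z ≠ 0 := fun k => by
      rw [k, sub_eq_zero] at hD
      have e := own hc h hu
      rw [hD, map_mul, ev_C, ev_X0, mul_eq_zero] at e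
      rcases e with e | e
      · rw [(map_eq_zero _).1 e, C_0, zero_mul] at hD
        exact dq_ne h1 hc h hu hD
      · exact h1.w0 m _ hu e
    obtain ⟨cur, dg⟩ := h1.tl m' v hv
    obtain ⟨π, hπ, hker⟩ := h3.curve v.tl cur.ng cur.nc
    have π2 := dg π hπ.ne_zero ((hker π).2 dvd_rfl)
    obtain ⟨B, hB⟩ := (hker _).1 z0
    obtain ⟨β, β0, rfl⟩ := cofactor (hB ▸ D0) (hB ▸ deg_Q p q r t u z) π2
    have as : Associated π (Q p q r t u z) :=
      hB ▸ associated_mul_unit_right π _ ((isUnit_iff_ne_zero.2 β0).map MvPolynomial.C)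
    have mu := ht.two m' v _ hv (as.prime hπ) z0
    have p0 : pen (Q p q r t u z) v ≠ 0 := fun k => by
      rw [k, Polynomial.rootMultiplicity_zero] at mu
      omega
    obtain ⟨r0, r1⟩ := (Polynomial.one_lt_rootMultiplicity_iff_isRoot (t := v.w) p0).1 (by omega)
    have con : m'.Con := le_antisymm ((totalDegree_le_of_dvd_of_isDomain
      ((h1.ker m' v hv _).1 (disc p q r t u z v r0 r1))
      fun k => D0 (degen dg z0 k)).trans (deg_Q _ _ _ _ _ _)) m'.deg
    obtain ⟨B, hB'⟩ := as.symm.dvd.trans ((hker _).1 (own hc con hv))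
    obtain ⟨k, k0, rfl⟩ := cofactor (hB' ▸ dq_ne h1 hc con hv) (hB' ▸ hc.deg m'.f) (dg _ D0 z0)
    exact ⟨h, con, k, -(k * ν), k0, by rw [hB', ← hD, C_neg, C_mul]; ring⟩

end Pool.Agent.MP_249f74_an.H96A
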