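import Pool.Agent.MP_249f74_an.H96A.Spec

/-!
From rays to twisted periodic families.
-/

namespace Pool.Agent.MP_249f74_an.H96A

open H17 (Der Two)
open H96 (Pt Iso Edge Amb)

variable {C Ω : Type} [Field C] [Field Ω] [Algebra C Ω]

namespace Conv

/-- The ray with direction `z` through the event `(x, y, t)`. -/
def ray (x y t z : Ω) : Ray Ω := ⟨z, x - z ^ 2 * y, t - z * y⟩

lemma ray_edge {d : Two C Ω} {m m' : Pt d} {z l : Ω} (e : Edge m m' z l) (t : Ω) :
    ray m.x m.y t z = ray m'.x m'.y (t + l) z := by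
  refine Ray.ext rfl e.line.symm ?_
  change t - z * m.y = t + l - z * m'.y
  linear_combination e.ey

lemma exists_comp (g h : Iso C) : ∃ k : Iso C,
    (∀ x y : Ω, k.px x y = g.px (h.px x y) (h.py x y)) ∧
    (∀ x y : Ω, k.py x y = g.py (h.px x y) (h.py x y)) ∧ ∀ z : Ω, k.pz z = g.pz (h.pz z) := by
  have h1 := g.β0 (Ω := Ω)
  have h2 := h.β0 (Ω := Ω)
  cases hg : g.e
  · refine ⟨⟨h.e, g.β * h.β, g.β * h.a + g.a, g.β⁻¹ * h.b + g.b, mul_ne_zero g.hβ h.hβ⟩,
      fun x y => ?_, fun x y => ?_, fun z => ?_⟩ <;>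
      simp only [Iso.px, Iso.py, Iso.pz, hg, map_mul, map_add, map_inv₀, Bool.false_eq_true,
        if_false, mul_inv] <;> ring
  · refine ⟨⟨!h.e, g.β * h.β⁻¹, g.β * h.b + g.a, g.β⁻¹ * h.a + g.b,
      mul_ne_zero g.hβ (inv_ne_zero h.hβ)⟩, fun x y => ?_, fun x y => ?_, fun z => ?_⟩ <;>
      cases hh : h.e <;>
      simp only [Iso.px, Iso.py, Iso.pz, hg, hh, map_mul, map_add, map_inv₀, Bool.false_eq_true,
        if_false, if_true, mul_inv, inv_inv, Bool.not_true, Bool.not_false] <;> ring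

lemma alg_act [CharZero Ω] {d : Two C Ω} (m : Pt d) (g : Iso C) (h : ¬m.Tr) :
    (m.act g).x ∈ H88.cl C {(m.act g).y} := by
  have hx : m.x ∈ H88.cl C {m.y} := not_not.1 h
  have h0 := g.β0 (Ω := Ω)
  refine H96.mem_cl_of_kil fun θ hθ => ?_
  have h1 : θ (m.act g).y = 0 := hθ _ rfl
  cases e : g.e
  · have h2 : θ m.y = 0 := by simpa [Iso.py, e, Derivation.leibniz_inv, h0] using h1
    have h3 : θ m.x = 0 := H17.kill_cl (S := {m.y}) (by simpa using h2) hx
    simp [Iso.px, e, h3]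
  · have h2 : θ m.x = 0 := by simpa [Iso.py, e, Derivation.leibniz_inv, h0] using h1
    have h3 : θ m.y = 0 := by
      by_contra h3
      have h4 : m.x ∈ H88.cl C (∅ : Set Ω) :=
        H96.mem_cl_of_der (t := m.y) (δ := θ) (by simpa using hx) (fun _ h => h.elim) h2 h3
      obtain ⟨Z, z1, z2⟩ := m.exists_one
      have h5 : Z m.x = 0 := H17.kill_cl (S := ∅) (fun _ h => h.elim) h4
      rw [m.dx z1, z2, one_mul] at h5
      exact m.w0 h5
    simp [Iso.px, e, h3]

lemma gen_of_J [CharZero Ω] {d : Two C Ω} {f g : Ω} (h : d.J f g ≠ 0) : Gen C (f, g) := by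
  intro F hF
  by_contra h0
  have h1 := H88.rk_le_of_root (k := C) (e := 1) (σ := Fin 2) (by simp) h0 hF
  obtain ⟨Z, -, z1, z2⟩ := H96.exists_tn h 1 0
  obtain ⟨Z', -, -, z3⟩ := H96.exists_tn h 0 1
  have h2 : f ∉ H88.cl C {g} :=
    H96.not_mem_cl (δ := Z) (fun a ha => by rw [ha]; exact z2) (by rw [z1]; exact one_ne_zero)
  have h3 : g ∉ H88.cl C (∅ : Set Ω) :=
    H96.not_mem_cl (δ := Z') (fun _ h => h.elim) (by rw [z3]; exact one_ne_zero)
  have h4 := H88.rk_insert h3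
  have h5 := H88.rk_insert h2
  rw [H17.rk_empty] at h4
  have h6 : Set.range ![f, g] = insert f {g} := by simp [Set.pair_comm]
  have h7 : insert g (∅ : Set Ω) = {g} := by simp
  rw [h7] at h4
  change H88.rk C (Set.range ![f, g]) ≤ _ at h1
  rw [h6, h5, h4] at h1
  norm_num at h1

/-- One reflection, in a curved or in a flat mirror. -/
lemma refl [IsAlgClosed C] [CharZero Ω] (h1 : B1 C Ω) {d : Two C Ω} (hd : Amb d) (q : Pt d)
    (ha : q.x ∈ H88.cl C {q.y}) (hs : H9.Sy C Ω q.x q.y) {ρ : Ray Ω} {t z z' : Ω}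
    (hz : z * z' = q.w) (hp : Pth C ρ (ray q.x q.y t z)) :
    ∃ r : Iso C, Pth C ρ (ray (r.px q.x q.y) (r.py q.x q.y) t (r.pz z')) := by
  obtain ⟨Z, z1, z2⟩ := q.exists_one
  have z3 : Z q.x = q.w := by rw [q.dx z1, z2, one_mul]
  by_cases hw : Z q.w = 0
  · obtain ⟨ω, hω⟩ := IntermediateField.mem_bot.1
      (q.const hd z1 (by rw [z2]; exact one_ne_zero) (q.Jyw hd) hw)
    have h2 : d.J q.y (q.x - q.w * q.y) = 0 := by
      rw [← Two.br_apply, map_sub, Derivation.leibniz, Two.br_apply, Two.br_apply, Two.br_apply,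
        q.Jyx, q.Jyw hd, Two.J_self]
      simp
    obtain ⟨κ, hκ⟩ := IntermediateField.mem_bot.1
      (q.const hd z1 (by rw [z2]; exact one_ne_zero) h2 (by
        rw [map_sub, Derivation.leibniz, z3, z2, hw]; simp))
    have hω0 : ω ≠ 0 := fun h => q.w0 (by rw [← hω, h, map_zero])
    have hw0 := q.w0
    have hz0 : z' ≠ 0 := fun h => hw0 (by rw [← hz, h, mul_zero])
    refine ⟨⟨true, ω, κ, -κ / ω, hω0⟩, ?_⟩
    have e1 : (⟨true, ω, κ, -κ / ω, hω0⟩ : Iso C).px q.x q.y = q.x := by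
      simp only [Iso.px, if_true, hω, hκ]; ring
    have e2 : (⟨true, ω, κ, -κ / ω, hω0⟩ : Iso C).py q.x q.y = q.y := by
      simp only [Iso.py, if_true, map_div₀, map_neg, hω, hκ]; field_simp; ring
    have e3 : (⟨true, ω, κ, -κ / ω, hω0⟩ : Iso C).pz z' = z := by
      simp only [Iso.pz, if_true, hω, ← hz]; field_simp
    rw [e1, e2, e3]
    exact hp
  · obtain ⟨M, hM⟩ := h1.mir q.x q.y q.w Z z2 z3 hw ha hs
    refine ⟨⟨false, 1, 0, 0, one_ne_zero⟩, ?_⟩
    have e1 : (⟨false, 1, 0, 0, one_ne_zero⟩ : Iso C).px q.x q.y = q.x := by simp [Iso.px]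
    have e2 : (⟨false, 1, 0, 0, one_ne_zero⟩ : Iso C).py q.x q.y = q.y := by simp [Iso.py]
    have e3 : (⟨false, 1, 0, 0, one_ne_zero⟩ : Iso C).pz z' = z' := by simp [Iso.pz]
    rw [e1, e2, e3]
    refine hp.snoc (m := M) (v := ⟨q.x, q.y, q.w⟩) ⟨hM, ?_, ?_, hz, ?_⟩ <;>
      simp [Inc, Ray.ln, ray]

/-- The end of the argument. -/
lemma fin (hZ : ZERO C Ω) {x y z T : Ω} (hz : z ≠ 0) (hg : Gen C (z ^ 2, x - z ^ 2 * y))
    (k : Iso C) (hp : Pth C (ray x y 0 z) (ray (k.px x y) (k.py x y) T (k.pz z))) : T = 0 := by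
  have h0 := k.β0 (Ω := Ω)
  have hg' : Gen C (ray x y 0 z).ln := hg
  let K := IntermediateField.adjoin C {z ^ 2, x - z ^ 2 * y}
  have hs : z ^ 2 ∈ K := IntermediateField.subset_adjoin _ _ (Or.inl rfl)
  have hc : x - z ^ 2 * y ∈ K := IntermediateField.subset_adjoin _ _ (Or.inr rfl)
  have hb : algebraMap C Ω k.β ∈ K := K.algebraMap_mem _
  have ha : algebraMap C Ω k.a ∈ K := K.algebraMap_mem _
  have hb' : algebraMap C Ω k.b ∈ K := K.algebraMap_mem _
  cases e : k.e
  · have e1 : k.pz z ^ 2 = algebraMap C Ω k.β ^ 2 * z ^ 2 := by simp [Iso.pz, e, mul_pow]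
    have e2 : k.px x y - k.pz z ^ 2 * k.py x y = algebraMap C Ω k.β * (x - z ^ 2 * y) +
        algebraMap C Ω k.a - algebraMap C Ω k.β ^ 2 * z ^ 2 * algebraMap C Ω k.b := by
      simp only [Iso.px, Iso.py, Iso.pz, e, Bool.false_eq_true, if_false]
      field_simp
      ring
    have h := hZ _ _ hg' hp (by
      change k.pz z ^ 2 ∈ K
      rw [e1]; exact mul_mem (pow_mem hb _) hs) (by
      change k.px x y - k.pz z ^ 2 * k.py x y ∈ K
      rw [e2]; exact sub_mem (add_mem (mul_mem hb hc) ha) (mul_mem (mul_mem (pow_mem hb _) hs) hb'))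
    have h1 : k.pz z = z := congrArg Ray.z h
    have h2 : k.px x y - k.pz z ^ 2 * k.py x y = x - z ^ 2 * y := congrArg Ray.c h
    have h3 : T - k.pz z * k.py x y = 0 - z * y := congrArg Ray.e h
    have h4 : algebraMap C Ω k.β = 1 := by
      simp only [Iso.pz, e, Bool.false_eq_true, if_false] at h1
      exact mul_right_cancel₀ hz (by rw [h1, one_mul])
    rw [e2, h4] at h2
    have h5 := hg (MvPolynomial.C k.a - MvPolynomial.C k.b * MvPolynomial.X 0) (by
      simp only [ev, map_sub, map_mul, MvPolynomial.aeval_C, MvPolynomial.aeval_X,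
        Matrix.cons_val_zero]
      linear_combination h2)
    have h6 : k.b = 0 := by
      have h7 := congrArg (MvPolynomial.eval fun _ => (0 : C)) h5
      have h8 := congrArg (MvPolynomial.eval fun _ => (1 : C)) h5
      simp only [map_sub, map_mul, MvPolynomial.eval_C, MvPolynomial.eval_X, map_zero] at h7 h8
      linear_combination h7 - h8
    rw [h1] at h3
    simp only [Iso.py, e, Bool.false_eq_true, if_false, h4, h6, map_zero] at h3
    linear_combination h3
  · have e1 : k.pz z ^ 2 = algebraMap C Ω k.β ^ 2 * (z ^ 2)⁻¹ := by simp [Iso.pz, e, mul_pow]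
    have e2 : k.px x y - k.pz z ^ 2 * k.py x y = algebraMap C Ω k.a -
        algebraMap C Ω k.β * (x - z ^ 2 * y) * (z ^ 2)⁻¹ -
        algebraMap C Ω k.β ^ 2 * (z ^ 2)⁻¹ * algebraMap C Ω k.b := by
      simp only [Iso.px, Iso.py, Iso.pz, e, if_true]
      field_simp
      ring
    have h := hZ _ _ hg' hp (by
      change k.pz z ^ 2 ∈ K
      rw [e1]; exact mul_mem (pow_mem hb _) (inv_mem hs)) (by
      change k.px x y - k.pz z ^ 2 * k.py x y ∈ K
      rw [e2]
      exact sub_mem (sub_mem ha (mul_mem (mul_mem hb hc) (inv_mem hs)))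
        (mul_mem (mul_mem (pow_mem hb _) (inv_mem hs)) hb'))
    have h1 : k.pz z = z := congrArg Ray.z h
    simp only [Iso.pz, e, if_true] at h1
    have h5 := hg (MvPolynomial.X 0 - MvPolynomial.C k.β) (by
      simp only [ev, map_sub, MvPolynomial.aeval_C, MvPolynomial.aeval_X, Matrix.cons_val_zero]
      field_simp at h1
      linear_combination -h1)
    have h7 := congrArg (MvPolynomial.eval fun _ => (0 : C)) h5
    have h8 := congrArg (MvPolynomial.eval fun _ => (1 : C)) h5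
    simp only [map_sub, MvPolynomial.eval_C, MvPolynomial.eval_X, map_zero] at h7 h8
    exact absurd (show (1 : C) = 0 by linear_combination h8 - h7) one_ne_zero

end Conv

open Conv in
theorem conv (h1 : All B1) : CONV := by
  intro hZ C Ω _ _ _ _ _ _ d g m z l n P hd ht ha hm
  let z' : ℕ → Ω := fun i => if i ≤ n then z i else g.pz (z 0)
  have hz : ∀ i ≤ n, z' i = z i := fun i hi => if_pos hi
  have hr : ∀ i ≤ n, z i * z' (i + 1) = (m (i + 1)).w := by
    intro i hi
    rcases hi.lt_or_eq with h | rfl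
    · rw [hz (i + 1) h]; exact ht.ch.r i (by omega)
    · rw [show z' (i + 1) = g.pz (z 0) from if_neg (by omega)]; exact ht.hr
  have key : ∀ i ≤ n + 1, ∃ h : Iso C, Pth C (ray (m 0).x (m 0).y 0 (z 0))
      (ray (h.px (m i).x (m i).y) (h.py (m i).x (m i).y) (∑ k ∈ Finset.range i, l k)
        (h.pz (z' i))) := by
    intro i
    induction i with
    | zero =>
      intro _
      refine ⟨⟨false, 1, 0, 0, one_ne_zero⟩, ?_⟩
      simpa [Iso.px, Iso.py, Iso.pz, hz 0 (Nat.zero_le _)] using Pth.nil _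
    | succ i ih =>
      intro hi
      obtain ⟨h, hp⟩ := ih (by omega)
      have e := ray_edge ((ht.ch.e i (by omega)).act h) (∑ k ∈ Finset.range i, l k)
      rw [hz i (by omega)] at hp
      simp only [Pt.act_x, Pt.act_y] at e
      rw [e, ← Finset.sum_range_succ] at hp
      obtain ⟨r, hr'⟩ := refl (h1 C Ω) hd ((m (i + 1)).act h) (alg_act _ h (hm _ hi))
        (H9.sy_ok.iso C Ω h _ _ (ha.hp _ hi (hm _ hi))) (z' := h.pz (z' (i + 1)))
        (by rw [Iso.pz_mul, hr i (by omega), Pt.act_w]) hp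
      obtain ⟨k, k1, k2, k3⟩ := exists_comp (Ω := Ω) r h
      exact ⟨k, by rw [k1, k2, k3]; exact hr'⟩
  obtain ⟨h, hp⟩ := key (n + 1) le_rfl
  obtain ⟨k, k1, k2, k3⟩ := exists_comp (Ω := Ω) h g
  rw [show z' (n + 1) = g.pz (z 0) from if_neg (by omega), ht.hx, ht.hy, ← k1, ← k2, ← k3] at hp
  have e0 := ht.ch.e 0 (by omega)
  have h0 := fin (hZ C Ω) e0.z0 (gen_of_J e0.Jsc) k hp
  have hpos : ∀ i ≤ n, ∑ k ∈ Finset.range (i + 1), l k ∈ P := by
    intro i
    induction i with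
    | zero => intro _; simpa using ha.hl 0 (by omega)
    | succ i ih =>
      intro hi
      rw [Finset.sum_range_succ]
      exact ha.pos.add _ (ih (by omega)) _ (ha.hl _ (by omega))
  exact ha.pos.ne (h0 ▸ hpos n le_rfl)

end Pool.Agent.MP_249f74_an.H96A
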