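import Pool.Agent.MP_249f74_an.H96A.Spec

/-!
The inductive step for freeness.
-/

namespace Pool.Agent.MP_249f74_an.H96A

variable {C Ω : Type} [Field C] [Field Ω] [Algebra C Ω]

namespace Free

variable {m : ℤ → Mir C} {L : ℤ → Ω × Ω} {v : ℤ → Vx Ω} {a b : ℤ}

lemma mem_Hg {σ : Ω ≃ₐ[C] Ω} : σ ∈ Hg C L v a b ↔
    (∀ i, a ≤ i → i ≤ b → σ ∈ FL C (L i)) ∧ ∀ i, a ≤ i → i < b → σ (v i).y = (v i).y := by
  constructor
  · intro h
    refine ⟨fun i h1 h2 t ht => h t (.inl ⟨i, h1, h2, ht⟩), fun i h1 h2 => h _ (.inr ⟨i, h1, h2, rfl⟩)⟩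
  · rintro ⟨h, h'⟩ t (⟨i, h1, h2, ht⟩ | ⟨i, h1, h2, rfl⟩)
    exacts [h i h1 h2 t ht, h' i h1 h2]

lemma hg_eq (h2 : B2 C Ω) (hab : a < b) (hc : Chn m L v a b) :
    Hg C L v a b = Hg C L v (a + 1) b ⊓ Fx C {(v a).y} := by
  ext σ
  rw [Subgroup.mem_inf, mem_Hg, mem_Hg]
  constructor
  · rintro ⟨h, h'⟩
    refine ⟨⟨fun i h1 => h i (by omega), fun i h1 => h' i (by omega)⟩, ?_⟩
    rintro _ rfl
    exact h' a le_rfl hab
  · rintro ⟨⟨h, h'⟩, h0⟩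
    have h0 := h0 _ rfl
    refine ⟨fun i h1 h3 => ?_, fun i h1 h3 => ?_⟩
    · rcases h1.eq_or_lt with rfl | h1
      · exact (h2.fix _ _ _ _ σ (h2.symm _ _ _ _ (hc.st a le_rfl hab)) (h _ le_rfl hab) h0).2
      · exact h i h1 h3
    · rcases h1.eq_or_lt with rfl | h1
      exacts [h0, h' i h1 h3]

lemma mem_pts (h2 : B2 C Ω) {μ : Mir C} {l l' : Ω × Ω} {u : Vx Ω} (h : St μ l u l') :
    u.y ∈ Pts μ l' := by
  rw [h2.mem, ← h.i1]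
  exact h.on.f0

lemma full_of_drop {H : Subgroup (Ω ≃ₐ[C] Ω)} {P Q : Finset Ω} {y : Ω} (hy : y ∈ P)
    (hQ : Full H Q) (h : Full (H ⊓ Fx C P) Q) : Full (H ⊓ Fx C {y}) Q :=
  ⟨fun σ hσ => hQ.stb σ hσ.1, fun π => (h.all π).imp fun σ hσ =>
    ⟨⟨hσ.1.1, by rintro _ rfl; exact hσ.1.2 _ hy⟩, hσ.2⟩⟩

end Free

open Free in
theorem free (h2 : B2 C Ω) (hG : GRP C Ω) : FREE C Ω := by
  classical
  intro m L v a b hab hc hg hF hR hN
  have st := hc.st a le_rfl hab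
  have hy := mem_pts h2 st
  unfold FR FF NL at *
  rw [hg_eq h2 hab hc]
  rcases (show a + 1 ≤ b from hab).eq_or_lt with rfl | hlt
  · simp only [Fr, Fl, lt_irrefl, if_false, if_pos hab, add_sub_cancel_right, false_or] at *
    by_cases e : m a = m (a + 1)
    · exact hG.stab _ _ _ hR (e ▸ hy)
    · rw [Finset.erase_eq_of_notMem fun h => e (h2.dis _ _ _ _ (h2.gen _ _ _ _ st hg) hy h)]
      exact full_of_drop hy hR (hG.drop _ _ _ hF hR (hN e))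
  · simp only [Fr, Fl, if_pos hab, if_pos hlt, add_sub_cancel_right] at *
    refine full_of_drop (Finset.mem_erase.2 ⟨hc.nb a le_rfl hlt, hy⟩) hR
      (hG.drop _ _ _ hF hR fun h => ?_)
    obtain ⟨σ, h1, h3⟩ := hN (.inl hlt) h
    refine ⟨σ, h1, ?_⟩
    rwa [hG.erase σ _ _ ((mem_Hg.1 h1).2 _ le_rfl hlt),
      hG.erase σ _ _ ((mem_Hg.1 h1).2 _ (by omega) (by omega))]

end Pool.Agent.MP_249f74_an.H96A
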