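import Pool.Agent.MP_249f74_an.H96A.Spec

/-!
Geodesics in the graph of curves.
-/

open Polynomial

namespace Pool.Agent.MP_249f74_an.H96A

variable {C Ω : Type} [Field C] [Field Ω] [Algebra C Ω]

namespace Geo

theorem mp_symm (σ : Ω ≃ₐ[C] Ω) (l : Ω × Ω) : mp σ.symm (mp σ l) = l := by
  simp [mp]

theorem mp_symm' (σ : Ω ≃ₐ[C] Ω) (l : Ω × Ω) : mp σ (mp σ.symm l) = l := by
  simp [mp]

theorem cst_of_map (σ : Ω ≃ₐ[C] Ω) {a : Ω} (h : Cst C (σ a)) : Cst C a := by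
  obtain ⟨k, hk⟩ := h
  exact ⟨k, σ.injective (by rw [hk, σ.commutes])⟩

theorem cur_mp (h3 : B3 C Ω) (σ : Ω ≃ₐ[C] Ω) {l : Ω × Ω} (h : Cur C l) : Cur C (mp σ l) := by
  refine ⟨fun hg => h.ng fun F hF => hg F ?_, fun hc => h.nc ⟨cst_of_map σ hc.1, cst_of_map σ hc.2⟩,
    fun h0 => h.s0 (σ.injective (by rw [map_zero]; exact h0))⟩
  rw [h3.evmap, hF, map_zero]

/-- Invariant sets of curves with finitely many orbits. -/
structure Good (C : Type) [Field C] [Algebra C Ω] (S : Set (Ω × Ω)) : Prop where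
  cur : ∀ l ∈ S, Cur C l
  inv : ∀ (σ : Ω ≃ₐ[C] Ω), ∀ l ∈ S, mp σ l ∈ S
  fin : ∃ T : Set (Ω × Ω), T.Finite ∧ T ⊆ S ∧ ∀ l ∈ S, ∃ t ∈ T, ∃ σ : Ω ≃ₐ[C] Ω, mp σ t = l

theorem good_zero (h3 : B3 C Ω) {F : P2 C} (hF : F ≠ 0) :
    Good C {l : Ω × Ω | Cur C l ∧ ev l F = 0} := by
  classical
  refine ⟨fun l hl => hl.1, fun σ l hl => ⟨cur_mp h3 σ hl.1, by rw [h3.evmap, hl.2, map_zero]⟩, ?_⟩
  let κ : Ω × Ω → Set (P2 C) := fun l => {G | ev l G = 0}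
  have hfin : (κ '' {l : Ω × Ω | Cur C l ∧ ev l F = 0}).Finite := by
    refine ((UniqueFactorizationMonoid.factors F).toFinset.finite_toSet.image
      fun π => {G | π ∣ G}).subset ?_
    rintro _ ⟨l, hl, rfl⟩
    obtain ⟨π, hπ, hk⟩ := h3.curve l hl.1.ng hl.1.nc
    obtain ⟨q, hq, hq'⟩ := UniqueFactorizationMonoid.exists_mem_factors_of_dvd hF hπ.irreducible
      ((hk F).mp hl.2)
    refine ⟨q, by simpa using hq, ?_⟩
    ext G
    change q ∣ G ↔ ev l G = 0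
    rw [hk, hq'.dvd_iff_dvd_left]
  obtain ⟨T, hT, hTf, hTe⟩ := (Set.exists_subset_image_finite_and
    (p := fun t => t = κ '' {l : Ω × Ω | Cur C l ∧ ev l F = 0})).mp ⟨_, subset_rfl, hfin, rfl⟩
  refine ⟨T, hTf, hT, fun l hl => ?_⟩
  obtain ⟨t, ht, hte⟩ : κ l ∈ κ '' T := hTe ▸ ⟨l, hl, rfl⟩
  exact ⟨t, ht, h3.conj t l fun G => Set.ext_iff.mp hte G⟩

theorem Good.eq (h3 : B3 C Ω) {S : Set (Ω × Ω)} (h : Good C S) :
    ∃ G : P2 C, G ≠ 0 ∧ ∀ l, l ∈ S ↔ Cur C l ∧ ev l G = 0 := by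
  classical
  obtain ⟨T, hTf, hT, hS⟩ := h.fin
  have h1 : ∀ t : Ω × Ω, ∃ π : P2 C, Prime π ∧ (Cur C t → ∀ F, ev t F = 0 ↔ π ∣ F) := by
    intro t
    by_cases ht : Cur C t
    · obtain ⟨π, hπ, hk⟩ := h3.curve t ht.ng ht.nc
      exact ⟨π, hπ, fun _ => hk⟩
    · exact ⟨MvPolynomial.X 0, MvPolynomial.X_prime, fun h' => absurd h' ht⟩
  choose π hπ hk using h1
  refine ⟨∏ t ∈ hTf.toFinset, π t, Finset.prod_ne_zero_iff.mpr fun t _ => (hπ t).ne_zero,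
    fun l => ⟨fun hl => ⟨h.cur l hl, ?_⟩, fun hl => ?_⟩⟩
  · obtain ⟨t, ht, σ, rfl⟩ := hS l hl
    rw [h3.evmap, (hk t (h.cur t (hT ht)) _).mpr
      (Finset.dvd_prod_of_mem _ (hTf.mem_toFinset.mpr ht)), map_zero]
  · obtain ⟨hl, h0⟩ := hl
    rw [map_prod, Finset.prod_eq_zero_iff] at h0
    obtain ⟨t, ht, h0⟩ := h0
    have ht' := hT (hTf.mem_toFinset.mp ht)
    have h2 : Associated (π l) (π t) :=
      (hπ l).associated_of_dvd (hπ t) ((hk l hl _).mp h0)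
    obtain ⟨σ, rfl⟩ := h3.conj t l fun G => by
      rw [hk t (h.cur t ht'), hk l hl, h2.dvd_iff_dvd_left]
    exact h.inv σ t ht'

theorem finite_nb (h2 : B2 C Ω) (m : Mir C) (t : Ω × Ω) : {l | ∃ v, St m t v l}.Finite := by
  have h1 : ∀ y : Ω, {l | ∃ v, St m t v l ∧ v.y = y}.Finite := by
    intro y
    refine Set.Subsingleton.finite ?_
    rintro l ⟨v, hv, hy⟩ l' ⟨v', hv', hy'⟩
    exact (h2.det m t l l' v v' hv hv' (hy.trans hy'.symm)).2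
  refine ((Pts m t).finite_toSet.biUnion fun y _ => h1 y).subset ?_
  rintro l ⟨v, hv⟩
  refine Set.mem_biUnion (x := v.y) ?_ ⟨v, hv, rfl⟩
  refine (h2.mem m t v.y).mpr ?_
  rw [← show v.x = t.2 + t.1 * v.y from hv.i0]
  exact hv.on.f0

/-- The set together with its neighbours. -/
def nb (m : Mir C) (S : Set (Ω × Ω)) : Set (Ω × Ω) := S ∪ {l' | ∃ l ∈ S, ∃ v, St m l v l'}

theorem Good.nb (h2 : B2 C Ω) (m : Mir C) {S : Set (Ω × Ω)} (h : Good C S) :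
    Good C (nb m S) := by
  obtain ⟨T, hTf, hT, hS⟩ := h.fin
  refine ⟨?_, ?_, T ∪ ⋃ t ∈ T, {l | ∃ v, St m t v l},
    hTf.union (hTf.biUnion fun t _ => finite_nb h2 m t), ?_, ?_⟩
  · rintro l' (hl | ⟨l, hl, v, hv⟩)
    · exact h.cur _ hl
    · exact h2.cur m l l' v hv (h.cur l hl)
  · rintro σ l' (hl | ⟨l, hl, v, hv⟩)
    · exact Or.inl (h.inv σ _ hl)
    · exact Or.inr ⟨_, h.inv σ l hl, _, h2.map m l l' v σ hv⟩
  · rintro l (hl | hl)
    · exact Or.inl (hT hl)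
    · obtain ⟨t, ht, v, hv⟩ := Set.mem_iUnion₂.mp hl
      exact Or.inr ⟨t, hT ht, v, hv⟩
  · rintro l' (hl | ⟨l, hl, v, hv⟩)
    · obtain ⟨t, ht, σ, hσ⟩ := hS _ hl
      exact ⟨t, Or.inl ht, σ, hσ⟩
    · obtain ⟨t, ht, σ, rfl⟩ := hS _ hl
      have h4 := h2.map m _ l' v σ.symm hv
      rw [mp_symm] at h4
      exact ⟨mp σ.symm l', Or.inr (Set.mem_biUnion ht ⟨_, h4⟩), σ, mp_symm' σ l'⟩

theorem not_cst_of_gen {l : Ω × Ω} (h : Gen C l) : ¬Cst C l.1 := by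
  rintro ⟨k, hk⟩
  have h1 := h (MvPolynomial.X 0 - MvPolynomial.C k) (by simp [ev, hk])
  have h2 := congrArg (MvPolynomial.eval fun _ => k + 1) h1
  simp at h2

theorem not_cst_of_st (h1 : B1 C Ω) {m : Mir C} {l l' : Ω × Ω} {v : Vx Ω} (h : St m l v l') :
    ¬(Cst C l.1 ∧ Cst C l.2) := by
  rintro ⟨⟨a, ha⟩, ⟨b, hb⟩⟩
  obtain ⟨Z, hy, hx, -⟩ := h1.der m v h.on
  have h2 : v.x = l.2 + l.1 * v.y := h.i0
  apply h.nt
  rw [← hx, h2, ha, hb]
  simp [hy, Algebra.algebraMap_eq_smul_one]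

theorem nb_not_subset (h1 : B1 C Ω) (h2 : B2 C Ω) (h3 : B3 C Ω) (hI : INV C Ω) {m : Mir C}
    {l0 k : Ω × Ω} (hl0 : Gen C l0) (hm : ¬m.Con) {S : Set (Ω × Ω)} (h : Good C S) (hk : k ∈ S) :
    ¬nb m S ⊆ S := by
  intro hs
  obtain ⟨G, hG, hS⟩ := h.eq h3
  obtain ⟨x, w, hv⟩ := h1.ex m l0.1 (not_cst_of_gen hl0)
  refine hm (hI m _ G k l0 hl0 hv hG (h.cur k hk) ((hS k).mp hk).2 fun l l' hst hl => ?_)
  have hc : Cur C l := ⟨fun hg => hG (hg G hl), not_cst_of_st h1 hst, h2.s0 m l l' _ hst⟩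
  exact ((hS l').mp (hs (Or.inr ⟨l, (hS l).mpr ⟨hc, hl⟩, _, hst⟩))).2

/-- The balls around a set. -/
def ball (m : Mir C) (S : Set (Ω × Ω)) : ℕ → Set (Ω × Ω)
  | 0 => S
  | j + 1 => nb m (ball m S j)

theorem ball_mono (m : Mir C) (S : Set (Ω × Ω)) : Monotone (ball m S) :=
  monotone_nat_of_le_succ fun _ => Set.subset_union_left

theorem good_ball (h2 : B2 C Ω) (m : Mir C) {S : Set (Ω × Ω)} (h : Good C S) (j : ℕ) :
    Good C (ball m S j) := by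
  induction j with
  | zero => exact h
  | succ j ih => exact ih.nb h2 m

theorem path (m : Mir C) (S : Set (Ω × Ω)) (j : ℕ) : ∀ l ∈ ball m S j,
    (∀ i < j, l ∉ ball m S i) → ∃ (K : ℕ → Ω × Ω) (u : ℕ → Vx Ω), K j = l ∧
      (∀ i ≤ j, K i ∈ ball m S i ∧ ∀ i' < i, K i ∉ ball m S i') ∧
      ∀ i < j, St m (K i) (u i) (K (i + 1)) := by
  induction j with
  | zero =>
    intro l hl _
    refine ⟨fun _ => l, fun _ => ⟨0, 0, 0⟩, rfl, fun i hi => ?_, fun i hi => absurd hi (by omega)⟩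
    obtain rfl : i = 0 := by omega
    exact ⟨hl, fun i' hi' => absurd hi' (by omega)⟩
  | succ j ih =>
    intro l' hl hn
    rcases id hl with h0 | ⟨l, h0, v, hv⟩
    · exact absurd h0 (hn j (by omega))
    obtain ⟨K, u, hK, hB, hst⟩ := ih l h0 fun i hi hb =>
      hn (i + 1) (by omega) (Or.inr ⟨l, hb, v, hv⟩)
    refine ⟨Function.update K (j + 1) l', Function.update u j v, Function.update_self .., ?_, ?_⟩
    · intro i hi
      rcases Nat.lt_or_ge i (j + 1) with h1 | h1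
      · rw [Function.update_of_ne h1.ne]
        exact hB i (by omega)
      · obtain rfl : i = j + 1 := by omega
        rw [Function.update_self]
        exact ⟨hl, hn⟩
    · intro i hi
      rcases Nat.lt_or_ge i j with h1 | h1
      · rw [Function.update_of_ne hi.ne, Function.update_of_ne h1.ne,
          Function.update_of_ne (by omega)]
        exact hst i h1
      · obtain rfl : i = j := by omega
        rw [Function.update_of_ne hi.ne, Function.update_self, Function.update_self, hK]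
        exact hv

end Geo

theorem geo (h1 : B1 C Ω) (h2 : B2 C Ω) (h3 : B3 C Ω) (hI : INV C Ω) : GEO C Ω := by
  intro m n F k l0 hl0 hm hn hF hk hkF
  obtain ⟨j, rfl⟩ := Nat.exists_eq_add_one_of_ne_zero hn.ne'
  have hg := Geo.good_zero h3 hF
  set S : Set (Ω × Ω) := {l : Ω × Ω | Cur C l ∧ ev l F = 0} with hS
  have hkS : k ∈ Geo.ball m S j := Geo.ball_mono m S (Nat.zero_le j) ⟨hk, hkF⟩
  obtain ⟨l, hl, hl'⟩ := Set.not_subset.mp
    (Geo.nb_not_subset h1 h2 h3 hI hl0 hm (Geo.good_ball h2 m hg j) hkS)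
  obtain ⟨K, u, hK, hB, hst⟩ := Geo.path m S (j + 1) l hl fun i hi hb =>
    hl' (Geo.ball_mono m S (by omega) hb)
  have h0 : K 0 ∈ S := (hB 0 (by omega)).1
  refine ⟨fun i => K i.toNat, fun i => u i.toNat, ⟨fun i hi hi' => ?_, fun i hi hi' hy => ?_⟩,
    h0.1, h0.2, fun hz => ?_⟩
  · obtain ⟨i, rfl⟩ := Int.eq_ofNat_of_zero_le hi
    exact hst i (by omega)
  · obtain ⟨i, rfl⟩ := Int.eq_ofNat_of_zero_le hi
    have h4 := hst i (by omega)
    have h5 := hst (i + 1) (by omega)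
    have h6 := (h2.det m _ _ _ _ _ (h2.symm m _ _ _ h4) h5 hy).2
    exact (hB (i + 1 + 1) (by omega)).2 i (by omega) (h6 ▸ (hB i (by omega)).1)
  · have h4 := hB (j + 1) le_rfl
    exact h4.2 0 (by omega) ⟨(Geo.good_ball h2 m hg (j + 1)).cur _ h4.1, hz⟩

end Pool.Agent.MP_249f74_an.H96A
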