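import Pool.Agent.MP_249f74_an.H96A.Spec
import Pool.Agent.MP_249f74_an.H53.CC

/-!
Only conics have an invariant curve of lines.
-/

open Polynomial

namespace Pool.Agent.MP_249f74_an.H96A

open H88 (cl)
open H53 (Con)

namespace Inv0

variable {C Ω : Type} [Field C] [Field Ω] [Algebra C Ω]

lemma free {l : Ω × Ω} (h : Gen C l) (y : Ω) : ∃ z, z ∉ cl C {y} := by
  by_contra hn
  push Not at hn
  have h1 : AlgebraicIndependent C ![l.1, l.2] := algebraicIndependent_iff.2 h
  have h2 := (H88.le_rk_iff ![l.1, l.2] 2).2 ⟨Finset.univ, rfl, h1.comp _ Subtype.val_injective⟩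
  have h3 := H88.rk_le_card (k := C) fun _ : Unit => y
  rw [Set.range_const] at h3
  exact absurd (h2.trans ((H88.rk_le fun z _ => hn z).trans h3)) (by simp)

/-- The function of lines in the variables `c`, `z`. -/
noncomputable def up : P2 C →ₐ[C] C[X][X] := MvPolynomial.aeval ![X ^ 2, Polynomial.C X]

lemma ev_up (c z : Ω) (F : P2 C) : aevalAeval c z (up F) = ev (z ^ 2, c) F := by
  induction F using MvPolynomial.induction_on with
  | C a => simp [ev, up]
  | add p q hp hq => simp only [map_add, hp, hq]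
  | mul_X p i hp =>
    simp only [map_mul, hp]
    fin_cases i <;> simp [ev, up]

lemma up_ne [IsAlgClosed C] {F : P2 C} (h : F ≠ 0) : up F ≠ 0 := fun e => by
  refine h (MvPolynomial.funext fun a => ?_)
  obtain ⟨z, hz⟩ := IsAlgClosed.exists_pow_nat_eq (a 0) two_pos
  have h1 := ev_up (a 1) z F
  have h2 : ![a 0, a 1] = a := by
    funext i
    fin_cases i <;> rfl
  rw [e, map_zero, hz, ev, h2] at h1
  rw [map_zero, ← MvPolynomial.aeval_eq_eval]
  exact h1.symm

lemma deg [CharZero C] {f : P2 C} {x y : Ω} (hk : ∀ F : P2 C, ev (x, y) F = 0 → f ∣ F)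
    (h : Con C x y) : f.totalDegree ≤ 2 := by
  obtain ⟨a, b, c, e, f', g, h0, h⟩ := h
  let G : P2 C := MvPolynomial.C a * MvPolynomial.X 0 ^ 2 +
    MvPolynomial.C b * (MvPolynomial.X 0 * MvPolynomial.X 1) +
    MvPolynomial.C c * MvPolynomial.X 1 ^ 2 + MvPolynomial.C e * MvPolynomial.X 0 +
    MvPolynomial.C f' * MvPolynomial.X 1 + MvPolynomial.C g
  have G0 : G ≠ 0 := fun hG => by
    have k : ∀ s t : C, a * s ^ 2 + b * (s * t) + c * t ^ 2 + e * s + f' * t + g = 0 := fun s t => by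
      simpa [G] using congrArg (MvPolynomial.eval ![s, t]) hG
    refine h0 ⟨?_, ?_, ?_, ?_, ?_, ?_⟩
    · linear_combination (k 1 0 + k (-1) 0) / 2 - k 0 0
    · linear_combination k 1 1 - k 1 0 - k 0 1 + k 0 0
    · linear_combination (k 0 1 + k 0 (-1)) / 2 - k 0 0
    · linear_combination (k 1 0 - k (-1) 0) / 2
    · linear_combination (k 0 1 - k 0 (-1)) / 2
    · linear_combination k 0 0
  refine (MvPolynomial.totalDegree_le_of_dvd_of_isDomain (hk G (by simpa [G, ev] using h)) G0).trans ?_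
  have m : ∀ (k : C) (p : P2 C), p.totalDegree ≤ 2 → (MvPolynomial.C k * p).totalDegree ≤ 2 :=
    fun k p hp => (MvPolynomial.totalDegree_mul _ _).trans (by simpa using hp)
  have s : ∀ p q : P2 C, p.totalDegree ≤ 2 → q.totalDegree ≤ 2 → (p + q).totalDegree ≤ 2 :=
    fun p q hp hq => (MvPolynomial.totalDegree_add _ _).trans (max_le hp hq)
  refine s _ _ (s _ _ (s _ _ (s _ _ (s _ _ (m _ _ ?_) (m _ _ ?_)) (m _ _ ?_)) (m _ _ ?_))
    (m _ _ ?_)) (by simp)
  · simp [MvPolynomial.totalDegree_X_pow]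
  · exact (MvPolynomial.totalDegree_mul _ _).trans (by simp)
  · simp [MvPolynomial.totalDegree_X_pow]
  · simp
  · simp

end Inv0

open Inv0

variable {C Ω : Type} [Field C] [IsAlgClosed C] [Field Ω] [CharZero Ω] [IsAlgClosed Ω] [Algebra C Ω]

theorem inv (h1 : B1 C Ω) : INV C Ω := by
  intro m v F k l0 h0 hv F0 hk hF h
  have : CharZero C := (algebraMap C Ω).charZero
  obtain ⟨Z, hy, hx, -⟩ := h1.der m v hv
  obtain ⟨z, hz⟩ := free h0 v.y
  rcases H53.ccInv C Ω Z v.x v.y v.w z (up F) hy hx (h1.alg m v hv).1 (h1.w0 m v hv) hz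
    (h1.nc m v hv) (up_ne F0) (fun s _ s0 s1 s2 => by
      rw [ev_up] at s2 ⊢
      refine h _ _ ⟨hv, by simp [Inc], by simp [Inc], ?_, s1⟩ s2
      field_simp) with hc | ⟨a, n, e⟩
  · exact le_antisymm (deg (fun G hG => (h1.ker m v hv G).1 hG) hc) m.deg
  · obtain ⟨t, ht⟩ := IsAlgClosed.exists_pow_nat_eq k.1 two_pos
    have e1 := ev_up k.2 t F
    have t0 : t ≠ 0 := fun e => hk.s0 (by rw [← ht, e]; simp)
    rw [ht, show ev (k.1, k.2) F = 0 from hF, e] at e1
    refine absurd ?_ (up_ne F0)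
    have a0 : a = 0 := by simpa [t0] using e1
    simp [e, a0]

end Pool.Agent.MP_249f74_an.H96A
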