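import Pool.Agent.MP_249f74_an.H96A.Spec

/-!
Normal form of a path of reflections.
-/

namespace Pool.Agent.MP_249f74_an.H96A

variable {C Ω : Type} [Field C] [Field Ω] [Algebra C Ω]

namespace NormP

theorem conf_symm {m m' : Mir C} (h : Conf m m') : Conf m' m := by
  obtain ⟨h1, h2, k, ν, hk, h⟩ := h
  refine ⟨h2, h1, k⁻¹, -(k⁻¹ * ν), inv_ne_zero hk, ?_⟩
  have e : (MvPolynomial.C k⁻¹ : P2 C) * MvPolynomial.C k = 1 := by
    rw [← map_mul, inv_mul_cancel₀ hk, map_one]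
  rw [h, map_neg, map_mul]
  linear_combination (-dq m.f) * e

theorem conf_trans {m m' m'' : Mir C} (h : Conf m m') (h' : Conf m' m'') : Conf m m'' := by
  obtain ⟨h1, -, k, ν, hk, h⟩ := h
  obtain ⟨-, h2, k', ν', hk', h'⟩ := h'
  refine ⟨h1, h2, k' * k, k' * ν + ν', mul_ne_zero hk' hk, ?_⟩
  rw [h', h, map_add, map_mul, map_mul]
  ring

/-- Paths of length `n` from `ρ` to `ρ'`. -/
structure Pa (ρ ρ' : Ray Ω) (n : ℕ) (m : ℕ → Mir C) (R : ℕ → Ray Ω) (v : ℕ → Vx Ω) : Prop where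
  st : ∀ i, i < n → Rf (m i) (R i) (v i) (R (i + 1))
  r0 : R 0 = ρ
  rn : R n = ρ'

theorem exists_pa {ρ ρ' : Ray Ω} (h : Pth C ρ ρ') :
    ρ' = ρ ∨ ∃ (n : ℕ) (m : ℕ → Mir C) (R : ℕ → Ray Ω) (v : ℕ → Vx Ω), Pa ρ ρ' n m R v := by
  induction h with
  | nil => exact Or.inl rfl
  | @snoc ρ1 ρ2 m0 v0 _ hr ih =>
    right
    rcases ih with rfl | ⟨n, m, R, v, hp⟩
    · refine ⟨1, fun _ => m0, fun i => if i = 0 then ρ1 else ρ2, fun _ => v0, ?_, ?_, ?_⟩
      · intro i hi
        obtain rfl : i = 0 := by omega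
        simpa using hr
      · simp
      · simp
    · refine ⟨n + 1, fun i => if i < n then m i else m0, fun i => if i ≤ n then R i else ρ2,
        fun i => if i < n then v i else v0, ?_, ?_, ?_⟩
      · intro i hi
        by_cases h1 : i < n
        · simp only [if_pos h1, if_pos h1.le, if_pos (Nat.succ_le_of_lt h1)]
          exact hp.st i h1
        · obtain rfl : i = n := by omega
          simp only [lt_irrefl, if_false, le_refl, if_true, Nat.add_one_le_iff]
          rw [hp.rn]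
          exact hr
      · simp [hp.r0]
      · simp

theorem back (h1 : B1 C Ω) {m m' : Mir C} {ρ0 ρ1 ρ2 : Ray Ω} {v v' : Vx Ω} (a : Rf m ρ0 v ρ1)
    (b : Rf m' ρ1 v' ρ2) (hy : v.y = v'.y) : ρ2 = ρ0 := by
  have hx : v.x = v'.x := by
    have e1 := a.i1
    have e2 := b.i0
    unfold Inc at e1 e2
    rw [e1, e2, hy]
  obtain ⟨-, rfl⟩ := h1.uniq m m' v v' a.on b.on (by simp [Vx.p, hx, hy])
  have hz1 : ρ1.z ≠ 0 := fun h0 => h1.w0 m v a.on (by rw [← a.rf, h0, mul_zero])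
  have hz : ρ2.z = ρ0.z := mul_left_cancel₀ hz1 (by rw [b.rf, ← a.rf, mul_comm])
  have e1 := a.i0
  have e2 := b.i1
  have t1 := a.tm
  have t2 := b.tm
  simp only [Inc, Ray.ln] at e1 e2
  rw [hz] at e2 t2
  ext
  · exact hz
  · linear_combination e1 - e2
  · linear_combination -t1 - t2

theorem shorten {ρ ρ' : Ray Ω} {n : ℕ} {m : ℕ → Mir C} {R : ℕ → Ray Ω} {v : ℕ → Vx Ω}
    (hp : Pa ρ ρ' n m R v) {i : ℕ} (hi : i + 1 < n) (he : R (i + 2) = R i) :
    Pa ρ ρ' (n - 2) (fun j => if j < i then m j else m (j + 2))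
      (fun j => if j < i then R j else R (j + 2)) (fun j => if j < i then v j else v (j + 2)) := by
  refine ⟨fun j hj => ?_, ?_, ?_⟩
  · by_cases h1 : j < i
    · simp only [if_pos h1]
      by_cases h2 : j + 1 < i
      · rw [if_pos h2]
        exact hp.st j (by omega)
      · obtain rfl : i = j + 1 := by omega
        rw [if_neg h2, he]
        exact hp.st j (by omega)
    · simp only [if_neg h1, if_neg (show ¬ j + 1 < i by omega)]
      exact hp.st (j + 2) (by omega)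
  · by_cases h1 : 0 < i
    · simp only [if_pos h1]
      exact hp.r0
    · obtain rfl : i = 0 := by omega
      simp only [lt_irrefl, if_false]
      rw [he]
      exact hp.r0
  · simp only [if_neg (show ¬ n - 2 < i by omega)]
    rw [show n - 2 + 2 = n by omega]
    exact hp.rn

theorem gen (h2 : B2 C Ω) {ρ ρ' : Ray Ω} {n : ℕ} {m : ℕ → Mir C} {R : ℕ → Ray Ω} {v : ℕ → Vx Ω}
    (hp : Pa ρ ρ' n m R v) (hg : Gen C ρ.ln) : ∀ i, i ≤ n → Gen C (R i).ln := by
  intro i
  induction i with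
  | zero => intro _; rw [hp.r0]; exact hg
  | succ i ih =>
    intro hi
    have g := ih (by omega)
    exact h2.gen _ _ _ _ (h2.rf _ _ _ _ (hp.st i (by omega)) g) g

theorem exchange {ρ ρ' : Ray Ω} {n : ℕ} {m : ℕ → Mir C} {R : ℕ → Ray Ω} {v : ℕ → Vx Ω}
    (hp : Pa ρ ρ' n m R v) {i : ℕ} (hi : i + 1 < n) {u u' : Vx Ω} {τ : Ray Ω}
    (a : Rf (m (i + 1)) (R i) u τ) (b : Rf (m i) τ u' (R (i + 2))) :
    Pa ρ ρ' n (fun j => if j = i then m (i + 1) else if j = i + 1 then m i else m j)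
      (fun j => if j = i + 1 then τ else R j)
      (fun j => if j = i then u else if j = i + 1 then u' else v j) := by
  refine ⟨fun j hj => ?_, ?_, ?_⟩
  · by_cases h1 : j = i
    · subst h1
      simpa using a
    · by_cases h2 : j = i + 1
      · subst h2
        simpa using b
      · simp only [if_neg h1, if_neg h2, if_neg (show ¬ j + 1 = i + 1 by omega)]
        exact hp.st j hj
  · simp [hp.r0]
  · simp only [if_neg (show ¬ n = i + 1 by omega)]
    exact hp.rn

/-- The potential that is decreased by sorting. -/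
def pot (r : Mir C → ℕ) (n : ℕ) (m : ℕ → Mir C) : ℕ := ∑ j ∈ Finset.range n, (n - j) * r (m j)

theorem pot_lt (r : Mir C → ℕ) {n i : ℕ} (hi : i + 1 < n) (m : ℕ → Mir C)
    (h : r (m (i + 1)) < r (m i)) :
    pot r n (fun j => if j = i then m (i + 1) else if j = i + 1 then m i else m j) < pot r n m := by
  have k1 : i ∈ Finset.range n := Finset.mem_range.2 (by omega)
  have k2 : i + 1 ∈ (Finset.range n).erase i :=
    Finset.mem_erase.2 ⟨by omega, Finset.mem_range.2 hi⟩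
  unfold pot
  rw [← Finset.add_sum_erase _ _ k1, ← Finset.add_sum_erase _ _ k2,
    ← Finset.add_sum_erase _ (fun j => (n - j) * r (m j)) k1,
    ← Finset.add_sum_erase _ (fun j => (n - j) * r (m j)) k2]
  have e : ∑ j ∈ ((Finset.range n).erase i).erase (i + 1), (n - j) *
      r (if j = i then m (i + 1) else if j = i + 1 then m i else m j) =
      ∑ j ∈ ((Finset.range n).erase i).erase (i + 1), (n - j) * r (m j) := by
    refine Finset.sum_congr rfl fun j hj => ?_
    rw [Finset.mem_erase, Finset.mem_erase] at hj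
    rw [if_neg hj.2.1, if_neg hj.1]
  rw [e]
  simp only [if_true, if_neg (show ¬ i + 1 = i by omega)]
  obtain ⟨d, hd⟩ : ∃ d, n - (i + 1) = d := ⟨_, rfl⟩
  rw [show n - i = d + 1 by omega, hd]
  nlinarith

theorem sorted (h2 : B2 C Ω) (hs : SWAP C Ω) {ρ ρ' : Ray Ω} (hg : Gen C ρ.ln) {n : ℕ}
    {m0 : ℕ → Mir C} {R0 : ℕ → Ray Ω} {v0 : ℕ → Vx Ω} (hp0 : Pa ρ ρ' n m0 R0 v0) :
    ∃ (m : ℕ → Mir C) (R : ℕ → Ray Ω) (v : ℕ → Vx Ω), Pa ρ ρ' n m R v ∧
      ∀ i k j, i < k → k < j → j < n → m i = m j →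
        (∀ t, i ≤ t → t ≤ j → Conf (m i) (m t)) → m k = m i := by
  classical
  obtain ⟨r, hr⟩ := Set.countable_iff_exists_injOn.1 (Set.countable_range m0)
  have ex : ∃ N, ∃ (m : ℕ → Mir C) (R : ℕ → Ray Ω) (v : ℕ → Vx Ω), Pa ρ ρ' n m R v ∧
      (∀ j, m j ∈ Set.range m0) ∧ pot r n m = N :=
    ⟨_, m0, R0, v0, hp0, fun j => ⟨j, rfl⟩, rfl⟩
  obtain ⟨m, R, v, hp, hm, hN⟩ := Nat.find_spec ex
  have key : ∀ i, i + 1 < n → Conf (m i) (m (i + 1)) → r (m i) ≤ r (m (i + 1)) := by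
    intro i hi hc
    by_contra hlt
    have hlt : r (m (i + 1)) < r (m i) := not_le.1 hlt
    have hne : m i ≠ m (i + 1) := fun e => by rw [e] at hlt; exact lt_irrefl _ hlt
    obtain ⟨u, τ, u', a, b⟩ := hs _ _ _ _ _ _ _ hc hne (gen h2 hp hg i (by omega))
      (hp.st i (by omega)) (hp.st (i + 1) hi)
    refine Nat.find_min ex (hN ▸ pot_lt r hi m hlt) ⟨_, _, _, exchange hp hi a b, fun j => ?_, rfl⟩
    split_ifs <;> exact hm _
  refine ⟨m, R, v, hp, fun i k j hik hkj hj he hc => ?_⟩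
  have mono : ∀ s t, i ≤ s → s ≤ t → t ≤ j → r (m s) ≤ r (m t) := by
    intro s t hs hst
    induction t, hst using Nat.le_induction with
    | base => intro _; exact le_rfl
    | succ t hst ih =>
      intro ht
      exact (ih (by omega)).trans (key t (by omega)
        (conf_trans (conf_symm (hc t (by omega) (by omega))) (hc (t + 1) (by omega) ht)))
  refine hr (hm k) (hm i) (le_antisymm ?_ (mono i k le_rfl hik.le hkj.le))
  rw [he]
  exact mono k j hik.le hkj.le le_rfl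

end NormP

open NormP in
theorem norm (h1 : B1 C Ω) (h2 : B2 C Ω) (hs : SWAP C Ω) : NORM C Ω := by
  classical
  intro ρ ρ' hg hP
  rcases exists_pa hP with h | ex
  · exact Or.inl h
  obtain ⟨m0, R0, v0, hp0⟩ := Nat.find_spec ex
  obtain ⟨m, R, v, hp, hred⟩ := sorted h2 hs hg hp0
  obtain ⟨n, hn⟩ : ∃ n, Nat.find ex = n := ⟨_, rfl⟩
  have hmin : ∀ k, k < n → ¬∃ (m : ℕ → Mir C) (R : ℕ → Ray Ω) (v : ℕ → Vx Ω), Pa ρ ρ' k m R v :=
    fun k hk => Nat.find_min ex (hn ▸ hk)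
  rw [hn] at hp hred
  rcases Nat.eq_zero_or_pos n with rfl | hpos
  · exact Or.inl (hp.rn.symm.trans hp.r0)
  right
  refine ⟨fun i => m i.toNat, fun i => (R i.toNat).ln, fun i => v i.toNat, n, by omega,
    ⟨fun i h0 hi => ?_, fun i h0 hi hy => ?_⟩, fun i k j h0 hik hkj hj he hc => ?_, ?_, ?_⟩
  · rw [show (i + 1).toNat = i.toNat + 1 by omega]
    exact h2.rf _ _ _ _ (hp.st _ (by omega)) (gen h2 hp hg _ (by omega))
  · rw [show (i + 1).toNat = i.toNat + 1 by omega] at hy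
    have hi' : i.toNat + 1 < n := by omega
    exact hmin (n - 2) (by omega) ⟨_, _, _, shorten hp hi'
      (back h1 (hp.st _ (by omega)) (hp.st _ hi') hy)⟩
  · refine hred i.toNat k.toNat j.toNat (by omega) (by omega) (by omega) he fun t a b => ?_
    simpa using hc t (by omega) (by omega)
  · simp [hp.r0]
  · simp [hp.rn]

end Pool.Agent.MP_249f74_an.H96A
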