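import Pool.Agent.MP_249f74_an.H96A.Spec

/-!
Parametrization of conics.
-/

open Polynomial

namespace Pool.Agent.MP_249f74_an.H96A

namespace Param

variable {C Ω : Type} [Field C] [Field Ω] [Algebra C Ω]

variable (Ω) in
/-- The properties of a parametrization. -/
def Concl (m : Mir C) : Prop :=
  ∃ (w : Fin 4 → C) (k : C) (τ : P2 C), Wok w ∧ k ≠ 0 ∧
    (∀ t : Ω, ¬Cst C t → ∃ v : Vx Ω, m.On v ∧ ev v.p τ = t) ∧
    (∀ v : Vx Ω, m.On v → ¬Cst C (ev v.p τ) ∧ Wf w (ev v.p τ) (ev v.p τ) ≠ 0 ∧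
      v.x ∈ IntermediateField.adjoin C {ev v.p τ} ∧ v.y ∈ IntermediateField.adjoin C {ev v.p τ}) ∧
    (∀ v v' : Vx Ω, m.On v → m.On v' → ev v.p τ = ev v'.p τ → v = v') ∧
    (∀ v v' : Vx Ω, m.On v → m.On v' → v ≠ v' → Wf w (ev v.p τ) (ev v'.p τ) ≠ 0 →
      v.x ≠ v'.x ∧ v.y ≠ v'.y) ∧
    (∀ (v v' : Vx Ω) (l : Ω × Ω), m.On v → m.On v' → v ≠ v' → Inc v l → Inc v' l →
      ev l (dq m.f) * Wf w (ev v.p τ) (ev v'.p τ) =
        algebraMap C Ω k * l.1 * (ev v.p τ - ev v'.p τ) ^ 2) ∧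
    ∀ (v v' v'' : Vx Ω) (l l' : Ω × Ω) (Λ : Ω), m.On v → m.On v' → m.On v'' → v ≠ v' → v' ≠ v'' →
      Inc v l → Inc v' l → Inc v' l' → Inc v'' l' → Qr w Λ (ev v.p τ) (ev v'.p τ) (ev v''.p τ) →
      l.1 * l'.1 = v'.w ^ 2

theorem idx_eq {i j i' j' : ℕ} :
    (Finsupp.single (0 : Fin 2) i + Finsupp.single 1 j =
      Finsupp.single (0 : Fin 2) i' + Finsupp.single 1 j') ↔ i = i' ∧ j = j' := by
  constructor
  · intro h
    have h0 := congrArg (fun s : Fin 2 →₀ ℕ => s 0) h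
    have h1 := congrArg (fun s : Fin 2 →₀ ℕ => s 1) h
    simp at h0 h1
    exact ⟨h0, h1⟩
  · rintro ⟨rfl, rfl⟩; rfl

theorem mon_eq (k : C) (i j : ℕ) :
    (MvPolynomial.C k * MvPolynomial.X 0 ^ i * MvPolynomial.X 1 ^ j : P2 C) =
      MvPolynomial.monomial (Finsupp.single 0 i + Finsupp.single 1 j) k := by
  rw [MvPolynomial.X_pow_eq_monomial, MvPolynomial.X_pow_eq_monomial, MvPolynomial.C_mul_monomial,
    MvPolynomial.monomial_mul]
  simp

open MvPolynomial in
theorem expand (f : P2 C) (hf : f.totalDegree ≤ 2) :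
    f = MvPolynomial.C (cf f 2 0) * X 0 ^ 2 + MvPolynomial.C (cf f 1 1) * X 0 * X 1 +
      MvPolynomial.C (cf f 0 2) * X 1 ^ 2 + MvPolynomial.C (cf f 1 0) * X 0 +
      MvPolynomial.C (cf f 0 1) * X 1 + MvPolynomial.C (cf f 0 0) := by
  have e : MvPolynomial.C (cf f 2 0) * X 0 ^ 2 + MvPolynomial.C (cf f 1 1) * X 0 * X 1 +
      MvPolynomial.C (cf f 0 2) * X 1 ^ 2 + MvPolynomial.C (cf f 1 0) * X 0 +
      MvPolynomial.C (cf f 0 1) * X 1 + MvPolynomial.C (cf f 0 0) =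
      (MvPolynomial.C (cf f 2 0) * X 0 ^ 2 * X 1 ^ 0 + MvPolynomial.C (cf f 1 1) * X 0 ^ 1 * X 1 ^ 1 +
      MvPolynomial.C (cf f 0 2) * X 0 ^ 0 * X 1 ^ 2 + MvPolynomial.C (cf f 1 0) * X 0 ^ 1 * X 1 ^ 0 +
      MvPolynomial.C (cf f 0 1) * X 0 ^ 0 * X 1 ^ 1 +
      MvPolynomial.C (cf f 0 0) * X 0 ^ 0 * X 1 ^ 0 : P2 C) := by ring
  rw [e]
  simp only [mon_eq]
  ext s
  obtain ⟨i, j, rfl⟩ : ∃ i j, s = Finsupp.single 0 i + Finsupp.single 1 j :=
    ⟨s 0, s 1, by ext k; fin_cases k <;> simp⟩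
  simp only [MvPolynomial.coeff_add, MvPolynomial.coeff_monomial, idx_eq]
  change cf f i j = _
  by_cases h : i + j ≤ 2
  · have hi : i ≤ 2 := by omega
    have hj : j ≤ 2 := by omega
    interval_cases i <;> interval_cases j <;> simp at h ⊢
  · have h0 : cf f i j = 0 := by
      unfold cf
      by_contra hne
      have := MvPolynomial.le_totalDegree (MvPolynomial.mem_support_iff.2 hne)
      rw [Finsupp.sum_add_index' (fun _ => rfl) (fun _ _ _ => rfl), Finsupp.sum_single_index rfl,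
        Finsupp.sum_single_index rfl] at this
      omega
    rw [h0, if_neg (by omega), if_neg (by omega), if_neg (by omega), if_neg (by omega),
      if_neg (by omega), if_neg (by omega)]
    simp

theorem cst_of_mem {t y : Ω} (ht : Cst C t) (hy : y ∈ IntermediateField.adjoin C {t}) :
    Cst C y := by
  obtain ⟨k, rfl⟩ := ht
  have : IntermediateField.adjoin C {algebraMap C Ω k} ≤ ⊥ := by
    rw [IntermediateField.adjoin_le_iff]
    rintro _ rfl
    exact IntermediateField.algebraMap_mem _ k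
  obtain ⟨k', hk'⟩ := IntermediateField.mem_bot.1 (this hy)
  exact ⟨k', hk'.symm⟩

theorem lin_ne {t : Ω} (ht : ¬Cst C t) {α : C} (γ : C) (hα : α ≠ 0) :
    algebraMap C Ω α * t + algebraMap C Ω γ ≠ 0 := by
  intro h
  have h0 : algebraMap C Ω α ≠ 0 := by simpa using hα
  refine ht ⟨-γ / α, ?_⟩
  rw [map_div₀, map_neg, eq_div_iff h0]
  linear_combination h

theorem quad_ne [IsAlgClosed C] {t : Ω} (ht : ¬Cst C t) {α : C} (γ : C) (hα : α ≠ 0) :
    algebraMap C Ω α * t * t + algebraMap C Ω γ ≠ 0 := by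
  intro h
  have h0 : algebraMap C Ω α ≠ 0 := by simpa using hα
  obtain ⟨r, hr⟩ := IsAlgClosed.exists_eq_mul_self (-γ / α)
  have h1 : algebraMap C Ω γ = -(algebraMap C Ω α * (algebraMap C Ω r * algebraMap C Ω r)) := by
    rw [← map_mul, ← hr, map_div₀, map_neg]; field_simp
  have h2 : (t - algebraMap C Ω r) * (t + algebraMap C Ω r) = 0 := by
    apply mul_left_cancel₀ h0
    linear_combination h - h1
  rcases mul_eq_zero.1 h2 with h3 | h3
  · exact ht ⟨r, by linear_combination h3⟩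
  · exact ht ⟨-r, by rw [map_neg]; linear_combination h3⟩

theorem ne_zero_of {t : Ω} (ht : ¬Cst C t) : t ≠ 0 := fun h => ht ⟨0, by rw [h, map_zero]⟩

theorem core (h1 : B1 C Ω) (m : Mir C) (a b c d e g : Ω)
    (hf : ∀ p : Ω × Ω, ev p m.f = a * p.1 ^ 2 + b * p.1 * p.2 + c * p.2 ^ 2 + d * p.1 + e * p.2 + g)
    (hx : ∀ p : Ω × Ω, ev p (MvPolynomial.pderiv 0 m.f) = 2 * a * p.1 + b * p.2 + d)
    (hy : ∀ p : Ω × Ω, ev p (MvPolynomial.pderiv 1 m.f) = b * p.1 + 2 * c * p.2 + e)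
    (hq : ∀ l : Ω × Ω, ev l (dq m.f) = (b ^ 2 - 4 * a * c) * l.2 ^ 2 +
      (4 * a * e - 2 * b * d) * (l.1 * l.2) + (2 * b * e - 4 * c * d) * l.2 +
      (d ^ 2 - 4 * a * g) * l.1 ^ 2 + (2 * d * e - 4 * b * g) * l.1 + (e ^ 2 - 4 * c * g))
    (w : Fin 4 → C) (κ : C) (τ : P2 C) (hw : Wok w) (hκ : κ ≠ 0)
    (px py n1 n0 m1 m0 : Ω → Ω) (D : Ω → Ω → Ω)
    (H1 : ∀ t, ¬Cst C t → a * px t ^ 2 + b * px t * py t + c * py t ^ 2 + d * px t + e * py t + g = 0
      ∧ ev (px t, py t) τ = t)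
    (H2 : ∀ x y, a * x ^ 2 + b * x * y + c * y ^ 2 + d * x + e * y + g = 0 →
      x = px (ev (x, y) τ) ∧ y = py (ev (x, y) τ))
    (H3 : ∀ t, px t ∈ IntermediateField.adjoin C {t} ∧ py t ∈ IntermediateField.adjoin C {t})
    (H3' : ∀ x y : Ω, Cst C x → Cst C y → Cst C (ev (x, y) τ))
    (H4 : ∀ t t', ¬Cst C t → ¬Cst C t' → D t t' ≠ 0 ∧
      D t t' * (px t - px t') = (t - t') * (n1 t' * t + n0 t') ∧
      D t t' * (py t - py t') = (t - t') * (m1 t' * t + m0 t') ∧
      a * (n1 t' * t + n0 t') ^ 2 + b * (n1 t' * t + n0 t') * (m1 t' * t + m0 t') +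
        c * (m1 t' * t + m0 t') ^ 2 = algebraMap C Ω κ * D t t')
    (H5 : ∀ t, algebraMap C Ω (w 0) * t ^ 2 + algebraMap C Ω (w 2) = n1 t * m1 t ∧
      (algebraMap C Ω (w 1) + 2 * algebraMap C Ω (w 2)) * t = n1 t * m0 t + n0 t * m1 t ∧
      algebraMap C Ω (w 2) * t ^ 2 + algebraMap C Ω (w 3) = n0 t * m0 t)
    (H6 : ∀ t, ¬Cst C t → n1 t * t + n0 t ≠ 0 ∧ m1 t * t + m0 t ≠ 0 ∧
      (2 * a * px t + b * py t + d) * (n1 t * t + n0 t) +
        (b * px t + 2 * c * py t + e) * (m1 t * t + m0 t) = 0) : Concl Ω m := by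
  have hW : ∀ t t', Wf w t t' = (n1 t' * t + n0 t') * (m1 t' * t + m0 t') := by
    intro t t'
    obtain ⟨e1, e2, e3⟩ := H5 t'
    unfold Wf
    linear_combination t ^ 2 * e1 + t * e2 + e3
  have on0 : ∀ v : Vx Ω, m.On v →
      a * v.x ^ 2 + b * v.x * v.y + c * v.y ^ 2 + d * v.x + e * v.y + g = 0 := fun v hv =>
    (hf v.p).symm.trans hv.f0
  have pp : ∀ v : Vx Ω, m.On v → v.x = px (ev v.p τ) ∧ v.y = py (ev v.p τ) := fun v hv =>
    H2 _ _ (on0 v hv)
  have nc : ∀ v : Vx Ω, m.On v → ¬Cst C (ev v.p τ) := fun v hv hc =>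
    hv.ny (cst_of_mem hc ((pp v hv).2 ▸ (H3 _).2))
  have inj : ∀ v v' : Vx Ω, m.On v → m.On v' → ev v.p τ = ev v'.p τ → v = v' := by
    intro v v' hv hv' ht
    refine (h1.uniq m m v v' hv hv' (Prod.ext ?_ ?_)).2
    · exact ((pp v hv).1.trans (by rw [ht])).trans (pp v' hv').1.symm
    · exact ((pp v hv).2.trans (by rw [ht])).trans (pp v' hv').2.symm
  have dd : ∀ v v' : Vx Ω, m.On v → m.On v' → D (ev v.p τ) (ev v'.p τ) ≠ 0 ∧
      D (ev v.p τ) (ev v'.p τ) * (v.x - v'.x) = (ev v.p τ - ev v'.p τ) *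
        (n1 (ev v'.p τ) * ev v.p τ + n0 (ev v'.p τ)) ∧
      D (ev v.p τ) (ev v'.p τ) * (v.y - v'.y) = (ev v.p τ - ev v'.p τ) *
        (m1 (ev v'.p τ) * ev v.p τ + m0 (ev v'.p τ)) := by
    intro v v' hv hv'
    obtain ⟨e1, e2, e3, -⟩ := H4 _ _ (nc v hv) (nc v' hv')
    rw [← (pp v hv).1, ← (pp v' hv').1] at e2
    rw [← (pp v hv).2, ← (pp v' hv').2] at e3
    exact ⟨e1, e2, e3⟩
  have slope : ∀ (v v' : Vx Ω) (l : Ω × Ω), m.On v → m.On v' → v ≠ v' → Inc v l → Inc v' l →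
      v.y - v'.y ≠ 0 ∧ n1 (ev v'.p τ) * ev v.p τ + n0 (ev v'.p τ) =
        l.1 * (m1 (ev v'.p τ) * ev v.p τ + m0 (ev v'.p τ)) := by
    intro v v' l hv hv' hne i1 i2
    unfold Inc at i1 i2
    obtain ⟨-, e2, e3⟩ := dd v v' hv hv'
    have ht : ev v.p τ - ev v'.p τ ≠ 0 := fun h => hne (inj v v' hv hv' (sub_eq_zero.1 h))
    refine ⟨fun h => hne (h1.uniq m m v v' hv hv' (Prod.ext ?_ (sub_eq_zero.1 h))).2, ?_⟩
    · change v.x = v'.x
      rw [i1, i2, sub_eq_zero.1 h]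
    · apply mul_left_cancel₀ ht
      linear_combination l.1 * e3 - e2 + D (ev v.p τ) (ev v'.p τ) * (i1 - i2)
  refine ⟨w, κ ^ 2, τ, hw, pow_ne_zero _ hκ, ?_, ?_, inj, ?_, ?_, ?_⟩
  · intro t ht
    obtain ⟨e1, e2⟩ := H1 t ht
    obtain ⟨s, hs⟩ := h1.pt m (px t) (py t) ((hf _).trans e1) (fun h => ht (e2 ▸ H3' _ _ h.1 h.2))
    exact ⟨_, hs, e2⟩
  · intro v hv
    obtain ⟨e1, e2, -⟩ := H6 _ (nc v hv)
    refine ⟨nc v hv, by rw [hW]; exact mul_ne_zero e1 e2, ?_, ?_⟩
    · have := (H3 (ev v.p τ)).1; rwa [← (pp v hv).1] at this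
    · have := (H3 (ev v.p τ)).2; rwa [← (pp v hv).2] at this
  · intro v v' hv hv' hne hW0
    rw [hW] at hW0
    obtain ⟨-, e2, e3⟩ := dd v v' hv hv'
    have ht : ev v.p τ - ev v'.p τ ≠ 0 := fun h => hne (inj v v' hv hv' (sub_eq_zero.1 h))
    refine ⟨fun h => ?_, fun h => ?_⟩
    · rw [h, sub_self, mul_zero] at e2
      exact mul_ne_zero ht (left_ne_zero_of_mul hW0) e2.symm
    · rw [h, sub_self, mul_zero] at e3
      exact mul_ne_zero ht (right_ne_zero_of_mul hW0) e3.symm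
  · intro v v' l hv hv' hne i1 i2
    obtain ⟨hy0, hs⟩ := slope v v' l hv hv' hne i1 i2
    obtain ⟨e1, -, e3⟩ := dd v v' hv hv'
    obtain ⟨-, -, -, e4⟩ := H4 _ _ (nc v hv) (nc v' hv')
    have f1 := on0 v hv
    have f2 := on0 v' hv'
    unfold Inc at i1 i2
    rw [i1] at f1
    rw [i2] at f2
    have hB : (a * l.1 ^ 2 + b * l.1 + c) * (v.y + v'.y) +
        (2 * a * l.1 * l.2 + b * l.2 + d * l.1 + e) = 0 := by
      apply mul_left_cancel₀ hy0
      linear_combination f1 - f2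
    have hd : ev l (dq m.f) = ((a * l.1 ^ 2 + b * l.1 + c) * (v.y - v'.y)) ^ 2 := by
      rw [hq]
      linear_combination (-4 * (a * l.1 ^ 2 + b * l.1 + c)) * f1 +
        ((a * l.1 ^ 2 + b * l.1 + c) * (3 * v.y - v'.y) +
          (2 * a * l.1 * l.2 + b * l.2 + d * l.1 + e)) * hB
    rw [hd, hW, map_pow, hs]
    rw [hs] at e4
    generalize m1 (ev v'.p τ) * ev v.p τ + m0 (ev v'.p τ) = M at e3 e4
    generalize D (ev v.p τ) (ev v'.p τ) = E at e1 e3 e4
    generalize ev v.p τ - ev v'.p τ = T at e3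
    generalize v.y - v'.y = Y at e3
    apply mul_left_cancel₀ (pow_ne_zero 2 e1)
    linear_combination ((a * l.1 ^ 2 + b * l.1 + c) ^ 2 * l.1 * M ^ 2 * (E * Y + T * M)) * e3 +
      (l.1 * T ^ 2 * ((a * l.1 ^ 2 + b * l.1 + c) * M ^ 2 + algebraMap C Ω κ * E)) * e4
  · intro v v' v'' l l' Λ hv hv' hv'' n1' n2' i1 i2 i3 i4 hQ
    obtain ⟨-, s1⟩ := slope v v' l hv hv' n1' i1 i2
    obtain ⟨-, s2⟩ := slope v'' v' l' hv'' hv' n2'.symm i4 i3
    obtain ⟨-, e2, e3⟩ := H6 _ (nc v' hv')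
    rw [← (pp v' hv').1, ← (pp v' hv').2] at e3
    have sl := hv'.sl
    have fx := h1.fx m v' hv'
    rw [hx] at fx
    rw [hx, hy] at sl
    simp only [Vx.p] at fx sl
    have s0 : n1 (ev v'.p τ) * ev v'.p τ + n0 (ev v'.p τ) =
        v'.w * (m1 (ev v'.p τ) * ev v'.p τ + m0 (ev v'.p τ)) := by
      apply mul_left_cancel₀ fx
      linear_combination e3 - (m1 (ev v'.p τ) * ev v'.p τ + m0 (ev v'.p τ)) * sl
    obtain ⟨r, -, s⟩ := hQ
    rw [hW] at r
    obtain ⟨k1, k2, -⟩ := H5 (ev v'.p τ)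
    rw [k1] at s
    have s' : (1 - Λ * (n1 (ev v'.p τ) * m1 (ev v'.p τ))) * (ev v.p τ + ev v''.p τ) =
        2 * ev v'.p τ + Λ * (n1 (ev v'.p τ) * m0 (ev v'.p τ) + n0 (ev v'.p τ) * m1 (ev v'.p τ)) := by
      linear_combination s + Λ * k2
    clear s k1 k2 e3
    generalize n1 (ev v'.p τ) = N1 at *
    generalize n0 (ev v'.p τ) = N0 at *
    generalize m1 (ev v'.p τ) = M1 at *
    generalize m0 (ev v'.p τ) = M0 at *
    generalize ev v.p τ = t at r s' s1
    generalize ev v''.p τ = t'' at s' s2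
    generalize ev v'.p τ = t' at r s' s0 e2
    have pr : (1 - Λ * (N1 * M1)) * (t * t'') = t' ^ 2 - Λ * (N0 * M0) := by
      linear_combination t * s' - r
    have qN : (1 - Λ * (N1 * M1)) * ((N1 * t + N0) * (N1 * t'' + N0)) = (N1 * t' + N0) ^ 2 := by
      linear_combination N1 ^ 2 * pr + N1 * N0 * s'
    have qM : (1 - Λ * (N1 * M1)) * ((M1 * t + M0) * (M1 * t'' + M0)) = (M1 * t' + M0) ^ 2 := by
      linear_combination M1 ^ 2 * pr + M1 * M0 * s'
    rw [s1, s2, s0] at qN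
    apply mul_left_cancel₀ (pow_ne_zero 2 e2)
    linear_combination qN - l.1 * l'.1 * qM

/-- The shape of the equation of a conic. -/
def Eqn (m : Mir C) (a b c d e g : C) : Prop :=
  cf m.f 2 0 = a ∧ cf m.f 1 1 = b ∧ cf m.f 0 2 = c ∧ cf m.f 1 0 = d ∧ cf m.f 0 1 = e ∧
    cf m.f 0 0 = g

open MvPolynomial in
theorem Eqn.eq {m : Mir C} (hm : m.Con) {a b c d e g : C} (h : Eqn m a b c d e g) :
    m.f = MvPolynomial.C a * X 0 ^ 2 + MvPolynomial.C b * X 0 * X 1 +
      MvPolynomial.C c * X 1 ^ 2 + MvPolynomial.C d * X 0 +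
      MvPolynomial.C e * X 1 + MvPolynomial.C g := by
  obtain ⟨rfl, rfl, rfl, rfl, rfl, rfl⟩ := h
  exact expand m.f (le_of_eq hm)

theorem Eqn.f {m : Mir C} (hm : m.Con) {a b c d e g : C} (h : Eqn m a b c d e g) (p : Ω × Ω) :
    ev p m.f = algebraMap C Ω a * p.1 ^ 2 + algebraMap C Ω b * p.1 * p.2 +
      algebraMap C Ω c * p.2 ^ 2 + algebraMap C Ω d * p.1 + algebraMap C Ω e * p.2 +
      algebraMap C Ω g := by
  rw [h.eq hm]; simp [ev]

theorem Eqn.fx {m : Mir C} (hm : m.Con) {a b c d e g : C} (h : Eqn m a b c d e g) (p : Ω × Ω) :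
    ev p (MvPolynomial.pderiv 0 m.f) =
      2 * algebraMap C Ω a * p.1 + algebraMap C Ω b * p.2 + algebraMap C Ω d := by
  rw [h.eq hm]; simp [ev, MvPolynomial.pderiv_X]; ring

theorem Eqn.fy {m : Mir C} (hm : m.Con) {a b c d e g : C} (h : Eqn m a b c d e g) (p : Ω × Ω) :
    ev p (MvPolynomial.pderiv 1 m.f) =
      algebraMap C Ω b * p.1 + 2 * algebraMap C Ω c * p.2 + algebraMap C Ω e := by
  rw [h.eq hm]; simp [ev, MvPolynomial.pderiv_X]; ring

theorem Eqn.q {m : Mir C} {a b c d e g : C} (h : Eqn m a b c d e g) (l : Ω × Ω) :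
    ev l (dq m.f) = (algebraMap C Ω b ^ 2 - 4 * algebraMap C Ω a * algebraMap C Ω c) * l.2 ^ 2 +
      (4 * algebraMap C Ω a * algebraMap C Ω e - 2 * algebraMap C Ω b * algebraMap C Ω d) *
        (l.1 * l.2) +
      (2 * algebraMap C Ω b * algebraMap C Ω e - 4 * algebraMap C Ω c * algebraMap C Ω d) * l.2 +
      (algebraMap C Ω d ^ 2 - 4 * algebraMap C Ω a * algebraMap C Ω g) * l.1 ^ 2 +
      (2 * algebraMap C Ω d * algebraMap C Ω e - 4 * algebraMap C Ω b * algebraMap C Ω g) * l.1 +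
      (algebraMap C Ω e ^ 2 - 4 * algebraMap C Ω c * algebraMap C Ω g) := by
  obtain ⟨rfl, rfl, rfl, rfl, rfl, rfl⟩ := h
  simp [ev, dq, map_ofNat]

theorem not_split (m : Mir C) {L L' : P2 C} (h : m.f = L * L') {p q : Fin 2 → C}
    (hp : MvPolynomial.eval p L = 0) (hq : MvPolynomial.eval q L' = 0) : False := by
  rcases m.irr.isUnit_or_isUnit h with u | u
  · exact (u.map (MvPolynomial.eval p)).ne_zero hp
  · exact (u.map (MvPolynomial.eval q)).ne_zero hq

theorem cst_lin (α β γ : C) {x y : Ω} (hx : Cst C x) (hy : Cst C y) :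
    Cst C (algebraMap C Ω α * x + algebraMap C Ω β * y + algebraMap C Ω γ) := by
  obtain ⟨k, rfl⟩ := hx
  obtain ⟨k', rfl⟩ := hy
  exact ⟨α * k + β * k' + γ, by simp⟩

/-- A linear form. -/
noncomputable def lf (α β γ : C) : P2 C :=
  MvPolynomial.C α * MvPolynomial.X 0 + MvPolynomial.C β * MvPolynomial.X 1 + MvPolynomial.C γ

theorem ev_lf (α β γ : C) (x y : Ω) : ev (x, y) (lf α β γ) =
    algebraMap C Ω α * x + algebraMap C Ω β * y + algebraMap C Ω γ := by
  simp [ev, lf]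

theorem circle (h1 : B1 C Ω) (m : Mir C) (hm : m.Con) (b x0 y0 ρ : C) (hb : b ≠ 0)
    (h : Eqn m 0 b 0 (-(b * y0)) (-(b * x0)) (b * (x0 * y0 - ρ))) : Concl Ω m := by
  have hρ : ρ ≠ 0 := by
    rintro rfl
    refine not_split m (L := lf b 0 (-(b * x0))) (L' := lf 0 1 (-y0)) ?_ (p := ![x0, 0])
      (q := ![0, y0]) (by simp [lf]) (by simp [lf])
    rw [h.eq hm]; simp only [lf, map_neg, map_mul, map_sub, map_zero, map_one]; ring
  have b0 : algebraMap C Ω b ≠ 0 := by simpa using hb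
  have r0 : algebraMap C Ω ρ ≠ 0 := by simpa using hρ
  refine core h1 m _ _ _ _ _ _ (h.f hm) (h.fx hm) (h.fy hm) h.q ![0, -ρ, 0, 0] (-(b * ρ))
    (lf 0 1 (-y0)) (Or.inr (Or.inl (by simp [hρ]))) (by simp [hb, hρ])
    (fun t => algebraMap C Ω x0 + algebraMap C Ω ρ / t) (fun t => algebraMap C Ω y0 + t)
    (fun _ => 0) (fun _ => -algebraMap C Ω ρ) (fun t => t) (fun _ => 0) (fun t t' => t * t')
    ?_ ?_ ?_ ?_ ?_ ?_ ?_
  · intro t ht
    have := ne_zero_of ht
    rw [ev_lf]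
    simp only [map_neg, map_mul, map_sub, map_zero, map_one]
    constructor
    · field_simp; ring
    · ring
  · intro x y hxy
    rw [ev_lf]
    simp only [map_neg, map_mul, map_sub, map_zero, map_one] at hxy ⊢
    have e1 : (x - algebraMap C Ω x0) * (0 * x + 1 * y + -algebraMap C Ω y0) =
        algebraMap C Ω ρ := by
      apply mul_left_cancel₀ b0
      linear_combination hxy
    have e2 : 0 * x + 1 * y + -algebraMap C Ω y0 ≠ 0 := fun e => r0 (by rw [← e1, e, mul_zero])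
    constructor
    · rw [← e1, mul_div_assoc, div_self e2]; ring
    · ring
  · intro t
    have ht := IntermediateField.mem_adjoin_simple_self C t
    exact ⟨add_mem (IntermediateField.algebraMap_mem _ _)
      (div_mem (IntermediateField.algebraMap_mem _ _) ht),
      add_mem (IntermediateField.algebraMap_mem _ _) ht⟩
  · intro x y hx hy
    rw [ev_lf]; exact cst_lin _ _ _ hx hy
  · intro t t' ht ht'
    have := ne_zero_of ht
    have := ne_zero_of ht'
    simp only [map_neg, map_mul, map_zero]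
    refine ⟨mul_ne_zero ‹_› ‹_›, ?_, ?_, ?_⟩
    · field_simp; ring
    · ring
    · ring
  · intro t
    simp
  · intro t ht
    have := ne_zero_of ht
    simp only [map_neg, map_mul, map_zero]
    refine ⟨by simpa using hρ, by simpa using this, ?_⟩
    field_simp; ring

theorem central [IsAlgClosed C] (h1 : B1 C Ω) (m : Mir C) (hm : m.Con) (a l n u v ρ : C)
    (ha : a ≠ 0) (hl : l ≠ 0) (hn : n ≠ 0) (hln : n - l ≠ 0)
    (h : Eqn m a (-(a * (l + n))) (a * l * n) (-(a * (u + v))) (a * (u * n + v * l))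
      (a * (u * v - ρ))) : Concl Ω m := by
  have hρ : ρ ≠ 0 := by
    rintro rfl
    refine not_split m (L := lf a (-(a * l)) (-(a * u))) (L' := lf 1 (-n) (-v)) ?_ (p := ![u, 0])
      (q := ![v, 0]) (by simp [lf]) (by simp [lf])
    rw [h.eq hm]; simp only [lf, map_neg, map_mul, map_sub, map_add, map_zero, map_one]; ring
  have a0 : algebraMap C Ω a ≠ 0 := by simpa using ha
  have r0 : algebraMap C Ω ρ ≠ 0 := by simpa using hρ
  have d0 : algebraMap C Ω n - algebraMap C Ω l ≠ 0 := by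
    rw [← map_sub]; exact (_root_.map_ne_zero _).2 hln
  refine core h1 m _ _ _ _ _ _ (h.f hm) (h.fx hm) (h.fy hm) h.q ![n, n * ρ + l * ρ, 0, l * ρ ^ 2]
    (-(a * (n - l) * ρ)) (lf 1 (-l) (-u)) (Or.inl ?_) (by simp [ha, hρ, hln])
    (fun t => (algebraMap C Ω n * (t + algebraMap C Ω u) -
      algebraMap C Ω l * (algebraMap C Ω ρ / t + algebraMap C Ω v)) /
        (algebraMap C Ω n - algebraMap C Ω l))
    (fun t => ((t + algebraMap C Ω u) - (algebraMap C Ω ρ / t + algebraMap C Ω v)) /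
        (algebraMap C Ω n - algebraMap C Ω l))
    (fun t => algebraMap C Ω n * t) (fun _ => algebraMap C Ω l * algebraMap C Ω ρ)
    (fun t => t) (fun _ => algebraMap C Ω ρ)
    (fun t t' => (algebraMap C Ω n - algebraMap C Ω l) * (t * t'))
    ?_ ?_ ?_ ?_ ?_ ?_ ?_
  · refine ⟨hn, mul_ne_zero hl (pow_ne_zero 2 hρ), rfl, fun e => ?_⟩
    have e' : (n * ρ + l * ρ) ^ 2 = 4 * n * (l * ρ ^ 2) := e
    exact pow_ne_zero 2 (mul_ne_zero hln hρ) (by linear_combination e')
  · intro t ht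
    have := ne_zero_of ht
    rw [ev_lf]
    simp only [map_neg, map_mul, map_sub, map_add, map_one]
    constructor
    · field_simp; ring
    · field_simp; ring
  · intro x y hxy
    rw [ev_lf]
    simp only [map_neg, map_mul, map_sub, map_add, map_one] at hxy ⊢
    have e1 : (x - algebraMap C Ω n * y - algebraMap C Ω v) *
        (1 * x + -algebraMap C Ω l * y + -algebraMap C Ω u) = algebraMap C Ω ρ := by
      apply mul_left_cancel₀ a0
      linear_combination hxy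
    have e2 : 1 * x + -algebraMap C Ω l * y + -algebraMap C Ω u ≠ 0 :=
      fun e => r0 (by rw [← e1, e, mul_zero])
    rw [← e1, mul_div_assoc, div_self e2, eq_div_iff d0, eq_div_iff d0]
    constructor <;> ring
  · intro t
    have ht := IntermediateField.mem_adjoin_simple_self C t
    have hc := fun k : C => IntermediateField.algebraMap_mem (IntermediateField.adjoin C {t}) k
    exact ⟨div_mem (sub_mem (mul_mem (hc _) (add_mem ht (hc _)))
      (mul_mem (hc _) (add_mem (div_mem (hc _) ht) (hc _)))) (sub_mem (hc _) (hc _)),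
      div_mem (sub_mem (add_mem ht (hc _)) (add_mem (div_mem (hc _) ht) (hc _)))
        (sub_mem (hc _) (hc _))⟩
  · intro x y hx hy
    rw [ev_lf]; exact cst_lin _ _ _ hx hy
  · intro t t' ht ht'
    have := ne_zero_of ht
    have := ne_zero_of ht'
    simp only [map_neg, map_mul, map_sub, map_add]
    refine ⟨mul_ne_zero d0 (mul_ne_zero ‹_› ‹_›), ?_, ?_, ?_⟩
    · field_simp; ring
    · field_simp; ring
    · ring
  · intro t
    simp only [Matrix.cons_val_zero, Matrix.cons_val_one, Matrix.cons_val, map_add, map_mul,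
      map_pow, map_zero]
    refine ⟨?_, ?_, ?_⟩ <;> ring
  · intro t ht
    have := ne_zero_of ht
    have q1 := quad_ne ht (l * ρ) hn
    have q2 := quad_ne ht ρ (one_ne_zero (α := C))
    simp only [map_neg, map_mul, map_add, map_one, one_mul] at q1 q2 ⊢
    refine ⟨q1, q2, ?_⟩
    field_simp; ring

theorem parabola [IsAlgClosed C] [CharZero Ω] (h1 : B1 C Ω) (m : Mir C) (hm : m.Con)
    (a l η δ g : C) (ha : a ≠ 0) (hl : l ≠ 0)
    (h : Eqn m a (-(2 * a * l)) (a * l ^ 2) (2 * a * δ - η) (-(l * η) - 2 * a * l * δ) g) :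
    Concl Ω m := by
  have : CharZero C := (algebraMap C Ω).charZero
  have hη : η ≠ 0 := by
    rintro rfl
    obtain ⟨r, hr⟩ := IsAlgClosed.exists_eq_mul_self (δ ^ 2 - g / a)
    have hg : g = a * (δ ^ 2 - r * r) := by rw [← hr]; field_simp; ring
    refine not_split m (L := lf a (-(a * l)) (a * (δ - r))) (L' := lf 1 (-l) (δ + r)) ?_
      (p := ![r - δ, 0]) (q := ![-(δ + r), 0]) (by simp [lf]; ring) (by simp [lf])
    rw [h.eq hm, hg]
    simp only [lf, map_neg, map_mul, map_sub, map_add, map_zero, map_one, map_pow, map_ofNat]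
    ring
  have a0 : algebraMap C Ω a ≠ 0 := by simpa using ha
  have l0 : algebraMap C Ω l ≠ 0 := by simpa using hl
  have r0 : algebraMap C Ω η ≠ 0 := by simpa using hη
  refine core h1 m _ _ _ _ _ _ (h.f hm) (h.fx hm) (h.fy hm) h.q ![0, 0, l * a ^ 2, -(l * η ^ 2)]
    (2 * a * l * η) (lf 1 (-l) δ) (Or.inr (Or.inr ?_)) (by simp [ha, hη, hl])
    (fun t => t - algebraMap C Ω δ + algebraMap C Ω l * ((algebraMap C Ω a * t ^ 2 -
      algebraMap C Ω η * t + algebraMap C Ω (g + η * δ - a * δ ^ 2)) /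
        algebraMap C Ω (2 * l * η)))
    (fun t => (algebraMap C Ω a * t ^ 2 -
      algebraMap C Ω η * t + algebraMap C Ω (g + η * δ - a * δ ^ 2)) /
        algebraMap C Ω (2 * l * η))
    (fun _ => algebraMap C Ω l * algebraMap C Ω a)
    (fun t => algebraMap C Ω l * (algebraMap C Ω a * t + algebraMap C Ω η))
    (fun _ => algebraMap C Ω a) (fun t => algebraMap C Ω a * t - algebraMap C Ω η)
    (fun _ _ => 2 * algebraMap C Ω l * algebraMap C Ω η)
    ?_ ?_ ?_ ?_ ?_ ?_ ?_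
  · exact ⟨rfl, rfl, mul_ne_zero hl (pow_ne_zero 2 ha),
      neg_ne_zero.2 (mul_ne_zero hl (pow_ne_zero 2 hη))⟩
  · intro t _
    rw [ev_lf]
    simp only [map_neg, map_mul, map_sub, map_add, map_one, map_pow, map_ofNat]
    constructor
    · field_simp; ring
    · ring
  · intro x y hxy
    rw [ev_lf]
    simp only [map_neg, map_mul, map_sub, map_add, map_one, map_pow, map_ofNat] at hxy ⊢
    have e1 : (algebraMap C Ω a * (1 * x + -algebraMap C Ω l * y + algebraMap C Ω δ) ^ 2 -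
        algebraMap C Ω η * (1 * x + -algebraMap C Ω l * y + algebraMap C Ω δ) +
        (algebraMap C Ω g + algebraMap C Ω η * algebraMap C Ω δ -
          algebraMap C Ω a * algebraMap C Ω δ ^ 2)) /
        (2 * algebraMap C Ω l * algebraMap C Ω η) = y := by
      rw [div_eq_iff (mul_ne_zero (mul_ne_zero two_ne_zero l0) r0)]
      linear_combination hxy
    rw [e1]
    constructor <;> ring
  · intro t
    have ht := IntermediateField.mem_adjoin_simple_self C t
    have hc := fun k : C => IntermediateField.algebraMap_mem (IntermediateField.adjoin C {t}) k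
    have hy := div_mem (add_mem (sub_mem (mul_mem (hc a) (pow_mem ht 2)) (mul_mem (hc η) ht))
      (hc (g + η * δ - a * δ ^ 2))) (hc (2 * l * η))
    exact ⟨add_mem (sub_mem ht (hc _)) (mul_mem (hc _) hy), hy⟩
  · intro x y hx hy
    rw [ev_lf]; exact cst_lin _ _ _ hx hy
  · intro t t' _ _
    simp only [map_neg, map_mul, map_sub, map_add, map_pow, map_ofNat]
    refine ⟨mul_ne_zero (mul_ne_zero two_ne_zero l0) r0, ?_, ?_, ?_⟩
    · field_simp; ring
    · field_simp; ring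
    · ring
  · intro t
    simp only [Matrix.cons_val_zero, Matrix.cons_val_one, Matrix.cons_val, map_neg, map_mul,
      map_pow, map_zero]
    refine ⟨?_, ?_, ?_⟩ <;> ring
  · intro t ht
    have q1 := lin_ne ht (l * η) (mul_ne_zero (mul_ne_zero two_ne_zero hl) ha)
    have q2 := lin_ne ht (-η) (mul_ne_zero two_ne_zero ha)
    simp only [map_neg, map_mul, map_add, map_sub, map_pow, map_ofNat] at q1 q2 ⊢
    refine ⟨fun e => q1 (by linear_combination e), fun e => q2 (by linear_combination e), ?_⟩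
    field_simp; ring

end Param

variable {C Ω : Type} [Field C] [IsAlgClosed C] [Field Ω] [CharZero Ω] [Algebra C Ω]

open Param in
theorem param (h1 : B1 C Ω) : PARAM C Ω := by
  intro m hm
  have : CharZero C := (algebraMap C Ω).charZero
  have hs := m.sym
  rw [show m.f.totalDegree = 2 from hm] at hs
  obtain ⟨a, b, c, d, e, g, h⟩ : ∃ a b c d e g, Eqn m a b c d e g :=
    ⟨_, _, _, _, _, _, rfl, rfl, rfl, rfl, rfl, rfl⟩
  rw [h.1, h.2.2.1] at hs
  by_cases ha : a = 0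
  · have hc : c = 0 := hs.1 ha
    subst ha hc
    have hb : b ≠ 0 := by
      rintro rfl
      have e1 := h.eq hm
      simp only [map_zero, zero_mul, zero_add] at e1
      have e2 : m.f.totalDegree ≤ 1 := by
        rw [e1]
        refine (MvPolynomial.totalDegree_add _ _).trans (max_le
          ((MvPolynomial.totalDegree_add _ _).trans (max_le ?_ ?_)) (by simp)) <;>
        exact (MvPolynomial.totalDegree_mul _ _).trans (by simp)
      have := m.deg
      omega
    refine circle h1 m hm b (-e / b) (-d / b) (e * d / b ^ 2 - g / b) hb ?_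
    convert h using 1 <;> field_simp <;> ring
  have hc : c ≠ 0 := fun e => ha (hs.2 e)
  obtain ⟨r, hr⟩ := IsAlgClosed.exists_eq_mul_self (b ^ 2 - 4 * a * c)
  by_cases h0 : r = 0
  · have hb : b ≠ 0 := by
      rintro rfl
      rw [h0] at hr
      exact mul_ne_zero ha hc (by linear_combination (-1 / 4 : C) * hr)
    have hc' : c = b ^ 2 / (4 * a) := by
      rw [h0] at hr; field_simp; linear_combination -hr
    refine parabola h1 m hm a (-b / (2 * a)) (a * e / b - d / 2) ((d / 2 + a * e / b) / (2 * a)) g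
      ha (by simp [ha, hb]) ?_
    rw [hc'] at h
    convert h using 1 <;> field_simp <;> ring
  · have hc' : c = a * ((-b - r) / (2 * a)) * ((-b + r) / (2 * a)) := by
      field_simp; linear_combination -hr
    have hl : (-b - r) / (2 * a) ≠ 0 := fun e => hc (by rw [hc', e]; simp)
    have hn : (-b + r) / (2 * a) ≠ 0 := fun e => hc (by rw [hc', e]; simp)
    have hd : (-b + r) / (2 * a) - (-b - r) / (2 * a) = r / a := by field_simp; ring
    refine central h1 m hm a ((-b - r) / (2 * a)) ((-b + r) / (2 * a))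
      ((e + (-b - r) / (2 * a) * d) / r) (-d / a - (e + (-b - r) / (2 * a) * d) / r)
      ((e + (-b - r) / (2 * a) * d) / r * (-d / a - (e + (-b - r) / (2 * a) * d) / r) - g / a)
      ha hl hn (by rw [hd]; exact div_ne_zero h0 ha) ?_
    rw [hc'] at h
    convert h using 1 <;> field_simp <;> ring

end Pool.Agent.MP_249f74_an.H96A
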