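import Pool.Agent.MP_249f74_an.H96A.Spec

/-!
Double transitivity of the group of a generic line on the points of a mirror on this line.
-/

open Polynomial Set
open scoped TensorProduct

namespace Pool.Agent.MP_249f74_an.H96A

open H88 (cl rk subset_cl)

namespace Sec1

variable {C Ω : Type} [Field C] [Field Ω] [Algebra C Ω]

lemma coeff_top (s c : Ω) {i j d : ℕ} (h : i + j ≤ d) :
    ((Polynomial.C c + Polynomial.C s * X) ^ i * X ^ j).coeff d = if i + j = d then s ^ i else 0 := by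
  have h1 : (Polynomial.C c + Polynomial.C s * X).natDegree ≤ 1 := by compute_degree
  split_ifs with e
  · subst e
    have := coeff_pow_of_natDegree_le (m := i) h1
    rw [mul_one] at this
    rw [coeff_mul_X_pow, this]
    simp
  · refine coeff_eq_zero_of_natDegree_lt (lt_of_le_of_lt ?_ (lt_of_le_of_ne h e))
    refine natDegree_mul_le.trans (add_le_add (natDegree_pow_le.trans ?_) (by simp))
    simpa using Nat.mul_le_mul_left i h1

lemma sec_eq (f : P2 C) (l : Ω × Ω) : sec f l = ∑ m ∈ f.support,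
    Polynomial.C (algebraMap C Ω (f.coeff m)) *
      ((Polynomial.C l.2 + Polynomial.C l.1 * X) ^ m 0 * X ^ m 1) := by
  rw [sec, MvPolynomial.aeval_def, MvPolynomial.eval₂_eq']
  simp [Fin.prod_univ_two]

lemma le_deg {f : P2 C} {m : Fin 2 →₀ ℕ} (h : m ∈ f.support) : m 0 + m 1 ≤ f.totalDegree := by
  simpa [Finsupp.sum_fintype] using MvPolynomial.le_totalDegree h

lemma coeff_sec (f : P2 C) (l : Ω × Ω) {d : ℕ} (hd : f.totalDegree ≤ d) : (sec f l).coeff d =
    ev l (∑ m ∈ f.support with m 0 + m 1 = d,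
      MvPolynomial.monomial (Finsupp.single 0 (m 0)) (f.coeff m)) := by
  rw [sec_eq, finsetSum_coeff, map_sum, Finset.sum_filter]
  refine Finset.sum_congr rfl fun m hm => ?_
  rw [coeff_C_mul, coeff_top _ _ ((le_deg hm).trans hd)]
  split_ifs <;> simp [ev, MvPolynomial.aeval_monomial]

lemma natDegree_sec {f : P2 C} (hf : f ≠ 0) {l : Ω × Ω} (hl : Gen C l) :
    (sec f l).natDegree = f.totalDegree := by
  classical
  refine natDegree_eq_of_le_of_coeff_ne_zero (natDegree_le_iff_coeff_eq_zero.2 fun d hd => ?_) ?_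
  · rw [coeff_sec f l hd.le, Finset.filter_false_of_mem fun m hm e => by
      have := le_deg hm; omega]
    simp
  · rw [coeff_sec f l le_rfl]
    intro h
    obtain ⟨m, hm, e⟩ := Finset.exists_mem_eq_sup f.support (MvPolynomial.support_nonempty.2 hf)
      (fun s => s.sum fun _ e => e)
    have e1 : m 0 + m 1 = f.totalDegree := by
      rw [MvPolynomial.totalDegree, e]; simp [Finsupp.sum_fintype]
    have h2 := congrArg (MvPolynomial.coeff (Finsupp.single 0 (m 0))) (hl _ h)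
    rw [MvPolynomial.coeff_sum, Finset.sum_eq_single m] at h2
    · exact MvPolynomial.mem_support_iff.1 hm (by simpa using h2)
    · intro k hk hne
      rw [MvPolynomial.coeff_monomial, if_neg]
      intro e2
      have e3 : k 0 = m 0 := Finsupp.single_injective _ e2
      have e4 := (Finset.mem_filter.1 hk).2
      refine hne (Finsupp.ext fun i => ?_)
      fin_cases i
      · exact e3
      · change k 1 = m 1
        omega
    · exact fun hn => absurd (Finset.mem_filter.2 ⟨hm, e1⟩) hn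

/-- Generating families with the same relations are conjugate. -/
lemma conj [IsAlgClosed Ω] {ι : Type} {v v' : ι → Ω}
    (h : ∀ F : MvPolynomial ι C, MvPolynomial.aeval v F = 0 ↔ MvPolynomial.aeval v' F = 0)
    (hv : ∀ a, a ∈ cl C (range v)) (hv' : ∀ a, a ∈ cl C (range v')) :
    ∃ σ : Ω ≃ₐ[C] Ω, ∀ i, σ (v i) = v' i := by
  let φ : MvPolynomial ι C →ₐ[C] Ω := MvPolynomial.aeval v
  let φ' : MvPolynomial ι C →ₐ[C] Ω := MvPolynomial.aeval v'
  have hk : RingHom.ker φ = RingHom.ker φ' := Ideal.ext h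
  let e : φ.range ≃ₐ[C] φ'.range := ((Ideal.quotientKerEquivRange φ).symm.trans
    (Ideal.quotientEquivAlgOfEq C hk)).trans (Ideal.quotientKerEquivRange φ')
  have he : ∀ F, (e ⟨φ F, F, rfl⟩ : Ω) = φ' F := fun F => by
    have h1 : (Ideal.quotientKerEquivRange φ).symm ⟨φ F, F, rfl⟩ = Ideal.Quotient.mk _ F :=
      (AlgEquiv.symm_apply_eq _).2 rfl
    simp only [e, AlgEquiv.trans_apply, h1]
    rfl
  have : IsAlgClosure φ.range Ω := ⟨inferInstance, ⟨fun a => by
    rw [← Algebra.adjoin_range_eq_range_aeval]; exact hv a⟩⟩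
  have : IsAlgClosure φ'.range Ω := ⟨inferInstance, ⟨fun a => by
    rw [← Algebra.adjoin_range_eq_range_aeval]; exact hv' a⟩⟩
  have h2 : ∀ F, IsAlgClosure.equivOfEquiv Ω Ω e.toRingEquiv (φ F) = φ' F := fun F =>
    (IsAlgClosure.equivOfEquiv_algebraMap Ω Ω e.toRingEquiv ⟨φ F, F, rfl⟩).trans (he F)
  refine ⟨{ IsAlgClosure.equivOfEquiv Ω Ω e.toRingEquiv with commutes' := fun c => ?_ }, fun i => ?_⟩
  · simpa using h2 (algebraMap C _ c)
  · simpa [φ, φ'] using h2 (MvPolynomial.X i)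

/-- Relations between independent algebraic functions of one variable are stable under
independent conjugation. -/
lemma rel [IsAlgClosed C] [CharZero Ω] {x a z b : Ω} (hx : x ∈ cl C {a}) (hz : z ∈ cl C {b})
    (hb : b ∉ cl C {a}) (σ τ : Ω ≃ₐ[C] Ω) {F : MvPolynomial (Fin 4) C}
    (h : MvPolynomial.aeval ![x, a, z, b] F = 0) :
    MvPolynomial.aeval ![σ x, σ a, τ z, τ b] F = 0 := by
  obtain ⟨δ, h0, h1⟩ := H96.sep hb
  have h2 := H17.ld (δ := δ) (F := cl C {b}) (E := cl C {a})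
    (fun f hf => H17.stab_cl (by rintro _ rfl; rw [h1]; exact one_mem _) hf)
    (fun f hf h0 => H17.mem_bot_of_cl (H96.mem_cl_of_der (S := ∅) (t := b) (δ := δ)
      (by simpa using hf) (by simp [H96.Kil]) h0 (by rw [h1]; exact one_ne_zero))) h0.cl
  rw [Subalgebra.linearDisjoint_iff_injective] at h2
  let A := (cl C {a}).toSubalgebra
  let B := (cl C {b}).toSubalgebra
  let u : Fin 4 → A ⊗[C] B := ![⟨x, hx⟩ ⊗ₜ 1, ⟨a, subset_cl _ rfl⟩ ⊗ₜ 1, 1 ⊗ₜ ⟨z, hz⟩,
    1 ⊗ₜ ⟨b, subset_cl _ rfl⟩]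
  let Φ : A ⊗[C] B →ₐ[C] Ω := Algebra.TensorProduct.lift ((σ : Ω →ₐ[C] Ω).comp A.val)
    ((τ : Ω →ₐ[C] Ω).comp B.val) fun _ _ => Commute.all _ _
  have e1 : ![x, a, z, b] = fun i => A.mulMap B (u i) := by
    ext i; fin_cases i <;> simp [u]
  have e2 : ![σ x, σ a, τ z, τ b] = fun i => Φ (u i) := by
    ext i; fin_cases i <;> simp [u, Φ]
  rw [e1, ← MvPolynomial.comp_aeval_apply] at h
  rw [e2, ← MvPolynomial.comp_aeval_apply, h2 (h.trans (map_zero _).symm), map_zero]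

lemma not_le {l : Ω × Ω} (hl : Gen C l) {a : Ω} (h1 : l.1 ∈ cl C {a}) (h2 : l.2 ∈ cl C {a}) :
    False := by
  have h3 : AlgebraicIndependent C ![l.1, l.2] := algebraicIndependent_iff.2 hl
  have h4 := (H88.le_rk_iff (k := C) ![l.1, l.2] 2).2
    ⟨Finset.univ, rfl, h3.comp _ Subtype.val_injective⟩
  have h5 : rk C (range ![l.1, l.2]) ≤ rk C {a} := H88.rk_le (by
    rintro _ ⟨i, rfl⟩
    fin_cases i
    exacts [h1, h2])
  have h6 : rk C ({a} : Set Ω) ≤ 1 := (Matroid.eRk_le_encard _ _).trans (by simp)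
  exact absurd (h4.trans (h5.trans h6)) (by decide)

lemma line {v w : Vx Ω} {l : Ω × Ω} (hv : Inc v l) (hw : Inc w l) (h : v.y ≠ w.y) :
    l.1 = (w.x - v.x) / (w.y - v.y) ∧ l.2 = v.x - (w.x - v.x) / (w.y - v.y) * v.y := by
  have h1 : l.1 = (w.x - v.x) / (w.y - v.y) := by
    rw [eq_div_iff (sub_ne_zero.2 h.symm), hv, hw]; ring
  exact ⟨h1, by rw [← h1, hv]; ring⟩

lemma mem {v w : Vx Ω} {l : Ω × Ω} (hv : Inc v l) (hw : Inc w l) (h : v.y ≠ w.y)
    {K : IntermediateField C Ω} (h1 : v.x ∈ K) (h2 : v.y ∈ K) (h3 : w.x ∈ K) (h4 : w.y ∈ K) :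
    l.1 ∈ K ∧ l.2 ∈ K := by
  obtain ⟨e1, e2⟩ := line hv hw h
  have := div_mem (sub_mem h3 h1) (sub_mem h4 h2)
  exact ⟨e1 ▸ this, e2 ▸ sub_mem h1 (mul_mem this h2)⟩

end Sec1

variable {C Ω : Type} [Field C] [IsAlgClosed C] [Field Ω] [CharZero Ω] [IsAlgClosed Ω]
  [Algebra C Ω]

theorem sec1 (hS : Sf C Ω) (h1 : B1 C Ω) (h2 : B2 C Ω) (h3 : B3 C Ω) : SEC1 C Ω where
  card m l hl := by
    classical
    have h0 := h2.sec0 m l
    rw [← Sec1.natDegree_sec m.irr.ne_zero hl, ← IsAlgClosed.card_roots_eq_natDegree]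
    refine Multiset.toFinset_card_of_nodup (Multiset.nodup_iff_count_le_one.2 fun y => ?_)
    rw [count_roots]
    by_contra hn
    obtain ⟨r1, r2⟩ := (one_lt_rootMultiplicity_iff_isRoot h0).1 (not_le.1 hn)
    obtain ⟨v, l', rfl, hv⟩ := h2.step m l y hl (by simpa [Pts, h0] using r1)
    exact h2.simple m l l' v hv r2
  stb m l σ hσ a ha := by
    rw [h2.mem] at *
    have := h3.evmap (l.2 + l.1 * a, a) σ m.f
    rw [ha, map_zero] at this
    simpa [mp, hσ l.1 (by simp), hσ l.2 (by simp)] using this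
  two m l hl a ha b hb a' ha' b' hb' hab hab' := by
    obtain ⟨v, -, rfl, v1, v2, -⟩ := h2.step m l a hl ha
    obtain ⟨w, -, rfl, w1, w2, -⟩ := h2.step m l b hl hb
    obtain ⟨v', -, rfl, v1', v2', -⟩ := h2.step m l a' hl ha'
    obtain ⟨w', -, rfl, w1', w2', -⟩ := h2.step m l b' hl hb'
    have key : ∀ v w v' w' : Vx Ω, m.On v → m.On w → m.On v' → m.On w' → Inc v l → Inc w l →
        v.y ≠ w.y → (∀ a, a ∈ cl C (range ![v.x, v.y, w.x, w.y])) ∧ ∀ F : MvPolynomial (Fin 4) C,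
          MvPolynomial.aeval ![v.x, v.y, w.x, w.y] F = 0 →
            MvPolynomial.aeval ![v'.x, v'.y, w'.x, w'.y] F = 0 := by
      intro v w v' w' v1 w1 v1' w1' v2 w2 hab
      refine ⟨fun a => H17.cl_le ?_ (hS l hl a), fun F hF => ?_⟩
      · have := Sec1.mem v2 w2 hab (K := cl C (range ![v.x, v.y, w.x, w.y]))
          (subset_cl _ ⟨0, rfl⟩) (subset_cl _ ⟨1, rfl⟩) (subset_cl _ ⟨2, rfl⟩) (subset_cl _ ⟨3, rfl⟩)
        exact pair_subset this.1 this.2
      · obtain ⟨σ, hσ⟩ := h3.conj v.p v'.p fun F => by rw [h1.ker m v v1, h1.ker m v' v1']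
        obtain ⟨τ, hτ⟩ := h3.conj w.p w'.p fun F => by rw [h1.ker m w w1, h1.ker m w' w1']
        have := Sec1.rel (h1.alg m v v1).1 (h1.alg m w w1).1 (fun hn => by
          have := Sec1.mem v2 w2 hab (h1.alg m v v1).1 (subset_cl _ rfl)
            (H17.cl_le (singleton_subset_iff.2 hn) (h1.alg m w w1).1) hn
          exact Sec1.not_le hl this.1 this.2) σ τ hF
        simp only [mp, Vx.p, Prod.mk.injEq] at hσ hτ
        rwa [hσ.1, hσ.2, hτ.1, hτ.2] at this
    obtain ⟨k1, k2⟩ := key v w v' w' v1 w1 v1' w1' v2 w2 hab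
    obtain ⟨k3, k4⟩ := key v' w' v w v1' w1' v1 w1 v2' w2' hab'
    obtain ⟨σ, hσ⟩ := Sec1.conj (fun F => ⟨k2 F, k4 F⟩) k1 k3
    have e0 : σ v.x = v'.x := hσ 0
    have e1 : σ v.y = v'.y := hσ 1
    have e2 : σ w.x = w'.x := hσ 2
    have e3 : σ w.y = w'.y := hσ 3
    obtain ⟨l1, l2⟩ := Sec1.line v2 w2 hab
    obtain ⟨l3, l4⟩ := Sec1.line v2' w2' hab'
    refine ⟨σ, ?_, e1, e3⟩
    rintro _ (rfl | rfl)
    · rw [congrArg σ l1, l3]; simp [e0, e1, e2, e3]
    · rw [congrArg σ l2, l4]; simp [e0, e1, e2, e3]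

end Pool.Agent.MP_249f74_an.H96A
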