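import Pool.Agent.MP_249f74_an.H96A.Spec

/-!
The generic tangent line.
-/

open Polynomial

namespace Pool.Agent.MP_249f74_an.H96A

open MvPolynomial (pderiv)

variable {C Ω : Type} [Field C] [Field Ω] [Algebra C Ω]

namespace Tan

lemma der {A : Type} [CommRing A] [Algebra C A] (D : Derivation C A A) (a b : A) (F : P2 C) :
    D (MvPolynomial.aeval ![a, b] F) = MvPolynomial.aeval ![a, b] (pderiv 0 F) * D a +
      MvPolynomial.aeval ![a, b] (pderiv 1 F) * D b := by
  induction F using MvPolynomial.induction_on with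
  | C c => simp
  | add p q hp hq => simp only [map_add, hp, hq]; ring
  | mul_X p i hp => fin_cases i <;> simp [hp] <;> ring

lemma der_ev (Z : H17.Der C Ω) (l : Ω × Ω) (F : P2 C) :
    Z (ev l F) = ev l (pderiv 0 F) * Z l.1 + ev l (pderiv 1 F) * Z l.2 := der Z _ _ F

lemma eval_ae (p q : Polynomial Ω) (t : Ω) (F : P2 C) :
    (MvPolynomial.aeval ![p, q] F).eval t = ev (p.eval t, q.eval t) F := by
  induction F using MvPolynomial.induction_on with
  | C c => simp [ev]
  | add p q hp hq => simp only [map_add, eval_add, hp, hq]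
  | mul_X p i hp => fin_cases i <;> simp [hp, ev]

lemma eval_sec (f : P2 C) (l : Ω × Ω) (t : Ω) : (sec f l).eval t = ev (l.2 + l.1 * t, t) f := by
  simp [sec, eval_ae]

lemma eval_pen (F : P2 C) (v : Vx Ω) (t : Ω) : (pen F v).eval t = ev (t, v.x - t * v.y) F := by
  rw [pen, eval_ae, mul_comm t]
  simp

lemma der_sec (f : P2 C) (l : Ω × Ω) : derivative (sec f l) =
    sec (pderiv 0 f) l * Polynomial.C l.1 + sec (pderiv 1 f) l := by
  have := der (derivative'.restrictScalars C) (Polynomial.C l.2 + Polynomial.C l.1 * X) X f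
  simpa [sec] using this

lemma der_pen (F : P2 C) (v : Vx Ω) : derivative (pen F v) =
    pen (pderiv 0 F) v - pen (pderiv 1 F) v * Polynomial.C v.y := by
  have := der (derivative'.restrictScalars C) X (Polynomial.C v.x - Polynomial.C v.y * X) F
  simpa [pen, sub_eq_add_neg] using this

lemma mult_two [CharZero Ω] {p : Polynomial Ω} {t : Ω} (h0 : p.eval t = 0)
    (h1 : (derivative p).eval t = 0) (h2 : (derivative (derivative p)).eval t ≠ 0) :
    p.rootMultiplicity t = 2 := by
  have p0 : p ≠ 0 := fun e => h2 (by simp [e])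
  exact le_antisymm (not_lt.1 fun h =>
    h2 ((lt_rootMultiplicity_iff_isRoot_iterate_derivative p0).1 h 2 le_rfl))
    ((one_lt_rootMultiplicity_iff_isRoot p0).2 ⟨h0, h1⟩)

lemma transc [IsAlgClosed C] {a : Ω} (h : ¬Cst C a) : Transcendental C a := fun ha => by
  obtain ⟨c, rfl⟩ := minpoly.mem_range_of_degree_eq_one C a
    (IsAlgClosed.degree_eq_one_of_irreducible C (minpoly.irreducible ha.isIntegral))
  exact h ⟨c, rfl⟩

lemma deg_sec {f : P2 C} (f0 : f ≠ 0) {l : Ω × Ω} (hl : Transcendental C l.1) :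
    (sec f l).natDegree = f.totalDegree := by
  have h1 : (Polynomial.C l.2 + Polynomial.C l.1 * X).natDegree ≤ 1 := by compute_degree
  have h2 : ∀ i j, ((Polynomial.C l.2 + Polynomial.C l.1 * X) ^ i * X ^ j).natDegree ≤ i + j :=
    fun i j => natDegree_mul_le.trans (add_le_add (by simpa using natDegree_pow_le_of_le i h1)
      (natDegree_X_pow_le j))
  have h3 : ∀ m ∈ f.support, m 0 + m 1 ≤ f.totalDegree := fun m hm => by
    simpa [Finsupp.sum_fintype] using MvPolynomial.le_totalDegree hm
  have h4 : sec f l = ∑ m ∈ f.support, Polynomial.C (algebraMap C Ω (f.coeff m)) *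
      ((Polynomial.C l.2 + Polynomial.C l.1 * X) ^ m 0 * X ^ m 1) := by
    simp [sec, MvPolynomial.aeval_def, MvPolynomial.eval₂_eq']
  let q : C[X] := ∑ m ∈ f.support with m 0 + m 1 = f.totalDegree, monomial (m 0) (f.coeff m)
  have h5 : (sec f l).coeff f.totalDegree = aeval l.1 q := by
    rw [h4, finsetSum_coeff, map_sum, Finset.sum_filter]
    refine Finset.sum_congr rfl fun m hm => ?_
    rw [coeff_C_mul]
    split_ifs with h
    · have := coeff_pow_of_natDegree_le (m := m 0) h1
      rw [mul_one] at this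
      rw [← h, coeff_mul_X_pow, this, aeval_monomial]
      simp
    · rw [coeff_eq_zero_of_natDegree_lt ((h2 _ _).trans_lt ((h3 m hm).lt_of_ne h)), mul_zero]
  obtain ⟨m, hm, h6⟩ := Finset.exists_mem_eq_sup f.support (MvPolynomial.support_nonempty.2 f0)
    (fun s => s.sum fun _ e => e)
  have h7 : m 0 + m 1 = f.totalDegree := by
    rw [MvPolynomial.totalDegree, h6]
    simp [Finsupp.sum_fintype]
  have h8 : q.coeff (m 0) = f.coeff m := by
    rw [finsetSum_coeff, Finset.sum_eq_single_of_mem m (Finset.mem_filter.2 ⟨hm, h7⟩),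
      coeff_monomial, if_pos rfl]
    intro n hn h
    rw [coeff_monomial, if_neg fun e => h ?_]
    have := (Finset.mem_filter.1 hn).2
    ext i
    fin_cases i
    · exact e
    · change n 1 = m 1
      omega
  refine natDegree_eq_of_le_of_coeff_ne_zero ?_ fun e => ?_
  · rw [h4]
    exact natDegree_sum_le_of_forall_le _ _ fun m hm =>
      (natDegree_C_mul_le _ _).trans ((h2 _ _).trans (h3 m hm))
  · rw [h5] at e
    rw [transcendental_iff.1 hl q e] at h8
    exact MvPolynomial.mem_support_iff.1 hm h8.symm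

end Tan

open Tan in
theorem tan [IsAlgClosed C] [CharZero Ω] [IsAlgClosed Ω] (h1 : B1 C Ω) (h2 : B2 C Ω)
    (_h3 : B3 C Ω) : TAN C Ω where
  deg m m' v hv := deg_sec m.irr.ne_zero (transc (h1.nw m' v hv))
  oth m m' v hv y hy hne := by
    have s0 := h2.sec0 m v.tl
    have k1 := (h2.mem m v.tl y).1 hy
    refine le_antisymm (not_lt.1 fun h => ?_)
      ((rootMultiplicity_pos s0).2 ((eval_sec _ _ _).trans k1))
    have k2 : (derivative (sec m.f v.tl)).eval y = 0 :=
      ((one_lt_rootMultiplicity_iff_isRoot s0).1 h).2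
    rw [der_sec, eval_add, eval_mul, eval_C, eval_sec, eval_sec] at k2
    obtain ⟨w, hw⟩ := h1.pt m _ _ k1 (by
      rintro ⟨⟨a, ha⟩, b, hb⟩
      have := (h1.tl m' v hv).2 (MvPolynomial.X 1 + MvPolynomial.C b * MvPolynomial.X 0 -
        MvPolynomial.C a) (fun e => by simpa using congrArg (pderiv 1) e)
        (by simp [ev, ← ha, ← hb, mul_comm])
      have k : (MvPolynomial.X 1 + MvPolynomial.C b * MvPolynomial.X 0 -
          MvPolynomial.C a : P2 C).totalDegree ≤ 1 :=
        (MvPolynomial.totalDegree_sub _ _).trans (max_le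
          ((MvPolynomial.totalDegree_add _ _).trans (max_le (by simp)
            ((MvPolynomial.totalDegree_mul _ _).trans (by simp)))) (by simp))
      omega)
    obtain ⟨Z, z1, z2, z3⟩ := h1.der m' v hv
    have k3 := der_ev Z (v.tl.2 + v.tl.1 * y, y) m.f
    have k4 := h1.fx m _ hw
    rw [k1, map_zero] at k3
    simp only [Vx.tl, Vx.p, map_add, map_sub, Derivation.leibniz, z1, z2, smul_eq_mul] at k2 k3 k4
    have k5 : y = v.y := by
      refine (sub_eq_zero.1 (mul_left_cancel₀ (mul_ne_zero k4 z3) ?_))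
      linear_combination -k3 - Z y * k2
    have := (h1.uniq m m' _ v hw hv (by simp [Vx.p, Vx.tl, k5])).1
    tauto
  own m v hv := by
    have e : (v.tl.2 + v.tl.1 * v.y, v.y) = v.p := by simp [Vx.tl, Vx.p]
    obtain ⟨Z, z1, z2, z3⟩ := h1.der m v hv
    have k1 := congrArg Z hv.sl
    refine mult_two (by rw [eval_sec, e, hv.f0]) ?_ fun h => ?_
    · rw [der_sec, eval_add, eval_mul, eval_C, eval_sec, eval_sec, e, mul_comm]
      exact hv.sl
    · simp only [der_sec, derivative_add, derivative_mul, derivative_C, mul_zero, add_zero,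
        eval_add, eval_mul, eval_C, eval_sec, e] at h
      simp only [map_add, Derivation.leibniz, der_ev, map_zero, smul_eq_mul] at k1
      refine mul_ne_zero (h1.fx m v hv) z3 ?_
      simp only [Vx.p, Vx.tl, z1, z2] at h k1 ⊢
      linear_combination k1 - h
  two m v π hv hπ h0 := by
    have : CharZero C := (algebraMap C Ω).charZero
    obtain ⟨Z, z1, z2, z3⟩ := h1.der m v hv
    have z4 : Z v.tl.2 = -v.y * Z v.w := by
      simp only [Vx.tl, map_sub, Derivation.leibniz, z1, z2, smul_eq_mul]
      ring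
    have k1 := der_ev Z v.tl π
    rw [h0, map_zero, z4] at k1
    have k2 : ev v.tl (pderiv 0 π) - ev v.tl (pderiv 1 π) * v.y = 0 :=
      mul_right_cancel₀ z3 (by simp only [Vx.tl] at k1 ⊢; linear_combination -k1)
    have k3 := congrArg Z k2
    refine mult_two ((eval_pen _ _ _).trans h0) ?_ fun h => ?_
    · rw [der_pen, eval_sub, eval_mul, eval_C, eval_pen, eval_pen]
      exact k2
    · simp only [der_pen, derivative_sub, derivative_mul, derivative_C, mul_zero, add_zero,
        eval_sub, eval_mul, eval_C, eval_pen] at h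
      simp only [map_sub, Derivation.leibniz, der_ev, map_zero, smul_eq_mul, z1, z4] at k3
      have k4 : ev v.tl (pderiv 1 π) = 0 := by
        simp only [Vx.tl] at k3 ⊢
        linear_combination Z v.w * h - k3
      obtain ⟨j, hj⟩ := H88.exists_pderiv_ne (y := ![v.tl.1, v.tl.2]) ⟨1, by
        let _ : Unique {i : Fin 2 // i ≠ 1} := ⟨⟨⟨0, by simp⟩⟩, by decide⟩
        exact algebraicIndependent_unique_type_iff.2 (transc (h1.nw m v hv))⟩ hπ.irreducible h0
      fin_cases j
      · rw [k4, zero_mul, sub_zero] at k2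
        exact hj k2
      · exact hj k4

end Pool.Agent.MP_249f74_an.H96A
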