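import Pool.Agent.MP_249f74_an.H96A.Sec1
import Pool.Agent.MP_249f74_an.H96A.Tan

/-!
Reflections in confocal conics commute: the four tangent lines pass through one point.
-/

namespace Pool.Agent.MP_249f74_an.H96A

open MvPolynomial (pderiv X)
open H88 (cl subset_cl)

namespace Swap

variable {C Ω : Type} [Field C] [Field Ω] [Algebra C Ω]

lemma form {f : P2 C} (h : f.totalDegree ≤ 2) :
    f = MvPolynomial.C (cf f 2 0) * X 0 ^ 2 + MvPolynomial.C (cf f 1 1) * (X 0 * X 1) +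
      MvPolynomial.C (cf f 0 2) * X 1 ^ 2 + MvPolynomial.C (cf f 1 0) * X 0 +
      MvPolynomial.C (cf f 0 1) * X 1 + MvPolynomial.C (cf f 0 0) := by
  classical
  let φ : ℕ × ℕ → Fin 2 →₀ ℕ := fun p => Finsupp.single 0 p.1 + Finsupp.single 1 p.2
  have hφ : Function.Injective φ := by
    intro p q e
    have e0 := DFunLike.congr_fun e 0
    have e1 := DFunLike.congr_fun e 1
    simp [φ] at e0 e1
    exact Prod.ext e0 e1
  let T : Finset (ℕ × ℕ) := {(2, 0), (1, 1), (0, 2), (1, 0), (0, 1), (0, 0)}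
  have hs : f.support ⊆ T.image φ := by
    intro d hd
    have h1 := (Sec1.le_deg hd).trans h
    refine Finset.mem_image.2 ⟨(d 0, d 1), ?_, ?_⟩
    · have a0 : d 0 ≤ 2 := by omega
      have a1 : d 1 ≤ 2 := by omega
      generalize d 0 = i at *
      generalize d 1 = j at *
      interval_cases i <;> interval_cases j <;> first | omega | simp [T]
    · ext i; fin_cases i <;> simp [φ]
  have hm : ∀ p : ℕ × ℕ, MvPolynomial.monomial (φ p) (f.coeff (φ p)) =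
      MvPolynomial.C (cf f p.1 p.2) * (X 0 ^ p.1 * X 1 ^ p.2) := by
    intro p
    rw [MvPolynomial.X_pow_eq_monomial, MvPolynomial.X_pow_eq_monomial,
      MvPolynomial.monomial_mul, MvPolynomial.C_mul_monomial]
    simp [φ, cf]
  conv_lhs => rw [f.as_sum]
  rw [Finset.sum_subset hs (fun d _ hd => by rw [MvPolynomial.notMem_support_iff.1 hd, map_zero]),
    Finset.sum_image (fun p _ q _ e => hφ e), Finset.sum_congr rfl (fun p _ => hm p)]
  simp only [T]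
  rw [Finset.sum_insert (by decide), Finset.sum_insert (by decide), Finset.sum_insert (by decide),
    Finset.sum_insert (by decide), Finset.sum_insert (by decide), Finset.sum_singleton]
  ring

/-- Explicit values for a conic. -/
lemma vals {f : P2 C} (h : f.totalDegree ≤ 2) : ∃ a b c d e g : C,
    (∀ x y : Ω, ev (x, y) f = algebraMap C Ω a * x ^ 2 + algebraMap C Ω b * (x * y) +
      algebraMap C Ω c * y ^ 2 + algebraMap C Ω d * x + algebraMap C Ω e * y + algebraMap C Ω g) ∧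
    (∀ x y : Ω, ev (x, y) (pderiv 0 f) =
      2 * algebraMap C Ω a * x + algebraMap C Ω b * y + algebraMap C Ω d) ∧
    (∀ x y : Ω, ev (x, y) (pderiv 1 f) =
      algebraMap C Ω b * x + 2 * algebraMap C Ω c * y + algebraMap C Ω e) ∧
    ∀ s k : Ω, ev (s, k) (dq f) = algebraMap C Ω (b ^ 2 - 4 * a * c) * k ^ 2 +
      algebraMap C Ω (4 * a * e - 2 * b * d) * (s * k) + algebraMap C Ω (2 * b * e - 4 * c * d) * k +
      algebraMap C Ω (d ^ 2 - 4 * a * g) * s ^ 2 + algebraMap C Ω (2 * d * e - 4 * b * g) * s +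
      algebraMap C Ω (e ^ 2 - 4 * c * g) := by
  refine ⟨cf f 2 0, cf f 1 1, cf f 0 2, cf f 1 0, cf f 0 1, cf f 0 0, ?_, ?_, ?_, ?_⟩
  · intro x y
    conv_lhs => rw [form h]
    simp [ev]
  · intro x y
    conv_lhs => rw [form h]
    simp [ev]
    ring
  · intro x y
    conv_lhs => rw [form h]
    simp [ev]
    ring
  · intro s k
    simp only [ev, dq, map_add, map_mul, map_pow, MvPolynomial.aeval_C, MvPolynomial.aeval_X,
      Matrix.cons_val_zero, Matrix.cons_val_one]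

lemma cst_quad [IsAlgClosed C] {α β γ : C} {t : Ω}
    (h : algebraMap C Ω α * t ^ 2 + algebraMap C Ω β * t + algebraMap C Ω γ = 0) :
    Cst C t ∨ (α = 0 ∧ β = 0 ∧ γ = 0) := by
  by_cases hc : Cst C t
  · exact Or.inl hc
  right
  have h1 : Polynomial.C α * Polynomial.X ^ 2 + Polynomial.C β * Polynomial.X + Polynomial.C γ
      = 0 := transcendental_iff.1 (Tan.transc hc) _ (by simpa using h)
  have h2 := congrArg (fun p => p.coeff 2) h1
  have h3 := congrArg (fun p => p.coeff 1) h1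
  have h4 := congrArg (fun p => p.coeff 0) h1
  simp [Polynomial.coeff_X, Polynomial.coeff_C] at h2 h3 h4
  exact ⟨h2, h3, h4⟩

/-- The relation between a tangent line through the origin and its point of tangency. -/
lemma rel [CharZero Ω] {p q r T U N lam κ w Y : Ω}
    (h : ∀ s, p * ((w - s) * Y) ^ 2 + (q * s + r) * ((w - s) * Y) + (T * s ^ 2 + U * s + T * N) -
      lam * s = κ * (s - w) ^ 2) : (q * w + r) * Y * w = T * (w ^ 2 - N) := by
  have h2 : (2 : Ω) ≠ 0 := two_ne_zero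
  apply mul_left_cancel₀ h2
  linear_combination w * h (w - 1) - w * h (w + 1) + 2 * h w

/-- Collinearity. -/
lemma col {q r T w1 w2 w3 Y1 Y2 Y3 s0 s1 : Ω}
    (e1 : (q * w1 + r) * Y1 * w1 = T * (w1 ^ 2 - w3 * w2))
    (e2 : (q * w2 + r) * Y2 * w2 = T * (w2 ^ 2 - w3 * w2))
    (e3 : (q * w3 + r) * Y3 * w3 = T * (w3 ^ 2 - w3 * w2)) (hT : T ≠ 0) (h2 : w2 ≠ 0)
    (h3 : w3 ≠ 0) (h23 : w2 ≠ w3) (hY : Y1 ≠ Y2) (hs : s1 ≠ 0)
    (i1 : (w2 - s1) * Y2 = (w1 - s1) * Y1) (rf : s0 * s1 = w1 ^ 2) :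
    (w3 - s0) * Y3 = (w1 - s0) * Y1 := by
  have f2 : (q * w2 + r) * Y2 = T * (w2 - w3) := mul_right_cancel₀ h2 (by linear_combination e2)
  have f3 : (q * w3 + r) * Y3 = T * (w3 - w2) := mul_right_cancel₀ h3 (by linear_combination e3)
  have k : (w1 ^ 2 - w2 * w3) * Y2 * Y3 + (w3 - w1) * w1 * Y1 * Y3 -
      (w1 - w2) * w1 * Y1 * Y2 = 0 := by
    apply mul_left_cancel₀ (mul_ne_zero hT (sub_ne_zero.2 h23))
    linear_combination -(w2 - w3) * Y2 * Y3 * e1 - (w3 - w1) * w1 * Y1 * Y3 * f2 -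
      (w1 - w2) * w1 * Y1 * Y2 * f3
  apply mul_left_cancel₀ (mul_ne_zero hs (sub_ne_zero.2 hY))
  linear_combination k + (w3 * Y3 - w1 * Y1) * i1 - (Y1 - Y2) * (Y3 - Y1) * rf

variable (C) in
/-- The point is on no constant line. -/
def NC (x y : Ω) : Prop := ¬Cst C y ∧ ∀ κ : C, ¬Cst C (x - algebraMap C Ω κ * y)

lemma exO [CharZero Ω] (h1 : B1 C Ω) {m m' : Mir C} {v v' : Vx Ω} {l : Ω × Ω} (hl : Gen C l) (hv : m.On v)
    (hv' : m'.On v') (i : Inc v l) (i' : Inc v' l) (hy : v.y ≠ v'.y) :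
    ∃ x0 y0 : Ω, x0 - v.x = v.w * (y0 - v.y) ∧ x0 - v'.x = v'.w * (y0 - v'.y) ∧ NC C x0 y0 := by
  obtain ⟨a1, a2⟩ := h1.alg m v hv
  obtain ⟨b1, b2⟩ := h1.alg m' v' hv'
  have b0 : v'.y ∈ cl C {v'.y} := subset_cl _ rfl
  have hn : v.y ∉ cl C {v'.y} := fun h => by
    have hle : cl C {v.y} ≤ cl C {v'.y} := H17.cl_le (Set.singleton_subset_iff.2 h)
    obtain ⟨c1, c2⟩ := Sec1.mem i i' hy (hle a1) h b1 b0
    exact Sec1.not_le hl c1 c2
  obtain ⟨Z, hK, hZ⟩ := H96.sep hn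
  obtain ⟨Z0, z1, z2, z3⟩ := h1.der m v hv
  have hA : H96.Agr {v.y} Z Z0 := by
    rintro _ rfl; rw [hZ, z1]
  have zx : Z v.x = v.w := (hA.cl _ a1).trans z2
  have zw : Z v.w ≠ 0 := by rw [hA.cl _ a2]; exact z3
  have k1 : Z v'.x = 0 := hK.cl _ b1
  have k2 : Z v'.w = 0 := hK.cl _ b2
  have k3 : Z v'.y = 0 := hK.cl _ b0
  have hw : v.w - v'.w ≠ 0 := fun e => zw (by rw [sub_eq_zero.1 e, k2])
  obtain ⟨y0, hy0⟩ : ∃ y0, y0 * (v.w - v'.w) = v'.x - v'.w * v'.y - (v.x - v.w * v.y) :=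
    ⟨_, div_mul_cancel₀ _ hw⟩
  obtain ⟨x0, e1⟩ : ∃ x0, x0 - v.x = v.w * (y0 - v.y) := ⟨v.x + v.w * (y0 - v.y), by ring⟩
  have e2 : x0 - v'.x = v'.w * (y0 - v'.y) := by linear_combination e1 + hy0
  have d1 := congrArg Z e1
  have d2 := congrArg Z e2
  simp only [map_sub, Derivation.leibniz, smul_eq_mul, zx, hZ, k1, k2, k3] at d1 d2
  have n0 : Z y0 ≠ 0 := fun e => by
    have : (y0 - v.y) * Z v.w = 0 := by linear_combination d2 - d1 + (v'.w - v.w) * e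
    have := sub_eq_zero.1 ((mul_eq_zero.1 this).resolve_right zw)
    rw [this, hZ] at e
    exact one_ne_zero e
  refine ⟨x0, y0, e1, e2, ?_, ?_⟩
  · rintro ⟨k, rfl⟩
    exact n0 (Z.map_algebraMap k)
  · rintro κ ⟨k, hk⟩
    have d3 := congrArg Z hk
    simp only [map_sub, Derivation.leibniz, smul_eq_mul, Derivation.map_algebraMap] at d3
    have : (v'.w - algebraMap C Ω κ) * Z y0 = 0 := by linear_combination d3 - d2
    exact h1.nw m' v' hv' ⟨κ, sub_eq_zero.1 ((mul_eq_zero.1 this).resolve_right n0)⟩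

lemma sq {f : P2 C} (h : f.totalDegree ≤ 2) {x y w : Ω} (h0 : ev (x, y) f = 0)
    (hw : w * ev (x, y) (pderiv 0 f) + ev (x, y) (pderiv 1 f) = 0) (s : Ω) :
    ev (s, x - s * y) (dq f) = ev (x, y) (pderiv 0 f) ^ 2 * (s - w) ^ 2 := by
  obtain ⟨a, b, c, d, e, g, v0, v1, v2, v3⟩ := vals (Ω := Ω) h
  have k : ev (s, x - s * y) (dq f) = (ev (x, y) (pderiv 0 f) * s + ev (x, y) (pderiv 1 f)) ^ 2 -
      4 * (algebraMap C Ω a * s ^ 2 + algebraMap C Ω b * s + algebraMap C Ω c) * ev (x, y) f := by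
    rw [v0, v1, v2, v3]
    simp only [map_sub, map_mul, map_pow, map_ofNat]
    ring
  rw [k, h0, eq_neg_of_add_eq_zero_right hw]
  ring

variable [IsAlgClosed C] [CharZero Ω]

lemma exN (h1 : B1 C Ω) {m : Mir C} (hm : m.Con) {v : Vx Ω} (hv : m.On v) {x0 y0 : Ω}
    (hO : NC C x0 y0) : ∃ T U N : Ω, T ≠ 0 ∧
      ∀ s, ev (s, x0 - s * y0) (dq m.f) = T * s ^ 2 + U * s + T * N := by
  have hq := sq hm.le hv.f0 hv.sl
  have hx := h1.fx m v hv
  simp only [Vx.p] at hx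
  obtain ⟨a, b, c, d, e, g, -, -, -, v3⟩ := vals (Ω := Ω) hm.le
  generalize b ^ 2 - 4 * a * c = p at v3
  generalize 4 * a * e - 2 * b * d = q at v3
  generalize 2 * b * e - 4 * c * d = r at v3
  generalize d ^ 2 - 4 * a * g = t at v3
  generalize 2 * d * e - 4 * b * g = u at v3
  generalize e ^ 2 - 4 * c * g = z at v3
  have hT : algebraMap C Ω p * y0 ^ 2 + algebraMap C Ω (-q) * y0 + algebraMap C Ω t ≠ 0 := by
    intro h
    rcases cst_quad h with h | ⟨a1, a2, a3⟩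
    · exact hO.1 h
    · simp only [v3, a1, neg_eq_zero.1 a2, a3, map_zero] at hq
      refine hx (pow_eq_zero_iff two_ne_zero |>.1 (mul_left_cancel₀ (two_ne_zero (α := Ω)) ?_))
      linear_combination 2 * hq 0 - hq 1 - hq (-1)
  obtain ⟨N, hN⟩ : ∃ N, (algebraMap C Ω p * y0 ^ 2 + algebraMap C Ω (-q) * y0 +
      algebraMap C Ω t) * N = algebraMap C Ω p * x0 ^ 2 + algebraMap C Ω r * x0 +
      algebraMap C Ω z := ⟨_, mul_div_cancel₀ _ hT⟩
  refine ⟨_, -2 * algebraMap C Ω p * x0 * y0 + algebraMap C Ω q * x0 - algebraMap C Ω r * y0 +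
    algebraMap C Ω u, N, hT, fun s => ?_⟩
  rw [hN, v3, map_neg]
  ring

/-- The second tangent line from the common point. -/
lemma half (h1 : B1 C Ω) {m m' : Mir C} (hm : m.Con) (hm' : m'.Con) {k ν : Ω}
    (hD : ∀ l : Ω × Ω, ev l (dq m'.f) = k * ev l (dq m.f) + ν * l.1) {v v' : Vx Ω}
    {l0 l1 : Ω × Ω} (hl : Gen C l0) (st : St m l0 v l1) (hv' : m'.On v') (i' : Inc v' l1)
    (hy : v.y ≠ v'.y) (s1 : l1.1 ≠ 0) (nt : l1.1 ≠ v.w) {x0 y0 : Ω}
    (e1 : x0 - v.x = v.w * (y0 - v.y)) (e2 : x0 - v'.x = v'.w * (y0 - v'.y)) (hO : NC C x0 y0)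
    {T U N : Ω} (hT : T ≠ 0)
    (hN : ∀ s, ev (s, x0 - s * y0) (dq m'.f) = T * s ^ 2 + U * s + T * N) :
    ∃ u : Vx Ω, m'.On u ∧ Inc u l0 ∧ u.w * v'.w = N ∧ x0 - u.x = u.w * (y0 - u.y) := by
  have q1 := sq hm.le st.on.f0 st.on.sl
  have q2 := sq hm'.le hv'.f0 hv'.sl
  have x2 := h1.fx m' v' hv'
  have w2 := h1.w0 m' v' hv'
  have n2 := h1.nw m' v' hv'
  have sl2 := hv'.sl
  obtain ⟨a, b, c, d, e, g, v0, v1, v2, v3⟩ := vals (Ω := Ω) hm'.le
  have hA : ∀ w : Ω, ¬Cst C w →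
      algebraMap C Ω a * w ^ 2 + algebraMap C Ω b * w + algebraMap C Ω c ≠ 0 := by
    intro w hw h
    rcases cst_quad h with h | ⟨a1, a2, a3⟩
    · exact hw h
    · simp only [Vx.p, v1, v2, a1, a2, a3, map_zero] at sl2 x2
      have : algebraMap C Ω 0 * v'.w ^ 2 + algebraMap C Ω d * v'.w + algebraMap C Ω e = 0 := by
        rw [map_zero]; linear_combination sl2
      rcases cst_quad this with h | ⟨-, a4, -⟩
      · exact n2 h
      · exact x2 (by simp [a4])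
  obtain ⟨w, hw⟩ : ∃ w, w * v'.w = N := ⟨N / v'.w, div_mul_cancel₀ _ w2⟩
  have z2 : T * v'.w ^ 2 + U * v'.w + T * N = 0 := by
    rw [← hN, show x0 - v'.w * y0 = v'.x - v'.w * v'.y by linear_combination e2, q2]; ring
  have z3 : ev (w, x0 - w * y0) (dq m'.f) = 0 := by
    rw [hN]
    apply mul_left_cancel₀ w2
    linear_combination w * z2 + T * (w - v'.w) * hw
  have n3 : ¬Cst C w := by
    rintro ⟨κ, rfl⟩
    have : ∀ t : Ω, ev (algebraMap C Ω κ, t) (dq m'.f) =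
        algebraMap C Ω (b ^ 2 - 4 * a * c) * t ^ 2 +
        algebraMap C Ω ((4 * a * e - 2 * b * d) * κ + (2 * b * e - 4 * c * d)) * t +
        algebraMap C Ω ((d ^ 2 - 4 * a * g) * κ ^ 2 + (2 * d * e - 4 * b * g) * κ +
          (e ^ 2 - 4 * c * g)) := by
      intro t
      rw [v3]
      simp only [map_add, map_sub, map_mul, map_pow, map_ofNat]
      ring
    rcases cst_quad ((this _).symm.trans z3) with h | ⟨a1, a2, a3⟩
    · exact hO.2 κ h
    · have a4 := q2 (algebraMap C Ω κ)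
      rw [this, a1, a2, a3, map_zero] at a4
      have a5 : ev v'.p (pderiv 0 m'.f) ^ 2 * (algebraMap C Ω κ - v'.w) ^ 2 = 0 := by
        simp only [Vx.p]; linear_combination -a4
      have a6 := (mul_eq_zero.1 a5).resolve_left (pow_ne_zero 2 x2)
      exact n2 ⟨κ, (sub_eq_zero.1 (pow_eq_zero_iff two_ne_zero |>.1 a6)).symm⟩
  have w3 : w ≠ 0 := fun h => n3 ⟨0, by rw [h, map_zero]⟩
  have A3 := hA w n3
  obtain ⟨y, hy3⟩ : ∃ y, y * (2 * (algebraMap C Ω a * w ^ 2 + algebraMap C Ω b * w +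
      algebraMap C Ω c)) = -((2 * algebraMap C Ω a * w + algebraMap C Ω b) * (x0 - w * y0) +
      algebraMap C Ω d * w + algebraMap C Ω e) :=
    ⟨_, div_mul_cancel₀ _ (mul_ne_zero two_ne_zero A3)⟩
  obtain ⟨x, e3⟩ : ∃ x, x0 - x = w * (y0 - y) := ⟨x0 - w * (y0 - y), by ring⟩
  have hx3 : x = x0 - w * y0 + w * y := by linear_combination -e3
  have sl3 : w * ev (x, y) (pderiv 0 m'.f) + ev (x, y) (pderiv 1 m'.f) = 0 := by
    rw [v1, v2, hx3]; linear_combination hy3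
  have f3 : ev (x, y) m'.f = 0 := by
    apply mul_left_cancel₀ (mul_ne_zero (by norm_num : (4 : Ω) ≠ 0) A3)
    rw [v3] at z3
    simp only [map_sub, map_mul, map_pow, map_ofNat] at z3
    rw [v0, hx3]
    linear_combination -z3 + (y * (2 * (algebraMap C Ω a * w ^ 2 + algebraMap C Ω b * w +
      algebraMap C Ω c)) + ((2 * algebraMap C Ω a * w + algebraMap C Ω b) * (x0 - w * y0) +
      algebraMap C Ω d * w + algebraMap C Ω e)) * hy3
  have q3 := sq hm'.le f3 sl3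
  obtain ⟨p, hp⟩ : ∃ p, p = algebraMap C Ω (b ^ 2 - 4 * a * c) := ⟨_, rfl⟩
  obtain ⟨q, hq⟩ : ∃ q, q = algebraMap C Ω (4 * a * e - 2 * b * d) - 2 * p * y0 := ⟨_, rfl⟩
  obtain ⟨r, hr⟩ : ∃ r, r = algebraMap C Ω (2 * b * e - 4 * c * d) + 2 * p * x0 := ⟨_, rfl⟩
  have key : ∀ x' y' w' s : Ω, x0 - x' = w' * (y0 - y') → ev (s, x' - s * y') (dq m'.f) =
      p * ((w' - s) * (y' - y0)) ^ 2 + (q * s + r) * ((w' - s) * (y' - y0)) +
        (T * s ^ 2 + U * s + T * N) := by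
    intro x' y' w' s h
    rw [← hN, v3, v3, hq, hr, ← hp, show x' = x0 - w' * (y0 - y') by linear_combination -h]
    ring
  have r1 := rel (lam := ν) (κ := k * ev (v.x, v.y) (pderiv 0 m.f) ^ 2) fun s => by
    rw [← key _ _ _ s e1, hD, q1]; ring
  have r2 := rel (lam := 0) (κ := ev (v'.x, v'.y) (pderiv 0 m'.f) ^ 2) fun s => by
    rw [← key _ _ _ s e2, q2]; ring
  have r3 := rel (lam := 0) (κ := ev (x, y) (pderiv 0 m'.f) ^ 2) fun s => by
    rw [← key _ _ _ s e3, q3]; ring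
  rw [← hw] at r1 r2 r3
  have i0 := st.i0
  have i1 := st.i1
  unfold Inc at i0 i1 i'
  have j1 : (v'.w - l1.1) * (v'.y - y0) = (v.w - l1.1) * (v.y - y0) := by
    linear_combination e2 - e1 + i' - i1
  have hY : v.y - y0 ≠ v'.y - y0 := fun h => hy (by linear_combination h)
  have n23 : v'.w ≠ w := by
    intro h
    have Y2 : v'.y - y0 ≠ 0 := fun h' => by
      rw [h', mul_zero] at j1
      rcases mul_eq_zero.1 j1.symm with h'' | h''
      · exact nt (sub_eq_zero.1 h'').symm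
      · exact hY (by rw [h', h''])
    have a1 : q * v'.w + r = 0 := by
      rw [← h] at r2
      refine mul_right_cancel₀ (mul_ne_zero Y2 w2) ?_
      linear_combination r2
    refine mul_ne_zero (mul_ne_zero (by norm_num : (4 : Ω) ≠ 0) (hA _ n2)) x2 ?_
    simp only [Vx.p, v1, v2] at sl2 ⊢
    rw [hq, hr, hp] at a1
    simp only [map_sub, map_mul, map_pow, map_ofNat] at a1
    linear_combination -a1 + 2 * (2 * algebraMap C Ω a * v'.w + algebraMap C Ω b) * sl2 +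
      2 * (algebraMap C Ω b ^ 2 - 4 * algebraMap C Ω a * algebraMap C Ω c) * e2
  have j3 := col r1 r2 r3 hT w2 w3 n23 hY s1 j1 st.rf
  have i3 : x = l0.2 + l0.1 * y := by linear_combination j3 + i0 + e1 - e3
  obtain ⟨w', on⟩ := h1.pt m' x y f3 (by
    rintro ⟨⟨α, hα⟩, ⟨β, hβ⟩⟩
    have := hl (X 1 + MvPolynomial.C β * X 0 - MvPolynomial.C α) (by
      simp only [ev, map_sub, map_add, map_mul, MvPolynomial.aeval_C, MvPolynomial.aeval_X,
        Matrix.cons_val_zero, Matrix.cons_val_one]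
      rw [← hα, ← hβ]; linear_combination -i3)
    have a1 := congrArg (MvPolynomial.eval ![0, α + 1]) this
    simp at a1)
  have x3 := h1.fx m' _ on
  have sl4 := on.sl
  simp only [Vx.p] at x3 sl4
  have : w' = w := mul_right_cancel₀ x3 (by linear_combination sl4 - sl3)
  subst this
  exact ⟨_, on, i3, hw, e3⟩

end Swap

variable {C Ω : Type} [Field C] [IsAlgClosed C] [Field Ω] [CharZero Ω] [IsAlgClosed Ω]
  [Algebra C Ω]

omit [IsAlgClosed Ω] in
theorem swap (h1 : B1 C Ω) (h2 : B2 C Ω) : SWAP C Ω := by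
  rintro m m' ρ0 ρ1 ρ2 v v' ⟨hm, hm', k, ν, hk, hD⟩ hne g0 r1 r2
  have s1 := h2.rf m ρ0 ρ1 v r1 g0
  have g1 := h2.gen _ _ _ _ s1 g0
  have s2 := h2.rf m' ρ1 ρ2 v' r2 g1
  have g2 := h2.gen _ _ _ _ s2 g1
  have hy : v.y ≠ v'.y := fun h => hne (h1.uniq m m' v v' r1.on r2.on (by
    have a1 := r1.i1
    have a2 := r2.i0
    unfold Inc at a1 a2
    simp only [Vx.p, a1, a2, h])).1
  obtain ⟨x0, y0, e1, e2, hO⟩ := Swap.exO h1 g1 r1.on r2.on r1.i1 r2.i0 hy
  obtain ⟨T, U, N, hT, hN⟩ := Swap.exN h1 hm r1.on hO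
  have hk' : algebraMap C Ω k ≠ 0 := by simpa using hk
  have hD' : ∀ l : Ω × Ω, ev l (dq m'.f) =
      algebraMap C Ω k * ev l (dq m.f) + algebraMap C Ω ν * l.1 := by
    intro l
    rw [hD]
    simp only [ev, map_add, map_mul, MvPolynomial.aeval_C, MvPolynomial.aeval_X,
      Matrix.cons_val_zero]
  have n1 := h2.s0 _ _ _ _ s2
  obtain ⟨u, on, i0, hw, e3⟩ := Swap.half h1 hm hm' hD' g0 s1 r2.on r2.i0 hy n1
    (h2.symm _ _ _ _ s1).nt e1 e2 hO (T := algebraMap C Ω k * T)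
    (U := algebraMap C Ω k * U + algebraMap C Ω ν) (N := N) (mul_ne_zero hk' hT)
    (fun s => by rw [hD', hN]; ring)
  obtain ⟨u', on', i2, hw', e4⟩ := Swap.half h1 hm' hm (k := (algebraMap C Ω k)⁻¹)
    (ν := -(algebraMap C Ω k)⁻¹ * algebraMap C Ω ν) (fun l => by rw [hD']; field_simp; ring) g2
    (h2.symm _ _ _ _ s2) r1.on r1.i1 hy.symm n1 s2.nt e2 e1 hO hT hN
  have f1 := r1.rf
  have f2 := r2.rf
  have z0 : ρ0.z ≠ 0 := fun h => h1.w0 m v r1.on (by rw [← f1, h, zero_mul])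
  have z1 : ρ1.z ≠ 0 := fun h => h1.w0 m v r1.on (by rw [← f1, h, mul_zero])
  have z2 : ρ2.z ≠ 0 := fun h => h1.w0 m' v' r2.on (by rw [← f2, h, mul_zero])
  obtain ⟨z, f3⟩ : ∃ z, ρ0.z * z = u.w := ⟨u.w / ρ0.z, mul_div_cancel₀ _ z0⟩
  have f4 : z * ρ2.z = u'.w := by
    apply mul_right_cancel₀ (mul_ne_zero z0 z1)
    linear_combination ρ1.z * ρ2.z * f3 + u.w * f2 + hw - hw' - u'.w * f1
  have a0 := r1.i0
  have a1 := r1.i1
  have b1 := r2.i0
  have b2 := r2.i1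
  have t1 := r1.tm
  have t2 := r2.tm
  have i0' := i0
  have i2' := i2
  simp only [Inc, Ray.ln] at a0 a1 b1 b2 i0' i2'
  rw [← f1] at e1
  rw [← f2] at e2
  rw [← f3] at e3
  rw [← f4] at e4
  have k1 : (ρ1.z - ρ0.z) * (v.y - y0) = (z - ρ0.z) * (u.y - y0) :=
    mul_left_cancel₀ z0 (by linear_combination e1 - e3 + a0 - i0')
  have k2 : (ρ0.z - ρ1.z) * (v.y - y0) = (ρ2.z - ρ1.z) * (v'.y - y0) :=
    mul_left_cancel₀ z1 (by linear_combination e1 - e2 + a1 - b1)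
  have k3 : (ρ1.z - ρ2.z) * (v'.y - y0) = (z - ρ2.z) * (u'.y - y0) :=
    mul_left_cancel₀ z2 (by linear_combination e2 - e4 + b2 - i2')
  refine ⟨u, ⟨z, u.x - z ^ 2 * u.y, ρ0.e + ρ0.z * u.y - z * u.y⟩, u',
    ⟨on, i0, ?_, f3, by ring⟩, ⟨on', ?_, i2, f4, ?_⟩⟩
  · simp only [Inc, Ray.ln]; ring
  · simp only [Inc, Ray.ln]
    linear_combination e3 - e4 + z * (k3 - k2 - k1)
  · simp only
    linear_combination t1 + t2 + k1 - k3

end Pool.Agent.MP_249f74_an.H96A
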