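import Pool.Agent.MP_249f74_an.H96A.Fin
import Pool.Agent.MP_249f74_an.H96A.B1
import Pool.Agent.MP_249f74_an.H96A.B2
import Pool.Agent.MP_249f74_an.H96A.B3
import Pool.Agent.MP_249f74_an.H96A.Grp
import Pool.Agent.MP_249f74_an.H96A.Mv
import Pool.Agent.MP_249f74_an.H96A.Place
import Pool.Agent.MP_249f74_an.H96A.Lift
import Pool.Agent.MP_249f74_an.H96A.Sec1
import Pool.Agent.MP_249f74_an.H96A.Tan
import Pool.Agent.MP_249f74_an.H96A.Sec
import Pool.Agent.MP_249f74_an.H96A.Par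
import Pool.Agent.MP_249f74_an.H96A.Inv
import Pool.Agent.MP_249f74_an.H96A.Geo
import Pool.Agent.MP_249f74_an.H96A.Br
import Pool.Agent.MP_249f74_an.H96A.Run
import Pool.Agent.MP_249f74_an.H96A.Co1
import Pool.Agent.MP_249f74_an.H96A.Co2
import Pool.Agent.MP_249f74_an.H96A.Hk
import Pool.Agent.MP_249f74_an.H96A.Ht
import Pool.Agent.MP_249f74_an.H96A.Param
import Pool.Agent.MP_249f74_an.H96A.Orb
import Pool.Agent.MP_249f74_an.H96A.Conic
import Pool.Agent.MP_249f74_an.H96A.Link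
import Pool.Agent.MP_249f74_an.H96A.Free
import Pool.Agent.MP_249f74_an.H96A.Swap
import Pool.Agent.MP_249f74_an.H96A.Norm
import Pool.Agent.MP_249f74_an.H96A.Down
import Pool.Agent.MP_249f74_an.H96A.Conv
import Pool.Agent.MP_249f74_an.H9.An

/-!
Ivrii's conjecture in the plane.
-/

namespace Pool.Agent.MP_249f74_an.H96A

theorem all1 : All B1 := fun _ _ _ _ _ _ _ _ => b1

theorem all2 : All B2 := fun _ _ _ _ _ _ _ _ => b2 b1

theorem zero_sf : All fun C Ω _ _ _ => Sf C Ω → ZERO C Ω := fun C Ω _ _ _ _ _ _ hS => by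
  have h1 : B1 C Ω := b1
  have h2 := b2 h1
  have h3 := b3 hS
  have hL := lift hS h1 h2 h3 place
  have s1 := sec1 hS h1 h2 h3
  have hT := tan h1 h2 h3
  have s2 := sec' hS h1 h2 h3 grp hL s1 hT
  have hP := par h2 h3 grp hL
  have c1 := co1 h1 h2
  have c2 := co2 h1 h2 h3 grp hT c1
  exact zero (norm h1 h2 (swap h1 h2)) (fin h2 h3 s2 hP c1
    (run h1 h2 grp mv s1 s2 (br h2 h3 hP (geo h1 h2 h3 (inv h1))))
    (con h1 h2 h3 grp s1 s2 hP c1 (orb h1 h2 h3 c1 (ht' hk) (param h1)))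
    (link h1 h2 h3 grp s1 s2 hP c1 c2) (free h2 grp))

theorem stmtA : H96.StmtA H9.Sy := conv all1 (down all1 all2 zero_sf)

theorem planar (n : ℕ) : H17.Final (n + 1) := H9.full_sy stmtA n

end Pool.Agent.MP_249f74_an.H96A
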