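import Pool.Agent.MP_249f74_an.H96A.Spec

/-!
The prime polynomial of a generic point of a plane curve.
-/

namespace Pool.Agent.MP_249f74_an.H96A

variable {C Ω : Type} [Field C] [Field Ω] [Algebra C Ω]

namespace Curve

lemma trans [IsAlgClosed C] {a : Ω} (h : ¬Cst C a) : Transcendental C a := fun h' => by
  obtain ⟨k, hk⟩ := minpoly.mem_range_of_degree_eq_one C a
    (IsAlgClosed.degree_eq_one_of_irreducible C (minpoly.irreducible h'.isIntegral))
  exact h ⟨k, hk.symm⟩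

lemma gen_aux {y : Fin 2 → Ω} {i j : Fin 2} (hij : ∀ k, k ≠ j → k = i)
    (hi : i ≠ j) (h : Transcendental C (y i)) : H88.Gen C y := by
  let _ : Unique {k // k ≠ j} := ⟨⟨⟨i, hi⟩⟩, fun k => Subtype.ext (hij k k.2)⟩
  exact ⟨j, algebraicIndependent_unique_type_iff.2 h⟩

/-- A pair that is not constant is generic in the sense of hypersurfaces. -/
lemma gen [IsAlgClosed C] {l : Ω × Ω} (h : ¬(Cst C l.1 ∧ Cst C l.2)) :
    H88.Gen C ![l.1, l.2] := by
  rcases not_and_or.1 h with h | h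
  · exact gen_aux (i := 0) (j := 1) (by decide) (by decide) (trans h)
  · exact gen_aux (i := 1) (j := 0) (by decide) (by decide) (trans h)

/-- The kernel of the evaluation is generated by any irreducible element. -/
lemma ker [IsAlgClosed C] {l : Ω × Ω} (h : ¬(Cst C l.1 ∧ Cst C l.2)) {π : P2 C}
    (hπ : Irreducible π) (h0 : ev l π = 0) (F : P2 C) : ev l F = 0 ↔ π ∣ F :=
  ⟨fun hF => H88.dvd_of_gen (gen h) hπ h0 hF, by
    rintro ⟨G, rfl⟩; rw [map_mul, h0, zero_mul]⟩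

lemma exists_irr {l : Ω × Ω} {F : P2 C} (hF : F ≠ 0) (h : ev l F = 0) :
    ∃ π : P2 C, Irreducible π ∧ ev l π = 0 := by
  induction F using WfDvdMonoid.induction_on_irreducible with
  | zero => exact absurd rfl hF
  | unit u hu => exact absurd h (hu.map (ev l)).ne_zero
  | mul a i ha hi ih =>
    rw [map_mul] at h
    rcases mul_eq_zero.1 h with h | h
    exacts [⟨i, hi, h⟩, ih ha h]

end Curve

theorem curve [IsAlgClosed C] (l : Ω × Ω) (hg : ¬Gen C l) (hc : ¬(Cst C l.1 ∧ Cst C l.2)) :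
    ∃ π : P2 C, Prime π ∧ ∀ F, ev l F = 0 ↔ π ∣ F := by
  obtain ⟨F, h1, h2⟩ : ∃ F : P2 C, ev l F = 0 ∧ F ≠ 0 := by
    by_contra hh
    exact hg fun F hF => by_contra fun h => hh ⟨F, hF, h⟩
  obtain ⟨π, p1, p2⟩ := Curve.exists_irr h2 h1
  exact ⟨π, p1.prime, Curve.ker hc p1 p2⟩

end Pool.Agent.MP_249f74_an.H96A
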