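import Pool.Agent.MP_249f74_an.H96A.Ch

/-!
The main induction: reduced chains are free and do not close up.
-/

namespace Pool.Agent.MP_249f74_an.H96A

variable {C Ω : Type} [Field C] [IsAlgClosed C] [Field Ω] [Algebra C Ω]

/-- The three statements for subchains of length at most `d`. -/
def Tow (C Ω : Type) [Field C] [Field Ω] [Algebra C Ω] (d : ℤ) : Prop :=
  ∀ (m : ℤ → Mir C) (L : ℤ → Ω × Ω) (v : ℤ → Vx Ω) (a e : ℤ), Chn m L v a e → Gen C (L a) →
    Red m a e → ∀ i j, a ≤ i → i ≤ j → j ≤ e → j - i ≤ d →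
      (j < e → FR m L v i j) ∧ (i < j → G2 m L v i j) ∧ (a < i → j < e → NL m L v i j)

omit [IsAlgClosed C] in
lemma tow (h2 : B2 C Ω) (hS : SEC C Ω) (hP : PAR C Ω) (hC : CO1 C Ω) (hR : RUN C Ω)
    (hK : CON C Ω) (hL : LINK C Ω) (hF : FREE C Ω) (d : ℕ) : Tow C Ω (d - 1) := by
  induction d with
  | zero => exact fun m L v a e _ _ _ i j _ _ _ _ => by omega
  | succ d ih =>
    intro m L v a e hc hg hr
    have gen := fun i => hc.gen (i := i) h2 hg
    have ff : ∀ i j, a < i → i ≤ j → j ≤ e → j - i ≤ d - 1 → FF m L v i j := fun i j h1 h3 h4 h5 =>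
      FR_rev.1 ((ih _ _ _ _ _ (hc.rev h2) (by simpa [rl] using gen e (by omega) le_rfl) hr.rev
        (-j) (-i) (by omega) (by omega) (by omega) (by omega)).1 (by omega))
    have ih' := ih m L v a e hc hg hr
    have g2 : ∀ i j, a ≤ i → i < j → j ≤ e → j - i ≤ d → G2 m L v i j := by
      intro i j h1 h3 h4 h5 b x r Ψ k hb hrel
      have b1 := hb.ab
      have b2 := hb.be
      have hi := gen i h1 (by omega)
      have hm := hR m L v i b j x r Ψ k (hc.mono h1 h4) hi hb
        (fun s t s1 s2 s3 => (ih' s t (by omega) s2 (by omega) (by omega)).1 (by omega))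
        (fun s t s1 s2 s3 => ff s t (by omega) s2 (by omega) (by omega))
        (fun s t s1 s2 s3 => (ih' s t (by omega) s2 (by omega) (by omega)).2.2 (by omega)
          (by omega)) hrel
      refine ⟨hm, hK m L v i b j x r Ψ k (hc.mono h1 h4) hi hb
        ((ih' i b h1 b1 (by omega) (by omega)).1 (by omega)) (fun r' Φ k' h' h6 => ?_) hrel hm⟩
      rcases b1.eq_or_lt with rfl | b3
      · exact hP.zero (Φ := 1) (Φ' := 1) (r := r') hi h'.cur h'.sf h'.zero (by simp) (by simp)
          (by simp [h'.sq]) (m i) (hg_self (C := C) (v := v) ▸ h'.hr)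
      · obtain ⟨c, hc'⟩ := exists_run m b3
        have := (ih' i b h1 b1 (by omega) (by omega)).2.1 b3 c 1 r' Φ k' hc'
          ⟨h'.x0, fun σ _ => map_one σ, h'.hr, h'.sq, h'.sf, h'.cur, h'.zero⟩
        exact hC.huge _ _ this.1 h6 (this.2 (h6.mono (by omega)))
    intro i j h1 h3 h4 h5
    push_cast at h5
    refine ⟨fun h6 => ?_, fun h6 => g2 i j h1 h6 h4 (by omega), fun h6 h7 =>
      hL m L v i j h3 (hc.mono h1 h4) (gen i h1 (by omega)) (hr.mono (by omega) (by omega))
        fun t t1 t2 => g2 i t h1 t1 (by omega) (by omega)⟩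
    rcases h3.eq_or_lt with rfl | h7
    · rw [FR, hg_self, Fr, if_neg (lt_irrefl _)]
      exact hS.full _ _ (gen i h1 h4)
    · have := ih' (i + 1) j (by omega) h7 h4 (by omega)
      exact hF m L v i j h7 (hc.mono h1 h4) (gen i h1 (by omega))
        (ff _ _ (by omega) h7 h4 (by omega)) (this.1 h6) (this.2.2 (by omega) h6)

open MvPolynomial in
lemma cusp {t : Ω} (ht : ¬Cst C t) : Cur C (t, t ^ 3) ∧ Dg C 3 (t, t ^ 3) := by
  have tr : Transcendental C t := fun h => ht <| by
    obtain ⟨k, hk⟩ := minpoly.degree_eq_one_iff.1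
      (IsAlgClosed.degree_eq_one_of_irreducible C (minpoly.irreducible h.isIntegral))
    exact ⟨k, hk.symm⟩
  refine ⟨⟨fun h => ?_, fun h => ht h.1, fun h => ht ⟨0, by simpa using h⟩⟩, fun F h0 hF => ?_⟩
  · have := congrArg (eval ![0, 1]) (h (X 1 - X 0 ^ 3) (by simp [ev]))
    simp at this
  · by_contra hd
    obtain ⟨s, hs⟩ := support_nonempty.2 h0
    have e : ∀ u : Fin 2 →₀ ℕ, u ∈ F.support → u 0 + u 1 ≤ 2 := fun u hu => by
      have := le_totalDegree hu
      rw [Finsupp.sum_fintype _ _ (by simp), Fin.sum_univ_two] at this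
      omega
    have h1 : Polynomial.aeval t (∑ u ∈ F.support, Polynomial.monomial (u 0 + 3 * u 1)
        (coeff u F)) = 0 := by
      rw [← hF, ev, aeval_def, eval₂_eq', map_sum]
      simp [Polynomial.aeval_monomial, pow_add, pow_mul]
    have h2 := congrArg (Polynomial.coeff · (s 0 + 3 * s 1)) (transcendental_iff.1 tr _ h1)
    simp only [Polynomial.finsetSum_coeff, Polynomial.coeff_monomial, Polynomial.coeff_zero] at h2
    rw [Finset.sum_eq_single s (fun u hu hn => if_neg fun h3 => hn ?_) (fun h => absurd hs h),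
      if_pos rfl] at h2
    · exact mem_support_iff.1 hs h2
    · have := e u hu
      have := e s hs
      ext i; fin_cases i <;> simp <;> omega

theorem fin (h2 : B2 C Ω) (h3 : B3 C Ω) (hS : SEC C Ω) (hP : PAR C Ω) (hC : CO1 C Ω)
    (hR : RUN C Ω) (hK : CON C Ω) (hL : LINK C Ω) (hF : FREE C Ω) : FIN C Ω := by
  intro m L v a e hae hc hg hr hle
  obtain ⟨b, hb⟩ := exists_run m hae
  have hk := cusp hg.nc
  obtain ⟨π, hπ, hz⟩ := h3.curve _ hk.1.ng hk.1.nc
  have hx : Inv (FL C (L a)) (ev (L e) π) := (inv_ev _ _).mono hle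
  have := (tow h2 hS hP hC hR hK hL hF ((e - a).toNat + 1) m L v a e hc hg hr a e le_rfl hae.le
    le_rfl (by omega)).2.1 hae b _ _ _ _ hb
    ⟨fun h => hπ.ne_zero (hc.gen h2 hg hae.le le_rfl _ h), hx.mono (hg_fl le_rfl hb.ab),
      hx.mono (hg_fl le_rfl hae.le), sq _, hπ.squarefree, hk.1, (hz _).2 dvd_rfl⟩
  exact hC.huge _ _ this.1 hk.2 (this.2 (hk.2.mono (by omega)))

omit [IsAlgClosed C] in
theorem zero (hN : NORM C Ω) (hF : FIN C Ω) : ZERO C Ω := fun ρ ρ' hg hp h1 h2 => by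
  refine (hN ρ ρ' hg hp).resolve_right fun ⟨m, L, v, n, hn, hc, hr, e0, e1⟩ =>
    hF m L v 0 n hn hc (e0 ▸ hg) hr fun σ hσ => ?_
  have : ∀ t ∈ IntermediateField.adjoin C {ρ.ln.1, ρ.ln.2}, σ t = t := fun t ht => by
    induction ht using IntermediateField.adjoin_induction with
    | mem t h => exact hσ t (e0 ▸ h)
    | algebraMap k => exact σ.commutes k
    | add _ _ _ _ h h' => rw [map_add, h, h']
    | inv _ _ h => rw [map_inv₀, h]
    | mul _ _ _ _ h h' => rw [map_mul, h, h']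
  rw [e1]
  exact mem_FL.2 ⟨this _ h1, this _ h2⟩

end Pool.Agent.MP_249f74_an.H96A
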