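import Pool.Agent.MP_249f74_an.H96A.Ch

/-!
The signs at both ends of a reduced chain are independent.
-/

namespace Pool.Agent.MP_249f74_an.H96A

open scoped Classical

variable {C Ω : Type} [Field C] [Field Ω] [Algebra C Ω]

namespace Link

variable {m : ℤ → Mir C} {L : ℤ → Ω × Ω} {v : ℤ → Vx Ω} {a b j : ℤ}

lemma gen_ne {l : Ω × Ω} (h : Gen C l) {F : P2 C} (hF : F ≠ 0) : ev l F ≠ 0 :=
  fun e => hF (h F e)

lemma sg_sq (σ : Ω ≃ₐ[C] Ω) (P : Finset Ω) :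
    ((sg σ P : ℤ) : Ω) * ((sg σ P : ℤ) : Ω) = 1 := by
  rcases Int.units_eq_one_or (sg σ P) with h | h <;> simp [h]

/-- The product of the two square roots is invariant when the signs agree. -/
lemma inv_prod [IsAlgClosed Ω] {H : Subgroup (Ω ≃ₐ[C] Ω)} {U X : Mir C} {l l' : Ω × Ω}
    {Δ Δ' : P2 C} (hU : Dsc U l Δ) (hX : Dsc X l' Δ') (h1 : H ≤ FL C l) (h2 : H ≤ FL C l')
    (hs : ∀ σ ∈ H, sg σ (Pts U l) = sg σ (Pts X l')) :
    ∃ r : Ω, Inv H r ∧ r ^ 2 = ev l Δ * ev l' Δ' := by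
  obtain ⟨ρ, hρ⟩ := IsAlgClosed.exists_pow_nat_eq (ev l Δ) (n := 2) (by norm_num)
  obtain ⟨ρ', hρ'⟩ := IsAlgClosed.exists_pow_nat_eq (ev l' Δ') (n := 2) (by norm_num)
  refine ⟨ρ * ρ', fun σ hσ => ?_, by rw [mul_pow, hρ, hρ']⟩
  rw [map_mul, hU.sgn σ (h1 hσ) ρ hρ, hX.sgn σ (h2 hσ) ρ' hρ', hs σ hσ]
  have := sg_sq σ (Pts X l')
  linear_combination ρ * ρ' * this

/-- A relation at the end of a chain makes the last mirror confocal with the curve. -/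
lemma conf_of (h1 : B1 C Ω) (hc2 : CO2 C Ω) {X : Mir C} {u : Vx Ω} (hu : X.On u) (haj : a < j)
    (hG : G2 m L v a j) {x r : Ω} {Ψ : P2 C} (hx0 : x ≠ 0) (hx : Inv (FL C (L a)) x)
    (hr : Inv (Hg C L v a j) r) (hsq : r ^ 2 = x * ev (L j) Ψ) (hΨ : Squarefree Ψ)
    (h0 : ev u.tl Ψ = 0) : Conf (m (j - 1)) X := by
  obtain ⟨c, hc⟩ := exists_run m haj
  obtain ⟨h3, h4⟩ := hG c x r Ψ u.tl hc
    ⟨hx0, hx.mono (hg_fl le_rfl hc.ab), hr, hsq, hΨ, (h1.tl X u hu).1, h0⟩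
  exact hc2.fam _ _ u h3 hu (h4 (h1.tl X u hu).2)

/-- An element whose square is invariant becomes invariant after a twist by a sign. -/
lemma twist [CharZero Ω] {H : Subgroup (Ω ≃ₐ[C] Ω)} {y r e : Ω} (he0 : e ≠ 0)
    (he : ∀ σ ∈ H, (σ y = y → σ e = e) ∧ (σ y ≠ y → σ e = -e))
    (hr : Inv (H ⊓ Fx C {y}) r) (hr2 : Inv H (r ^ 2)) : Inv H r ∨ Inv H (r * e) := by
  by_cases h : Inv H r
  · exact Or.inl h
  right
  simp only [Inv, not_forall] at h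
  obtain ⟨τ, hτ, hτr⟩ := h
  have hτy : τ y ≠ y := fun e => hτr (hr τ ⟨hτ, mem_Fx_one.2 e⟩)
  have hτe := (he τ hτ).2 hτy
  have hτr' : τ r = -r := by
    have := hr2 τ hτ
    rw [map_pow] at this
    exact (sq_eq_sq_iff_eq_or_eq_neg.1 this).resolve_left hτr
  intro σ hσ
  by_cases hy : σ y = y
  · rw [map_mul, hr σ ⟨hσ, mem_Fx_one.2 hy⟩, (he σ hσ).1 hy]
  have hσe := (he σ hσ).2 hy
  have hm : τ⁻¹ * σ ∈ H := H.mul_mem (H.inv_mem hτ) hσ
  have h3 : ∀ t : Ω, τ ((τ⁻¹ * σ) t) = σ t := fun t => by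
    rw [← AlgEquiv.mul_apply, mul_inv_cancel_left]
  have h4 : (τ⁻¹ * σ) e = e := τ.injective (by rw [h3, hσe, hτe])
  have h5 : (τ⁻¹ * σ) y = y := by
    by_contra h6
    have := (he _ hm).2 h6
    rw [h4] at this
    exact he0 (by linear_combination this / 2)
  have h6 := hr _ ⟨hm, mem_Fx_one.2 h5⟩
  have h7 : σ r = -r := by rw [← h3, h6, hτr']
  rw [map_mul, h7, hσe]; ring

/-- The relation that is moved to the left along the chain. -/
def Mv (L : ℤ → Ω × Ω) (v : ℤ → Vx Ω) (X : Mir C) (k : Ω × Ω) (x : Ω) (a j : ℤ) : Prop :=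
  ∃ (Φ : P2 C) (N : ℕ) (r : Ω), ev k Φ ≠ 0 ∧
    (∀ (m' : Mir C) (l l' : Ω × Ω) (u : Vx Ω), Conf m' X → St m' l u l' →
      ev l' Φ * l.1 ^ N = ev l Φ * l'.1 ^ N) ∧
    Inv (Hg C L v a j) r ∧ r ^ 2 = x * ev (L j) (dq X.f) * ev (L j) Φ

lemma mv_conf (h1 : B1 C Ω) (h3 : B3 C Ω) (hc2 : CO2 C Ω) {X : Mir C} {u : Vx Ω} (hu : X.On u)
    (hX : X.Con) (haj : a < j) (hG : G2 m L v a j) (hg : Gen C (L j)) {x : Ω} (hx0 : x ≠ 0)
    (hx : Inv (FL C (L a)) x) (h : Mv L v X u.tl x a j) : Conf (m (j - 1)) X := by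
  obtain ⟨Φ, N, r, hΦ, -, hr, hsq⟩ := h
  have hD := hc2.dsc X _ hX hg
  obtain ⟨Ψ, A, hΨ, hA, e, h0⟩ := h3.odd u.tl _ Φ (h1.tl X u hu).1 hD.sq (hD.own u hu) hΦ
  have hA' := gen_ne hg hA
  refine conf_of h1 hc2 hu haj hG hx0 hx
    (hr.div ((inv_ev _ A).mono (hg_fl haj.le le_rfl))) ?_ hΨ h0
  have := congrArg (ev (L j)) e
  rw [map_mul, map_mul, map_pow] at this
  rw [div_pow, hsq, mul_assoc, this]
  field_simp

lemma mv_step [CharZero Ω] (h1 : B1 C Ω) (h2 : B2 C Ω) (hc1 : CO1 C Ω) (hc2 : CO2 C Ω)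
    {X : Mir C} {u : Vx Ω} (hu : X.On u) (haj : a ≤ j) (hch : Chn m L v a (j + 1))
    (hg : Gen C (L j)) {x : Ω} (hx : Inv (FL C (L a)) x) (hc : Conf (m j) X) (hne : m j ≠ X)
    (h : Mv L v X u.tl x a (j + 1)) : Mv L v X u.tl x a j := by
  obtain ⟨Φ, N, r, hΦ, hN, hr, hsq⟩ := h
  have hst := hch.st j haj (by omega)
  have hw := h1.w0 _ _ hst.on
  have hs := h2.s0 _ _ _ _ hst
  have e1 := hc1.inv _ _ _ _ _ hc hst
  have e2 := hN _ _ _ _ hc hst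
  have e3 := hst.rf
  have hw' : Inv (Hg C L v a (j + 1)) (v j).w := fun σ hσ =>
    congrArg Vx.w (hch.fixv h2 hσ haj (by omega))
  have hs' : Inv (Hg C L v a (j + 1)) (L j).1 := fun σ hσ =>
    (mem_FL.1 (hg_fl haj (by omega) hσ)).1
  have hr1 : Inv (Hg C L v a (j + 1)) (r * ((L j).1 / (v j).w) ^ (N + 1)) :=
    hr.mul ((hs'.div hw').pow _)
  have hs1 : (L (j + 1)).1 = (v j).w ^ 2 / (L j).1 := by
    rw [← e3]; field_simp
  have hsq1 : (r * ((L j).1 / (v j).w) ^ (N + 1)) ^ 2 =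
      x * ev (L j) (dq X.f) * ev (L j) Φ := by
    have e4 : ev (L (j + 1)) (dq X.f) = ev (L j) (dq X.f) * ((v j).w / (L j).1) ^ 2 := by
      rw [hs1] at e1
      field_simp at e1 ⊢
      linear_combination e1
    have e5 : ev (L (j + 1)) Φ = ev (L j) Φ * (((v j).w / (L j).1) ^ 2) ^ N := by
      have hp : (L j).1 ^ N ≠ 0 := pow_ne_zero _ hs
      refine mul_right_cancel₀ hp ?_
      rw [e2, hs1, mul_assoc, ← mul_pow]
      congr 2
      field_simp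
    have e6 : ((v j).w / (L j).1) ^ 2 * ((L j).1 / (v j).w) ^ 2 = 1 := by field_simp
    have e7 : (((v j).w / (L j).1) ^ 2) ^ N * (((L j).1 / (v j).w) ^ 2) ^ N = 1 := by
      rw [← mul_pow, e6, one_pow]
    have e8 : (((L j).1 / (v j).w) ^ (N + 1)) ^ 2 =
        (((L j).1 / (v j).w) ^ 2) ^ N * ((L j).1 / (v j).w) ^ 2 := by
      rw [← pow_mul, mul_comm (N + 1) 2, pow_mul, pow_succ _ N]
    rw [mul_pow, hsq, e4, e5, e8]
    linear_combination (x * ev (L j) (dq X.f) * ev (L j) Φ) *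
      ((((v j).w / (L j).1) ^ 2) ^ N * (((L j).1 / (v j).w) ^ 2) ^ N * e6 + e7)
  obtain ⟨e, he0, he2, he⟩ := hc1.flip _ _ _ _ hc.1 hst
  have hle : Hg C L v a j ≤ FL C (L j) := hg_fl haj le_rfl
  rw [hch.hg_right h2 haj] at hr1
  have hi : Inv (Hg C L v a j) ((r * ((L j).1 / (v j).w) ^ (N + 1)) ^ 2) := by
    rw [hsq1]
    exact ((hx.mono (hg_fl le_rfl haj)).mul ((inv_ev _ _).mono hle)).mul ((inv_ev _ _).mono hle)
  rcases twist he0 (fun σ hσ => he σ (hle hσ)) hr1 hi with h4 | h4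
  · exact ⟨Φ, N, _, hΦ, hN, h4, hsq1⟩
  · refine ⟨Φ * dq (m j).f, N + 1, _, ?_, fun m' l l' w hm' hl => ?_, h4, ?_⟩
    · rw [map_mul]
      exact mul_ne_zero hΦ ((hc2.dsc _ _ hc.1 hg).oth X hne.symm u hu)
    · have e4 := hN _ _ _ _ hm' hl
      have e5 := hc1.inv _ _ _ _ _ (hc1.trans _ _ _ hm' (hc1.symm _ _ hc)) hl
      rw [map_mul, map_mul, pow_succ, pow_succ]
      linear_combination (ev l' (dq (m j).f) * l.1) * e4 + (ev l Φ * l'.1 ^ N) * e5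
    · rw [mul_pow, hsq1, he2, map_mul]; ring

end Link

open Link in
theorem link [IsAlgClosed C] [CharZero Ω] [IsAlgClosed Ω] (h1 : B1 C Ω) (h2 : B2 C Ω)
    (h3 : B3 C Ω) (_hG : GRP C Ω) (_hS1 : SEC1 C Ω) (hS : SEC C Ω) (hP : PAR C Ω) (hc1 : CO1 C Ω)
    (hc2 : CO2 C Ω) : LINK C Ω := by
  intro m L v a b hab hch hg hred hG2 hne hcard
  by_contra hcon
  push Not at hcon
  obtain ⟨x0, w0, hu⟩ := h1.ex (m b) (L a).1 hg.nc
  set u : Vx Ω := ⟨x0, (L a).1, w0⟩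
  have hk := (h1.tl _ u hu).1
  have hgb : Gen C (L b) := hch.gen h2 hg hab le_rfl
  obtain ⟨ΔU, hU⟩ := hS.dsc (m (a - 1)) (L a) hg
  obtain ⟨ΔX, hX⟩ := hS.dsc (m b) (L b) hgb
  have hla : Hg C L v a b ≤ FL C (L a) := hg_fl le_rfl hab
  have hlb : Hg C L v a b ≤ FL C (L b) := hg_fl hab le_rfl
  obtain ⟨r, hr, hsq⟩ := inv_prod hU hX hla hlb hcon
  rcases hab.eq_or_lt with rfl | hlt
  · have hne' := hne.resolve_left (lt_irrefl _)
    rw [hg_self] at hr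
    exact hP.zero (Φ' := 1) hg hk hX.sq (hX.own u hu) (hU.oth _ hne'.symm u hu) (by simp)
      (by rw [hsq, map_one]; ring) (m a) hr
  have hx0 : ev (L a) ΔU ≠ 0 := gen_ne hg hU.sq.ne_zero
  have hx := inv_ev (L a) ΔU
  have hcb : Conf (m (b - 1)) (m b) :=
    conf_of h1 hc2 hu hlt (hG2 b hlt le_rfl) hx0 hx hr hsq hX.sq (hX.own u hu)
  have hXc : (m b).Con := hcb.2.1
  have hnb : m (b - 1) ≠ m b := by
    intro e
    have h4 : (v (b - 1)).y ∈ Pts (m b) (L b) := by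
      have := (h2.symm _ _ _ _ (hch.st (b - 1) (by omega) (by omega))).mem h2
      rwa [sub_add_cancel, e] at this
    have h5 := hc1.two (m b) (L b) hXc
    rw [Fr, if_pos hlt, Finset.card_erase_of_mem h4] at hcard
    omega
  have hD := hc2.dsc (m b) (L b) hXc hgb
  obtain ⟨r', hr', hsq'⟩ := inv_prod hU hD hla hlb hcon
  -- no mirror of the chain is the last one
  have hred' : ∀ i, a - 1 ≤ i → i < b → (∀ t, i < t → t ≤ b → Conf (m t) (m b)) → m i ≠ m b := by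
    intro i hi hib hc e
    rcases (show i ≤ b - 1 by omega).eq_or_lt with rfl | h4
    · exact hnb e
    refine hnb ((hred i (b - 1) b hi h4 (by omega) (by omega) e fun t h5 h6 => ?_).trans e)
    rw [e]
    rcases h5.eq_or_lt with rfl | h7
    · rw [e]; exact hc1.refl _ hXc
    · exact hc1.symm _ _ (hc t h7 h6)
  have key : ∀ n : ℕ, a ≤ b - n → (∀ t, b - n ≤ t → t ≤ b → Conf (m t) (m b)) ∧
      Mv L v (m b) u.tl (ev (L a) ΔU) a (b - n) := by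
    intro n
    induction n with
    | zero =>
      intro _
      simp only [Nat.cast_zero, sub_zero]
      exact ⟨fun t h4 h5 => by rw [h5.antisymm h4]; exact hc1.refl _ hXc,
        1, 0, r', by simp, by simp, hr', by rw [hsq', map_one, mul_one]⟩
    | succ n ih =>
      intro hn
      push_cast at hn ⊢
      obtain ⟨ih1, ih2⟩ := ih (by omega)
      obtain ⟨j, hj⟩ : ∃ j, j = b - (n + 1) := ⟨_, rfl⟩
      rw [show b - n = j + 1 by omega] at ih1 ih2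
      rw [← hj] at hn ⊢
      have hc : Conf (m j) (m b) := by
        have := mv_conf h1 h3 hc2 hu hXc (show a < j + 1 by omega)
          (hG2 (j + 1) (by omega) (by omega)) (hch.gen h2 hg (by omega) (by omega)) hx0 hx ih2
        rwa [add_sub_cancel_right] at this
      refine ⟨fun t h4 h5 => ?_, mv_step h1 h2 hc1 hc2 hu hn (hch.mono le_rfl (by omega))
        (hch.gen h2 hg hn (by omega)) hx hc
        (hred' j (by omega) (by omega) fun t h4 h5 => ih1 t (by omega) h5) ih2⟩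
      rcases h4.eq_or_lt with rfl | h6
      exacts [hc, ih1 t (by omega) h5]
  obtain ⟨n, hn⟩ : ∃ n : ℕ, b - n = a := ⟨(b - a).toNat, by omega⟩
  obtain ⟨k1, Φ, N, ρ, hΦ, -, hρ, hsqρ⟩ := key n hn.ge
  rw [hn] at k1 hρ hsqρ
  have hUX : m (a - 1) ≠ m b :=
    hred' (a - 1) le_rfl (by omega) fun t h4 h5 => k1 t (by omega) h5
  rw [hg_self] at hρ
  exact hP.zero (Φ' := Φ) hg hk hD.sq (hD.own u hu) (hU.oth _ hUX.symm u hu) hΦ
    (by rw [hsqρ]; ring) (m a) hρ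

end Pool.Agent.MP_249f74_an.H96A
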