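import Pool.Agent.MP_249f74_an.H96A.Spec

/-!
Parity along a path of curves.
-/

namespace Pool.Agent.MP_249f74_an.H96A

variable {C Ω : Type} [Field C] [IsAlgClosed C] [Field Ω] [CharZero Ω] [IsAlgClosed Ω]
  [Algebra C Ω]

namespace Par

omit [IsAlgClosed C] [CharZero Ω] [IsAlgClosed Ω]

theorem mp_mul (g h : Ω ≃ₐ[C] Ω) (l : Ω × Ω) : mp (g * h) l = mp g (mp h l) := rfl

theorem mp_inv (g : Ω ≃ₐ[C] Ω) (l : Ω × Ω) : mp g⁻¹ (mp g l) = l := by
  simp only [mp]
  ext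
  · exact g.symm_apply_apply _
  · exact g.symm_apply_apply _

theorem mp_fl {σ : Ω ≃ₐ[C] Ω} {l : Ω × Ω} (h : σ ∈ FL C l) : mp σ l = l := by
  simp only [mp]
  ext
  · exact h _ (by simp)
  · exact h _ (by simp)

theorem mp_hg {L : ℤ → Ω × Ω} {v : ℤ → Vx Ω} {a b t : ℤ} {σ : Ω ≃ₐ[C] Ω}
    (h : σ ∈ Hg C L v a b) (h1 : a ≤ t) (h2 : t ≤ b) : mp σ (L t) = L t := by
  simp only [mp]
  ext
  · exact h _ (Or.inl ⟨t, h1, h2, Or.inl rfl⟩)
  · exact h _ (Or.inl ⟨t, h1, h2, Or.inr rfl⟩)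

theorem gen_mp (h3 : B3 C Ω) (g : Ω ≃ₐ[C] Ω) {l : Ω × Ω} (h : Gen C l) : Gen C (mp g l) := by
  intro F hF
  rw [h3.evmap] at hF
  exact h F (by simpa using hF)

theorem mem_pts (h2 : B2 C Ω) {m : Mir C} {l l' : Ω × Ω} {v : Vx Ω} (h : St m l v l') :
    v.y ∈ Pts m l := by
  rw [h2.mem]
  have e : (l.2 + l.1 * v.y, v.y) = v.p := by
    simp only [Vx.p]
    rw [h.i0]
  rw [e]
  exact h.on.f0

theorem gen_chn (h2 : B2 C Ω) {m : ℤ → Mir C} {L : ℤ → Ω × Ω} {v : ℤ → Vx Ω} {a b : ℤ}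
    (hc : Chn m L v a b) (hg : Gen C (L a)) (i : ℤ) (hi : a ≤ i) : i ≤ b → Gen C (L i) := by
  induction i, hi using Int.leInduction with
  | base => exact fun _ => hg
  | succ i hi ih =>
    intro hb
    exact h2.gen _ _ _ _ (hc.st i hi (by omega)) (ih (by omega))

/-- A conjugate of the chain specializes to the chain of curves. -/
theorem lift (h2 : B2 C Ω) (h3 : B3 C Ω) (hG : GRP C Ω) (hL : LIFT C Ω) {m : ℤ → Mir C}
    {L K : ℤ → Ω × Ω} {v u : ℤ → Vx Ω} {a b : ℤ} (hc : Chn m L v a b) (hg : Gen C (L a))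
    (hF : ∀ i, a ≤ i → i < b → FR m L v a i) (hk : Chn m K u a b) (P : Pl C Ω)
    (hP : P.Sp (L a) (K a)) (i : ℤ) (hi : a ≤ i) : i ≤ b →
      ∃ g : Ω ≃ₐ[C] Ω, mp g (L a) = L a ∧ (∀ t, a ≤ t → t ≤ i → P.Sp (mp g (L t)) (K t)) ∧
        ∀ t, a ≤ t → t < i → P.sp (g (v t).y) (u t).y ∧ P.σ (g (v t).y) = g (v t).y := by
  classical
  induction i, hi using Int.leInduction with
  | base =>
    refine fun _ => ⟨1, rfl, fun t h1 h2 => ?_, fun t h1 h2 => by omega⟩
    obtain rfl : t = a := by omega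
    exact hP
  | succ i hi ih =>
    intro hb
    obtain ⟨g, g0, g1, g2⟩ := ih (by omega)
    have hib : i < b := by omega
    obtain ⟨v1, l', s1, s2, s3, s4⟩ := hL.step P (m i) (mp g (L i)) (K i) (K (i + 1)) (u i)
      (gen_mp h3 g (gen_chn h2 hc hg i hi hib.le)) (g1 i hi le_rfl) (hk.st i hi hib)
    have s5 := h2.map _ _ _ _ g⁻¹ s1
    rw [mp_inv] at s5
    have m1 : g⁻¹ v1.y ∈ Fr m L v a i := by
      have := mem_pts h2 s5
      unfold Fr
      split_ifs with hai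
      · refine Finset.mem_erase.2 ⟨fun e => ?_, this⟩
        have e' : v1.y = g (v (i - 1)).y := by
          rw [← e]
          exact (g.apply_symm_apply _).symm
        have q := (g2 (i - 1) (by omega) (by omega)).1
        rw [← e'] at q
        have := hk.nb (i - 1) (by omega) (by omega)
        rw [sub_add_cancel] at this
        exact this (P.fn q s3)
      · exact this
    have m0 : (v i).y ∈ Fr m L v a i := by
      have := mem_pts h2 (hc.st i hi hib)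
      unfold Fr
      split_ifs with hai
      · refine Finset.mem_erase.2 ⟨fun e => ?_, this⟩
        have := hc.nb (i - 1) (by omega) (by omega)
        rw [sub_add_cancel] at this
        exact this e.symm
      · exact this
    obtain ⟨h, hh, e⟩ := hG.trans _ _ _ _ (hF i hi hib) m0 m1
    have ey : (g * h) (v i).y = v1.y := by
      rw [AlgEquiv.mul_apply, e]
      exact g.apply_symm_apply _
    have el : ∀ t, a ≤ t → t ≤ i → mp (g * h) (L t) = mp g (L t) := fun t h1 h2 => by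
      rw [mp_mul, mp_hg hh h1 h2]
    refine ⟨g * h, by rw [el a le_rfl hi, g0], fun t h1 h2 => ?_, fun t h1 h2 => ?_⟩
    · rcases eq_or_lt_of_le h2 with rfl | h2'
      · have s6 := ‹B2 C Ω›.map _ _ _ _ (g * h) (hc.st i hi hib)
        rw [el i hi le_rfl] at s6
        rw [(‹B2 C Ω›.det _ _ _ _ _ _ s6 s1 ey).2]
        exact s2
      · rw [el t h1 (by omega)]
        exact g1 t h1 (by omega)
    · rcases eq_or_lt_of_le (show t ≤ i by omega) with rfl | h2'
      · rw [ey]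
        exact ⟨s3, s4⟩
      · have : (g * h) (v t).y = g (v t).y := by
          rw [AlgEquiv.mul_apply, hh _ (Or.inr ⟨t, h1, h2', rfl⟩)]
        rw [this]
        exact g2 t h1 h2'

end Par

open Par in
omit [IsAlgClosed C] in
theorem par (h2 : B2 C Ω) (h3 : B3 C Ω) (hG : GRP C Ω) (hL : LIFT C Ω) : PAR C Ω := by
  intro m L K v u a j b Ψ Φ Φ' r haj hjb hc hg hF hk hcur hΨ h0 hj hb hr hI
  obtain ⟨P, hP, hσ⟩ := hL.place (L a) (K a) Ψ hg hcur hΨ h0
  obtain ⟨g, g0, g1, g2⟩ := lift h2 h3 hG hL hc hg hF hk P hP b (haj.trans hjb) le_rfl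
  have hmem : g⁻¹ * P.σ * g ∈ Hg C L v a b := by
    have key : ∀ x, P.σ (g x) = g x → (g⁻¹ * P.σ * g) x = x := fun x hx => by
      rw [AlgEquiv.mul_apply, AlgEquiv.mul_apply, hx]
      exact g.symm_apply_apply _
    rintro x (⟨t, h1, h2', rfl | rfl⟩ | ⟨t, h1, h2', rfl⟩)
    · exact key _ ((g1 t h1 h2').fx _ (Or.inl rfl))
    · exact key _ ((g1 t h1 h2').fx _ (Or.inr rfl))
    · exact key _ (g2 t h1 h2').2
  have hr' : P.σ (g r) = g r := by
    have := congrArg g (hI _ hmem)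
    rw [AlgEquiv.mul_apply, AlgEquiv.mul_apply] at this
    exact (g.apply_symm_apply _).symm.trans this
  obtain ⟨r1, e1⟩ := IsAlgClosed.exists_pow_nat_eq (ev (L a) Ψ) (n := 2) (by norm_num)
  have n1 : r1 ≠ 0 := fun e => hΨ.ne_zero (hg Ψ (by rw [← e1, e]; simp))
  have pj := g1 j haj hjb
  have pb := g1 b (haj.trans hjb) le_rfl
  have sA := P.mul (hL.ev P _ _ Φ pj.s1 pj.s2) (hL.ev P _ _ Φ' pb.s1 pb.s2)
  have fA : P.σ (ev (mp g (L j)) Φ * ev (mp g (L b)) Φ') =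
      ev (mp g (L j)) Φ * ev (mp g (L b)) Φ' := by
    rw [map_mul, ← h3.evmap, ← h3.evmap, mp_fl pj.fx, mp_fl pb.fx]
  have eA : (g r / r1) ^ 2 = ev (mp g (L j)) Φ * ev (mp g (L b)) Φ' := by
    have := congrArg g hr
    rw [map_pow, map_mul, map_mul, ← h3.evmap, ← h3.evmap, ← h3.evmap, g0, ← e1] at this
    rw [div_pow, this]
    field_simp
  have hu := hL.unit P _ _ _ sA (mul_ne_zero hj hb) fA eA
  rw [map_div₀, hr', hσ r1 e1] at hu
  have z : g r / r1 = 0 := by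
    rw [div_neg] at hu
    linear_combination (-1 / 2 : Ω) * hu
  rw [z] at eA
  rw [← eA] at sA
  have c0 := P.cst 0
  rw [map_zero] at c0
  rw [show (0 : Ω) ^ 2 = 0 by simp] at sA
  exact mul_ne_zero hj hb (P.fn sA c0)

end Pool.Agent.MP_249f74_an.H96A
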