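import Pool.Agent.MP_249f74_an.H96A.Defs
import Pool.Agent.MP_249f74_an.H9.Re

/-!
Chains of reflections in algebraic mirrors: statements of the modules.
-/

open Polynomial

namespace Pool.Agent.MP_249f74_an.H96A

open H17 (Der)

variable (C Ω : Type) [Field C] [Field Ω] [Algebra C Ω]

/-- Points of mirrors. -/
structure B1 : Prop where
  fx : ∀ (m : Mir C) (v : Vx Ω), m.On v → ev v.p (MvPolynomial.pderiv 0 m.f) ≠ 0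
  w0 : ∀ (m : Mir C) (v : Vx Ω), m.On v → v.w ≠ 0
  nw : ∀ (m : Mir C) (v : Vx Ω), m.On v → ¬Cst C v.w
  nx : ∀ (m : Mir C) (v : Vx Ω), m.On v → ¬Cst C v.x
  ker : ∀ (m : Mir C) (v : Vx Ω), m.On v → ∀ F : P2 C, ev v.p F = 0 ↔ m.f ∣ F
  uniq : ∀ (m m' : Mir C) (v v' : Vx Ω), m.On v → m'.On v' → v.p = v'.p → m = m' ∧ v = v'
  der : ∀ (m : Mir C) (v : Vx Ω), m.On v → ∃ Z : Der C Ω, Z v.y = 1 ∧ Z v.x = v.w ∧ Z v.w ≠ 0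
  alg : ∀ (m : Mir C) (v : Vx Ω), m.On v → v.x ∈ H88.cl C {v.y} ∧ v.w ∈ H88.cl C {v.y}
  nc : ∀ (m : Mir C) (v : Vx Ω), m.On v → (H96.NC1 C v.x v.y ↔ H96.NC1 C v.y v.x)
  tl : ∀ (m : Mir C) (v : Vx Ω), m.On v → Cur C v.tl ∧ Dg C 2 v.tl
  pt : ∀ (m : Mir C) (x y : Ω), ev (x, y) m.f = 0 → ¬(Cst C x ∧ Cst C y) → ∃ w, m.On ⟨x, y, w⟩
  ex : ∀ (m : Mir C) (y : Ω), ¬Cst C y → ∃ x w, m.On ⟨x, y, w⟩
  mir : ∀ (x y w : Ω) (Z : Der C Ω), Z y = 1 → Z x = w → Z w ≠ 0 → x ∈ H88.cl C {y} →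
    (H96.NC1 C x y ↔ H96.NC1 C y x) → ∃ m : Mir C, m.On ⟨x, y, w⟩

/-- Reflections. -/
structure B2 : Prop where
  sec0 : ∀ (m : Mir C) (l : Ω × Ω), sec m.f l ≠ 0
  mem : ∀ (m : Mir C) (l : Ω × Ω) (y : Ω), y ∈ Pts m l ↔ ev (l.2 + l.1 * y, y) m.f = 0
  symm : ∀ (m : Mir C) (l l' : Ω × Ω) (v : Vx Ω), St m l v l' → St m l' v l
  s0 : ∀ (m : Mir C) (l l' : Ω × Ω) (v : Vx Ω), St m l v l' → l.1 ≠ 0
  onmap : ∀ (m : Mir C) (v : Vx Ω) (σ : Ω ≃ₐ[C] Ω), m.On v → m.On (v.map σ)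
  map : ∀ (m : Mir C) (l l' : Ω × Ω) (v : Vx Ω) (σ : Ω ≃ₐ[C] Ω), St m l v l' →
    St m (mp σ l) (v.map σ) (mp σ l')
  det : ∀ (m : Mir C) (l l' l'' : Ω × Ω) (v v' : Vx Ω), St m l v l' → St m l v' l'' →
    v.y = v'.y → v = v' ∧ l' = l''
  fix : ∀ (m : Mir C) (l l' : Ω × Ω) (v : Vx Ω) (σ : Ω ≃ₐ[C] Ω), St m l v l' → σ ∈ FL C l →
    σ v.y = v.y → v.map σ = v ∧ σ ∈ FL C l'
  gen : ∀ (m : Mir C) (l l' : Ω × Ω) (v : Vx Ω), St m l v l' → Gen C l → Gen C l'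
  cur : ∀ (m : Mir C) (l l' : Ω × Ω) (v : Vx Ω), St m l v l' → Cur C l → Cur C l'
  step : ∀ (m : Mir C) (l : Ω × Ω) (y : Ω), Gen C l → y ∈ Pts m l →
    ∃ v l', v.y = y ∧ St m l v l'
  dis : ∀ (m m' : Mir C) (l : Ω × Ω) (y : Ω), Gen C l → y ∈ Pts m l → y ∈ Pts m' l → m = m'
  rf : ∀ (m : Mir C) (ρ ρ' : Ray Ω) (v : Vx Ω), Rf m ρ v ρ' → Gen C ρ.ln → St m ρ.ln v ρ'.ln
  simple : ∀ (m : Mir C) (l l' : Ω × Ω) (v : Vx Ω), St m l v l' →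
    (derivative (sec m.f l)).eval v.y ≠ 0

/-- Curves, conjugation and square classes. -/
structure B3 : Prop where
  curve : ∀ l : Ω × Ω, ¬Gen C l → ¬(Cst C l.1 ∧ Cst C l.2) →
    ∃ π : P2 C, Prime π ∧ ∀ F, ev l F = 0 ↔ π ∣ F
  conj : ∀ l l' : Ω × Ω, (∀ F : P2 C, ev l F = 0 ↔ ev l' F = 0) → ∃ σ : Ω ≃ₐ[C] Ω, mp σ l = l'
  evmap : ∀ (l : Ω × Ω) (σ : Ω ≃ₐ[C] Ω) (F : P2 C), ev (mp σ l) F = σ (ev l F)
  dcl : ∀ (S : Set Ω) (a : Ω), (∀ b, b ∈ H88.cl C S) → Inv (Fx C S) a →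
    a ∈ IntermediateField.adjoin C S
  sqf : ∀ (l : Ω × Ω) (θ : Ω), Gen C l → θ ≠ 0 → Inv (FL C l) θ →
    ∃ (Ψ : P2 C) (u : Ω), Squarefree Ψ ∧ u ≠ 0 ∧ Inv (FL C l) u ∧ θ = ev l Ψ * u ^ 2
  odd : ∀ (l : Ω × Ω) (Ψ Φ : P2 C), Cur C l → Squarefree Ψ → ev l Ψ = 0 → ev l Φ ≠ 0 →
    ∃ Ψ' A : P2 C, Squarefree Ψ' ∧ A ≠ 0 ∧ Ψ * Φ = Ψ' * A ^ 2 ∧ ev l Ψ' = 0

/-- Group theory. -/
structure GRP : Prop where
  mul : ∀ (σ τ : Ω ≃ₐ[C] Ω) (P : Finset Ω), (∀ a ∈ P, σ a ∈ P) → (∀ a ∈ P, τ a ∈ P) →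
    sg (σ * τ) P = sg σ P * sg τ P
  erase : ∀ [DecidableEq Ω] (σ : Ω ≃ₐ[C] Ω) (P : Finset Ω) (y : Ω), σ y = y →
    sg σ (P.erase y) = sg σ P
  one : ∀ (σ : Ω ≃ₐ[C] Ω) (P : Finset Ω), (∀ a ∈ P, σ a = a) → sg σ P = 1
  swap : ∀ (σ : Ω ≃ₐ[C] Ω) (P : Finset Ω) (a b : Ω), a ∈ P → b ∈ P → a ≠ b → σ a = b → σ b = a →
    (∀ c ∈ P, c ≠ a → c ≠ b → σ c = c) → sg σ P = -1
  stab : ∀ [DecidableEq Ω] (H : Subgroup (Ω ≃ₐ[C] Ω)) (P : Finset Ω) (y : Ω), Full H P →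
    y ∈ P → Full (H ⊓ Fx C {y}) (P.erase y)
  small : ∀ (H : Subgroup (Ω ≃ₐ[C] Ω)) (P : Finset Ω), (∀ σ ∈ H, ∀ a ∈ P, σ a ∈ P) → P.card ≤ 1 →
    Full H P
  trans : ∀ (H : Subgroup (Ω ≃ₐ[C] Ω)) (P : Finset Ω) (a b : Ω), Full H P → a ∈ P → b ∈ P →
    ∃ σ ∈ H, σ a = b
  drop : ∀ (H : Subgroup (Ω ≃ₐ[C] Ω)) (P Q : Finset Ω), Full H P → Full H Q →
    (2 ≤ Q.card → ∃ σ ∈ H, sg σ P ≠ sg σ Q) → Full (H ⊓ Fx C P) Q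
  quad : ∀ (H : Subgroup (Ω ≃ₐ[C] Ω)) (Q : Finset Ω) (y u : Ω), Full H Q → y ∈ Q →
    Inv (H ⊓ Fx C {y}) u → Inv H (u ^ 2) → ¬Inv H u →
    Q.card = 2 ∧ ∀ σ ∈ H, σ u = ((sg σ Q : ℤ) : Ω) * u
  full : ∀ (H : Subgroup (Ω ≃ₐ[C] Ω)) (P : Finset Ω), (∀ σ ∈ H, ∀ a ∈ P, σ a ∈ P) →
    (∀ a ∈ P, ∀ b ∈ P, ∀ a' ∈ P, ∀ b' ∈ P, a ≠ b → a' ≠ b' → ∃ σ ∈ H, σ a = a' ∧ σ b = b') →
    (∃ σ ∈ H, ∃ a ∈ P, ∃ b ∈ P, a ≠ b ∧ σ a = b ∧ σ b = a ∧ ∀ c ∈ P, c ≠ a → c ≠ b → σ c = c) →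
    Full H P

/-- Descent of a relation along a Galois extension. -/
def MV : Prop :=
  ∀ (H H' : Subgroup (Ω ≃ₐ[C] Ω)) (P : Finset Ω) (x ψ r : Ω), H' ≤ H → (∀ σ ∈ H, ∀ a ∈ P, σ a ∈ P) →
    (∀ σ ∈ H, ∃ τ ∈ H', ∀ a ∈ P, τ a = σ a) → r ≠ 0 → r ^ 2 = x * ψ → Inv (H ⊓ Fx C P) x →
    Inv H' ψ → Inv (H' ⊓ Fx C P) r → (∀ τ ∈ H', Inv (H ⊓ Fx C P) (τ r / r)) →
    ∃ x' r' : Ω, r' ≠ 0 ∧ r' ^ 2 = x' * ψ ∧ Inv H x' ∧ Inv H' r'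

/-- Existence of places with a nontrivial inertia element. -/
def PLACE : Prop :=
  ∀ (ι : Type) (l k : ι → Ω) (π Ψ : MvPolynomial ι C), AlgebraicIndependent C l →
    (∀ a, a ∈ H88.cl C (Set.range l)) → Prime π →
    (∀ F, MvPolynomial.aeval k F = 0 ↔ π ∣ F) → Squarefree Ψ → π ∣ Ψ →
    ∃ P : Pl C Ω, (∀ i, P.sp (l i) (k i) ∧ P.σ (l i) = l i) ∧
      ∀ r, r ^ 2 = MvPolynomial.aeval l Ψ → P.σ r = -r

/-- Calculus of places. -/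
structure LIFT : Prop where
  inv : ∀ (P : Pl C Ω) (a b : Ω), P.sp a b → b ≠ 0 → P.sp a⁻¹ b⁻¹
  neg : ∀ (P : Pl C Ω) (a b : Ω), P.sp a b → P.sp (-a) (-b)
  ev : ∀ (P : Pl C Ω) (l k : Ω × Ω) (F : P2 C), P.sp l.1 k.1 → P.sp l.2 k.2 →
    P.sp (ev l F) (ev k F)
  unit : ∀ (P : Pl C Ω) (a b r : Ω), P.sp a b → b ≠ 0 → P.σ a = a → r ^ 2 = a → P.σ r = r
  root : ∀ (P : Pl C Ω) (p q : Polynomial Ω) (b : Ω), (∀ i, P.sp (p.coeff i) (q.coeff i)) →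
    q ≠ 0 → q.eval b = 0 → ∃ y, p.eval y = 0 ∧ P.sp y b
  mult : ∀ (P : Pl C Ω) (p q : Polynomial Ω) (b : Ω) (T : Finset Ω),
    (∀ i, P.sp (p.coeff i) (q.coeff i)) → q ≠ 0 → (∀ y ∈ T, p.eval y = 0 ∧ P.sp y b) →
    T.card ≤ q.rootMultiplicity b
  fin : ∀ (P : Pl C Ω) (p q : Polynomial Ω) (y : Ω), (∀ i, P.sp (p.coeff i) (q.coeff i)) →
    q ≠ 0 → q.natDegree = p.natDegree → p.eval y = 0 → ∃ b, q.eval b = 0 ∧ P.sp y b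
  sec : ∀ (P : Pl C Ω) (l k : Ω × Ω) (f : P2 C), P.sp l.1 k.1 → P.sp l.2 k.2 →
    ∀ i, P.sp ((sec f l).coeff i) ((sec f k).coeff i)
  step : ∀ (P : Pl C Ω) (m : Mir C) (l k k' : Ω × Ω) (u : Vx Ω), Gen C l → P.Sp l k →
    St m k u k' → ∃ v l', St m l v l' ∧ P.Sp l' k' ∧ P.sp v.y u.y ∧ P.σ v.y = v.y
  place : ∀ (l k : Ω × Ω) (Ψ : P2 C), Gen C l → Cur C k → Squarefree Ψ → H96A.ev k Ψ = 0 →
    ∃ P : Pl C Ω, P.Sp l k ∧ ∀ r, r ^ 2 = H96A.ev l Ψ → P.σ r = -r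

/-- Double transitivity on the points of a generic line. -/
structure SEC1 : Prop where
  card : ∀ (m : Mir C) (l : Ω × Ω), Gen C l → (Pts m l).card = m.f.totalDegree
  stb : ∀ (m : Mir C) (l : Ω × Ω), ∀ σ ∈ FL C l, ∀ a ∈ Pts m l, σ a ∈ Pts m l
  two : ∀ (m : Mir C) (l : Ω × Ω), Gen C l → ∀ a ∈ Pts m l, ∀ b ∈ Pts m l, ∀ a' ∈ Pts m l,
    ∀ b' ∈ Pts m l, a ≠ b → a' ≠ b' → ∃ σ ∈ FL C l, σ a = a' ∧ σ b = b'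

/-- The generic tangent line. -/
structure TAN : Prop where
  deg : ∀ (m m' : Mir C) (v : Vx Ω), m'.On v → (sec m.f v.tl).natDegree = m.f.totalDegree
  oth : ∀ (m m' : Mir C) (v : Vx Ω), m'.On v → ∀ y ∈ Pts m v.tl, m ≠ m' ∨ y ≠ v.y →
    (sec m.f v.tl).rootMultiplicity y = 1
  own : ∀ (m : Mir C) (v : Vx Ω), m.On v → (sec m.f v.tl).rootMultiplicity v.y = 2
  two : ∀ (m : Mir C) (v : Vx Ω) (π : P2 C), m.On v → Prime π → ev v.tl π = 0 →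
    (pen π v).rootMultiplicity v.w = 2

/-- The Galois group of a section and its sign. -/
structure SEC : Prop where
  full : ∀ (m : Mir C) (l : Ω × Ω), Gen C l → Full (FL C l) (Pts m l)
  dsc : ∀ (m : Mir C) (l : Ω × Ω), Gen C l → ∃ Δ, Dsc m l Δ

/-- Parity along a path of curves. -/
def PAR : Prop :=
  ∀ (m : ℤ → Mir C) (L K : ℤ → Ω × Ω) (v u : ℤ → Vx Ω) (a j b : ℤ) (Ψ Φ Φ' : P2 C) (r : Ω),
    a ≤ j → j ≤ b → Chn m L v a b → Gen C (L a) → (∀ i, a ≤ i → i < b → FR m L v a i) →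
    Chn m K u a b → Cur C (K a) → Squarefree Ψ → ev (K a) Ψ = 0 → ev (K j) Φ ≠ 0 →
    ev (K b) Φ' ≠ 0 → r ^ 2 = ev (L a) Ψ * ev (L j) Φ * ev (L b) Φ' → ¬Inv (Hg C L v a b) r

/-- Only conics have an invariant curve of lines. -/
def INV : Prop :=
  ∀ (m : Mir C) (v : Vx Ω) (F : P2 C) (k l0 : Ω × Ω), Gen C l0 → m.On v → F ≠ 0 → Cur C k →
    ev k F = 0 → (∀ l l', St m l v l' → ev l F = 0 → ev l' F = 0) → m.Con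

/-- Geodesics in the graph of curves. -/
def GEO : Prop :=
  ∀ (m : Mir C) (n : ℕ) (F : P2 C) (k l0 : Ω × Ω), Gen C l0 → ¬m.Con → 0 < n → F ≠ 0 → Cur C k →
    ev k F = 0 → ∃ (K : ℤ → Ω × Ω) (u : ℤ → Vx Ω), Chn (fun _ => m) K u 0 n ∧ Cur C (K 0) ∧
      ev (K 0) F = 0 ∧ ev (K n) F ≠ 0

/-- No relation over a run of one curve that is not a conic. -/
def BR : Prop :=
  ∀ (m : ℤ → Mir C) (L : ℤ → Ω × Ω) (v : ℤ → Vx Ω) (b e : ℤ) (x r : Ω) (Ψ : P2 C) (k : Ω × Ω),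
    Chn m L v b e → Gen C (L b) → Run m b b e → (∀ i, b ≤ i → i < e → FR m L v b i) →
    (∀ i, b < i → i ≤ e → FF m L v i e) → Rel L v b b e x r Ψ k → (m (e - 1)).Con

/-- No relation at the end of a chain whose last mirror is not a conic. -/
def RUN : Prop :=
  ∀ (m : ℤ → Mir C) (L : ℤ → Ω × Ω) (v : ℤ → Vx Ω) (a b e : ℤ) (x r : Ω) (Ψ : P2 C) (k : Ω × Ω),
    Chn m L v a e → Gen C (L a) → Run m a b e →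
    (∀ i j, a ≤ i → i ≤ j → j < e → FR m L v i j) → (∀ i j, a < i → i ≤ j → j ≤ e → FF m L v i j) →
    (∀ i j, a < i → i ≤ j → j < e → NL m L v i j) → Rel L v a b e x r Ψ k → (m (e - 1)).Con

/-- Conics. -/
structure CO1 : Prop where
  sq : ∀ (m : Mir C) (v : Vx Ω) (l : Ω × Ω), m.Con → m.On v → Inc v l → ev l (dq m.f) =
    (ev v.p (MvPolynomial.pderiv 0 m.f) * l.1 + ev v.p (MvPolynomial.pderiv 1 m.f)) ^ 2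
  inv : ∀ (m m' : Mir C) (v : Vx Ω) (l l' : Ω × Ω), Conf m m' → St m l v l' →
    ev l' (dq m'.f) * l.1 = ev l (dq m'.f) * l'.1
  deg : ∀ f : P2 C, (dq f).totalDegree ≤ 2
  refl : ∀ m : Mir C, m.Con → Conf m m
  symm : ∀ m m' : Mir C, Conf m m' → Conf m' m
  trans : ∀ m m' m'' : Mir C, Conf m m' → Conf m' m'' → Conf m m''
  two : ∀ (m : Mir C) (l : Ω × Ω), m.Con → (Pts m l).card ≤ 2
  flip : ∀ (m : Mir C) (v : Vx Ω) (l l' : Ω × Ω), m.Con → St m l v l' → ∃ e : Ω, e ≠ 0 ∧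
    e ^ 2 = ev l (dq m.f) ∧ ∀ σ ∈ FL C l, (σ v.y = v.y → σ e = e) ∧ (σ v.y ≠ v.y → σ e = -e)
  pts : ∀ (m : Mir C) (k : Ω × Ω), m.Con → Dg C 2 k → ¬Lev m k →
    ∃ v v' : Vx Ω, m.On v ∧ m.On v' ∧ Inc v k ∧ Inc v' k ∧ v.y ≠ v'.y
  huge : ∀ (m : Mir C) (k : Ω × Ω), m.Con → Dg C 3 k → ¬Lev m k

/-- Dual conics. -/
structure CO2 : Prop where
  dsc : ∀ (m : Mir C) (l : Ω × Ω), m.Con → Gen C l → Dsc m l (dq m.f)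
  fam : ∀ (m m' : Mir C) (v : Vx Ω), m.Con → m'.On v → Lev m v.tl → Conf m m'

/-- Places of a function field in one variable. -/
def HK : Prop :=
  ∀ (S : Set Ω) (t : Ω), S.Finite → t ∈ IntermediateField.adjoin C S → ¬Cst C t →
    (∀ a ∈ S, a ∈ H88.cl C {t}) → ∃ (ι : Type) (o : ι → Ω → ℤ),
      (∀ i, ∀ a ∈ IntermediateField.adjoin C S, ∀ b ∈ IntermediateField.adjoin C S, a ≠ 0 → b ≠ 0 →
        o i (a * b) = o i a + o i b ∧ (a + b ≠ 0 → min (o i a) (o i b) ≤ o i (a + b))) ∧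
      (∀ i (k : C), o i (algebraMap C Ω k) = 0) ∧
      ∀ a ∈ IntermediateField.adjoin C S, {i | o i a ≠ 0}.Finite ∧
        (ht (IntermediateField.adjoin C S) a : ℤ) = ∑ᶠ i, max (-o i a) 0

/-- Convexity of heights along an orbit. -/
def HT : Prop :=
  ∀ (w : Fin 4 → C) (S : Set Ω) (Λ a b : Ω), Wok w → S.Finite → (∀ s ∈ S, s ∈ H88.cl C {Λ}) →
    Λ ∈ IntermediateField.adjoin C S → a ∈ IntermediateField.adjoin C S →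
    b ∈ IntermediateField.adjoin C S → ¬Cst C Λ → ¬Cst C a → ¬Cst C b →
    ht (IntermediateField.adjoin C S) a ≤ ht (IntermediateField.adjoin C S) b →
    (a - b) ^ 2 = Λ * Wf w a b → ∃ u : ℕ → Ω, u 0 = a ∧ u 1 = b ∧
      (∀ j, ¬Cst C (u j) ∧ Qr w Λ (u j) (u (j + 1)) (u (j + 2)) ∧
        ht (IntermediateField.adjoin C S) (u j) ≤ ht (IntermediateField.adjoin C S) (u (j + 1)) ∧
        2 ≤ ht (IntermediateField.adjoin C S) (u (j + 2))) ∧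
      ∀ N, ∃ j, N < ht (IntermediateField.adjoin C S) (u j)

/-- Parametrization of conics. -/
def PARAM : Prop :=
  ∀ m : Mir C, m.Con → ∃ (w : Fin 4 → C) (k : C) (τ : P2 C), Wok w ∧ k ≠ 0 ∧
    (∀ t : Ω, ¬Cst C t → ∃ v : Vx Ω, m.On v ∧ ev v.p τ = t) ∧
    (∀ v : Vx Ω, m.On v → ¬Cst C (ev v.p τ) ∧ Wf w (ev v.p τ) (ev v.p τ) ≠ 0 ∧
      v.x ∈ IntermediateField.adjoin C {ev v.p τ} ∧ v.y ∈ IntermediateField.adjoin C {ev v.p τ}) ∧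
    (∀ v v' : Vx Ω, m.On v → m.On v' → ev v.p τ = ev v'.p τ → v = v') ∧
    (∀ v v' : Vx Ω, m.On v → m.On v' → v ≠ v' → Wf w (ev v.p τ) (ev v'.p τ) ≠ 0 →
      v.x ≠ v'.x ∧ v.y ≠ v'.y) ∧
    (∀ (v v' : Vx Ω) (l : Ω × Ω), m.On v → m.On v' → v ≠ v' → Inc v l → Inc v' l →
      ev l (dq m.f) * Wf w (ev v.p τ) (ev v'.p τ) =
        algebraMap C Ω k * l.1 * (ev v.p τ - ev v'.p τ) ^ 2) ∧
    ∀ (v v' v'' : Vx Ω) (l l' : Ω × Ω) (Λ : Ω), m.On v → m.On v' → m.On v'' → v ≠ v' → v' ≠ v'' →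
      Inc v l → Inc v' l → Inc v' l' → Inc v'' l' → Qr w Λ (ev v.p τ) (ev v'.p τ) (ev v''.p τ) →
      l.1 * l'.1 = v'.w ^ 2

/-- The orbit of a curve of lines that is not a level of the integral. -/
def ORB : Prop :=
  ∀ (m : Mir C) (n : ℕ) (Ψ : P2 C) (k : Ω × Ω), m.Con → 0 < n → Ψ ≠ 0 → Cur C k → Dg C 2 k →
    ¬Lev m k → ev k Ψ = 0 → ∃ (K : ℤ → Ω × Ω) (u : ℤ → Vx Ω),
      Chn (fun _ => m) K u 0 (2 * n) ∧ Cur C (K 0) ∧ ev (K 0) Ψ = 0 ∧ ev (K (2 * n)) Ψ ≠ 0 ∧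
        Cur C (K n) ∧ Dg C 3 (K n)

/-- Relations at the end of a chain whose last mirror is a conic. -/
def CON : Prop :=
  ∀ (m : ℤ → Mir C) (L : ℤ → Ω × Ω) (v : ℤ → Vx Ω) (a b e : ℤ) (x r : Ω) (Ψ : P2 C) (k : Ω × Ω),
    Chn m L v a e → Gen C (L a) → Run m a b e → FR m L v a b → G1 C L v a b →
    Rel L v a b e x r Ψ k → (m (e - 1)).Con → Dg C 2 k → Lev (m (e - 1)) k

/-- The signs at both ends of a reduced chain are independent. -/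
def LINK : Prop :=
  ∀ (m : ℤ → Mir C) (L : ℤ → Ω × Ω) (v : ℤ → Vx Ω) (a b : ℤ), a ≤ b → Chn m L v a b →
    Gen C (L a) → Red m (a - 1) (b + 1) → (∀ j, a < j → j ≤ b → G2 m L v a j) → NL m L v a b

/-- The inductive step for freeness. -/
def FREE : Prop :=
  ∀ (m : ℤ → Mir C) (L : ℤ → Ω × Ω) (v : ℤ → Vx Ω) (a b : ℤ), a < b → Chn m L v a b →
    Gen C (L a) → FF m L v (a + 1) b → FR m L v (a + 1) b → NL m L v (a + 1) b → FR m L v a b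

/-- A reduced chain does not close up. -/
def FIN : Prop :=
  ∀ (m : ℤ → Mir C) (L : ℤ → Ω × Ω) (v : ℤ → Vx Ω) (a e : ℤ), a < e → Chn m L v a e →
    Gen C (L a) → Red m a e → ¬FL C (L a) ≤ FL C (L e)

/-- Reflections in confocal conics commute. -/
def SWAP : Prop :=
  ∀ (m m' : Mir C) (ρ0 ρ1 ρ2 : Ray Ω) (v v' : Vx Ω), Conf m m' → m ≠ m' → Gen C ρ0.ln →
    Rf m ρ0 v ρ1 → Rf m' ρ1 v' ρ2 → ∃ u ρ u', Rf m' ρ0 u ρ ∧ Rf m ρ u' ρ2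

/-- Normal form. -/
def NORM : Prop :=
  ∀ ρ ρ' : Ray Ω, Gen C ρ.ln → Pth C ρ ρ' → ρ' = ρ ∨
    ∃ (m : ℤ → Mir C) (L : ℤ → Ω × Ω) (v : ℤ → Vx Ω) (n : ℤ), 0 < n ∧ Chn m L v 0 n ∧
      Red m 0 n ∧ L 0 = ρ.ln ∧ L n = ρ'.ln

/-- A path whose last line is rational in the first line is trivial. -/
def ZERO : Prop :=
  ∀ ρ ρ' : Ray Ω, Gen C ρ.ln → Pth C ρ ρ' →
    ρ'.ln.1 ∈ IntermediateField.adjoin C {ρ.ln.1, ρ.ln.2} →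
    ρ'.ln.2 ∈ IntermediateField.adjoin C {ρ.ln.1, ρ.ln.2} → ρ' = ρ

/-- The statement holds for all algebraically closed fields of characteristic zero. -/
def All (p : ∀ (C Ω : Type) [Field C] [Field Ω] [Algebra C Ω], Prop) : Prop :=
  ∀ (C Ω : Type) [Field C] [IsAlgClosed C] [Field Ω] [CharZero Ω] [IsAlgClosed Ω] [Algebra C Ω],
    p C Ω

/-- Reduction to transcendence degree two. -/
def DOWN : Prop := (All fun C Ω _ _ _ => Sf C Ω → ZERO C Ω) → All ZERO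

/-- From rays to twisted periodic families. -/
def CONV : Prop := All ZERO → H96.StmtA H9.Sy

end Pool.Agent.MP_249f74_an.H96A
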